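import Pool.Agent.Lib.MP_fbfa44_gt.IX.Geo

set_option autoImplicit false

/-!
# Row AEX: existence and uniqueness of the area measure
-/

namespace MPfbfa44

open MeasureTheory Set
open scoped Manifold ContDiff ENNReal Topology

namespace Aex

section glue

variable {M E : Type} [TopologicalSpace M] [MeasurableSpace M] [BorelSpace M]
  [TopologicalSpace E] [MeasurableSpace E] [BorelSpace E]

/-- The measure with density `D` in the chart `e`, transported to the manifold. -/
noncomputable def tr (lam : Measure E) (e : OpenPartialHomeomorph M E) (D : E → ℝ≥0∞) :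
    Measure M :=
  ((lam.withDensity D).restrict e.target).map e.symm

theorem tr_apply (lam : Measure E) (e : OpenPartialHomeomorph M E) (D : E → ℝ≥0∞) {s : Set M}
    (hs : MeasurableSet s) (h : s ⊆ e.source) :
    tr lam e D s = ∫⁻ y in e '' s, D y ∂lam := by
  have h1 : AEMeasurable e.symm ((lam.withDensity D).restrict e.target) :=
    e.continuousOn_symm.aemeasurable e.open_target.measurableSet
  have h2 : e.symm ⁻¹' s ∩ e.target = e '' s := by
    ext y
    constructor
    · rintro ⟨hy, hyt⟩
      exact ⟨e.symm y, hy, e.right_inv hyt⟩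
    · rintro ⟨p, hp, rfl⟩
      refine ⟨?_, e.map_source (h hp)⟩
      change e.symm (e p) ∈ s
      rwa [e.left_inv (h hp)]
  have h3 : MeasurableSet (e '' s) := by
    rw [← h2, inter_comm]
    exact (measurable_restrict_iff' e hs)
  rw [tr, Measure.map_apply_of_aemeasurable h1 hs,
    Measure.restrict_apply' e.open_target.measurableSet, h2, withDensity_apply _ h3]
where
  measurable_restrict_iff' (e : OpenPartialHomeomorph M E) {s : Set M} (hs : MeasurableSet s) :
      MeasurableSet (e.target ∩ e.symm ⁻¹' s) := by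
    have h1 : Measurable (e.target.domRestrict e.symm) :=
      (continuousOn_iff_continuous_domRestrict.1 e.continuousOn_symm).measurable
    have h2 := h1 hs
    have h3 : e.target ∩ e.symm ⁻¹' s = Subtype.val '' (e.target.domRestrict e.symm ⁻¹' s) := by
      ext y
      constructor
      · rintro ⟨hy, hys⟩
        exact ⟨⟨y, hy⟩, hys, rfl⟩
      · rintro ⟨⟨y, hy⟩, hys, rfl⟩
        exact ⟨hy, hys⟩
    rw [h3]
    exact (MeasurableEmbedding.subtype_coe e.open_target.measurableSet).measurableSet_image.2 h2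

theorem glue [CompactSpace M] (lam : Measure E) (c : M → OpenPartialHomeomorph M E)
    (hc : ∀ p, p ∈ (c p).source) (D : M → E → ℝ≥0∞)
    (hcomp : ∀ p q (s : Set M), MeasurableSet s → s ⊆ (c p).source → s ⊆ (c q).source →
      ∫⁻ y in c p '' s, D p y ∂lam = ∫⁻ y in c q '' s, D q y ∂lam) :
    ∃! μ : Measure M, ∀ p (s : Set M), MeasurableSet s → s ⊆ (c p).source →
      μ s = ∫⁻ y in c p '' s, D p y ∂lam := by
  classical
  obtain ⟨t, -, ht⟩ := isCompact_univ.elim_nhds_subcover (fun p => (c p).source)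
    (fun p _ => (c p).open_source.mem_nhds (hc p))
  rcases isEmpty_or_nonempty M with hM | ⟨⟨p0⟩⟩
  · refine ⟨0, fun p => (hM.false p).elim, fun μ _ => ?_⟩
    ext s hs
    rw [Set.eq_empty_of_isEmpty s]
    simp
  obtain ⟨e, he⟩ : ∃ e : ℕ → M, (⋃ n, (c (e n)).source) = univ := by
    obtain ⟨q, hq, -⟩ := mem_iUnion₂.1 (ht (mem_univ p0))
    obtain ⟨e, he⟩ := (t.countable_toSet).exists_eq_range ⟨q, hq⟩
    refine ⟨e, eq_univ_of_forall fun x => ?_⟩
    obtain ⟨q', hq', hx⟩ := mem_iUnion₂.1 (ht (mem_univ x))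
    have h1 : q' ∈ (t : Set M) := hq'
    rw [he] at h1
    obtain ⟨n, rfl⟩ := h1
    exact mem_iUnion.2 ⟨n, hx⟩
  obtain ⟨T, hT⟩ : ∃ T : ℕ → Set M, T = disjointed (fun n => (c (e n)).source) := ⟨_, rfl⟩
  have hTd : Pairwise (Function.onFun Disjoint T) := by
    rw [hT]
    exact disjoint_disjointed _
  have hTm : ∀ n, MeasurableSet (T n) := by
    rw [hT]
    exact MeasurableSet.disjointed fun n => (c (e n)).open_source.measurableSet
  have hTs : ∀ n, T n ⊆ (c (e n)).source := by
    rw [hT]
    exact fun n => disjointed_subset _ n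
  have hTU : (⋃ n, T n) = univ := by
    rw [hT, iUnion_disjointed, he]
  have split : ∀ (μ : Measure M) (s : Set M), MeasurableSet s →
      μ s = ∑' n, μ (s ∩ T n) := by
    intro μ s hs
    conv_lhs => rw [← inter_univ s, ← hTU, inter_iUnion]
    exact measure_iUnion (fun i j hij => (hTd hij).mono inter_subset_right inter_subset_right)
      (fun n => hs.inter (hTm n))
  refine ⟨Measure.sum fun n => (tr lam (c (e n)) (D (e n))).restrict (T n), ?_, ?_⟩
  · intro p s hs hsp
    have h1 : (Measure.sum fun n => (tr lam (c (e n)) (D (e n))).restrict (T n)) s =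
        ∑' n, tr lam (c (e n)) (D (e n)) (s ∩ T n) := by
      rw [Measure.sum_apply _ hs]
      refine tsum_congr fun n => ?_
      rw [Measure.restrict_apply hs]
    have h2 : ∀ n, tr lam (c (e n)) (D (e n)) (s ∩ T n) = tr lam (c p) (D p) (s ∩ T n) := by
      intro n
      rw [tr_apply lam (c (e n)) (D (e n)) (hs.inter (hTm n)) (inter_subset_right.trans (hTs n)),
        tr_apply lam (c p) (D p) (hs.inter (hTm n)) (inter_subset_left.trans hsp)]
      exact hcomp _ _ _ (hs.inter (hTm n)) (inter_subset_right.trans (hTs n))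
        (inter_subset_left.trans hsp)
    rw [h1, tsum_congr h2, ← split _ s hs, tr_apply lam (c p) (D p) hs hsp]
  · intro μ hμ
    refine Measure.ext fun s hs => ?_
    rw [split μ s hs, Measure.sum_apply _ hs]
    refine tsum_congr fun n => ?_
    rw [Measure.restrict_apply hs, tr_apply lam (c (e n)) (D (e n)) (hs.inter (hTm n))
      (inter_subset_right.trans (hTs n))]
    exact hμ (e n) _ (hs.inter (hTm n)) (inter_subset_right.trans (hTs n))

end glue

/-- The determinant of a Gram matrix under a linear substitution. -/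
theorem det_gram {m : ℕ} {W : Type} [NormedAddCommGroup W] [InnerProductSpace ℝ W]
    (T : X m →L[ℝ] W) (L : X m →L[ℝ] X m) :
    (Matrix.of fun i j => (inner ℝ (T (L (cv i))) (T (L (cv j))) : ℝ)).det =
      L.det ^ 2 * (Matrix.of fun i j => (inner ℝ (T (cv i)) (T (cv j)) : ℝ)).det := by
  obtain ⟨A, hA⟩ : ∃ A : Matrix (Fin m) (Fin m) ℝ, A = Matrix.of fun k i => (L (cv i)) k :=
    ⟨_, rfl⟩
  have h1 : ∀ i, L (cv i) = ∑ k, A k i • cv k := by
    intro i
    ext l
    rw [hA]
    simp [cv, Finset.sum_apply, Matrix.of_apply, Pi.single_apply]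
  have h2 : (Matrix.of fun i j => (inner ℝ (T (L (cv i))) (T (L (cv j))) : ℝ)) =
      A.transpose * (Matrix.of fun i j => (inner ℝ (T (cv i)) (T (cv j)) : ℝ)) * A := by
    ext i j
    rw [Matrix.of_apply, Matrix.mul_apply, h1 i, h1 j, map_sum, map_sum, inner_sum]
    refine Finset.sum_congr rfl fun l _ => ?_
    rw [Matrix.mul_apply, sum_inner, Finset.sum_mul]
    refine Finset.sum_congr rfl fun k _ => ?_
    rw [map_smul, map_smul, inner_smul_left, inner_smul_right, Matrix.transpose_apply,
      Matrix.of_apply]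
    simp only [conj_trivial]
    ring
  have h3 : A.det = L.det := by
    have h4 : A = LinearMap.toMatrix (EuclideanSpace.basisFun (Fin m) ℝ).toBasis
        (EuclideanSpace.basisFun (Fin m) ℝ).toBasis (L : X m →ₗ[ℝ] X m) := by
      ext k i
      rw [hA, LinearMap.toMatrix_apply]
      simp [cv]
    rw [h4, LinearMap.det_toMatrix]
  rw [h2, Matrix.det_mul, Matrix.det_mul, Matrix.det_transpose, h3]
  ring

section charts

variable {m : ℕ} {M : Type} [TopologicalSpace M] [ChartedSpace (X m) M] [IsManifold (𝓡 m) ∞ M]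

/-- The domain of the transition map. -/
def Om (m : ℕ) {M : Type} [TopologicalSpace M] [ChartedSpace (X m) M] (p q : M) : Set (X m) :=
  (chartAt (X m) p).target ∩ (chartAt (X m) p).symm ⁻¹' (chartAt (X m) q).source

omit [IsManifold (𝓡 m) ∞ M] in
theorem om_open (p q : M) : IsOpen (Om m p q) :=
  (chartAt (X m) p).symm.isOpen_inter_preimage (chartAt (X m) q).open_source

theorem trans_contDiffOn (p q : M) :
    ContDiffOn ℝ ∞ (fun y => chartAt (X m) q ((chartAt (X m) p).symm y)) (Om m p q) := by
  have h1 : ContMDiffOn (𝓡 m) (𝓡 m) ∞ (chartAt (X m) q) (chartAt (X m) q).source :=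
    contMDiffOn_chart
  have h2 : ContMDiffOn (𝓡 m) (𝓡 m) ∞ (chartAt (X m) p).symm (chartAt (X m) p).target :=
    contMDiffOn_chart_symm
  have h3 := h1.comp (h2.mono (inter_subset_left (s := (chartAt (X m) p).target)
    (t := (chartAt (X m) p).symm ⁻¹' (chartAt (X m) q).source))) inter_subset_right
  exact contMDiffOn_iff_contDiffOn.1 h3

theorem comp_contDiffOn (S : Hypersurface m M) (q : M) :
    ContDiffOn ℝ ∞ (S.x ∘ (chartAt (X m) q).symm) (chartAt (X m) q).target := by
  have h2 : ContMDiffOn (𝓡 m) (𝓡 m) ∞ (chartAt (X m) q).symm (chartAt (X m) q).target :=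
    contMDiffOn_chart_symm
  have h3 : ContMDiffOn (𝓡 m) 𝓘(ℝ, X (m + 2)) ∞ S.x univ := S.smooth_x.contMDiffOn
  have h4 := h3.comp h2 (fun _ _ => mem_univ _)
  exact contMDiffOn_iff_contDiffOn.1 h4

theorem fderiv_trans (S : Hypersurface m M) (p q : M) {y : X m} (hy : y ∈ Om m p q) :
    fderiv ℝ (S.x ∘ (chartAt (X m) p).symm) y =
      (fderiv ℝ (S.x ∘ (chartAt (X m) q).symm)
        (chartAt (X m) q ((chartAt (X m) p).symm y))).comp
          (fderiv ℝ (fun y => chartAt (X m) q ((chartAt (X m) p).symm y)) y) := by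
  have h1 : (S.x ∘ (chartAt (X m) p).symm) =ᶠ[𝓝 y]
      ((S.x ∘ (chartAt (X m) q).symm) ∘ fun y => chartAt (X m) q ((chartAt (X m) p).symm y)) := by
    filter_upwards [(om_open p q).mem_nhds hy] with z hz
    simp only [Function.comp_apply]
    rw [(chartAt (X m) q).left_inv hz.2]
  rw [h1.fderiv_eq]
  refine fderiv_comp y ?_ ?_
  · have h2 : chartAt (X m) q ((chartAt (X m) p).symm y) ∈ (chartAt (X m) q).target :=
      (chartAt (X m) q).map_source hy.2
    exact ((comp_contDiffOn S q).contDiffAt
      ((chartAt (X m) q).open_target.mem_nhds h2)).differentiableAt (by simp)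
  · exact ((trans_contDiffOn p q).contDiffAt ((om_open p q).mem_nhds hy)).differentiableAt
      (by simp)

theorem dens_trans (S : Hypersurface m M) (p q : M) {y : X m} (hy : y ∈ Om m p q) :
    ENNReal.ofReal (Real.sqrt (S.gramChart p y).det) =
      ENNReal.ofReal |(fderiv ℝ (fun y => chartAt (X m) q ((chartAt (X m) p).symm y)) y).det| *
        ENNReal.ofReal (Real.sqrt
          (S.gramChart q (chartAt (X m) q ((chartAt (X m) p).symm y))).det) := by
  rw [← ENNReal.ofReal_mul (abs_nonneg _)]
  congr 1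
  have h1 : (S.gramChart p y).det =
      (fderiv ℝ (fun y => chartAt (X m) q ((chartAt (X m) p).symm y)) y).det ^ 2 *
        (S.gramChart q (chartAt (X m) q ((chartAt (X m) p).symm y))).det := by
    have h2 := det_gram (fderiv ℝ (S.x ∘ (chartAt (X m) q).symm)
      (chartAt (X m) q ((chartAt (X m) p).symm y)))
      (fderiv ℝ (fun y => chartAt (X m) q ((chartAt (X m) p).symm y)) y)
    unfold Hypersurface.gramChart
    rw [fderiv_trans S p q hy]
    exact h2
  rw [h1, Real.sqrt_mul (sq_nonneg _), Real.sqrt_sq_eq_abs]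

theorem compat [MeasurableSpace M] [BorelSpace M] (S : Hypersurface m M) (p q : M) (s : Set M)
    (hs : MeasurableSet s) (hp : s ⊆ (chartAt (X m) p).source)
    (hq : s ⊆ (chartAt (X m) q).source) :
    ∫⁻ y in chartAt (X m) p '' s, ENNReal.ofReal (Real.sqrt (S.gramChart p y).det) =
      ∫⁻ y in chartAt (X m) q '' s, ENNReal.ofReal (Real.sqrt (S.gramChart q y).det) := by
  obtain ⟨φ, hφ⟩ : ∃ φ : X m → X m,
      φ = fun y => chartAt (X m) q ((chartAt (X m) p).symm y) := ⟨_, rfl⟩
  have hval : ∀ x ∈ s, φ (chartAt (X m) p x) = chartAt (X m) q x := by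
    intro x hx
    rw [hφ]
    change chartAt (X m) q ((chartAt (X m) p).symm (chartAt (X m) p x)) = _
    rw [(chartAt (X m) p).left_inv (hp hx)]
  have h1 : chartAt (X m) q '' s = φ '' (chartAt (X m) p '' s) := by
    ext y
    constructor
    · rintro ⟨x, hx, rfl⟩
      exact ⟨_, ⟨x, hx, rfl⟩, hval x hx⟩
    · rintro ⟨_, ⟨x, hx, rfl⟩, rfl⟩
      exact ⟨x, hx, (hval x hx).symm⟩
  have hsub : chartAt (X m) p '' s ⊆ Om m p q := by
    rintro _ ⟨x, hx, rfl⟩
    refine ⟨(chartAt (X m) p).map_source (hp hx), ?_⟩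
    change (chartAt (X m) p).symm (chartAt (X m) p x) ∈ (chartAt (X m) q).source
    rw [(chartAt (X m) p).left_inv (hp hx)]
    exact hq hx
  have hmeas : MeasurableSet (chartAt (X m) p '' s) := by
    have h2 : (chartAt (X m) p).target ∩ (chartAt (X m) p).symm ⁻¹' s = chartAt (X m) p '' s := by
      ext y
      constructor
      · rintro ⟨hyt, hy⟩
        exact ⟨(chartAt (X m) p).symm y, hy, (chartAt (X m) p).right_inv hyt⟩
      · rintro ⟨x, hx, rfl⟩
        refine ⟨(chartAt (X m) p).map_source (hp hx), ?_⟩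
        change (chartAt (X m) p).symm (chartAt (X m) p x) ∈ s
        rwa [(chartAt (X m) p).left_inv (hp hx)]
    rw [← h2]
    exact tr_apply.measurable_restrict_iff' _ hs
  have hinj : InjOn φ (chartAt (X m) p '' s) := by
    rintro _ ⟨x, hx, rfl⟩ _ ⟨x', hx', rfl⟩ h
    rw [hval x hx, hval x' hx'] at h
    rw [(chartAt (X m) q).injOn (hq hx) (hq hx') h]
  have hder : ∀ y ∈ chartAt (X m) p '' s,
      HasFDerivWithinAt φ (fderiv ℝ φ y) (chartAt (X m) p '' s) y := by
    intro y hy
    have h2 := ((trans_contDiffOn p q).contDiffAt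
      ((om_open p q).mem_nhds (hsub hy))).differentiableAt (by simp)
    rw [hφ]
    exact h2.hasFDerivAt.hasFDerivWithinAt
  rw [h1, lintegral_image_eq_lintegral_abs_det_fderiv_mul volume hmeas hder hinj]
  refine setLIntegral_congr_fun hmeas fun y hy => ?_
  rw [hφ]
  exact dens_trans S p q (hsub hy)

end charts

end Aex

theorem aex_proof : AexStatement := by
  intro m M _ _ _ _ _ _ _ S
  exact Aex.glue volume (fun p => chartAt (X m) p) (fun p => mem_chart_source (X m) p)
    (fun p y => ENNReal.ofReal (Real.sqrt (S.gramChart p y).det)) (Aex.compat S)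

end MPfbfa44
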