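import Pool.Agent.Lib.MP_fbfa44_gt.IX.Geo

set_option autoImplicit false

/-!
# Row AFP: the area measure is finite and positive on nonempty open sets
-/

namespace MPfbfa44

open MeasureTheory
open scoped Manifold ContDiff

namespace Afp

variable {m : ℕ} {M : Type} [TopologicalSpace M] [ChartedSpace (X m) M] [IsManifold (𝓡 m) ∞ M]
  (S : Hypersurface m M)

/-- the immersion in the chart at `p₀` -/
noncomputable def F (p₀ : M) : X m → X (m + 2) := S.x ∘ (chartAt (X m) p₀).symm

theorem F_smooth (p₀ : M) : ContDiffOn ℝ ∞ (F S p₀) (chartAt (X m) p₀).target := by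
  have h1 : ContMDiffOn (𝓡 m) 𝓘(ℝ, X (m + 2)) ∞ (F S p₀) (chartAt (X m) p₀).target := by
    have h2 : ContMDiffOn (𝓡 m) (𝓡 m) ∞ (chartAt (X m) p₀).symm (chartAt (X m) p₀).target :=
      contMDiffOn_chart_symm
    have h3 : ContMDiff (𝓡 m) 𝓘(ℝ, X (m + 2)) ∞ S.x := S.smooth_x
    exact h3.comp_contMDiffOn h2
  exact contMDiffOn_iff_contDiffOn.1 h1

theorem F_inj (p₀ : M) (y : X m) (hy : y ∈ (chartAt (X m) p₀).target) :
    Function.Injective (fderiv ℝ (F S p₀) y) := by
  set e := chartAt (X m) p₀ with he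
  have hm : e.MDifferentiable (𝓡 m) (𝓡 m) := mdifferentiable_chart p₀
  have hs : y ∈ e.symm.source := hy
  have h1 : MDifferentiableAt (𝓡 m) (𝓡 m) e.symm y :=
    (hm.symm.mdifferentiableAt hs)
  have h2 : MDifferentiableAt (𝓡 m) 𝓘(ℝ, X (m + 2)) S.x (e.symm y) := by
    have h3 : ContMDiff (𝓡 m) 𝓘(ℝ, X (m + 2)) ∞ S.x := S.smooth_x
    exact (h3 _).mdifferentiableAt (by simp)
  have h3 : mfderiv (𝓡 m) 𝓘(ℝ, X (m + 2)) (S.x ∘ e.symm) y =
      (mfderiv (𝓡 m) 𝓘(ℝ, X (m + 2)) S.x (e.symm y)).comp (mfderiv (𝓡 m) (𝓡 m) e.symm y) :=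
    mfderiv_comp y h2 h1
  have h4 : mfderiv (𝓡 m) 𝓘(ℝ, X (m + 2)) (S.x ∘ e.symm) y = fderiv ℝ (F S p₀) y :=
    mfderiv_eq_fderiv
  rw [← h4, h3]
  have h5 : Function.Injective (mfderiv (𝓡 m) (𝓡 m) e.symm y) :=
    (hm.symm.mfderiv_bijective hs).1
  exact (S.immersion (e.symm y)).comp h5

theorem det_pos (p₀ : M) (y : X m) (hy : y ∈ (chartAt (X m) p₀).target) :
    0 < (S.gramChart p₀ y).det := by
  have h1 : LinearIndependent ℝ (fun i : Fin m => fderiv ℝ (F S p₀) y (cv i)) := by
    have h2 : LinearIndependent ℝ (fun i : Fin m => (cv i : X m)) := by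
      have h3 := (EuclideanSpace.basisFun (Fin m) ℝ).toBasis.linearIndependent
      have h4 : (fun i : Fin m => (cv i : X m)) =
          (EuclideanSpace.basisFun (Fin m) ℝ).toBasis := by
        funext i
        simp [cv]
      rw [h4]
      exact h3
    exact h2.map' (fderiv ℝ (F S p₀) y).toLinearMap
      (LinearMap.ker_eq_bot.2 (F_inj S p₀ y hy))
  have h5 := (Matrix.posDef_gram_of_linearIndependent h1).det_pos
  exact h5

theorem cont (p₀ : M) : ContinuousOn (fun y => Real.sqrt (S.gramChart p₀ y).det)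
    (chartAt (X m) p₀).target := by
  have h1 : ContinuousOn (fderiv ℝ (F S p₀)) (chartAt (X m) p₀).target :=
    (F_smooth S p₀).continuousOn_fderiv_of_isOpen (chartAt (X m) p₀).open_target (by simp)
  refine Real.continuous_sqrt.comp_continuousOn ?_
  have h2 : ContinuousOn (fun y => S.gramChart p₀ y) (chartAt (X m) p₀).target := by
    refine continuousOn_pi.2 fun i => continuousOn_pi.2 fun j => ?_
    exact (h1.clm_apply continuousOn_const).inner (h1.clm_apply continuousOn_const)
  exact Continuous.comp_continuousOn (continuous_id.matrix_det) h2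

end Afp

theorem afp_proof : AfpStatement := by
  intro m M _ _ _ _ _ _ _ S μ hμ
  have : LocallyCompactSpace M := ChartedSpace.locallyCompactSpace (X m) M
  constructor
  · -- finite
    have hloc : ∀ p : M, ∃ K : Set M, IsCompact K ∧ p ∈ interior K ∧ μ K < ⊤ := by
      intro p
      obtain ⟨K, hK, hp, hs⟩ := exists_compact_subset (chartAt (X m) p).open_source
        (mem_chart_source (X m) p)
      refine ⟨K, hK, hp, ?_⟩
      rw [hμ p K hK.measurableSet hs]
      have hc : IsCompact (chartAt (X m) p '' K) :=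
        hK.image_of_continuousOn ((chartAt (X m) p).continuousOn.mono hs)
      have hsub : chartAt (X m) p '' K ⊆ (chartAt (X m) p).target := by
        rintro _ ⟨q, hq, rfl⟩
        exact (chartAt (X m) p).map_source (hs hq)
      obtain ⟨B, hB⟩ := hc.exists_bound_of_continuousOn ((Afp.cont S p).mono hsub)
      calc ∫⁻ y in chartAt (X m) p '' K, ENNReal.ofReal (Real.sqrt (S.gramChart p y).det)
          ≤ ∫⁻ _ in chartAt (X m) p '' K, ENNReal.ofReal B := by
            refine setLIntegral_mono' hc.measurableSet fun y hy => ?_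
            exact ENNReal.ofReal_le_ofReal ((le_abs_self _).trans (hB y hy))
        _ = ENNReal.ofReal B * volume (chartAt (X m) p '' K) := by
            rw [setLIntegral_const]
        _ < ⊤ := ENNReal.mul_lt_top ENNReal.ofReal_lt_top hc.measure_lt_top
    choose K hK hp hfin using hloc
    obtain ⟨t, ht⟩ := isCompact_univ.elim_finite_subcover (fun p => interior (K p))
      (fun p => isOpen_interior) (fun p _ => Set.mem_iUnion.2 ⟨p, hp p⟩)
    refine ⟨?_⟩
    calc μ Set.univ ≤ μ (⋃ p ∈ t, interior (K p)) := measure_mono ht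
      _ ≤ ∑ p ∈ t, μ (interior (K p)) := measure_biUnion_finset_le _ _
      _ ≤ ∑ p ∈ t, μ (K p) := Finset.sum_le_sum fun p _ => measure_mono interior_subset
      _ < ⊤ := ENNReal.sum_lt_top.2 fun p _ => hfin p
  · -- open positive
    refine ⟨fun U hU hne h0 => ?_⟩
    obtain ⟨p, hp⟩ := hne
    set e := chartAt (X m) p with he
    have hV : IsOpen (U ∩ e.source) := hU.inter e.open_source
    have hV0 : μ (U ∩ e.source) = 0 := measure_mono_null Set.inter_subset_left h0
    rw [hμ p _ hV.measurableSet Set.inter_subset_right, ← he] at hV0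
    have hA : IsOpen (e '' (U ∩ e.source)) := by
      rw [e.isOpen_image_iff_of_subset_source Set.inter_subset_right]
      exact hV
    have hsub : e '' (U ∩ e.source) ⊆ e.target := by
      rintro _ ⟨q, hq, rfl⟩
      exact e.map_source hq.2
    have hae : AEMeasurable (fun y => ENNReal.ofReal (Real.sqrt (S.gramChart p y).det))
        (volume.restrict (e '' (U ∩ e.source))) :=
      (((Afp.cont S p).mono hsub).aemeasurable hA.measurableSet).ennreal_ofReal
    have h1 := (lintegral_eq_zero_iff' hae).1 hV0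
    have h2 : ∀ᵐ y ∂(volume.restrict (e '' (U ∩ e.source))), False := by
      filter_upwards [h1, ae_restrict_mem hA.measurableSet] with y hy hyA
      have h3 : 0 < Real.sqrt (S.gramChart p y).det :=
        Real.sqrt_pos.2 (Afp.det_pos S p y (hsub hyA))
      have h4 : ENNReal.ofReal (Real.sqrt (S.gramChart p y).det) = 0 := hy
      rw [ENNReal.ofReal_eq_zero] at h4
      linarith
    have h5 : volume.restrict (e '' (U ∩ e.source)) = 0 := by
      exact ae_eq_bot.1 (Filter.eventually_false_iff_eq_bot.1 h2)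
    rw [Measure.restrict_eq_zero] at h5
    exact (hA.measure_pos volume ⟨e p, p, ⟨hp, mem_chart_source (X m) p⟩, rfl⟩).ne' h5

end MPfbfa44
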