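import Pool.Agent.Lib.MP_fbfa44_gt.IX.Geo
import Pool.Agent.Lib.MP_fbfa44_gt.Idx11.Ami0

set_option autoImplicit false

/-!
# Row AMI: integration against the area measure of a function supported in a chart
-/

namespace MPfbfa44

open MeasureTheory
open scoped Manifold ContDiff

/-- A smooth map read in a chart. -/
theorem contDiffOn_comp_chart_symm {m : ℕ} {M : Type} [TopologicalSpace M] [ChartedSpace (X m) M]
    [IsManifold (𝓡 m) ∞ M] {F : Type} [NormedAddCommGroup F] [NormedSpace ℝ F] {f : M → F}
    (hf : Smooth m f) (p₀ : M) :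
    ContDiffOn ℝ ∞ (f ∘ (chartAt (X m) p₀).symm) (chartAt (X m) p₀).target := by
  have h1 : ContMDiffOn (𝓡 m) (𝓡 m) ∞ (chartAt (X m) p₀).symm (chartAt (X m) p₀).target :=
    contMDiffOn_chart_symm
  have h2 : ContMDiffOn (𝓡 m) 𝓘(ℝ, F) ∞ (f ∘ (chartAt (X m) p₀).symm)
      (chartAt (X m) p₀).target := hf.comp_contMDiffOn h1
  exact contMDiffOn_iff_contDiffOn.1 h2

/-- The density of the area measure is continuous in a chart. -/
theorem continuousOn_density {m : ℕ} {M : Type} [TopologicalSpace M] [ChartedSpace (X m) M]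
    [IsManifold (𝓡 m) ∞ M] (S : Hypersurface m M) (p₀ : M) :
    ContinuousOn (fun y => Real.sqrt (S.gramChart p₀ y).det) (chartAt (X m) p₀).target := by
  have h1 := contDiffOn_comp_chart_symm S.smooth_x p₀
  have h2 : ContinuousOn (fderiv ℝ (S.x ∘ (chartAt (X m) p₀).symm)) (chartAt (X m) p₀).target :=
    h1.continuousOn_fderiv_of_isOpen (chartAt (X m) p₀).open_target (by simp)
  have h3 : ∀ i, ContinuousOn (fun y => fderiv ℝ (S.x ∘ (chartAt (X m) p₀).symm) y (cv i))
      (chartAt (X m) p₀).target := fun i => h2.clm_apply continuousOn_const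
  have h4 : ContinuousOn (fun y => S.gramChart p₀ y) (chartAt (X m) p₀).target :=
    continuousOn_pi.2 fun i => continuousOn_pi.2 fun j => (h3 i).inner (h3 j)
  have h5 : Continuous (fun A : Matrix (Fin m) (Fin m) ℝ => Real.sqrt A.det) :=
    Real.continuous_sqrt.comp (continuous_id.matrix_det)
  exact h5.comp_continuousOn h4

/-- Row AMI. -/
theorem ami_proof : AmiStatement := by
  intro m M _ _ _ _ _ _ _ S μ hμ p₀ f _ hf
  have h := Pool.Agent.Idx11.integral_eq_chart (G := ℝ) (lam := (volume : Measure (X m)))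
    (chartAt (X m) p₀) (d := fun y => Real.sqrt (S.gramChart p₀ y).det)
    ((continuousOn_density S p₀).aemeasurable (chartAt (X m) p₀).open_target.measurableSet)
    (fun y _ => Real.sqrt_nonneg _) (hμ p₀) hf
  rw [h]
  refine setIntegral_congr_fun (chartAt (X m) p₀).open_target.measurableSet fun y _ => ?_
  simp only [smul_eq_mul]
  ring

end MPfbfa44
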