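import Pool.Agent.Lib.MP_fbfa44_gt.IX.Geo

set_option autoImplicit false

/-!
# Row CHT: the immersion in a chart
-/

namespace MPfbfa44

open scoped Manifold ContDiff
open Set

namespace CHT

variable {m : ℕ} {M : Type} [TopologicalSpace M] [ChartedSpace (X m) M]

/-- The inverse of a chart is smooth. -/
theorem symm_smooth [IsManifold (𝓡 m) ∞ M] (p₀ : M) :
    ContMDiffOn (𝓡 m) (𝓡 m) ∞ (chartAt (X m) p₀).symm (chartAt (X m) p₀).target :=
  contMDiffOn_chart_symm

/-- A chart is smooth. -/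
theorem chart_smooth [IsManifold (𝓡 m) ∞ M] (p₀ : M) :
    ContMDiffOn (𝓡 m) (𝓡 m) ∞ (chartAt (X m) p₀) (chartAt (X m) p₀).source :=
  contMDiffOn_chart

/-- A smooth map is smooth in the charts. -/
theorem contDiffOn [IsManifold (𝓡 m) ∞ M] (p₀ : M) {F : Type} [NormedAddCommGroup F]
    [NormedSpace ℝ F] {f : M → F} (hf : Smooth m f) :
    ContDiffOn ℝ ∞ (f ∘ (chartAt (X m) p₀).symm) (chartAt (X m) p₀).target := by
  rw [← contMDiffOn_iff_contDiffOn]
  exact ContMDiff.comp_contMDiffOn hf (symm_smooth p₀)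

/-- A map which is smooth in the charts is smooth. -/
theorem smooth_of [IsManifold (𝓡 m) ∞ M] {F : Type} [NormedAddCommGroup F]
    [NormedSpace ℝ F] {f : M → F}
    (hf : ∀ p₁ : M, ContDiffOn ℝ ∞ (f ∘ (chartAt (X m) p₁).symm) (chartAt (X m) p₁).target) :
    Smooth m f := by
  intro p
  have h0 : p ∈ (chartAt (X m) p).source := mem_chart_source (X m) p
  have h1 := hf p
  rw [← contMDiffOn_iff_contDiffOn] at h1
  have h2 : ContMDiffOn (𝓡 m) 𝓘(ℝ, F) ∞
      ((f ∘ (chartAt (X m) p).symm) ∘ (chartAt (X m) p)) (chartAt (X m) p).source :=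
    h1.comp (chart_smooth p) (fun q hq => (chartAt (X m) p).map_source hq)
  have h3 : ContMDiffOn (𝓡 m) 𝓘(ℝ, F) ∞ f (chartAt (X m) p).source := by
    refine h2.congr (fun q hq => ?_)
    simp only [Function.comp_apply]
    rw [(chartAt (X m) p).left_inv hq]
  exact h3.contMDiffAt ((chartAt (X m) p).open_source.mem_nhds h0)

/-- A smooth map is differentiable. -/
theorem mdiff {F : Type} [NormedAddCommGroup F]
    [NormedSpace ℝ F] {f : M → F} (hf : Smooth m f) (p : M) :
    MDifferentiableAt (𝓡 m) 𝓘(ℝ, F) f p :=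
  hf.contMDiffAt.mdifferentiableAt (by simp)

/-- The derivative of the inverse of a chart, as a linear equivalence. -/
theorem exists_equiv [IsManifold (𝓡 m) ∞ M] (p₀ : M) {y : X m}
    (hy : y ∈ (chartAt (X m) p₀).target) :
    ∃ J : X m ≃L[ℝ] X m,
      HasMFDerivAt (𝓡 m) (𝓡 m) (chartAt (X m) p₀).symm y (J : X m →L[ℝ] X m) := by
  have hJ1 : MDifferentiableAt (𝓡 m) (𝓡 m) (chartAt (X m) p₀).symm y :=
    ((symm_smooth p₀).contMDiffAt
      ((chartAt (X m) p₀).open_target.mem_nhds hy)).mdifferentiableAt (by simp)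
  have hy' : (chartAt (X m) p₀).symm y ∈ (chartAt (X m) p₀).source :=
    (chartAt (X m) p₀).map_target hy
  have hJ2 : MDifferentiableAt (𝓡 m) (𝓡 m) (chartAt (X m) p₀) ((chartAt (X m) p₀).symm y) :=
    ((chart_smooth p₀).contMDiffAt
      ((chartAt (X m) p₀).open_source.mem_nhds hy')).mdifferentiableAt (by simp)
  have hA := hJ1.hasMFDerivAt
  have hB := hJ2.hasMFDerivAt
  set A : X m →L[ℝ] X m := mfderiv (𝓡 m) (𝓡 m) (chartAt (X m) p₀).symm y with hAd
  set B : X m →L[ℝ] X m :=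
    mfderiv (𝓡 m) (𝓡 m) (chartAt (X m) p₀) ((chartAt (X m) p₀).symm y) with hBd
  -- the composition is the identity
  have hBA : B.comp A = ContinuousLinearMap.id ℝ (X m) := by
    have h1 : HasMFDerivAt (𝓡 m) (𝓡 m) ((chartAt (X m) p₀) ∘ (chartAt (X m) p₀).symm) y
        (B.comp A) := HasMFDerivAt.comp y hB hA
    have h2 : HasMFDerivAt (𝓡 m) (𝓡 m) (id : X m → X m) y (ContinuousLinearMap.id ℝ (X m)) :=
      hasMFDerivAt_id y
    have h3 : HasMFDerivAt (𝓡 m) (𝓡 m) ((chartAt (X m) p₀) ∘ (chartAt (X m) p₀).symm) y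
        (ContinuousLinearMap.id ℝ (X m)) := by
      refine h2.congr_of_eventuallyEq ?_
      filter_upwards [(chartAt (X m) p₀).open_target.mem_nhds hy] with z hz
      simp only [Function.comp_apply, id]
      exact (chartAt (X m) p₀).right_inv hz
    exact hasMFDerivAt_unique h1 h3
  have hinj : Function.Injective A := by
    intro a b hab
    have h1 : B (A a) = B (A b) := by rw [hab]
    have h2 : ∀ c, B (A c) = c := fun c => by
      have := congrArg (fun L : X m →L[ℝ] X m => L c) hBA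
      simpa using this
    rwa [h2, h2] at h1
  refine ⟨(LinearEquiv.ofInjectiveEndo A.toLinearMap hinj).toContinuousLinearEquiv, ?_⟩
  have h5 : (((LinearEquiv.ofInjectiveEndo A.toLinearMap hinj).toContinuousLinearEquiv :
      X m ≃L[ℝ] X m) : X m →L[ℝ] X m) = A := by
    ext v : 1
    simp
  rw [h5]
  exact hA

/-- The derivative in a chart. -/
theorem exists_fderiv [IsManifold (𝓡 m) ∞ M] (p₀ : M) {y : X m}
    (hy : y ∈ (chartAt (X m) p₀).target) :
    ∃ J : X m ≃L[ℝ] X m,
      ∀ (F : Type) [NormedAddCommGroup F] [NormedSpace ℝ F] (f : M → F), Smooth m f → ∀ v,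
        fderiv ℝ (f ∘ (chartAt (X m) p₀).symm) y v =
          der m f ((chartAt (X m) p₀).symm y) (J v) := by
  obtain ⟨J, hJ⟩ := exists_equiv p₀ hy
  refine ⟨J, ?_⟩
  intro F _ _ f hf v
  have h1 := (mdiff hf ((chartAt (X m) p₀).symm y)).hasMFDerivAt
  have h2 := HasMFDerivAt.comp y h1 hJ
  have h3 : HasFDerivAt (f ∘ (chartAt (X m) p₀).symm)
      ((der m f ((chartAt (X m) p₀).symm y)).comp (J : X m →L[ℝ] X m)) y := h2.hasFDerivAt
  rw [h3.fderiv]
  rfl

end CHT

/-- Row CHT. -/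
theorem cht : ChtStatement := by
  intro m M _ _ _ S p₀
  exact ⟨fun F _ _ f hf => CHT.contDiffOn p₀ hf, fun F _ _ f hf => CHT.smooth_of hf,
    fun y hy => CHT.exists_fderiv p₀ hy⟩

/-- Row CHT, under the name of the board. -/
theorem cht_proof : ChtStatement := cht

end MPfbfa44
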