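import Pool.Agent.Lib.MP_fbfa44_gt.IX.Geo

set_option autoImplicit false

/-!
# CNN: a smooth function with vanishing gradient is constant
-/

namespace MPfbfa44

open scoped Manifold ContDiff Topology
open Set

/-- a differentiable function with vanishing derivative on a manifold is locally constant -/
theorem isLocallyConstant_of_mfderiv {E : Type*} [NormedAddCommGroup E] [NormedSpace ℝ E]
    {M : Type*} [TopologicalSpace M] [ChartedSpace E M] [IsManifold 𝓘(ℝ, E) 1 M] {f : M → ℝ}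
    (hf : MDifferentiable 𝓘(ℝ, E) 𝓘(ℝ, ℝ) f) (h0 : ∀ p, mfderiv 𝓘(ℝ, E) 𝓘(ℝ, ℝ) f p = 0) :
    IsLocallyConstant f := by
  rw [IsLocallyConstant.iff_eventually_eq]
  intro p
  set e := chartAt E p with he
  have hd : ∀ y ∈ e.target, HasFDerivAt (f ∘ e.symm) (0 : E →L[ℝ] ℝ) y := by
    intro y hy
    have h1 : HasMFDerivAt 𝓘(ℝ, E) 𝓘(ℝ, ℝ) f (e.symm y)
        (mfderiv 𝓘(ℝ, E) 𝓘(ℝ, ℝ) f (e.symm y)) := (hf (e.symm y)).hasMFDerivAt
    rw [h0] at h1
    have h2 : MDifferentiableAt 𝓘(ℝ, E) 𝓘(ℝ, E) e.symm y :=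
      mdifferentiableAt_atlas_symm (chart_mem_atlas E p) hy
    have h3 := HasMFDerivAt.comp y h1 h2.hasMFDerivAt
    rw [hasMFDerivAt_iff_hasFDerivAt] at h3
    exact h3.congr_fderiv (ContinuousLinearMap.zero_comp _)
  have hdiff : DifferentiableOn ℝ (f ∘ e.symm) e.target := fun y hy =>
    (hd y hy).differentiableAt.differentiableWithinAt
  have hfd : e.target.EqOn (fderiv ℝ (f ∘ e.symm)) 0 := fun y hy => (hd y hy).fderiv
  have hp : p ∈ e.source := mem_chart_source E p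
  have hopen := e.open_target.isOpen_inter_preimage_of_fderiv_eq_zero hdiff hfd {f p}
  have hmem : e p ∈ e.target ∩ (f ∘ e.symm) ⁻¹' {f p} := by
    refine ⟨e.map_source hp, ?_⟩
    simp [e.left_inv hp]
  have h1 : ∀ᶠ q in 𝓝 p, q ∈ e.source := e.open_source.mem_nhds hp
  have h2 : ∀ᶠ q in 𝓝 p, e q ∈ e.target ∩ (f ∘ e.symm) ⁻¹' {f p} :=
    (e.continuousAt hp).preimage_mem_nhds (hopen.mem_nhds hmem)
  filter_upwards [h1, h2] with q hq1 hq2
  have h3 := hq2.2
  simpa [e.left_inv hq1] using h3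

/-- Row CNN. -/
theorem cnn_proof (hG : GcaStatement) : CnnStatement := by
  intro m M _ _ _ _ S f hf hg p p'
  have : IsManifold (𝓡 m) 1 M := IsManifold.of_le (n := ∞) (by exact_mod_cast le_top)
  have hd : ∀ q : M, mfderiv (𝓡 m) 𝓘(ℝ, ℝ) f q = 0 := by
    intro q
    have h1 := (hG m M S q).2.2.2.2.2.2
    ext v
    have h2 : der m f q v = 0 := by
      rw [h1 v f, hg q]
      simp
    exact h2
  have hmd : MDifferentiable (𝓡 m) 𝓘(ℝ, ℝ) f := ContMDiff.mdifferentiable hf (by simp)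
  have hl : IsLocallyConstant f := isLocallyConstant_of_mfderiv hmd hd
  exact hl.apply_eq_of_preconnectedSpace p p'

end MPfbfa44
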