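import Pool.Agent.Lib.MP_fbfa44_gt.IX.Geo

set_option autoImplicit false

/-!
# Row GCA: calculus rules for the gradient
-/

namespace MPfbfa44

open MeasureTheory
open scoped Manifold ContDiff

namespace GCA

variable {m : ℕ} {M : Type} [TopologicalSpace M] [ChartedSpace (X m) M]

/-- The vector with the given inner products with the tangent vectors. -/
noncomputable def gL (S : Hypersurface m M) (p : M) (φ : X m →L[ℝ] ℝ) : X (m + 2) :=
  ∑ i, ∑ j, ((S.gram p)⁻¹ i j * φ (cv i)) • der m S.x p (cv j)

theorem grad_eq (S : Hypersurface m M) (p : M) (f : M → ℝ) : S.grad f p = gL S p (der m f p) := rfl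

theorem gL_add (S : Hypersurface m M) (p : M) (φ ψ : X m →L[ℝ] ℝ) :
    gL S p (φ + ψ) = gL S p φ + gL S p ψ := by
  unfold gL
  rw [← Finset.sum_add_distrib]
  refine Finset.sum_congr rfl fun i _ => ?_
  rw [← Finset.sum_add_distrib]
  refine Finset.sum_congr rfl fun j _ => ?_
  rw [ContinuousLinearMap.add_apply, mul_add, add_smul]

theorem gL_smul (S : Hypersurface m M) (p : M) (c : ℝ) (φ : X m →L[ℝ] ℝ) :
    gL S p (c • φ) = c • gL S p φ := by
  unfold gL
  rw [Finset.smul_sum]
  refine Finset.sum_congr rfl fun i _ => ?_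
  rw [Finset.smul_sum]
  refine Finset.sum_congr rfl fun j _ => ?_
  rw [ContinuousLinearMap.smul_apply, smul_smul, smul_eq_mul]
  congr 1
  ring

theorem gL_zero (S : Hypersurface m M) (p : M) : gL S p 0 = 0 := by
  unfold gL
  simp

theorem mdiff {F : Type} [NormedAddCommGroup F] [NormedSpace ℝ F] {f : M → F} (hf : Smooth m f)
    (p : M) : MDifferentiableAt (𝓡 m) 𝓘(ℝ, F) f p :=
  ContMDiff.mdifferentiableAt hf (by simp)

theorem der_comp {F F' : Type} [NormedAddCommGroup F] [NormedSpace ℝ F] [NormedAddCommGroup F']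
    [NormedSpace ℝ F'] {f : M → F} {g : F → F'} (hf : Smooth m f) (p : M)
    (hg : DifferentiableAt ℝ g (f p)) :
    der m (fun q => g (f q)) p = (fderiv ℝ g (f p)).comp (der m f p) := by
  have h := mfderiv_comp (I := 𝓡 m) (I' := 𝓘(ℝ, F)) (I'' := 𝓘(ℝ, F')) (f := f) p (g := g)
    hg.mdifferentiableAt (mdiff hf p)
  rw [mfderiv_eq_fderiv] at h
  exact h

theorem der_const (c : ℝ) (p : M) : der m (fun _ : M => c) p = 0 := mfderiv_const

theorem der_add {f g : M → ℝ} (hf : Smooth m f) (hg : Smooth m g) (p : M) :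
    der m (fun q => f q + g q) p = der m f p + der m g p :=
  mfderiv_add (mdiff hf p) (mdiff hg p)

theorem der_mul {f g : M → ℝ} (hf : Smooth m f) (hg : Smooth m g) (p : M) :
    der m (fun q => f q * g q) p = f p • der m g p + g p • der m f p :=
  ((mdiff hf p).hasMFDerivAt.mul (mdiff hg p).hasMFDerivAt).mfderiv

theorem inner_eq {n : ℕ} (a b : X n) : (inner ℝ a b : ℝ) = ∑ i, a i * b i := by
  rw [PiLp.inner_apply]
  refine Finset.sum_congr rfl fun i _ => ?_
  simp [mul_comm]

theorem inner_x_dx (S : Hypersurface m M) (p : M) (v : X m) :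
    (inner ℝ (S.x p) (der m S.x p v) : ℝ) = 0 := by
  have h1 := der_comp (g := fun y : X (m + 2) => (inner ℝ y y : ℝ)) S.smooth_x p
    (DifferentiableAt.inner ℝ differentiableAt_id differentiableAt_id)
  have h2 : (fun q => (inner ℝ (S.x q) (S.x q) : ℝ)) = fun _ : M => (1 : ℝ) := by
    funext q
    rw [real_inner_self_eq_norm_sq, S.norm_x]
    norm_num
  rw [h2, der_const] at h1
  have h3 := congrArg (fun L : X m →L[ℝ] ℝ => L v) h1
  simp only [ContinuousLinearMap.zero_apply, ContinuousLinearMap.comp_apply] at h3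
  have h4 := fderiv_inner_apply ℝ (f := fun y : X (m + 2) => y) (g := fun y : X (m + 2) => y)
    (x := S.x p) differentiableAt_fun_id differentiableAt_fun_id (der m S.x p v)
  rw [h4] at h3
  simp only [fderiv_fun_id, ContinuousLinearMap.coe_id', id_eq] at h3
  rw [real_inner_comm (S.x p) (der m S.x p v)] at h3
  linarith

end GCA

open GCA in
theorem gca_proof (hG : GrdStatement) : GcaStatement := by
  intro m M _ _ _ S p
  obtain ⟨-, h1, h2, h3⟩ := hG m M S p
  have hgr : ∀ f v, der m f p v = ∑ i, S.grad f p i * (der m S.x p v) i := by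
    intro f v
    rw [← (h1 f).2 v, inner_eq]
  refine ⟨?_, ?_, ?_, ?_, ?_, ?_, ?_⟩
  · intro c
    rw [grad_eq, der_const, gL_zero]
  · intro f g hf hg
    refine ⟨ContMDiff.add hf hg, ContMDiff.mul hf hg, ?_, ?_⟩
    · rw [grad_eq, der_add hf hg, gL_add]
      rfl
    · rw [grad_eq, der_mul hf hg, gL_add, gL_smul, gL_smul]
      exact add_comm _ _
  · intro f hf hpos
    refine ⟨?_, ?_⟩
    · intro q
      exact ContMDiffAt.comp q (Real.contDiffAt_sqrt (hpos q).ne').contMDiffAt (hf q)
    · rw [grad_eq, der_comp hf p (Real.contDiffAt_sqrt (n := 1) (hpos p).ne').differentiableAt_one]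
      have h4 : fderiv ℝ (fun y : ℝ => Real.sqrt y) (f p) =
          (2 * Real.sqrt (f p))⁻¹ • ContinuousLinearMap.id ℝ ℝ := by
        have := (HasDerivAt.sqrt (hasDerivAt_id (f p)) (hpos p).ne').hasFDerivAt.fderiv
        simp only [id] at this
        rw [this]
        ext
        simp
      have h5 : (fderiv ℝ (fun y : ℝ => Real.sqrt y) (f p)).comp (der m f p) =
          (2 * Real.sqrt (f p))⁻¹ • der m f p := by
        rw [h4]
        ext v
        simp
      rw [h5, gL_smul]
      rfl
  · intro f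
    obtain ⟨u, hu⟩ := (h1 f).1
    refine ⟨?_, ?_⟩
    · rw [← inner_eq, hu]
      exact inner_x_dx S p u
    · rw [← inner_eq, hu]
      exact S.inner_ν_dx p u
  · intro i j
    set w : X (m + 2) := EuclideanSpace.single j (1 : ℝ) - S.x p j • S.x p - S.ν p j • S.ν p with hw
    have hxx : (inner ℝ (S.x p) (S.x p) : ℝ) = 1 := by
      rw [real_inner_self_eq_norm_sq, S.norm_x]; norm_num
    have hνν : (inner ℝ (S.ν p) (S.ν p) : ℝ) = 1 := by
      rw [real_inner_self_eq_norm_sq, S.norm_ν]; norm_num
    have hνx : (inner ℝ (S.ν p) (S.x p) : ℝ) = 0 := S.inner_ν_x p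
    have hxν : (inner ℝ (S.x p) (S.ν p) : ℝ) = 0 := by rw [real_inner_comm]; exact hνx
    have hej : ∀ y : X (m + 2), (inner ℝ y (EuclideanSpace.single j (1 : ℝ)) : ℝ) = y j := by
      intro y
      rw [EuclideanSpace.inner_single_right]
      simp
    have hej' : ∀ y : X (m + 2), (inner ℝ (EuclideanSpace.single j (1 : ℝ)) y : ℝ) = y j := by
      intro y
      rw [real_inner_comm, hej]
    obtain ⟨u', hu'⟩ := h3 w
      (by rw [hw, inner_sub_right, inner_sub_right, inner_smul_right, inner_smul_right, hej, hxx,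
            hxν]; ring)
      (by rw [hw, inner_sub_right, inner_sub_right, inner_smul_right, inner_smul_right, hej, hνx,
            hνν]; ring)
    obtain ⟨⟨u, hu⟩, h5⟩ := h1 (fun p' => S.x p' j)
    have hder : ∀ v, der m (fun p' => S.x p' j) p v = (der m S.x p v) j := by
      intro v
      have h6 := der_comp (g := fun y : X (m + 2) => y j) S.smooth_x p
        (EuclideanSpace.proj j : X (m + 2) →L[ℝ] ℝ).differentiableAt
      rw [h6]
      have h7 : fderiv ℝ (fun y : X (m + 2) => y j) (S.x p) =
          (EuclideanSpace.proj j : X (m + 2) →L[ℝ] ℝ) :=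
        (EuclideanSpace.proj j : X (m + 2) →L[ℝ] ℝ).fderiv
      rw [h7]
      rfl
    have h8 : S.grad (fun p' => S.x p' j) p = w := by
      have h9 : u - u' = 0 := by
        apply h2
        intro v
        rw [map_sub, inner_sub_left, ← hu, h5, ← hu', hder, hw, inner_sub_left, inner_sub_left,
          inner_smul_left, inner_smul_left, hej', inner_x_dx S p v, S.inner_ν_dx p v]
        simp
      rw [hu, hu', sub_eq_zero.mp h9]
    rw [h8, hw]
    simp only [PiLp.sub_apply, PiLp.smul_apply, smul_eq_mul, PiLp.single_apply]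
    ring
  · intro f
    rw [← inner_eq]
    conv_rhs => rw [Hypersurface.grad]
    rw [_root_.sum_inner]
    unfold Hypersurface.gradSq
    refine Finset.sum_congr rfl fun i _ => ?_
    rw [_root_.sum_inner]
    refine Finset.sum_congr rfl fun j _ => ?_
    rw [inner_smul_left, real_inner_comm, ← Hypersurface.grad, (h1 f).2]
    simp
  · intro v f
    exact hgr f v

end MPfbfa44
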