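import Mathlib

set_option autoImplicit false

/-!
# Minimal hypersurfaces of the sphere with low Morse index: the abstract layer

Paper: finding 4689 on MP_fbfa44_gt (helper81), and `Paper.md` in this folder.

`Cal m` is the calculus of tangential derivatives on a closed minimal hypersurface of dimension
`m` of the unit sphere of `R^(m+2)`: `d i f` is the `i`-th component of the gradient of `f`, seen
as a vector of `R^(m+2)`; `x` is the position vector and `ν` the unit normal field.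
-/

namespace MPfbfa44

open MeasureTheory

/-- The calculus on a closed minimal hypersurface of the unit sphere of `R^(m+2)`. -/
structure Cal (m : ℕ) where
  M : Type
  [top : TopologicalSpace M]
  [cpt : CompactSpace M]
  [meas : MeasurableSpace M]
  [bor : BorelSpace M]
  [ne : Nonempty M]
  μ : Measure M
  [fin : IsFiniteMeasure μ]
  [opos : μ.IsOpenPosMeasure]
  /-- the smooth functions -/
  Sm : (M → ℝ) → Prop
  /-- the components of the gradient -/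
  d : Fin (m + 2) → (M → ℝ) → M → ℝ
  x : Fin (m + 2) → M → ℝ
  ν : Fin (m + 2) → M → ℝ
  cont : ∀ f, Sm f → Continuous f
  sconst : ∀ c : ℝ, Sm (fun _ => c)
  sadd : ∀ f g, Sm f → Sm g → Sm (fun p => f p + g p)
  smul : ∀ f g, Sm f → Sm g → Sm (fun p => f p * g p)
  ssqrt : ∀ f, Sm f → (∀ p, 0 < f p) → Sm (fun p => Real.sqrt (f p))
  sd : ∀ i f, Sm f → Sm (d i f)
  sx : ∀ i, Sm (x i)
  sν : ∀ i, Sm (ν i)
  dconst : ∀ i (c : ℝ) p, d i (fun _ => c) p = 0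
  dadd : ∀ i f g, Sm f → Sm g → ∀ p, d i (fun p => f p + g p) p = d i f p + d i g p
  dmul : ∀ i f g, Sm f → Sm g → ∀ p, d i (fun p => f p * g p) p = d i f p * g p + f p * d i g p
  dsqrt : ∀ i f, Sm f → (∀ p, 0 < f p) → ∀ p,
    d i (fun p => Real.sqrt (f p)) p = d i f p / (2 * Real.sqrt (f p))
  xx : ∀ p, ∑ i, x i p * x i p = 1
  νν : ∀ p, ∑ i, ν i p * ν i p = 1
  xν : ∀ p, ∑ i, x i p * ν i p = 0
  tx : ∀ f, Sm f → ∀ p, ∑ i, x i p * d i f p = 0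
  tν : ∀ f, Sm f → ∀ p, ∑ i, ν i p * d i f p = 0
  dx : ∀ i j p, d i (x j) p = (if i = j then (1 : ℝ) else 0) - x i p * x j p - ν i p * ν j p
  /-- the Hessian is symmetric on tangent vectors -/
  hess : ∀ f, Sm f → ∀ p (u w : Fin (m + 2) → ℝ), ∑ i, x i p * u i = 0 → ∑ i, ν i p * u i = 0 →
    ∑ i, x i p * w i = 0 → ∑ i, ν i p * w i = 0 →
    ∑ i, ∑ j, u i * w j * d j (d i f) p = ∑ i, ∑ j, u i * w j * d i (d j f) p
  /-- minimality -/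
  mean : ∀ p, ∑ i, d i (ν i) p = 0
  /-- the divergence theorem -/
  div : ∀ Y : Fin (m + 2) → M → ℝ, (∀ i, Sm (Y i)) → (∀ p, ∑ i, x i p * Y i p = 0) →
    (∀ p, ∑ i, ν i p * Y i p = 0) → ∫ p, ∑ i, d i (Y i) p ∂μ = 0
  /-- connectedness -/
  conn : ∀ f, Sm f → (∀ i p, d i f p = 0) → ∀ p p', f p = f p'

attribute [instance] Cal.top Cal.cpt Cal.meas Cal.bor Cal.ne Cal.fin Cal.opos

namespace Cal

variable {m : ℕ} (G : Cal m)

/-- The second fundamental form as a symmetric bilinear form on `R^(m+2)`. -/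
def B (i j : Fin (m + 2)) (p : G.M) : ℝ := -G.d i (G.ν j) p

/-- The square of the second fundamental form. -/
def B2 (i j : Fin (m + 2)) (p : G.M) : ℝ := ∑ k, G.B i k p * G.B k j p

/-- The squared norm of the second fundamental form. -/
def q (p : G.M) : ℝ := ∑ i, ∑ j, G.B i j p * G.B i j p

/-- The tangential projection. -/
def P (i j : Fin (m + 2)) (p : G.M) : ℝ :=
  (if i = j then (1 : ℝ) else 0) - G.x i p * G.x j p - G.ν i p * G.ν j p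

/-- The covariant derivative of the second fundamental form. -/
def T (k i j : Fin (m + 2)) (p : G.M) : ℝ :=
  G.d k (G.B i j) p + G.x i p * G.B k j p + G.x j p * G.B k i p -
    G.ν i p * G.B2 k j p - G.ν j p * G.B2 k i p

/-- The squared norm of the covariant derivative of the second fundamental form. -/
def tau (p : G.M) : ℝ := ∑ k, ∑ i, ∑ j, G.T k i j p * G.T k i j p

/-- The Laplacian. -/
def lap (f : G.M → ℝ) (p : G.M) : ℝ := ∑ i, G.d i (G.d i f) p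

/-- The inner product of gradients. -/
def gp (f g : G.M → ℝ) (p : G.M) : ℝ := ∑ i, G.d i f p * G.d i g p

/-- The quadratic form `∫ |∇f|² - |A|² f²`. -/
noncomputable def Q0 (f : G.M → ℝ) : ℝ := ∫ p, (G.gp f f p - G.q p * (f p * f p)) ∂G.μ

/-- The second variation of area. -/
noncomputable def Q (f : G.M → ℝ) : ℝ := ∫ p, (G.gp f f p - (G.q p + m) * (f p * f p)) ∂G.μ

/-- The Morse index is at most `N`. -/
def IdxLE (N : ℕ) : Prop :=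
  ∀ V : Submodule ℝ (G.M → ℝ), (∀ f ∈ V, G.Sm f) → (∀ f ∈ V, f ≠ 0 → G.Q f < 0) →
    Module.rank ℝ V ≤ N

/-- The linear function `<b, x>`. -/
def h (b : Fin (m + 2) → ℝ) (p : G.M) : ℝ := ∑ i, b i * G.x i p

/-- The linear function `<b, ν>`. -/
def z (b : Fin (m + 2) → ℝ) (p : G.M) : ℝ := ∑ i, b i * G.ν i p

/-- The pointwise expression `E` (with `a² = q`, `2 a ∇a = ∇q`, and `h = <b, x>`). -/
noncomputable def E (b : Fin (m + 2) → ℝ) (p : G.M) : ℝ :=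
  (G.tau p - G.gp G.q G.q p / (4 * G.q p)) * (1 - G.h b p) ^ 2 -
    2 * (1 - G.h b p) * G.gp G.q (G.h b) p + (m + 1) * G.q p * G.gp (G.h b) (G.h b) p +
    m * ∑ i, (∑ j, G.B i j p * G.d j (G.h b) p) ^ 2

/-- The structure equations (row STR). -/
structure Str {m : ℕ} (G : Cal m) : Prop where
  sB : ∀ i j, G.Sm (G.B i j)
  sB2 : ∀ i j, G.Sm (G.B2 i j)
  sq : G.Sm G.q
  sT : ∀ k i j, G.Sm (G.T k i j)
  stau : G.Sm G.tau
  ssum : ∀ (n : ℕ) (f : Fin n → G.M → ℝ), (∀ i, G.Sm (f i)) → G.Sm (fun p => ∑ i, f i p) ∧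
    ∀ k p, G.d k (fun p => ∑ i, f i p) p = ∑ i, G.d k (f i) p
  Bs : ∀ i j p, G.B i j p = G.B j i p
  Bx : ∀ i p, ∑ j, G.B i j p * G.x j p = 0
  Bν : ∀ i p, ∑ j, G.B i j p * G.ν j p = 0
  Bt : ∀ p, ∑ i, G.B i i p = 0
  dν : ∀ i j p, G.d i (G.ν j) p = -G.B i j p
  dB : ∀ k i j p, G.d k (G.B i j) p = G.T k i j p - G.x i p * G.B k j p - G.x j p * G.B k i p +
    G.ν i p * G.B2 k j p + G.ν j p * G.B2 k i p
  com : ∀ f, G.Sm f → ∀ i j p, G.d j (G.d i f) p - G.d i (G.d j f) p =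
    -G.x i p * G.d j f p + G.x j p * G.d i f p + G.ν i p * (∑ k, G.B j k p * G.d k f p) -
      G.ν j p * (∑ k, G.B i k p * G.d k f p)
  T12 : ∀ k i j p, G.T k i j p = G.T i k j p
  T23 : ∀ k i j p, G.T k i j p = G.T k j i p
  Tx : ∀ k i p, ∑ j, G.T k i j p * G.x j p = 0
  Tν : ∀ k i p, ∑ j, G.T k i j p * G.ν j p = 0
  Tt : ∀ k p, ∑ i, G.T k i i p = 0
  dq : ∀ k p, G.d k G.q p = 2 * ∑ i, ∑ j, G.B i j p * G.T k i j p

end Cal

/-! ### Rows of the abstract layer -/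

/-- Row STR: the structure equations. -/
def StrStatement : Prop := ∀ (m : ℕ) (G : Cal m), G.Str

/-- Row SIM (from STR): Simons' identity. -/
def SimStatement : Prop := ∀ (m : ℕ) (G : Cal m), G.Str →
  ∀ p, G.lap G.q p = 2 * (G.tau p + m * G.q p - G.q p ^ 2)

/-- Row GRN (from STR): Green's formula, the Laplacians of `x` and `ν`, integrability. -/
def GrnStatement : Prop := ∀ (m : ℕ) (G : Cal m), G.Str →
  (∀ f : G.M → ℝ, Continuous f → Integrable f G.μ) ∧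
  (∀ f : G.M → ℝ, Continuous f → (∀ p, 0 ≤ f p) → ∫ p, f p ∂G.μ ≤ 0 → ∀ p, f p = 0) ∧
  (∀ f g, G.Sm f → G.Sm g → G.Sm (G.gp f g) ∧ G.Sm (G.lap f) ∧
    ∫ p, G.gp f g p ∂G.μ = -∫ p, f p * G.lap g p ∂G.μ) ∧
  (∀ b, G.Sm (G.h b) ∧ G.Sm (G.z b) ∧ ∀ p,
    (∀ i, G.d i (G.h b) p = b i - G.h b p * G.x i p - G.z b p * G.ν i p) ∧
    (∀ i, G.d i (G.z b) p = -∑ j, G.B i j p * b j) ∧
    G.lap (G.h b) p = -(m * G.h b p) ∧ G.lap (G.z b) p = -(G.q p * G.z b p) ∧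
    G.gp (G.h b) (G.h b) p = (∑ i, b i ^ 2) - G.h b p ^ 2 - G.z b p ^ 2 ∧
    (∀ i, ∑ j, G.B i j p * b j = ∑ j, G.B i j p * G.d j (G.h b) p))

/-- Row NUL (from STR, GRN): if some `<b, ν>` vanishes identically then `A = 0`. -/
def NulStatement : Prop := ∀ (m : ℕ) (G : Cal m), G.Str → 1 ≤ m →
  ∀ b : Fin (m + 2) → ℝ, b ≠ 0 → (∀ p, G.z b p = 0) → ∀ p, G.q p = 0

/-- Row IDX (from STR, GRN, NUL): index at most `m + 3` gives `Q0 f ≥ 0` whenever `∫ q f = 0`. -/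
def IdxStatement : Prop := ∀ (m : ℕ) (G : Cal m), G.Str → 1 ≤ m → (∃ p, G.q p ≠ 0) →
  G.IdxLE (m + 3) → ∀ f, G.Sm f → ∫ p, G.q p * f p ∂G.μ = 0 → 0 ≤ G.Q0 f

/-- Row QEP (from STR, SIM, GRN): `Q0` of `√(q + ε²) L` for an affine function `L = <b,x> + c`
(`t = ε²`). -/
def QepStatement : Prop := ∀ (m : ℕ) (G : Cal m), G.Str → ∀ (t : ℝ), 0 < t →
  ∀ (b : Fin (m + 2) → ℝ) (c : ℝ),
    G.Q0 (fun p => Real.sqrt (G.q p + t) * (G.h b p + c)) =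
      -(∫ p, (G.tau p - G.gp G.q G.q p / (4 * (G.q p + t))) * (G.h b p + c) ^ 2 ∂G.μ) +
      ∫ p, (G.q p * (G.gp (G.h b) (G.h b) p - m * (G.h b p + c) ^ 2) +
        t * (G.gp (G.h b) (G.h b) p - G.q p * (G.h b p + c) ^ 2)) ∂G.μ

/-- Row LIM (from STR, GRN, QEP): the limit `ε → 0` of the sum of the inequalities. -/
def LimStatement : Prop := ∀ (m : ℕ) (G : Cal m), G.Str → (∃ p, G.q p ≠ 0) →
  (∀ f, G.Sm f → ∫ p, G.q p * f p ∂G.μ = 0 → 0 ≤ G.Q0 f) →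
  ∃ b : Fin (m + 2) → ℝ, ∑ i, b i ^ 2 ≤ 1 ∧
    (∀ i, ∫ p, Real.sqrt (G.q p) * G.q p * (G.x i p - b i) ∂G.μ = 0) ∧
    Integrable (G.E b) G.μ ∧ ∫ p, G.E b p ∂G.μ ≤ 0

/-- Row KAT: the refined Kato inequality (pure algebra; `S` is the test tensor). -/
def KatStatement : Prop := ∀ (m : ℕ), 1 ≤ m → ∀ (x ν : Fin (m + 2) → ℝ)
  (B : Fin (m + 2) → Fin (m + 2) → ℝ) (T : Fin (m + 2) → Fin (m + 2) → Fin (m + 2) → ℝ)
  (r z : Fin (m + 2) → ℝ), ∑ i, x i * x i = 1 → ∑ i, ν i * ν i = 1 → ∑ i, x i * ν i = 0 →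
  (∀ i j, B i j = B j i) → (∀ i, ∑ j, B i j * x j = 0) → (∀ i, ∑ j, B i j * ν j = 0) →
  ∑ i, B i i = 0 → (∀ k i j, T k i j = T i k j) → (∀ k i j, T k i j = T k j i) →
  (∀ k i, ∑ j, T k i j * x j = 0) → (∀ k i, ∑ j, T k i j * ν j = 0) →
  (∀ k, ∑ i, T k i i = 0) → (∀ k, r k = ∑ i, ∑ j, B i j * T k i j) →
  ∑ i, x i * z i = 0 → ∑ i, ν i * z i = 0 →
  2 * (∑ k, r k * z k) - ((∑ i, ∑ j, B i j * B i j) * (∑ k, z k * z k) +
    (2 * m / (m + 2)) * ∑ i, (∑ j, B i j * z j) ^ 2) / 3 ≤ ∑ k, ∑ i, ∑ j, T k i j * T k i j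

/-- Row OPN: the norm of a traceless symmetric form (pure algebra). -/
def OpnStatement : Prop := ∀ (m : ℕ), 2 ≤ m → ∀ (x ν : Fin (m + 2) → ℝ)
  (B : Fin (m + 2) → Fin (m + 2) → ℝ) (v : Fin (m + 2) → ℝ),
  ∑ i, x i * x i = 1 → ∑ i, ν i * ν i = 1 → ∑ i, x i * ν i = 0 →
  (∀ i j, B i j = B j i) → (∀ i, ∑ j, B i j * x j = 0) → (∀ i, ∑ j, B i j * ν j = 0) →
  ∑ i, B i i = 0 → ∑ i, x i * v i = 0 → ∑ i, ν i * v i = 0 →
  m * ∑ i, (∑ j, B i j * v j) ^ 2 ≤ (m - 1) * ((∑ i, ∑ j, B i j * B i j) * ∑ k, v k * v k)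

/-- Row QFM (uses OPN as hypothesis `hop`): positivity of the quadratic form and its null
vectors. `N v` stands for `|Bv|²`. -/
def QfmStatement : Prop := ∀ (m : ℕ), 2 ≤ m → ∀ (d : ℕ) (B : Fin d → Fin d → ℝ) (q : ℝ),
  0 < q → (∀ i j, B i j = B j i) → ∀ (W : Submodule ℝ (Fin d → ℝ)),
  (∀ v ∈ W, m * ∑ i, (∑ j, B i j * v j) ^ 2 ≤ (m - 1) * (q * ∑ k, v k * v k)) →
  ∀ s ∈ W, ∀ t ∈ W,
  0 ≤ (2 * (m : ℝ) ^ 2 + 8 * m - 4) / (3 * m ^ 2) * (∑ k, s k * s k) -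
      2 * (m + 2) / (3 * m) * ((∑ i, (∑ j, B i j * s j) ^ 2) / q) - 4 * (∑ k, s k * t k) +
      (m + 1) * (∑ k, t k * t k) + m * ((∑ i, (∑ j, B i j * t j) ^ 2) / q) ∧
  ((2 * (m : ℝ) ^ 2 + 8 * m - 4) / (3 * m ^ 2) * (∑ k, s k * s k) -
      2 * (m + 2) / (3 * m) * ((∑ i, (∑ j, B i j * s j) ^ 2) / q) - 4 * (∑ k, s k * t k) +
      (m + 1) * (∑ k, t k * t k) + m * ((∑ i, (∑ j, B i j * t j) ^ 2) / q) ≤ 0 →
    (∀ k, s k = m * t k) ∧ m * ∑ i, (∑ j, B i j * t j) ^ 2 = (m - 1) * (q * ∑ k, t k * t k))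

/-- Row EPT (from STR, GRN, KAT, OPN, QFM): `E ≥ 0` pointwise, and the case of equality. -/
def EptStatement : Prop := ∀ (m : ℕ) (G : Cal m), G.Str → 2 ≤ m → ∀ (b : Fin (m + 2) → ℝ) p,
  0 ≤ G.E b p ∧ (G.E b p = 0 →
    (∀ k, (1 - G.h b p) * G.d k G.q p = 2 * m * G.q p * G.d k (G.h b) p) ∧
    m * ∑ i, (∑ j, G.B i j p * G.d j (G.h b) p) ^ 2 =
      (m - 1) * G.q p * G.gp (G.h b) (G.h b) p)

/-- Row RIG (from STR, SIM, GRN, EPT): rigidity. -/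
def RigStatement : Prop := ∀ (m : ℕ) (G : Cal m), G.Str → 2 ≤ m → (∃ p, G.q p ≠ 0) →
  ∀ b : Fin (m + 2) → ℝ, ∑ i, b i ^ 2 ≤ 1 →
    (∀ i, ∫ p, Real.sqrt (G.q p) * G.q p * (G.x i p - b i) ∂G.μ = 0) →
    Integrable (G.E b) G.μ → ∫ p, G.E b p ∂G.μ ≤ 0 →
    (∀ p, G.q p = m) ∧ ∀ p, G.tau p = 0

/-- Row PAR (from STR, GRN): parallel second fundamental form. -/
def ParStatement : Prop := ∀ (m : ℕ) (G : Cal m), G.Str → 2 ≤ m → (∀ p, G.q p = m) →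
  (∀ p, G.tau p = 0) → ∃ (c : ℝ) (R : Matrix (Fin (m + 2)) (Fin (m + 2)) ℝ),
    R.transpose = R ∧ R * R = 1 + c • R ∧ R.trace = c ∧
    ∀ p, ∑ i, ∑ j, R i j * (G.x i p * G.x j p) = 0

/-- Row PRJ (pure linear algebra): the eigenspaces of `R`. -/
def PrjStatement : Prop := ∀ (m : ℕ), 2 ≤ m → ∀ (c : ℝ)
  (R : Matrix (Fin (m + 2)) (Fin (m + 2)) ℝ), R.transpose = R → R * R = 1 + c • R →
  R.trace = c → ∃ k : ℕ, 1 ≤ k ∧ k + 1 ≤ m ∧
    ∃ L : EuclideanSpace ℝ (Fin (m + 2)) ≃ₗᵢ[ℝ] EuclideanSpace ℝ (Fin (m + 2)),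
      ∀ y : EuclideanSpace ℝ (Fin (m + 2)), ‖L y‖ = 1 →
        ∑ i, ∑ j, R i j * (L y i * L y j) = 0 →
        (∑ i : Fin (m + 2), if (i : ℕ) < k + 1 then y i ^ 2 else 0) = k / m ∧
        (∑ i : Fin (m + 2), if (i : ℕ) < k + 1 then 0 else y i ^ 2) = (m - k : ℝ) / m

end MPfbfa44
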