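import Mathlib
import Pool.Agent.Lib.MP_fbfa44_gt.IX.Cal

set_option autoImplicit false

/-!
# Minimal hypersurfaces of the sphere with low Morse index: the geometric layer

`M` is a compact connected manifold, `x : M → R^(m+2)` an immersion into the unit sphere and
`ν : M → R^(m+2)` a unit normal field.
-/

namespace MPfbfa44

open MeasureTheory
open scoped Manifold ContDiff

/-- Euclidean space. -/
abbrev X (n : ℕ) : Type := EuclideanSpace ℝ (Fin n)

/-- The coordinate vectors. -/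
noncomputable def cv {n : ℕ} (i : Fin n) : X n := EuclideanSpace.single i (1 : ℝ)

section defs

variable (m : ℕ) {M : Type} [TopologicalSpace M] [ChartedSpace (X m) M]

/-- The derivative at `p` of a map from the manifold to a normed space. -/
noncomputable def der {F : Type} [NormedAddCommGroup F] [NormedSpace ℝ F] (f : M → F) (p : M) :
    X m →L[ℝ] F :=
  mfderiv (𝓡 m) 𝓘(ℝ, F) f p

/-- Smooth maps from the manifold to a normed space. -/
def Smooth {F : Type} [NormedAddCommGroup F] [NormedSpace ℝ F] (f : M → F) : Prop :=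
  ContMDiff (𝓡 m) 𝓘(ℝ, F) ∞ f

end defs

/-- A smooth two-sided immersed hypersurface of the unit sphere of `R^(m+2)`: an immersion `x` of
an `m`-dimensional manifold into the unit sphere with a smooth unit normal field `ν`. -/
structure Hypersurface (m : ℕ) (M : Type) [TopologicalSpace M] [ChartedSpace (X m) M] where
  /-- the immersion -/
  x : M → X (m + 2)
  /-- the unit normal field -/
  ν : M → X (m + 2)
  smooth_x : Smooth m x
  smooth_ν : Smooth m ν
  immersion : ∀ p : M, Function.Injective (der m x p)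
  norm_x : ∀ p : M, ‖x p‖ = 1
  norm_ν : ∀ p : M, ‖ν p‖ = 1
  inner_ν_x : ∀ p : M, (inner ℝ (ν p) (x p) : ℝ) = 0
  inner_ν_dx : ∀ (p : M) (v : X m), (inner ℝ (ν p) (der m x p v) : ℝ) = 0

namespace Hypersurface

variable {m : ℕ} {M : Type} [TopologicalSpace M] [ChartedSpace (X m) M] (S : Hypersurface m M)

/-- The matrix of the induced metric on the tangent space at `p`. -/
noncomputable def gram (p : M) : Matrix (Fin m) (Fin m) ℝ :=
  Matrix.of fun i j => inner ℝ (der m S.x p (cv i)) (der m S.x p (cv j))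

/-- The matrix of the second fundamental form `A(v, w) = -<dν(v), dx(w)>` at `p`. -/
noncomputable def second (p : M) : Matrix (Fin m) (Fin m) ℝ :=
  Matrix.of fun i j => -inner ℝ (der m S.ν p (cv i)) (der m S.x p (cv j))

/-- The mean curvature, the trace of `A` with respect to the induced metric. -/
noncomputable def meanCurvature (p : M) : ℝ := ((S.gram p)⁻¹ * S.second p).trace

/-- The squared norm `|A|²` with respect to the induced metric. -/
noncomputable def normSqA (p : M) : ℝ :=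
  ((S.gram p)⁻¹ * S.second p * ((S.gram p)⁻¹ * S.second p)).trace

/-- The squared norm `|∇f|²` with respect to the induced metric. -/
noncomputable def gradSq (f : M → ℝ) (p : M) : ℝ :=
  ∑ i, ∑ j, (S.gram p)⁻¹ i j * der m f p (cv i) * der m f p (cv j)

/-- The hypersurface is minimal: its mean curvature vanishes. -/
def IsMinimal : Prop := ∀ p, S.meanCurvature p = 0

/-- The hypersurface is equatorial: its image is a great sphere. -/
def IsEquatorial : Prop :=
  ∃ u : X (m + 2), ‖u‖ = 1 ∧ Set.range S.x = {y | ‖y‖ = 1 ∧ (inner ℝ u y : ℝ) = 0}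

/-- The matrix of the induced metric in the chart at `p₀`. -/
noncomputable def gramChart (p₀ : M) (y : X m) : Matrix (Fin m) (Fin m) ℝ :=
  Matrix.of fun i j => inner ℝ (fderiv ℝ (S.x ∘ (chartAt (X m) p₀).symm) y (cv i))
    (fderiv ℝ (S.x ∘ (chartAt (X m) p₀).symm) y (cv j))

/-- `μ` is the area measure of the induced metric: in the chart at every point it is
`√(det g) dy`. -/
def IsAreaMeasure [MeasurableSpace M] (μ : Measure M) : Prop :=
  ∀ p₀ : M, ∀ s : Set M, MeasurableSet s → s ⊆ (chartAt (X m) p₀).source →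
    μ s = ∫⁻ y in chartAt (X m) p₀ '' s, ENNReal.ofReal (Real.sqrt (S.gramChart p₀ y).det)

/-- The second variation of area `∫ |∇f|² - (|A|² + m) f²`. -/
noncomputable def secondVariation [MeasurableSpace M] (μ : Measure M) (f : M → ℝ) : ℝ :=
  ∫ p, (S.gradSq f p - (S.normSqA p + m) * f p ^ 2) ∂μ

/-- The Morse index is at most `N`: every linear space of smooth functions on which the second
variation is negative definite has dimension at most `N`. -/
def MorseIndexLE [MeasurableSpace M] (μ : Measure M) (N : ℕ) : Prop :=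
  ∀ V : Submodule ℝ (M → ℝ), (∀ f ∈ V, Smooth m f) →
    (∀ f ∈ V, f ≠ 0 → S.secondVariation μ f < 0) → Module.rank ℝ V ≤ N

/-- The gradient of `f` as a vector of `R^(m+2)`. -/
noncomputable def grad (f : M → ℝ) (p : M) : X (m + 2) :=
  ∑ i, ∑ j, ((S.gram p)⁻¹ i j * der m f p (cv i)) • der m S.x p (cv j)

end Hypersurface

/-- The Clifford hypersurface `S^k(√(k/m)) × S^(m-k)(√((m-k)/m))` of the unit sphere of
`R^(m+2)`. -/
def clifford (m k : ℕ) : Set (X (m + 2)) :=
  {y | (∑ i : Fin (m + 2), if (i : ℕ) < k + 1 then y i ^ 2 else 0) = k / m ∧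
    (∑ i : Fin (m + 2), if (i : ℕ) < k + 1 then 0 else y i ^ 2) = (m - k : ℝ) / m}

/-- The theorem. -/
def MainStatement : Prop :=
  ∀ (m : ℕ), 2 ≤ m → ∀ (M : Type) [TopologicalSpace M] [T2Space M] [CompactSpace M]
    [ConnectedSpace M] [ChartedSpace (X m) M] [IsManifold (𝓡 m) ∞ M] [MeasurableSpace M]
    [BorelSpace M] (S : Hypersurface m M), S.IsMinimal → ¬ S.IsEquatorial →
    (∃! μ : Measure M, S.IsAreaMeasure μ) ∧
    ∀ μ : Measure M, S.IsAreaMeasure μ → S.MorseIndexLE μ (m + 3) →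
      ∃ k : ℕ, 1 ≤ k ∧ k + 1 ≤ m ∧ ∃ L : X (m + 2) ≃ₗᵢ[ℝ] X (m + 2),
        Set.range S.x = L '' clifford m k

/-! ### Rows of the geometric layer -/

/-- Row CHT: the immersion in a chart.  `F = S.x ∘ (chart at p₀)⁻¹`. -/
def ChtStatement : Prop :=
  ∀ (m : ℕ) (M : Type) [TopologicalSpace M] [ChartedSpace (X m) M] [IsManifold (𝓡 m) ∞ M]
    (S : Hypersurface m M) (p₀ : M),
    (∀ (F : Type) [NormedAddCommGroup F] [NormedSpace ℝ F] (f : M → F), Smooth m f →
      ContDiffOn ℝ ∞ (f ∘ (chartAt (X m) p₀).symm) (chartAt (X m) p₀).target) ∧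
    (∀ (F : Type) [NormedAddCommGroup F] [NormedSpace ℝ F] (f : M → F),
      (∀ p₁, ContDiffOn ℝ ∞ (f ∘ (chartAt (X m) p₁).symm) (chartAt (X m) p₁).target) →
        Smooth m f) ∧
    ∀ y ∈ (chartAt (X m) p₀).target, ∃ J : X m ≃L[ℝ] X m,
      ∀ (F : Type) [NormedAddCommGroup F] [NormedSpace ℝ F] (f : M → F), Smooth m f → ∀ v,
        fderiv ℝ (f ∘ (chartAt (X m) p₀).symm) y v =
          der m f ((chartAt (X m) p₀).symm y) (J v)

/-- Row GRD: the gradient is characterised by `<grad f, dx v> = df v` in the image of `dx`. -/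
def GrdStatement : Prop :=
  ∀ (m : ℕ) (M : Type) [TopologicalSpace M] [ChartedSpace (X m) M]
    (S : Hypersurface m M) (p : M),
    0 < (S.gram p).det ∧
    (∀ f : M → ℝ, (∃ u, S.grad f p = der m S.x p u) ∧
      ∀ v, (inner ℝ (S.grad f p) (der m S.x p v) : ℝ) = der m f p v) ∧
    (∀ u : X m, (∀ v, (inner ℝ (der m S.x p u) (der m S.x p v) : ℝ) = 0) → u = 0) ∧
    (∀ w : X (m + 2), (inner ℝ (S.x p) w : ℝ) = 0 → (inner ℝ (S.ν p) w : ℝ) = 0 →
      ∃ u, w = der m S.x p u)

/-- Row GRL (from CHT, GRD): the gradient in a chart. -/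
def GrlStatement : Prop :=
  ∀ (m : ℕ) (M : Type) [TopologicalSpace M] [ChartedSpace (X m) M] [IsManifold (𝓡 m) ∞ M]
    (S : Hypersurface m M) (p₀ : M) (f : M → ℝ), Smooth m f →
    ∀ y ∈ (chartAt (X m) p₀).target, 0 < (S.gramChart p₀ y).det ∧
      S.grad f ((chartAt (X m) p₀).symm y) = ∑ i, ∑ j, ((S.gramChart p₀ y)⁻¹ i j *
        fderiv ℝ (f ∘ (chartAt (X m) p₀).symm) y (cv i)) •
          fderiv ℝ (S.x ∘ (chartAt (X m) p₀).symm) y (cv j)

/-- Row GSM (from CHT, GRL): the gradient is smooth. -/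
def GsmStatement : Prop :=
  ∀ (m : ℕ) (M : Type) [TopologicalSpace M] [ChartedSpace (X m) M] [IsManifold (𝓡 m) ∞ M]
    (S : Hypersurface m M) (f : M → ℝ), Smooth m f → Smooth m (S.grad f)

/-- Row GHS (from CHT, GRD, GSM): the Hessian is symmetric on tangent vectors. -/
def GhsStatement : Prop :=
  ∀ (m : ℕ) (M : Type) [TopologicalSpace M] [ChartedSpace (X m) M] [IsManifold (𝓡 m) ∞ M]
    (S : Hypersurface m M) (f : M → ℝ), Smooth m f → ∀ (p : M) (u w : Fin (m + 2) → ℝ),
    ∑ i, S.x p i * u i = 0 → ∑ i, S.ν p i * u i = 0 →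
    ∑ i, S.x p i * w i = 0 → ∑ i, S.ν p i * w i = 0 →
    ∑ i, ∑ j, u i * w j * S.grad (fun p' => S.grad f p' i) p j =
      ∑ i, ∑ j, u i * w j * S.grad (fun p' => S.grad f p' j) p i

/-- Row GCA (from GRD): calculus rules for the gradient and for `x`, `ν`. -/
def GcaStatement : Prop :=
  ∀ (m : ℕ) (M : Type) [TopologicalSpace M] [ChartedSpace (X m) M] [IsManifold (𝓡 m) ∞ M]
    (S : Hypersurface m M) (p : M),
    (∀ (c : ℝ), S.grad (fun _ => c) p = 0) ∧
    (∀ f g : M → ℝ, Smooth m f → Smooth m g → Smooth m (fun p => f p + g p) ∧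
      Smooth m (fun p => f p * g p) ∧
      S.grad (fun p => f p + g p) p = S.grad f p + S.grad g p ∧
      S.grad (fun p => f p * g p) p = g p • S.grad f p + f p • S.grad g p) ∧
    (∀ f : M → ℝ, Smooth m f → (∀ p, 0 < f p) → Smooth m (fun p => Real.sqrt (f p)) ∧
      S.grad (fun p => Real.sqrt (f p)) p = (2 * Real.sqrt (f p))⁻¹ • S.grad f p) ∧
    (∀ f : M → ℝ, (∑ i, S.x p i * S.grad f p i = 0) ∧ ∑ i, S.ν p i * S.grad f p i = 0) ∧
    (∀ i j, S.grad (fun p' => S.x p' j) p i =
      (if i = j then (1 : ℝ) else 0) - S.x p i * S.x p j - S.ν p i * S.ν p j) ∧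
    (∀ f : M → ℝ, S.gradSq f p = ∑ i, S.grad f p i * S.grad f p i) ∧
    (∀ v f, der m f p v = ∑ i, S.grad f p i * (der m S.x p v) i)

/-- Row GCU (from GRD): the mean curvature and `|A|²` in terms of the gradients of the components
of `ν`. -/
def GcuStatement : Prop :=
  ∀ (m : ℕ) (M : Type) [TopologicalSpace M] [ChartedSpace (X m) M] [IsManifold (𝓡 m) ∞ M]
    (S : Hypersurface m M) (p : M),
    S.meanCurvature p = -∑ i, S.grad (fun p' => S.ν p' i) p i ∧
    S.normSqA p = ∑ i, ∑ j, S.grad (fun p' => S.ν p' j) p i * S.grad (fun p' => S.ν p' j) p i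

/-- Row DVC (local, in coordinates; generalises row JAC of MP_8d4425_gt): the divergence in
coordinates of a tangential field `Y` along an immersion `F`. -/
def DvcStatement : Prop :=
  ∀ (m n : ℕ) (U : Set (X m)) (F Y : X m → X n), IsOpen U → ContDiffOn ℝ ∞ F U →
    ContDiffOn ℝ ∞ Y U → (∀ y ∈ U, Function.Injective (fderiv ℝ F y)) →
    (∀ y ∈ U, ∃ u, Y y = fderiv ℝ F y u) → ∀ y ∈ U,
    let g : X m → Matrix (Fin m) (Fin m) ℝ := fun y =>
      Matrix.of fun i j => inner ℝ (fderiv ℝ F y (cv i)) (fderiv ℝ F y (cv j))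
    ContDiffOn ℝ ∞ (fun y => Real.sqrt (g y).det) U ∧
    (∀ i, ContDiffOn ℝ ∞ (fun y => Real.sqrt (g y).det *
      ∑ j, (g y)⁻¹ i j * inner ℝ (Y y) (fderiv ℝ F y (cv j))) U) ∧
    ∑ i, fderiv ℝ (fun y => Real.sqrt (g y).det *
      ∑ j, (g y)⁻¹ i j * inner ℝ (Y y) (fderiv ℝ F y (cv j))) y (cv i) =
      Real.sqrt (g y).det * ∑ i, ∑ j, (g y)⁻¹ i j *
        inner ℝ (fderiv ℝ Y y (cv i)) (fderiv ℝ F y (cv j))

/-- Row DVI: the integral of a coordinate divergence of a compactly supported smooth field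
vanishes. -/
def DviStatement : Prop :=
  ∀ (m : ℕ) (U K : Set (X m)) (V : Fin m → X m → ℝ), IsOpen U → IsCompact K → K ⊆ U →
    (∀ i, ContDiffOn ℝ ∞ (V i) U) → (∀ i, ∀ y ∈ U, y ∉ K → V i y = 0) →
    ∫ y in U, ∑ i, fderiv ℝ (V i) y (cv i) = 0

/-- Row AMI: integration against the area measure of a function supported in a chart. -/
def AmiStatement : Prop :=
  ∀ (m : ℕ) (M : Type) [TopologicalSpace M] [T2Space M] [CompactSpace M] [ChartedSpace (X m) M]
    [IsManifold (𝓡 m) ∞ M] [MeasurableSpace M] [BorelSpace M] (S : Hypersurface m M)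
    (μ : Measure M), S.IsAreaMeasure μ → ∀ (p₀ : M) (f : M → ℝ), Continuous f →
    (∀ p, p ∉ (chartAt (X m) p₀).source → f p = 0) →
    ∫ p, f p ∂μ = ∫ y in (chartAt (X m) p₀).target,
      f ((chartAt (X m) p₀).symm y) * Real.sqrt (S.gramChart p₀ y).det

/-- Row AFP: the area measure is finite and positive on nonempty open sets. -/
def AfpStatement : Prop :=
  ∀ (m : ℕ) (M : Type) [TopologicalSpace M] [T2Space M] [CompactSpace M] [ChartedSpace (X m) M]
    [IsManifold (𝓡 m) ∞ M] [MeasurableSpace M] [BorelSpace M] (S : Hypersurface m M)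
    (μ : Measure M), S.IsAreaMeasure μ → IsFiniteMeasure μ ∧ μ.IsOpenPosMeasure

/-- Row AEX: existence and uniqueness of the area measure. -/
def AexStatement : Prop :=
  ∀ (m : ℕ) (M : Type) [TopologicalSpace M] [T2Space M] [CompactSpace M] [ChartedSpace (X m) M]
    [IsManifold (𝓡 m) ∞ M] [MeasurableSpace M] [BorelSpace M] (S : Hypersurface m M),
    ∃! μ : Measure M, S.IsAreaMeasure μ

/-- Row GDV (from CHT, GRL, GCA, GSM, DVC, DVI, AMI, AFP): the divergence theorem. -/
def GdvStatement : Prop :=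
  ∀ (m : ℕ) (M : Type) [TopologicalSpace M] [T2Space M] [CompactSpace M] [ChartedSpace (X m) M]
    [IsManifold (𝓡 m) ∞ M] [MeasurableSpace M] [BorelSpace M] (S : Hypersurface m M)
    (μ : Measure M), S.IsAreaMeasure μ → ∀ Y : Fin (m + 2) → M → ℝ, (∀ i, Smooth m (Y i)) →
    (∀ p, ∑ i, S.x p i * Y i p = 0) → (∀ p, ∑ i, S.ν p i * Y i p = 0) →
    ∫ p, ∑ i, S.grad (Y i) p i ∂μ = 0

/-- Row CNN (from GCA): a smooth function with vanishing gradient is constant. -/
def CnnStatement : Prop :=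
  ∀ (m : ℕ) (M : Type) [TopologicalSpace M] [ConnectedSpace M] [ChartedSpace (X m) M]
    [IsManifold (𝓡 m) ∞ M] (S : Hypersurface m M) (f : M → ℝ), Smooth m f →
    (∀ p, S.grad f p = 0) → ∀ p p', f p = f p'

/-- Row OPM: an immersion of a compact `m`-dimensional manifold whose image lies in a connected
set `C` and which is locally injective under the orthogonal projection to the tangent spaces
is onto. -/
def OpmStatement : Prop :=
  ∀ (m : ℕ) (M : Type) [TopologicalSpace M] [CompactSpace M] [Nonempty M]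
    [ChartedSpace (X m) M] [IsManifold (𝓡 m) ∞ M] (S : Hypersurface m M) (C : Set (X (m + 2))),
    IsPreconnected C → Set.range S.x ⊆ C →
    (∀ p : M, ∃ U : Set (X (m + 2)), IsOpen U ∧ S.x p ∈ U ∧ ∀ c ∈ C ∩ U, ∀ c' ∈ C ∩ U,
      (∀ v, (inner ℝ (c - c') (der m S.x p v) : ℝ) = 0) → c = c') →
    Set.range S.x = C

/-- Row CLC: the Clifford hypersurface is connected and locally injective under the projection to
the orthogonal complement of `y` and a unit normal. -/
def ClcStatement : Prop :=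
  ∀ (m k : ℕ), 1 ≤ k → k + 1 ≤ m → IsPreconnected (clifford m k) ∧
    ∀ y ∈ clifford m k, ∃ U : Set (X (m + 2)), IsOpen U ∧ y ∈ U ∧
      ∀ c ∈ clifford m k ∩ U, ∀ c' ∈ clifford m k ∩ U, ∀ s t : ℝ,
        (∀ i : Fin (m + 2), c i - c' i = if (i : ℕ) < k + 1 then s * y i else t * y i) → c = c'

/-- Row GRT: great spheres are connected and locally injective under projections. -/
def GrtStatement : Prop :=
  ∀ (m : ℕ), 1 ≤ m → ∀ u : X (m + 2), ‖u‖ = 1 →
    IsPreconnected {y : X (m + 2) | ‖y‖ = 1 ∧ (inner ℝ u y : ℝ) = 0} ∧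
    ∀ y : X (m + 2), ‖y‖ = 1 → (inner ℝ u y : ℝ) = 0 → ∃ U : Set (X (m + 2)), IsOpen U ∧ y ∈ U ∧
      ∀ c ∈ U, ‖c‖ = 1 → (inner ℝ u c : ℝ) = 0 → ∀ c' ∈ U, ‖c'‖ = 1 →
        (inner ℝ u c' : ℝ) = 0 → ∀ s t : ℝ, c - c' = s • y + t • u → c = c'

end MPfbfa44
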