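import Mathlib
import Pool.Agent.Lib.MP_fbfa44_gt.IX.Geo

set_option autoImplicit false

/-!
# Row GCU: the mean curvature and `|A|²` in terms of the gradients of the components of `ν`
-/

namespace MPfbfa44

open MeasureTheory
open scoped Manifold ContDiff

namespace Gcu

variable {m : ℕ} {M : Type} [TopologicalSpace M] [ChartedSpace (X m) M]
  (S : Hypersurface m M) (p : M)

/-- the matrix of the derivative of the immersion -/
noncomputable def Xm : Matrix (Fin m) (Fin (m + 2)) ℝ := Matrix.of fun b i => der m S.x p (cv b) i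

/-- the matrix of the derivative of the normal -/
noncomputable def Nm : Matrix (Fin m) (Fin (m + 2)) ℝ := Matrix.of fun b i => der m S.ν p (cv b) i

theorem inner_sum {n : ℕ} (a b : X n) : (inner ℝ a b : ℝ) = ∑ i, a i * b i := by
  rw [PiLp.inner_apply]
  refine Finset.sum_congr rfl fun i _ => ?_
  simp [mul_comm]

theorem gram_eq : S.gram p = Xm S p * (Xm S p).transpose := by
  ext a b
  rw [Hypersurface.gram, Matrix.of_apply, inner_sum, Matrix.mul_apply]
  rfl

theorem second_eq : S.second p = -(Nm S p * (Xm S p).transpose) := by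
  ext a b
  rw [Hypersurface.second, Matrix.of_apply, inner_sum, Matrix.neg_apply, Matrix.mul_apply]
  rfl

theorem gram_symm : (S.gram p).transpose = S.gram p := by
  rw [gram_eq, Matrix.transpose_mul, Matrix.transpose_transpose]

theorem ginv_symm : ((S.gram p)⁻¹).transpose = (S.gram p)⁻¹ := by
  rw [Matrix.transpose_nonsing_inv, gram_symm]

theorem der_comp_apply {f : M → X (m + 2)} (hf : Smooth m f) (j : Fin (m + 2)) (v : X m) :
    der m (fun p' => f p' j) p v = der m f p v j := by
  have h1 : MDifferentiableAt (𝓡 m) 𝓘(ℝ, X (m + 2)) f p :=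
    (hf.mdifferentiable (by simp)) p
  have h2 := (EuclideanSpace.proj (𝕜 := ℝ) j : X (m + 2) →L[ℝ] ℝ).hasMFDerivAt (x := f p)
  have h3 := h2.comp p h1.hasMFDerivAt
  have h4 := h3.mfderiv
  have h5 : (fun p' => f p' j) = (EuclideanSpace.proj (𝕜 := ℝ) j : X (m + 2) →L[ℝ] ℝ) ∘ f := rfl
  unfold der
  rw [h5, h4]
  rfl

/-- the matrix of the gradients -/
theorem grad_apply (j i : Fin (m + 2)) :
    S.grad (fun p' => S.ν p' j) p i =
      ((Nm S p).transpose * (S.gram p)⁻¹ * Xm S p) j i := by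
  unfold Hypersurface.grad
  rw [Matrix.mul_assoc, Matrix.mul_apply]
  simp only [WithLp.ofLp_sum, Finset.sum_apply, PiLp.smul_apply, smul_eq_mul]
  refine Finset.sum_congr rfl fun a _ => ?_
  rw [Matrix.mul_apply, Finset.mul_sum]
  refine Finset.sum_congr rfl fun b _ => ?_
  rw [der_comp_apply p S.smooth_ν]
  simp only [Matrix.transpose_apply, Nm, Xm, Matrix.of_apply]
  ring

/-- differentiating in the chart -/
theorem chart_facts [IsManifold (𝓡 m) ∞ M] (h1 : ChtStatement) :
    (∀ v, (inner ℝ (S.ν p) (der m S.ν p v) : ℝ) = 0) ∧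
    (∀ v, (inner ℝ (S.x p) (der m S.ν p v) : ℝ) = 0) ∧
    ∀ v w, (inner ℝ (der m S.ν p v) (der m S.x p w) : ℝ) =
      inner ℝ (der m S.ν p w) (der m S.x p v) := by
  obtain ⟨hs, -, hJ⟩ := h1 m M S p
  set e := chartAt (X m) p with he
  set y₀ : X m := e p with hy₀
  have hmem : y₀ ∈ e.target := mem_chart_target (X m) p
  have hsy : e.symm y₀ = p := e.left_inv (mem_chart_source (X m) p)
  have hopen : IsOpen e.target := e.open_target
  set F : X m → X (m + 2) := S.x ∘ e.symm with hF
  set N : X m → X (m + 2) := S.ν ∘ e.symm with hN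
  have hFs : ContDiffOn ℝ ∞ F e.target := hs _ _ S.smooth_x
  have hNs : ContDiffOn ℝ ∞ N e.target := hs _ _ S.smooth_ν
  have hFd : ∀ y ∈ e.target, DifferentiableAt ℝ F y := fun y hy =>
    ((hFs.differentiableOn (by simp)) y hy).differentiableAt (hopen.mem_nhds hy)
  have hNd : ∀ y ∈ e.target, DifferentiableAt ℝ N y := fun y hy =>
    ((hNs.differentiableOn (by simp)) y hy).differentiableAt (hopen.mem_nhds hy)
  have hFdd : DifferentiableAt ℝ (fderiv ℝ F) y₀ := by
    have := hFs.fderiv_of_isOpen (m := ∞) hopen (by simp)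
    exact ((this.differentiableOn (by simp)) y₀ hmem).differentiableAt (hopen.mem_nhds hmem)
  have hev : ∀ᶠ y in nhds y₀, y ∈ e.target := hopen.mem_nhds hmem
  obtain ⟨J, hJ₀⟩ := hJ y₀ hmem
  have hJx : ∀ v, fderiv ℝ F y₀ v = der m S.x p (J v) := by
    intro v
    have := hJ₀ _ S.x S.smooth_x v
    rwa [hsy] at this
  have hJν : ∀ v, fderiv ℝ N y₀ v = der m S.ν p (J v) := by
    intro v
    have := hJ₀ _ S.ν S.smooth_ν v
    rwa [hsy] at this
  have hFy : F y₀ = S.x p := by rw [hF, Function.comp_apply, hsy]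
  have hNy : N y₀ = S.ν p := by rw [hN, Function.comp_apply, hsy]
  have hNF : ∀ y ∈ e.target, ∀ v, (inner ℝ (N y) (fderiv ℝ F y v) : ℝ) = 0 := by
    intro y hy v
    obtain ⟨J', hJ'⟩ := hJ y hy
    rw [hJ' _ S.x S.smooth_x v]
    exact S.inner_ν_dx _ _
  -- derivative of ⟨N, N⟩
  have key1 : ∀ v, (inner ℝ (N y₀) (fderiv ℝ N y₀ v) : ℝ) = 0 := by
    intro v
    have hc : (fun y => (inner ℝ (N y) (N y) : ℝ)) = fun _ => 1 := by
      funext y
      rw [real_inner_self_eq_norm_sq]
      have := S.norm_ν (e.symm y)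
      rw [hN, Function.comp_apply, this]; norm_num
    have hd : fderiv ℝ (fun y => (inner ℝ (N y) (N y) : ℝ)) y₀ v = 0 := by
      rw [hc]; simp
    rw [fderiv_inner_apply ℝ (hNd _ hmem) (hNd _ hmem)] at hd
    rw [real_inner_comm (N y₀) (fderiv ℝ N y₀ v)] at hd
    linarith
  have key2 : ∀ v, (inner ℝ (F y₀) (fderiv ℝ N y₀ v) : ℝ) = 0 := by
    intro v
    have hc : (fun y => (inner ℝ (N y) (F y) : ℝ)) = fun _ => 0 := by
      funext y
      exact S.inner_ν_x (e.symm y)
    have hd : fderiv ℝ (fun y => (inner ℝ (N y) (F y) : ℝ)) y₀ v = 0 := by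
      rw [hc]; simp
    rw [fderiv_inner_apply ℝ (hNd _ hmem) (hFd _ hmem), hNF y₀ hmem v, zero_add] at hd
    rwa [real_inner_comm] at hd
  have key3 : ∀ v w, (inner ℝ (fderiv ℝ N y₀ w) (fderiv ℝ F y₀ v) : ℝ) =
      -inner ℝ (N y₀) (fderiv ℝ (fderiv ℝ F) y₀ w v) := by
    intro v w
    have hc : (fun y => (inner ℝ (N y) (fderiv ℝ F y v) : ℝ)) =ᶠ[nhds y₀] fun _ => 0 := by
      filter_upwards [hev] with y hy
      exact hNF y hy v
    have hd : fderiv ℝ (fun y => (inner ℝ (N y) (fderiv ℝ F y v) : ℝ)) y₀ w = 0 := by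
      rw [hc.fderiv_eq]; simp
    have hFv : HasFDerivAt (fun y => fderiv ℝ F y v)
        ((fderiv ℝ (fderiv ℝ F) y₀).flip v) y₀ := by
      have := hFdd.hasFDerivAt.clm_apply (hasFDerivAt_const v y₀)
      simpa using this
    rw [fderiv_inner_apply ℝ (hNd _ hmem) hFv.differentiableAt, hFv.fderiv] at hd
    simp only [ContinuousLinearMap.flip_apply] at hd
    linarith
  have hsymm : ∀ v w, fderiv ℝ (fderiv ℝ F) y₀ v w = fderiv ℝ (fderiv ℝ F) y₀ w v := by
    have hcd : ContDiffAt ℝ ∞ F y₀ := (hFs y₀ hmem).contDiffAt (hopen.mem_nhds hmem)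
    have := hcd.isSymmSndFDerivAt (by
      simp only [minSmoothness_of_isRCLikeNormedField]
      exact WithTop.coe_le_coe.2 le_top)
    exact fun v w => this v w
  refine ⟨fun v => ?_, fun v => ?_, fun v w => ?_⟩
  · have := key1 (J.symm v)
    rwa [hJν, hNy, J.apply_symm_apply] at this
  · have := key2 (J.symm v)
    rwa [hJν, hFy, J.apply_symm_apply] at this
  · have a1 := key3 (J.symm w) (J.symm v)
    have a2 := key3 (J.symm v) (J.symm w)
    rw [hJν, hJx, J.apply_symm_apply, J.apply_symm_apply] at a1 a2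
    rw [a1, a2, hsymm]

theorem second_symm [IsManifold (𝓡 m) ∞ M] (h1 : ChtStatement) :
    (S.second p).transpose = S.second p := by
  ext a b
  rw [Matrix.transpose_apply, Hypersurface.second, Matrix.of_apply, Matrix.of_apply,
    (chart_facts S p h1).2.2 (cv b) (cv a)]

theorem cv_sum (v : X m) : v = ∑ i, v i • cv i := by
  ext j
  simp only [cv, WithLp.ofLp_sum, Finset.sum_apply, PiLp.smul_apply, smul_eq_mul,
    PiLp.single_apply, mul_ite, mul_one, mul_zero, Finset.sum_ite_eq, Finset.mem_univ, if_true]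

/-- the derivative of the normal is tangential -/
theorem Nm_eq [IsManifold (𝓡 m) ∞ M] (h1 : ChtStatement) (h2 : GrdStatement) :
    ∃ C : Matrix (Fin m) (Fin m) ℝ, Nm S p = C * Xm S p := by
  have h : ∀ a : Fin m, ∃ u : X m, der m S.ν p (cv a) = der m S.x p u := fun a =>
    (h2 m M S p).2.2.2 _ ((chart_facts S p h1).2.1 (cv a)) ((chart_facts S p h1).1 (cv a))
  choose u hu using h
  refine ⟨Matrix.of fun a b => u a b, ?_⟩
  ext a i
  rw [Matrix.mul_apply]
  simp only [Nm, Xm, Matrix.of_apply]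
  rw [hu a]
  conv_lhs => rw [cv_sum (u a)]
  simp only [map_sum, map_smul, WithLp.ofLp_sum, Finset.sum_apply, PiLp.smul_apply, smul_eq_mul]

end Gcu

open Gcu in
/-- Row GCU. -/
theorem gcu_proof (h1 : ChtStatement) (h2 : GrdStatement) : GcuStatement := by
  intro m M _ _ _ S p
  have hdet : IsUnit (S.gram p).det := (h2 m M S p).1.ne'.isUnit
  have hgg : (S.gram p)⁻¹ * S.gram p = 1 := Matrix.nonsing_inv_mul _ hdet
  have hgg' : S.gram p * (S.gram p)⁻¹ = 1 := Matrix.mul_nonsing_inv _ hdet
  have hA : S.second p = -(Nm S p * (Xm S p).transpose) := second_eq S p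
  have hAt : (S.second p).transpose = S.second p := second_symm S p h1
  have hG : S.gram p = Xm S p * (Xm S p).transpose := gram_eq S p
  have hit : ((S.gram p)⁻¹).transpose = (S.gram p)⁻¹ := ginv_symm S p
  obtain ⟨C, hC⟩ := Nm_eq S p h1 h2
  constructor
  · have e1 : ∑ i, S.grad (fun p' => S.ν p' i) p i =
        ((Nm S p).transpose * (S.gram p)⁻¹ * Xm S p).trace := by
      simp only [grad_apply, Matrix.trace, Matrix.diag_apply]
    rw [e1, Matrix.trace_mul_comm, ← Matrix.mul_assoc, Matrix.trace_mul_comm, Hypersurface.meanCurvature]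
    have e2 : Xm S p * (Nm S p).transpose = -S.second p := by
      rw [← hAt, hA, Matrix.transpose_neg, Matrix.transpose_mul, Matrix.transpose_transpose,
        neg_neg]
    rw [e2, Matrix.mul_neg, Matrix.trace_neg, neg_neg]
  · have e1 : ∑ i, ∑ j, S.grad (fun p' => S.ν p' j) p i * S.grad (fun p' => S.ν p' j) p i =
        (((Nm S p).transpose * (S.gram p)⁻¹ * Xm S p) *
          ((Nm S p).transpose * (S.gram p)⁻¹ * Xm S p).transpose).trace := by
      simp only [grad_apply, Matrix.trace, Matrix.diag_apply, Matrix.mul_apply (N := Matrix.transpose _),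
        Matrix.transpose_apply]
      rw [Finset.sum_comm]
    have e3 : S.second p = -(C * S.gram p) := by
      rw [hA, hC, hG, Matrix.mul_assoc]
    have e2 : ((Nm S p).transpose * (S.gram p)⁻¹ * Xm S p) *
          ((Nm S p).transpose * (S.gram p)⁻¹ * Xm S p).transpose =
        (Nm S p).transpose * ((S.gram p)⁻¹ * Nm S p) := by
      rw [Matrix.transpose_mul, Matrix.transpose_mul, Matrix.transpose_transpose, hit]
      calc (Nm S p).transpose * (S.gram p)⁻¹ * Xm S p *
          ((Xm S p).transpose * ((S.gram p)⁻¹ * Nm S p))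
          = (Nm S p).transpose * (S.gram p)⁻¹ * (Xm S p * (Xm S p).transpose) *
            ((S.gram p)⁻¹ * Nm S p) := by simp only [Matrix.mul_assoc]
        _ = (Nm S p).transpose * ((S.gram p)⁻¹ * S.gram p) * ((S.gram p)⁻¹ * Nm S p) := by
          rw [← hG]; simp only [Matrix.mul_assoc]
        _ = _ := by rw [hgg, Matrix.mul_one]
    rw [e1, e2, Matrix.trace_mul_comm, Hypersurface.normSqA]
    have e4 : Nm S p * (Nm S p).transpose = C * S.gram p * C.transpose := by
      rw [hC, hG, Matrix.transpose_mul]; simp only [Matrix.mul_assoc]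
    have e5 : S.second p = -(S.gram p * C.transpose) := by
      rw [← hAt, e3, Matrix.transpose_neg, Matrix.transpose_mul, gram_symm]
    rw [Matrix.mul_assoc (S.gram p)⁻¹ (Nm S p), e4]
    congr 1
    have e6 : (S.gram p)⁻¹ * S.second p = -C.transpose := by
      rw [e5, Matrix.mul_neg, ← Matrix.mul_assoc, hgg, Matrix.one_mul]
    conv_lhs => rw [Matrix.mul_assoc, e6, e3]
    simp only [Matrix.mul_neg, Matrix.neg_mul, neg_neg]

end MPfbfa44
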