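import Pool.Agent.Lib.MP_fbfa44_gt.IX.Ami
import Pool.Agent.Lib.MP_fbfa44_gt.Idx47.DivScalar

set_option autoImplicit false

/-!
# Row GDV: the divergence theorem on a compact hypersurface
-/

namespace MPfbfa44

open MeasureTheory Function
open scoped Manifold ContDiff InnerProductSpace Topology

section

variable {m : ℕ} {M : Type} [TopologicalSpace M] [ChartedSpace (X m) M]

/-- the orthonormal basis of `R^(m+2)` indexed by `Fin m ⊕ Fin 2` -/
noncomputable def eb (m : ℕ) : OrthonormalBasis (Fin m ⊕ Fin 2) ℝ (X (m + 2)) :=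
  (EuclideanSpace.basisFun (Fin (m + 2)) ℝ).reindex finSumFinEquiv.symm

theorem inner_cv {n : ℕ} (w : X n) (i : Fin n) : ⟪w, cv i⟫_ℝ = w i := by
  simp [cv, EuclideanSpace.inner_single_right]

theorem inner_eq_sum {n : ℕ} (v w : X n) : ⟪v, w⟫_ℝ = ∑ i, v i * w i := by
  rw [PiLp.inner_apply]
  refine Finset.sum_congr rfl fun i _ => ?_
  simp [mul_comm]

variable [IsManifold (𝓡 m) ∞ M] (S : Hypersurface m M)

/-- the immersion in a chart is a parametrised hypersurface -/
theorem isPar (hC : ChtStatement) (p₀ : M) :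
    Idx47.IsPar (chartAt (X m) p₀).target (S.x ∘ (chartAt (X m) p₀).symm)
      (S.ν ∘ (chartAt (X m) p₀).symm) := by
  obtain ⟨h1, -, h3⟩ := hC m M S p₀
  refine ⟨(chartAt (X m) p₀).open_target, (h1 _ _ S.smooth_x).of_le ENat.LEInfty.out,
    (h1 _ _ S.smooth_ν).of_le (by exact_mod_cast le_top), fun y _ => S.norm_x _,
    fun y _ => S.norm_ν _, fun y _ => ?_, fun y hy ξ => ?_, fun y hy => ?_⟩
  · rw [real_inner_comm]
    exact S.inner_ν_x _
  · obtain ⟨J, hJ⟩ := h3 y hy
    rw [hJ _ _ S.smooth_x, real_inner_comm]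
    exact S.inner_ν_dx _ _
  · obtain ⟨J, hJ⟩ := h3 y hy
    intro a b hab
    rw [hJ _ _ S.smooth_x, hJ _ _ S.smooth_x] at hab
    exact J.injective (S.immersion _ hab)

omit [IsManifold (𝓡 m) ∞ M] in
theorem normDet_eq (p₀ : M) (y : X m) :
    (fderiv ℝ (S.x ∘ (chartAt (X m) p₀).symm) y).toLinearMap.normDet =
      Real.sqrt (S.gramChart p₀ y).det := by
  have h1 := LinearMap.normDet_sq_eq_det_gram (𝕜 := ℝ)
    (fderiv ℝ (S.x ∘ (chartAt (X m) p₀).symm) y).toLinearMap (EuclideanSpace.basisFun (Fin m) ℝ)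
  have h2 : Matrix.gram ℝ (fun i => (fderiv ℝ (S.x ∘ (chartAt (X m) p₀).symm) y).toLinearMap
      (EuclideanSpace.basisFun (Fin m) ℝ i)) = S.gramChart p₀ y := by
    ext i j
    rw [Matrix.gram_apply, Hypersurface.gramChart, Matrix.of_apply]
    simp [cv]
  rw [h2] at h1
  rw [← h1]
  simp only [RCLike.ofReal_real_eq_id, id_eq]
  rw [Real.sqrt_sq (LinearMap.normDet_nonneg _)]

omit [IsManifold (𝓡 m) ∞ M] in
theorem grad_eq_zero {f : M → ℝ} {p : M} (h : f =ᶠ[𝓝 p] fun _ => 0) : S.grad f p = 0 := by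
  have h1 : der m f p = 0 := by
    unfold der
    rw [h.mfderiv_eq]
    exact mfderiv_const
  unfold Hypersurface.grad
  simp [h1]

/-- the divergence of a smooth tangential field supported in a chart integrates to zero -/
theorem div_local (hC : ChtStatement) (hG : GcaStatement) (hS : GsmStatement)
    [T2Space M] [CompactSpace M] [MeasurableSpace M] [BorelSpace M] {μ : Measure M}
    (hμ : S.IsAreaMeasure μ) (p₀ : M) (Z : Fin (m + 2) → M → ℝ) (hZ : ∀ i, Smooth m (Z i))
    (K : Set M) (hK : IsClosed K) (hKs : K ⊆ (chartAt (X m) p₀).source)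
    (hZK : ∀ i p, p ∉ K → Z i p = 0)
    (hZx : ∀ p, ∑ i, S.x p i * Z i p = 0) (hZν : ∀ p, ∑ i, S.ν p i * Z i p = 0) :
    ∫ p, ∑ i, S.grad (Z i) p i ∂μ = 0 := by
  classical
  set φ := chartAt (X m) p₀ with hφ
  obtain ⟨c1, -, c3⟩ := hC m M S p₀
  have hpar := isPar S hC p₀
  have hcont : Continuous fun p => ∑ i, S.grad (Z i) p i := by
    refine continuous_finsetSum _ fun i _ => ?_
    have h1 : Continuous (S.grad (Z i)) := (hS m M S (Z i) (hZ i)).continuous
    exact (continuous_apply i).comp ((PiLp.continuous_ofLp 2 _).comp h1)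
  have hout : ∀ p, p ∉ φ.source → ∑ i, S.grad (Z i) p i = 0 := by
    intro p hp
    refine Finset.sum_eq_zero fun i _ => ?_
    have h1 : Z i =ᶠ[𝓝 p] fun _ => 0 := by
      filter_upwards [hK.isOpen_compl.mem_nhds (fun h => hp (hKs h))] with q hq
      exact hZK i q hq
    rw [grad_eq_zero S h1]
    rfl
  rw [ami_proof m M S μ hμ p₀ _ hcont hout]
  set V : X m → X (m + 2) := fun y => if y ∈ φ.target then ∑ i, Z i (φ.symm y) • cv i else 0
    with hVdef
  have hVU : ∀ y ∈ φ.target, V =ᶠ[𝓝 y] fun y' => ∑ i, (Z i ∘ φ.symm) y' • cv i := by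
    intro y hy
    filter_upwards [φ.open_target.mem_nhds hy] with y' hy'
    simp [hVdef, hy']
  have hcd : ∀ i, ∀ y ∈ φ.target, ContDiffAt ℝ 1 (Z i ∘ φ.symm) y := fun i y hy =>
    ((c1 _ _ (hZ i)).contDiffAt (φ.open_target.mem_nhds hy)).of_le (by exact_mod_cast le_top)
  have hV : ContDiffOn ℝ 1 V φ.target := by
    intro y hy
    have h1 : ContDiffAt ℝ 1 (fun y' => ∑ i, (Z i ∘ φ.symm) y' • (cv i : X (m + 2))) y :=
      ContDiffAt.sum fun i _ => (hcd i y hy).smul contDiffAt_const
    exact (h1.congr_of_eventuallyEq (hVU y hy)).contDiffWithinAt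
  have hKc : IsCompact (φ '' K) := hK.isCompact.image_of_continuousOn (φ.continuousOn.mono hKs)
  have hKt : φ '' K ⊆ φ.target := by
    rintro _ ⟨p, hp, rfl⟩
    exact φ.map_source (hKs hp)
  have hsupp : support V ⊆ φ '' K := by
    intro y hy
    by_contra hyK
    apply hy
    by_cases hyt : y ∈ φ.target
    · have h1 : φ.symm y ∉ K := fun h => hyK ⟨_, h, φ.right_inv hyt⟩
      have h2 : ∀ i, Z i (φ.symm y) = 0 := fun i => hZK i _ h1
      simp [hVdef, hyt, h2]
    · simp [hVdef, hyt]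
  have hts : tsupport V ⊆ φ '' K := closure_minimal hsupp hKc.isClosed
  have hVc : HasCompactSupport V := hKc.of_isClosed_subset (isClosed_tsupport V) hts
  have hVval : ∀ y ∈ φ.target, V y = ∑ i, Z i (φ.symm y) • cv i := by
    intro y hy
    simp [hVdef, hy]
  have hVinner : ∀ y ∈ φ.target, ∀ w : X (m + 2),
      ⟪V y, w⟫_ℝ = ∑ i, w i * Z i (φ.symm y) := by
    intro y hy w
    rw [hVval y hy, sum_inner]
    refine Finset.sum_congr rfl fun i _ => ?_
    rw [inner_smul_left, real_inner_comm, inner_cv]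
    simp [mul_comm]
  set D : X m → X (m + 2) →ₗ[ℝ] X (m + 2) := fun y =>
    ∑ i, ((innerSL ℝ (S.grad (Z i) (φ.symm y))).toLinearMap).smulRight (cv i) with hD
  have hDapp : ∀ y w, D y w = ∑ i, ⟪S.grad (Z i) (φ.symm y), w⟫_ℝ • cv i := by
    intro y w
    simp [hD, LinearMap.sum_apply]
  have htr : ∀ y, LinearMap.trace ℝ (X (m + 2)) (D y) = ∑ i, S.grad (Z i) (φ.symm y) i := by
    intro y
    simp only [hD]
    rw [map_sum]
    refine Finset.sum_congr rfl fun i _ => ?_
    rw [LinearMap.trace_smulRight]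
    exact inner_cv _ _
  have main := hpar.div_tangent (eb m) hV hVc (hts.trans hKt)
    (fun y hy => by rw [hVinner y hy]; exact hZx _)
    (fun y hy => by rw [hVinner y hy]; exact hZν _) D
    (by
      intro y hy ξ
      obtain ⟨J, hJ⟩ := c3 y hy
      rw [hDapp, (hVU y hy).fderiv_eq]
      have h1 : fderiv ℝ (fun y' => ∑ i, (Z i ∘ φ.symm) y' • (cv i : X (m + 2))) y ξ =
          ∑ i, (fderiv ℝ (Z i ∘ φ.symm) y ξ) • cv i := by
        have h2 : HasFDerivAt (fun y' => ∑ i, (Z i ∘ φ.symm) y' • (cv i : X (m + 2)))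
            (∑ i, (fderiv ℝ (Z i ∘ φ.symm) y).smulRight (cv i)) y :=
          HasFDerivAt.fun_sum fun i _ =>
            ((hcd i y hy).differentiableAt (by norm_num)).hasFDerivAt.smul_const _
        rw [h2.fderiv]
        simp
      rw [h1]
      refine Finset.sum_congr rfl fun i _ => ?_
      congr 1
      rw [hJ _ _ S.smooth_x, hJ _ _ (hZ i), inner_eq_sum]
      exact ((hG m M S (φ.symm y)).2.2.2.2.2.2 (J ξ) (Z i)).symm)
    (by
      intro y hy
      rw [hDapp]
      refine Finset.sum_eq_zero fun i _ => ?_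
      have h1 := ((hG m M S (φ.symm y)).2.2.2.1 (Z i)).1
      have h2 : ⟪S.grad (Z i) (φ.symm y), (S.x ∘ φ.symm) y⟫_ℝ = 0 := by
        rw [inner_eq_sum, ← h1]
        exact Finset.sum_congr rfl fun j _ => mul_comm _ _
      rw [h2, zero_smul])
    (by
      intro y hy
      rw [hDapp]
      refine Finset.sum_eq_zero fun i _ => ?_
      have h1 := ((hG m M S (φ.symm y)).2.2.2.1 (Z i)).2
      have h2 : ⟪S.grad (Z i) (φ.symm y), (S.ν ∘ φ.symm) y⟫_ℝ = 0 := by
        rw [inner_eq_sum, ← h1]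
        exact Finset.sum_congr rfl fun j _ => mul_comm _ _
      rw [h2, zero_smul])
  rw [← main.2]
  refine setIntegral_congr_fun φ.open_target.measurableSet fun y _ => ?_
  simp only
  rw [htr y, normDet_eq S p₀ y, mul_comm]

theorem smooth_sum (hG : GcaStatement) {ι : Type} (s : Finset ι) (f : ι → M → ℝ)
    (hf : ∀ k, Smooth m (f k)) : Smooth m (fun p => ∑ k ∈ s, f k p) ∧
      ∀ p, S.grad (fun p => ∑ k ∈ s, f k p) p = ∑ k ∈ s, S.grad (f k) p := by
  classical
  induction s using Finset.induction_on with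
  | empty =>
    refine ⟨?_, fun p => ?_⟩
    · have h0 : (fun p : M => ∑ k ∈ (∅ : Finset ι), f k p) = fun _ => (0 : ℝ) := by
        funext p; simp
      rw [h0]
      exact contMDiff_const
    · simpa using (hG m M S p).1 0
  | insert a s ha ih =>
    have h0 : (fun p => ∑ k ∈ insert a s, f k p) = fun p => f a p + ∑ k ∈ s, f k p := by
      funext p
      rw [Finset.sum_insert ha]
    refine ⟨?_, fun p => ?_⟩
    · rw [h0]
      exact ContMDiff.add (hf a) ih.1
    · rw [h0, ((hG m M S p).2.1 (f a) _ (hf a) ih.1).2.2.1, ih.2 p, Finset.sum_insert ha]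

end

/-- Row GDV. -/
theorem gdv_proof (hC : ChtStatement) (hG : GcaStatement) (hS : GsmStatement)
    (hA : AfpStatement) : GdvStatement := by
  intro m M _ _ _ _ _ _ _ S μ hμ Y hY hYx hYν
  classical
  have : IsFiniteMeasure μ := (hA m M S μ hμ).1
  obtain ⟨ρ, hρ⟩ := SmoothPartitionOfUnity.exists_isSubordinate (𝓡 m) (s := (Set.univ : Set M))
    isClosed_univ (fun p : M => (chartAt (X m) p).source)
    (fun p => (chartAt (X m) p).open_source)
    (fun p _ => Set.mem_iUnion.2 ⟨p, mem_chart_source (X m) p⟩)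
  have hfin : {k | (support (ρ k)).Nonempty}.Finite :=
    ρ.locallyFinite.finite_nonempty_of_compact
  set s : Finset M := hfin.toFinset with hs
  have hsum : ∀ p, ∑ k ∈ s, ρ k p = 1 := by
    intro p
    have h1 := ρ.sum_eq_one (Set.mem_univ p)
    rw [finsum_eq_sum_of_support_subset (s := s)] at h1
    · exact h1
    · intro k hk
      rw [hs, Set.Finite.coe_toFinset]
      exact ⟨p, hk⟩
  have hρs : ∀ k, Smooth m (ρ k) := fun k => (ρ k).contMDiff
  have hZs : ∀ k i, Smooth m (fun p => ρ k p * Y i p) := fun k i =>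
    ContMDiff.mul (hρs k) (hY i)
  have hYeq : ∀ i, Y i = fun p => ∑ k ∈ s, ρ k p * Y i p := by
    intro i
    funext p
    rw [← Finset.sum_mul, hsum, one_mul]
  have hgrad : ∀ p, ∑ i, S.grad (Y i) p i = ∑ k ∈ s, ∑ i, S.grad (fun p => ρ k p * Y i p) p i := by
    intro p
    rw [Finset.sum_comm]
    refine Finset.sum_congr rfl fun i _ => ?_
    conv_lhs => rw [hYeq i]
    rw [(smooth_sum S hG s (fun k p => ρ k p * Y i p) (fun k => hZs k i)).2 p]
    simp
  simp_rw [hgrad]
  rw [integral_finsetSum]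
  · refine Finset.sum_eq_zero fun k _ => ?_
    refine div_local S hC hG hS hμ k (fun i p => ρ k p * Y i p) (fun i => hZs k i)
      (tsupport (ρ k)) (isClosed_tsupport _) (hρ k) ?_ ?_ ?_
    · intro i p hp
      rw [image_eq_zero_of_notMem_tsupport hp, zero_mul]
    · intro p
      have h1 : ∀ i, S.x p i * (ρ k p * Y i p) = ρ k p * (S.x p i * Y i p) := fun i => by ring
      simp_rw [h1]
      rw [← Finset.mul_sum, hYx, mul_zero]
    · intro p
      have h1 : ∀ i, S.ν p i * (ρ k p * Y i p) = ρ k p * (S.ν p i * Y i p) := fun i => by ring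
      simp_rw [h1]
      rw [← Finset.mul_sum, hYν, mul_zero]
  · intro k _
    have h1 : Continuous fun p => ∑ i, S.grad (fun p => ρ k p * Y i p) p i := by
      refine continuous_finsetSum _ fun i _ => ?_
      have h1 : Continuous (S.grad (fun p => ρ k p * Y i p)) :=
        (hS m M S _ (hZs k i)).continuous
      exact (continuous_apply i).comp ((PiLp.continuous_ofLp 2 _).comp h1)
    exact h1.integrable_of_hasCompactSupport (HasCompactSupport.of_compactSpace _)

end MPfbfa44
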