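import Mathlib
import Pool.Agent.Lib.MP_fbfa44_gt.IX.Geo

set_option autoImplicit false

/-!
# Row GHS: the Hessian is symmetric on tangent vectors
-/

namespace MPfbfa44

open scoped ContDiff Manifold

namespace Ghs

theorem two_le : (2 : WithTop ℕ∞) ≤ ∞ := by
  change ((2 : ℕ∞) : WithTop ℕ∞) ≤ ((⊤ : ℕ∞) : WithTop ℕ∞)
  exact WithTop.coe_le_coe.2 le_top

/-- The local computation: `<G, dF v> = du v` on an open set. -/
theorem local_symm {m n : ℕ} (U : Set (X m)) (hU : IsOpen U) (F G : X m → X n) (u : X m → ℝ)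
    (hF : ContDiffOn ℝ ∞ F U) (hG : ContDiffOn ℝ ∞ G U) (hu : ContDiffOn ℝ ∞ u U)
    (h : ∀ y ∈ U, ∀ v, (inner ℝ (G y) (fderiv ℝ F y v) : ℝ) = fderiv ℝ u y v)
    (y : X m) (hy : y ∈ U) (a b : X m) :
    (inner ℝ (fderiv ℝ G y b) (fderiv ℝ F y a) : ℝ) =
      inner ℝ (fderiv ℝ G y a) (fderiv ℝ F y b) := by
  have hnhds : U ∈ nhds y := hU.mem_nhds hy
  have hFa : ContDiffAt ℝ ∞ F y := hF.contDiffAt hnhds
  have hGa : ContDiffAt ℝ ∞ G y := hG.contDiffAt hnhds
  have hua : ContDiffAt ℝ ∞ u y := hu.contDiffAt hnhds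
  have hGd : DifferentiableAt ℝ G y := hGa.differentiableAt (by simp)
  have hF' : DifferentiableAt ℝ (fderiv ℝ F) y :=
    (hFa.fderiv_right (m := 1) (by rw [one_add_one_eq_two]; exact two_le)).differentiableAt (by simp)
  have hu' : DifferentiableAt ℝ (fderiv ℝ u) y :=
    (hua.fderiv_right (m := 1) (by rw [one_add_one_eq_two]; exact two_le)).differentiableAt (by simp)
  have hsF : IsSymmSndFDerivAt ℝ F y := hFa.isSymmSndFDerivAt
    (by rw [minSmoothness_of_isRCLikeNormedField]; exact two_le)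
  have hsu : IsSymmSndFDerivAt ℝ u y := hua.isSymmSndFDerivAt
    (by rw [minSmoothness_of_isRCLikeNormedField]; exact two_le)
  have key : ∀ v w : X m, (inner ℝ (fderiv ℝ G y w) (fderiv ℝ F y v) : ℝ) =
      fderiv ℝ (fderiv ℝ u) y w v - inner ℝ (G y) (fderiv ℝ (fderiv ℝ F) y w v) := by
    intro v w
    have hev : (fun y' => (inner ℝ (G y') (fderiv ℝ F y' v) : ℝ)) =ᶠ[nhds y]
        fun y' => fderiv ℝ u y' v := by
      filter_upwards [hnhds] with y' hy' using h y' hy' v
    have h1 : HasFDerivAt (fun y' => fderiv ℝ F y' v)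
        ((fderiv ℝ (fderiv ℝ F) y).flip v) y := by
      have := hF'.hasFDerivAt.clm_apply (hasFDerivAt_const v y)
      simpa using this
    have h2 : HasFDerivAt (fun y' => fderiv ℝ u y' v)
        ((fderiv ℝ (fderiv ℝ u) y).flip v) y := by
      have := hu'.hasFDerivAt.clm_apply (hasFDerivAt_const v y)
      simpa using this
    have h3 := hGd.hasFDerivAt.inner ℝ h1
    have h4 := (h3.congr_of_eventuallyEq hev.symm).unique h2
    have h5 := congrArg (fun L : X m →L[ℝ] ℝ => L w) h4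
    simp only [ContinuousLinearMap.comp_apply, fderivInnerCLM_apply,
      ContinuousLinearMap.prod_apply, ContinuousLinearMap.flip_apply] at h5
    linarith
  rw [key a b, key b a, hsu.eq a b, hsF.eq a b]

end Ghs

theorem ghs_proof (hC : ChtStatement) (hD : GrdStatement) (hM : GsmStatement) :
    GhsStatement := by
  intro m M _ _ _ S f hf p u w hxu hνu hxw hνw
  obtain ⟨-, hgr, -, htan⟩ := hD m M S p
  obtain ⟨hc1, -, hc3⟩ := hC m M S p
  have hGs : Smooth m (S.grad f) := hM m M S f hf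
  have hGi : ∀ i, Smooth m (fun p' => S.grad f p' i) := fun i =>
    ((EuclideanSpace.proj (𝕜 := ℝ) i : X (m + 2) →L[ℝ] ℝ).contMDiff).comp hGs
  -- tangent vectors
  have hu : ∃ v, WithLp.toLp 2 u = der m S.x p v := by
    refine htan _ ?_ ?_
    · rw [real_inner_comm, PiLp.inner_apply]
      simpa using hxu
    · rw [real_inner_comm, PiLp.inner_apply]
      simpa using hνu
  have hw : ∃ v, WithLp.toLp 2 w = der m S.x p v := by
    refine htan _ ?_ ?_
    · rw [real_inner_comm, PiLp.inner_apply]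
      simpa using hxw
    · rw [real_inner_comm, PiLp.inner_apply]
      simpa using hνw
  obtain ⟨v1, hv1⟩ := hu
  obtain ⟨v2, hv2⟩ := hw
  have hui : ∀ i, u i = der m S.x p v1 i := fun i => by rw [← hv1]
  have hwi : ∀ i, w i = der m S.x p v2 i := fun i => by rw [← hv2]
  have hder : ∀ i v, der m (fun p' => S.grad f p' i) p v = der m (S.grad f) p v i := by
    intro i v
    have h1 : MDifferentiableAt (𝓡 m) 𝓘(ℝ, X (m + 2)) (S.grad f) p :=
      (hGs p).mdifferentiableAt (by simp)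
    have h2 : MDifferentiableAt 𝓘(ℝ, X (m + 2)) 𝓘(ℝ, ℝ)
      (EuclideanSpace.proj (𝕜 := ℝ) i : X (m + 2) →L[ℝ] ℝ) (S.grad f p) :=
      (EuclideanSpace.proj (𝕜 := ℝ) i : X (m + 2) →L[ℝ] ℝ).mdifferentiableAt
    have h3 := mfderiv_comp p h2 h1
    have h4 := congrArg (fun L : X m →L[ℝ] ℝ => L v) h3
    simp only [ContinuousLinearMap.mfderiv_eq] at h4
    exact h4
  have hin : ∀ i v, ∑ j, der m S.x p v j * S.grad (fun p' => S.grad f p' i) p j =
      der m (S.grad f) p v i := by
    intro i v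
    have := (hgr (fun p' => S.grad f p' i)).2 v
    rw [PiLp.inner_apply] at this
    rw [← hder, ← this]
    exact Finset.sum_congr rfl fun j _ => by simp
  have hL : ∑ i, ∑ j, u i * w j * S.grad (fun p' => S.grad f p' i) p j =
      inner ℝ (der m (S.grad f) p v2) (der m S.x p v1) := by
    rw [PiLp.inner_apply]
    refine Finset.sum_congr rfl fun i _ => ?_
    rw [← hin i v2]
    simp only [hui, hwi, mul_assoc]
    rw [← Finset.mul_sum]
    simp
  have hR : ∑ i, ∑ j, u i * w j * S.grad (fun p' => S.grad f p' j) p i =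
      inner ℝ (der m (S.grad f) p v1) (der m S.x p v2) := by
    rw [PiLp.inner_apply, Finset.sum_comm]
    refine Finset.sum_congr rfl fun j _ => ?_
    rw [← hin j v1]
    simp only [hui, hwi]
    have : ∀ i, der m S.x p v1 i * der m S.x p v2 j * S.grad (fun p' => S.grad f p' j) p i =
        der m S.x p v2 j * (der m S.x p v1 i * S.grad (fun p' => S.grad f p' j) p i) :=
      fun i => by ring
    simp only [this]
    rw [← Finset.mul_sum]
    simp
  rw [hL, hR]
  -- the chart
  set φ := chartAt (X m) p with hφ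
  have hp : p ∈ φ.source := mem_chart_source _ _
  have hy : φ p ∈ φ.target := φ.map_source hp
  have hback : φ.symm (φ p) = p := φ.left_inv hp
  obtain ⟨J, hJ⟩ := hc3 (φ p) hy
  rw [hback] at hJ
  have e1 : ∀ v, der m (S.grad f) p v = fderiv ℝ (S.grad f ∘ φ.symm) (φ p) (J.symm v) := by
    intro v
    rw [hJ _ (S.grad f) hGs, J.apply_symm_apply]
  have e2 : ∀ v, der m S.x p v = fderiv ℝ (S.x ∘ φ.symm) (φ p) (J.symm v) := by
    intro v
    rw [hJ _ S.x S.smooth_x, J.apply_symm_apply]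
  rw [e1, e1, e2, e2]
  refine Ghs.local_symm φ.target φ.open_target (S.x ∘ φ.symm) (S.grad f ∘ φ.symm)
    (f ∘ φ.symm) (hc1 _ _ S.smooth_x) (hc1 _ _ hGs) (hc1 _ _ hf) ?_ (φ p) hy _ _
  intro y hy' v
  obtain ⟨J', hJ'⟩ := hc3 y hy'
  rw [hJ' _ S.x S.smooth_x, hJ' _ f hf]
  exact ((hD m M S (φ.symm y)).2.1 f).2 (J' v)

end MPfbfa44
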