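import Pool.Agent.Lib.MP_fbfa44_gt.IX.Geo

set_option autoImplicit false

/-!
# Row GRD: the gradient is characterised by `<grad f, dx v> = df v` in the image of `dx`
-/

namespace MPfbfa44

open MeasureTheory Module
open scoped Manifold ContDiff

section lin

variable {m : ℕ}

theorem sum_cv (v : X m) : v = ∑ k, v k • cv k := by
  have h := (EuclideanSpace.basisFun (Fin m) ℝ).sum_repr v
  simpa [cv, EuclideanSpace.basisFun_apply] using h.symm

theorem cv_indep : LinearIndependent ℝ (cv : Fin m → X m) := by
  have h := (EuclideanSpace.basisFun (Fin m) ℝ).toBasis.linearIndependent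
  have h2 : ((EuclideanSpace.basisFun (Fin m) ℝ).toBasis : Fin m → X m) = cv := by
    ext i : 1
    simp [cv]
  rwa [h2] at h

end lin

namespace Hypersurface

variable {m : ℕ} {M : Type} [TopologicalSpace M] [ChartedSpace (X m) M] (S : Hypersurface m M)

/-- a smooth map has a derivative -/
theorem hasM {F : Type} [NormedAddCommGroup F] [NormedSpace ℝ F] {f : M → F} (hf : Smooth m f)
    (p : M) : HasMFDerivAt (𝓡 m) 𝓘(ℝ, F) f p (der (F := F) m f p) := by
  have h1 : MDifferentiableAt (𝓡 m) 𝓘(ℝ, F) f p :=
    (ContMDiff.mdifferentiable (hf : ContMDiff (𝓡 m) 𝓘(ℝ, F) ∞ f) (by simp)) p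
  exact h1.hasMFDerivAt

/-- the position vector is orthogonal to the tangent space -/
theorem inner_x_dx (p : M) (v : X m) : (inner ℝ (S.x p) (der m S.x p v) : ℝ) = 0 := by
  have h1 := hasM S.smooth_x p
  have h2 : HasFDerivAt (fun y : X (m + 2) => ‖y‖ ^ 2) (2 • innerSL ℝ (S.x p)) (S.x p) :=
    (hasStrictFDerivAt_norm_sq (S.x p)).hasFDerivAt
  have h3 := h2.hasMFDerivAt.comp p h1
  have h4 : HasMFDerivAt (𝓡 m) 𝓘(ℝ, ℝ) (fun _ : M => (1 : ℝ)) p
      (0 : TangentSpace (𝓡 m) p →L[ℝ] TangentSpace 𝓘(ℝ, ℝ) (1 : ℝ)) := hasMFDerivAt_const _ _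
  have h5 : (fun y : X (m + 2) => ‖y‖ ^ 2) ∘ S.x = fun _ : M => (1 : ℝ) := by
    ext q
    simp [S.norm_x q]
  rw [h5] at h3
  have h6 := hasMFDerivAt_unique h3 h4
  have h7 := congrArg (fun L : X m →L[ℝ] ℝ => L v) h6
  have h8 : (2 • innerSL ℝ (S.x p)) (der m S.x p v) = (0 : ℝ) := h7
  have h9 : 2 * (inner ℝ (S.x p) (der m S.x p v) : ℝ) = 0 := by
    simpa using h8
  linarith

theorem gram_posDef (p : M) : (S.gram p).PosDef := by
  have h1 : LinearIndependent ℝ fun i : Fin m => der m S.x p (cv i) := by
    have h2 := (cv_indep (m := m)).map' (der m S.x p : X m →ₗ[ℝ] X (m + 2))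
      (LinearMap.ker_eq_bot.2 (S.immersion p))
    exact h2
  have h3 := Matrix.posDef_gram_of_linearIndependent (𝕜 := ℝ) h1
  exact h3

end Hypersurface

open Hypersurface in
theorem grd_proof : GrdStatement := by
  intro m M _ _ S p
  have hpd := S.gram_posDef p
  have hdet : 0 < (S.gram p).det := hpd.det_pos
  have hinv : (S.gram p)⁻¹ * S.gram p = 1 :=
    Matrix.nonsing_inv_mul _ (isUnit_iff_ne_zero.2 hdet.ne')
  refine ⟨hdet, ?_, ?_, ?_⟩
  · intro f
    refine ⟨⟨∑ i, ∑ j, ((S.gram p)⁻¹ i j * der m f p (cv i)) • cv j, ?_⟩, ?_⟩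
    · simp only [grad, map_sum, map_smul]
    · have hk : ∀ k, (inner ℝ (S.grad f p) (der m S.x p (cv k)) : ℝ) = der m f p (cv k) := by
        intro k
        have e1 : (inner ℝ (S.grad f p) (der m S.x p (cv k)) : ℝ) =
            ∑ i, (∑ j, (S.gram p)⁻¹ i j * S.gram p j k) * der m f p (cv i) := by
          simp only [grad, sum_inner, inner_smul_left, Finset.sum_mul, gram, Matrix.of_apply]
          refine Finset.sum_congr rfl fun i _ => Finset.sum_congr rfl fun j _ => ?_
          simp
          ring
        rw [e1]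
        have e2 : ∀ i, ∑ j, (S.gram p)⁻¹ i j * S.gram p j k = (1 : Matrix (Fin m) (Fin m) ℝ) i k :=
          fun i => by rw [← hinv, Matrix.mul_apply]
        simp only [e2, Matrix.one_apply, ite_mul, one_mul, zero_mul, Finset.sum_ite_eq',
          Finset.mem_univ, if_true]
      intro v
      rw [sum_cv v]
      simp only [map_sum, map_smul, inner_sum, inner_smul_right, hk, smul_eq_mul]
  · intro u hu
    have h1 := hu u
    rw [inner_self_eq_zero] at h1
    exact S.immersion p (h1.trans (map_zero _).symm)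
  · intro w hw1 hw2
    set W : Submodule ℝ (X (m + 2)) := Submodule.span ℝ (Set.range ![S.x p, S.ν p]) with hW
    have hon : Orthonormal ℝ ![S.x p, S.ν p] := by
      rw [orthonormal_iff_ite]
      intro i j
      fin_cases i <;> fin_cases j <;>
        simp [S.norm_x p, S.norm_ν p, S.inner_ν_x p]
      rw [real_inner_comm]
      exact S.inner_ν_x p
    have h2 : finrank ℝ W = 2 := by
      rw [hW, finrank_span_eq_card hon.linearIndependent]
      simp
    have h3 := W.finrank_add_finrank_orthogonal
    rw [h2, finrank_euclideanSpace, Fintype.card_fin] at h3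
    have h4 : finrank ℝ (LinearMap.range (der m S.x p : X m →ₗ[ℝ] X (m + 2))) = m := by
      rw [LinearMap.finrank_range_of_inj (S.immersion p), finrank_euclideanSpace, Fintype.card_fin]
    have h5 : LinearMap.range (der m S.x p : X m →ₗ[ℝ] X (m + 2)) ≤ Wᗮ := by
      rintro _ ⟨v, rfl⟩
      rw [Submodule.mem_orthogonal]
      intro y hy
      induction hy using Submodule.span_induction with
      | mem y hy =>
        obtain ⟨i, rfl⟩ := hy
        fin_cases i
        · exact S.inner_x_dx p v
        · exact S.inner_ν_dx p v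
      | zero => exact inner_zero_left _
      | add a b _ _ ha hb => rw [inner_add_left, ha, hb, add_zero]
      | smul c a _ ha => rw [inner_smul_left, ha, mul_zero]
    have h6 := Submodule.eq_of_le_of_finrank_eq h5 (by omega)
    have h7 : w ∈ Wᗮ := by
      rw [Submodule.mem_orthogonal]
      intro y hy
      induction hy using Submodule.span_induction with
      | mem y hy =>
        obtain ⟨i, rfl⟩ := hy
        fin_cases i
        · exact hw1
        · exact hw2
      | zero => exact inner_zero_left _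
      | add a b _ _ ha hb => rw [inner_add_left, ha, hb, add_zero]
      | smul c a _ ha => rw [inner_smul_left, ha, mul_zero]
    rw [← h6] at h7
    obtain ⟨u, hu⟩ := h7
    exact ⟨u, hu.symm⟩

end MPfbfa44
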