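import Mathlib
import Pool.Agent.Lib.MP_fbfa44_gt.IX.Geo

set_option autoImplicit false

/-!
# Row GRL of MP_fbfa44_gt: the gradient in a chart
-/

namespace MPfbfa44

open scoped Manifold ContDiff

namespace GRL

variable {E : Type*} [NormedAddCommGroup E] [InnerProductSpace ℝ E] {m : ℕ}

/-- The vector of the span of `a` with prescribed inner products `φ` with the `a i`. -/
noncomputable def gvec (a : Fin m → E) (φ : Fin m → ℝ) : E :=
  ∑ i, ∑ j, ((Matrix.gram ℝ a)⁻¹ i j * φ i) • a j

theorem gvec_mem (a : Fin m → E) (φ : Fin m → ℝ) : gvec a φ ∈ Submodule.span ℝ (Set.range a) :=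
  Submodule.sum_mem _ fun _ _ => Submodule.sum_mem _ fun j _ =>
    Submodule.smul_mem _ _ (Submodule.subset_span ⟨j, rfl⟩)

theorem gram_det_pos {a : Fin m → E} (ha : LinearIndependent ℝ a) :
    0 < (Matrix.gram ℝ a).det :=
  (Matrix.posDef_gram_of_linearIndependent ha).det_pos

theorem inner_gvec {a : Fin m → E} (ha : LinearIndependent ℝ a) (φ : Fin m → ℝ) (k : Fin m) :
    (inner ℝ (gvec a φ) (a k) : ℝ) = φ k := by
  have hu : IsUnit (Matrix.gram ℝ a).det := (gram_det_pos ha).ne'.isUnit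
  have h1 : (Matrix.gram ℝ a)⁻¹ * (Matrix.gram ℝ a) = 1 := Matrix.nonsing_inv_mul _ hu
  have h2 : ∀ i, ∑ j, (Matrix.gram ℝ a)⁻¹ i j * (inner ℝ (a j) (a k) : ℝ) =
      if i = k then 1 else 0 := by
    intro i
    have := congrFun (congrFun h1 i) k
    rw [Matrix.mul_apply, Matrix.one_apply] at this
    exact this
  calc (inner ℝ (gvec a φ) (a k) : ℝ)
      = ∑ i, ∑ j, ((Matrix.gram ℝ a)⁻¹ i j * φ i) * (inner ℝ (a j) (a k) : ℝ) := by
        unfold gvec
        rw [sum_inner]
        refine Finset.sum_congr rfl fun i _ => ?_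
        rw [sum_inner]
        refine Finset.sum_congr rfl fun j _ => ?_
        rw [real_inner_smul_left]
    _ = ∑ i, φ i * ∑ j, (Matrix.gram ℝ a)⁻¹ i j * (inner ℝ (a j) (a k) : ℝ) := by
        refine Finset.sum_congr rfl fun i _ => ?_
        rw [Finset.mul_sum]
        refine Finset.sum_congr rfl fun j _ => by ring
    _ = φ k := by simp [h2]

theorem eq_gvec {a : Fin m → E} (ha : LinearIndependent ℝ a) {φ : Fin m → ℝ} {g : E}
    (hg : g ∈ Submodule.span ℝ (Set.range a)) (h : ∀ k, (inner ℝ g (a k) : ℝ) = φ k) :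
    g = gvec a φ := by
  have h0 : g - gvec a φ ∈ Submodule.span ℝ (Set.range a) := Submodule.sub_mem _ hg (gvec_mem a φ)
  have h1 : ∀ w ∈ Submodule.span ℝ (Set.range a), (inner ℝ (g - gvec a φ) w : ℝ) = 0 := by
    intro w hw
    induction hw using Submodule.span_induction with
    | mem w hw =>
      obtain ⟨k, rfl⟩ := hw
      rw [inner_sub_left, h k, inner_gvec ha, sub_self]
    | zero => exact inner_zero_right _
    | add u v _ _ hu hv => rw [inner_add_right, hu, hv, add_zero]
    | smul c u _ hu => rw [real_inner_smul_right, hu, mul_zero]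
  have h2 := h1 _ h0
  rw [inner_self_eq_zero, sub_eq_zero] at h2
  exact h2

/-- Expansion of a vector in the coordinate vectors. -/
theorem sum_cv (v : X m) : v = ∑ i, v i • (cv i : X m) := by
  have h := (EuclideanSpace.basisFun (Fin m) ℝ).sum_repr v
  simpa [cv, EuclideanSpace.basisFun_apply] using h.symm

theorem li_cv : LinearIndependent ℝ (cv : Fin m → X m) := by
  have h := (EuclideanSpace.basisFun (Fin m) ℝ).toBasis.linearIndependent
  have h2 : (⇑(EuclideanSpace.basisFun (Fin m) ℝ).toBasis : Fin m → X m) = cv := by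
    funext i
    simp [cv, EuclideanSpace.basisFun_apply]
  rwa [h2] at h

end GRL

open GRL in
/-- Row GRL: the gradient in a chart. -/
theorem grl_proof (hc : ChtStatement) (hg : GrdStatement) : GrlStatement := by
  intro m M _ _ _ S p₀ f hf y hy
  obtain ⟨J, hJ⟩ := (hc m M S p₀).2.2 y hy
  set p : M := (chartAt (X m) p₀).symm y with hp
  set a : Fin m → X (m + 2) :=
    fun i => fderiv ℝ (S.x ∘ (chartAt (X m) p₀).symm) y (cv i) with ha
  have ha' : ∀ i, a i = der m S.x p (J (cv i)) := fun i => hJ _ S.x S.smooth_x (cv i)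
  have hli : LinearIndependent ℝ a := by
    have h1 : LinearIndependent ℝ
        (((der m S.x p : X m →ₗ[ℝ] X (m + 2)) ∘ₗ (J : X m →ₗ[ℝ] X m)) ∘ (cv : Fin m → X m)) := by
      refine LinearIndependent.map' li_cv _ ?_
      rw [LinearMap.ker_eq_bot]
      exact (S.immersion p).comp J.injective
    have h2 : a = ((der m S.x p : X m →ₗ[ℝ] X (m + 2)) ∘ₗ (J : X m →ₗ[ℝ] X m)) ∘
        (cv : Fin m → X m) := by
      funext i
      exact ha' i
    rw [h2]
    exact h1
  have hG : S.gramChart p₀ y = Matrix.gram ℝ a := rfl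
  rw [hG]
  refine ⟨gram_det_pos hli, ?_⟩
  obtain ⟨⟨u, hu⟩, hin⟩ := (hg m M S p).2.1 f
  refine eq_gvec (φ := fun i => fderiv ℝ (f ∘ (chartAt (X m) p₀).symm) y (cv i)) hli ?_ ?_
  · rw [hu]
    have h3 : der m S.x p u = ∑ i, (J.symm u) i • a i := by
      have h4 : u = J (∑ i, (J.symm u) i • (cv i : X m)) := by
        rw [← sum_cv, J.apply_symm_apply]
      conv_lhs => rw [h4]
      rw [map_sum, map_sum]
      refine Finset.sum_congr rfl fun i _ => ?_
      rw [map_smul, map_smul, ha']
    rw [h3]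
    exact Submodule.sum_mem _ fun i _ => Submodule.smul_mem _ _ (Submodule.subset_span ⟨i, rfl⟩)
  · intro k
    rw [ha', hin, ← hJ _ f hf]

end MPfbfa44
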