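import Mathlib
import Pool.Agent.Lib.MP_fbfa44_gt.IX.Geo
import Pool.Agent.Lib.MP_fbfa44_gt.GEO.H63.Calc

set_option autoImplicit false

/-!
# Row GSM: the gradient of a smooth function is smooth
-/

namespace MPfbfa44

open MeasureTheory
open scoped Manifold ContDiff

/-- Row GSM (from CHT, GRL): the gradient is smooth. -/
theorem gsm_proof (hC : ChtStatement) (hL : GrlStatement) : GsmStatement := by
  intro m M _ _ _ S f hf
  have key : ∀ p₁ : M, ContDiffOn ℝ ∞ (S.grad f ∘ (chartAt (X m) p₁).symm)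
      (chartAt (X m) p₁).target := by
    intro p₁
    have hU : IsOpen (chartAt (X m) p₁).target := (chartAt (X m) p₁).open_target
    have hF := (hC m M S p₁).1 _ S.x S.smooth_x
    have hg := (hC m M S p₁).1 _ f hf
    have h1 : ContDiffOn ℝ ∞ (fderiv ℝ (S.x ∘ (chartAt (X m) p₁).symm))
        (chartAt (X m) p₁).target := hF.fderiv_of_isOpen hU (by norm_num)
    have h2 : ContDiffOn ℝ ∞ (fderiv ℝ (f ∘ (chartAt (X m) p₁).symm))
        (chartAt (X m) p₁).target := hg.fderiv_of_isOpen hU (by norm_num)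
    have h1' : ∀ v, ContDiffOn ℝ ∞ (fun y => fderiv ℝ (S.x ∘ (chartAt (X m) p₁).symm) y v)
        (chartAt (X m) p₁).target := fun v => h1.clm_apply contDiffOn_const
    have h2' : ∀ v, ContDiffOn ℝ ∞ (fun y => fderiv ℝ (f ∘ (chartAt (X m) p₁).symm) y v)
        (chartAt (X m) p₁).target := fun v => h2.clm_apply contDiffOn_const
    have hG : ∀ i j, ContDiffOn ℝ ∞ (fun y => S.gramChart p₁ y i j)
        (chartAt (X m) p₁).target := fun i j => (h1' (cv i)).inner ℝ (h1' (cv j))
    have hI := Pool.Agent.IDX.Geo.contDiffOn_inv hG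
      (fun y hy => (hL m M S p₁ f hf y hy).1.ne')
    have hS : ContDiffOn ℝ ∞ (fun y => ∑ i, ∑ j, ((S.gramChart p₁ y)⁻¹ i j *
        fderiv ℝ (f ∘ (chartAt (X m) p₁).symm) y (cv i)) •
          fderiv ℝ (S.x ∘ (chartAt (X m) p₁).symm) y (cv j)) (chartAt (X m) p₁).target :=
      ContDiffOn.sum fun i _ => ContDiffOn.sum fun j _ =>
        ((hI i j).mul (h2' (cv i))).smul (h1' (cv j))
    exact hS.congr fun y hy => (hL m M S p₁ f hf y hy).2
  intro p
  exact (hC m M S p).2.1 _ _ key p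

end MPfbfa44
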