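import Mathlib
import Pool.Agent.Lib.MP_fbfa44_gt.IX.Geo
import Pool.Agent.Lib.MP_fbfa44_gt.IX.Cht
import Pool.Agent.Lib.MP_fbfa44_gt.IX.Grd
import Pool.Agent.Lib.MP_fbfa44_gt.IX.Grl
import Pool.Agent.Lib.MP_fbfa44_gt.IX.Gsm
import Pool.Agent.Lib.MP_fbfa44_gt.IX.Ghs
import Pool.Agent.Lib.MP_fbfa44_gt.IX.Gca
import Pool.Agent.Lib.MP_fbfa44_gt.IX.Gcu
import Pool.Agent.Lib.MP_fbfa44_gt.IX.Gdv
import Pool.Agent.Lib.MP_fbfa44_gt.IX.Afp
import Pool.Agent.Lib.MP_fbfa44_gt.IX.Cnn

set_option autoImplicit false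

/-!
# Row CAO: the abstract calculus of a minimal hypersurface
-/

namespace MPfbfa44

open MeasureTheory
open scoped Manifold ContDiff

theorem gca0 : GcaStatement := gca_proof grd_proof

theorem gsm0 : GsmStatement := gsm_proof cht_proof (grl_proof cht_proof grd_proof)

theorem ghs0 : GhsStatement := ghs_proof cht_proof grd_proof gsm0

theorem gcu0 : GcuStatement := gcu_proof cht_proof grd_proof

theorem cnn0 : CnnStatement := cnn_proof gca0

theorem gdv0 : GdvStatement := gdv_proof cht_proof gca0 gsm0 afp_proof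

section

variable {m : ℕ} {M : Type} [TopologicalSpace M] [ChartedSpace (X m) M] [IsManifold (𝓡 m) ∞ M]

theorem smooth_comp (f : M → X (m + 2)) (hf : Smooth m f) (i : Fin (m + 2)) :
    Smooth m (fun p => f p i) := by
  have h : ContMDiff 𝓘(ℝ, X (m + 2)) 𝓘(ℝ, ℝ) ∞ (fun w : X (m + 2) => w i) :=
    (EuclideanSpace.proj i : X (m + 2) →L[ℝ] ℝ).contDiff.contMDiff
  exact h.comp hf

theorem sum_mul_self_of_norm {n : ℕ} (v : X n) (h : ‖v‖ = 1) : ∑ i, v i * v i = 1 := by
  have h1 := inner_eq_sum v v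
  rw [← h1, real_inner_self_eq_norm_sq, h, one_pow]

end

/-- The abstract calculus of a minimal hypersurface. -/
noncomputable def calOf {m : ℕ} {M : Type} [TopologicalSpace M] [T2Space M] [CompactSpace M]
    [ConnectedSpace M] [ChartedSpace (X m) M] [IsManifold (𝓡 m) ∞ M] [MeasurableSpace M]
    [BorelSpace M] (S : Hypersurface m M) (hmin : S.IsMinimal) (μ : Measure M)
    (hμ : S.IsAreaMeasure μ) : Cal m where
  M := M
  μ := μ
  fin := (afp_proof m M S μ hμ).1
  opos := (afp_proof m M S μ hμ).2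
  Sm := Smooth m
  d := fun i f p => S.grad f p i
  x := fun i p => S.x p i
  ν := fun i p => S.ν p i
  cont := fun f hf => hf.continuous
  sconst := fun c => contMDiff_const
  sadd := fun f g hf hg => ((gca0 m M S (Classical.arbitrary M)).2.1 f g hf hg).1
  smul := fun f g hf hg => ((gca0 m M S (Classical.arbitrary M)).2.1 f g hf hg).2.1
  ssqrt := fun f hf h => ((gca0 m M S (Classical.arbitrary M)).2.2.1 f hf h).1
  sd := fun i f hf => smooth_comp _ (gsm0 m M S f hf) i
  sx := fun i => smooth_comp _ S.smooth_x i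
  sν := fun i => smooth_comp _ S.smooth_ν i
  dconst := fun i c p => by
    rw [(gca0 m M S p).1 c]
    rfl
  dadd := fun i f g hf hg p => by
    rw [((gca0 m M S p).2.1 f g hf hg).2.2.1]
    rfl
  dmul := fun i f g hf hg p => by
    rw [((gca0 m M S p).2.1 f g hf hg).2.2.2]
    show g p * S.grad f p i + f p * S.grad g p i = _
    ring
  dsqrt := fun i f hf h p => by
    rw [((gca0 m M S p).2.2.1 f hf h).2]
    show (2 * Real.sqrt (f p))⁻¹ * S.grad f p i = _
    rw [div_eq_inv_mul]
  xx := fun p => sum_mul_self_of_norm _ (S.norm_x p)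
  νν := fun p => sum_mul_self_of_norm _ (S.norm_ν p)
  xν := fun p => by
    have h1 := inner_eq_sum (S.ν p) (S.x p)
    rw [S.inner_ν_x p] at h1
    rw [h1]
    exact Finset.sum_congr rfl fun i _ => mul_comm _ _
  tx := fun f _ p => ((gca0 m M S p).2.2.2.1 f).1
  tν := fun f _ p => ((gca0 m M S p).2.2.2.1 f).2
  dx := fun i j p => (gca0 m M S p).2.2.2.2.1 i j
  hess := fun f hf p u w h1 h2 h3 h4 => ghs0 m M S f hf p u w h1 h2 h3 h4
  mean := fun p => by
    have h1 := (gcu0 m M S p).1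
    rw [hmin p] at h1
    linarith
  div := fun Y hY hx hν => gdv0 m M S μ hμ Y hY hx hν
  conn := fun f hf h p p' => cnn0 m M S f hf (fun p => by
    ext i
    exact h i p) p p'

section

variable {m : ℕ} {M : Type} [TopologicalSpace M] [T2Space M] [CompactSpace M]
    [ConnectedSpace M] [ChartedSpace (X m) M] [IsManifold (𝓡 m) ∞ M] [MeasurableSpace M]
    [BorelSpace M] (S : Hypersurface m M) (hmin : S.IsMinimal) (μ : Measure M)
    (hμ : S.IsAreaMeasure μ)

theorem calOf_q (p : M) : (calOf S hmin μ hμ).q p = S.normSqA p := by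
  rw [(gcu0 m M S p).2]
  refine Finset.sum_congr rfl fun i _ => Finset.sum_congr rfl fun j _ => ?_
  show -S.grad (fun p => S.ν p j) p i * -S.grad (fun p => S.ν p j) p i = _
  rw [neg_mul_neg]

theorem calOf_gp (f : M → ℝ) (p : M) : (calOf S hmin μ hμ).gp f f p = S.gradSq f p :=
  ((gca0 m M S p).2.2.2.2.2.1 f).symm

theorem calOf_Q (f : M → ℝ) : (calOf S hmin μ hμ).Q f = S.secondVariation μ f := by
  refine integral_congr_ae (Filter.Eventually.of_forall fun p => ?_)
  show (calOf S hmin μ hμ).gp f f p - ((calOf S hmin μ hμ).q p + m) * (f p * f p) =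
    S.gradSq f p - (S.normSqA p + m) * f p ^ 2
  rw [calOf_q, calOf_gp]
  ring

theorem calOf_idx (N : ℕ) (h : S.MorseIndexLE μ N) : (calOf S hmin μ hμ).IdxLE N := by
  intro V hV hneg
  exact h V hV fun f hf hf0 => by
    rw [← calOf_Q S hmin μ hμ f]
    exact hneg f hf hf0

end

end MPfbfa44
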