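import Mathlib
import Pool.Agent.Lib.MP_fbfa44_gt.IX.Geo

set_option autoImplicit false

/-!
# Row CLC: the Clifford hypersurface is connected and locally injective under projections
-/

namespace MPfbfa44

namespace Clc

/-- a sum over a block of indices -/
theorem sum_block {ι : Type} [Fintype ι] (P : ι → Prop) [DecidablePred P] (f : ι → ℝ) :
    (∑ i, if P i then f i else 0) = ∑ a : {i // P i}, f a := by
  rw [← Finset.sum_filter]
  exact Finset.sum_subtype _ (by simp) f

theorem sum_block' {ι : Type} [Fintype ι] (P : ι → Prop) [DecidablePred P] (f : ι → ℝ) :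
    (∑ i, if P i then 0 else f i) = ∑ a : {i // ¬ P i}, f a := by
  rw [← sum_block (fun i => ¬ P i) f]
  exact Finset.sum_congr rfl fun i _ => by by_cases h : P i <;> simp [h]

/-- glue two vectors -/
noncomputable def glue {ι : Type} [Fintype ι] (P : ι → Prop) [DecidablePred P]
    (z : EuclideanSpace ℝ {i // P i} × EuclideanSpace ℝ {i // ¬ P i}) : EuclideanSpace ℝ ι :=
  WithLp.toLp 2 fun i => if h : P i then z.1 ⟨i, h⟩ else z.2 ⟨i, h⟩

theorem glue_cont {ι : Type} [Fintype ι] (P : ι → Prop) [DecidablePred P] :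
    Continuous (glue (ι := ι) P) := by
  unfold glue
  refine (PiLp.continuous_toLp 2 _).comp (continuous_pi fun i => ?_)
  by_cases h : P i
  · simp only [h, dite_true]
    fun_prop
  · simp only [h, dite_false]
    fun_prop

theorem pre {ι : Type} [Fintype ι] (P : ι → Prop) [DecidablePred P] (a b : ℝ)
    (h1 : 1 < Fintype.card {i // P i}) (h2 : 1 < Fintype.card {i // ¬ P i}) (ha : 0 ≤ a)
    (hb : 0 ≤ b) :
    IsPreconnected {y : EuclideanSpace ℝ ι | (∑ i, if P i then y i ^ 2 else 0) = a ∧
      (∑ i, if P i then 0 else y i ^ 2) = b} := by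
  have hr1 : 1 < Module.rank ℝ (EuclideanSpace ℝ {i // P i}) := by
    rw [← Module.finrank_eq_rank, finrank_euclideanSpace]
    exact_mod_cast h1
  have hr2 : 1 < Module.rank ℝ (EuclideanSpace ℝ {i // ¬ P i}) := by
    rw [← Module.finrank_eq_rank, finrank_euclideanSpace]
    exact_mod_cast h2
  have hp := (isPreconnected_sphere hr1 0 (Real.sqrt a)).prod
    (isPreconnected_sphere hr2 0 (Real.sqrt b))
  have himg := hp.image (glue P) (glue_cont P).continuousOn
  have heq : {y : EuclideanSpace ℝ ι | (∑ i, if P i then y i ^ 2 else 0) = a ∧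
      (∑ i, if P i then 0 else y i ^ 2) = b} = glue P ''
        (Metric.sphere 0 (Real.sqrt a) ×ˢ Metric.sphere 0 (Real.sqrt b)) := by
    ext y
    simp only [Set.mem_ofPred_eq, Set.mem_image, Set.mem_prod, mem_sphere_zero_iff_norm,
      EuclideanSpace.norm_eq, Real.norm_eq_abs, sq_abs]
    rw [sum_block, sum_block']
    constructor
    · rintro ⟨hA, hB⟩
      refine ⟨(WithLp.toLp 2 fun i => y i, WithLp.toLp 2 fun i => y i), ⟨?_, ?_⟩, ?_⟩
      · simp only [hA]
      · simp only [hB]
      · ext i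
        by_cases h : P i <;> simp [glue]
    · rintro ⟨⟨u, w⟩, ⟨hu, hw⟩, rfl⟩
      simp only at hu hw
      constructor
      · rw [← Real.sqrt_inj (Finset.sum_nonneg fun i _ => sq_nonneg _) ha, ← hu]
        congr 1
        exact Finset.sum_congr rfl fun i _ => by simp [glue, i.2]
      · rw [← Real.sqrt_inj (Finset.sum_nonneg fun i _ => sq_nonneg _) hb, ← hw]
        congr 1
        exact Finset.sum_congr rfl fun i _ => by simp [glue, i.2]
  rw [heq]
  exact himg

/-- the sign argument on a block -/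
theorem block {ι : Type} (s : Finset ι) (y c c' : ι → ℝ) (r : ℝ)
    (h1 : ∑ i ∈ s, c i ^ 2 = ∑ i ∈ s, c' i ^ 2) (hd : ∀ i ∈ s, c i - c' i = r * y i)
    (hc : 0 < ∑ i ∈ s, y i * c i) (hc' : 0 < ∑ i ∈ s, y i * c' i) : r = 0 := by
  have h2 : r * (∑ i ∈ s, y i * c i + ∑ i ∈ s, y i * c' i) = 0 := by
    rw [← Finset.sum_add_distrib, Finset.mul_sum]
    have h3 : ∑ i ∈ s, (c i ^ 2 - c' i ^ 2) = 0 := by
      rw [Finset.sum_sub_distrib, h1, sub_self]
    rw [← h3]
    refine Finset.sum_congr rfl fun i hi => ?_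
    have := hd i hi
    calc r * (y i * c i + y i * c' i) = (r * y i) * (c i + c' i) := by ring
      _ = (c i - c' i) * (c i + c' i) := by rw [this]
      _ = c i ^ 2 - c' i ^ 2 := by ring
  rcases mul_eq_zero.1 h2 with h | h
  · exact h
  · exact absurd h (by positivity)

end Clc

theorem clc_proof : ClcStatement := by
  intro m k hk hkm
  have hm0 : (0 : ℝ) < m := by
    have : 0 < m := by omega
    exact_mod_cast this
  have hk0 : (0 : ℝ) < k := by exact_mod_cast (by omega : 0 < k)
  have hkm' : (k : ℝ) < m := by exact_mod_cast (by omega : k < m)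
  refine ⟨?_, ?_⟩
  · refine Clc.pre (fun i : Fin (m + 2) => (i : ℕ) < k + 1) _ _ ?_ ?_ (by positivity) ?_
    · rw [Fintype.one_lt_card_iff]
      refine ⟨⟨⟨0, by omega⟩, by simp⟩, ⟨⟨1, by omega⟩, by simp; omega⟩, ?_⟩
      simp
    · rw [Fintype.one_lt_card_iff]
      refine ⟨⟨⟨m, by omega⟩, by simp; omega⟩, ⟨⟨m + 1, by omega⟩, by simp; omega⟩, ?_⟩
      simp
    · exact div_nonneg (by linarith) hm0.le
  · intro y hy
    set A : Finset (Fin (m + 2)) := Finset.univ.filter fun i => (i : ℕ) < k + 1 with hA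
    set B : Finset (Fin (m + 2)) := Finset.univ.filter fun i => ¬ (i : ℕ) < k + 1 with hB
    have sA : ∀ f : Fin (m + 2) → ℝ, (∑ i : Fin (m + 2), if (i : ℕ) < k + 1 then f i else 0) =
        ∑ i ∈ A, f i := fun f => by rw [hA, Finset.sum_filter]
    have sB : ∀ f : Fin (m + 2) → ℝ, (∑ i : Fin (m + 2), if (i : ℕ) < k + 1 then 0 else f i) =
        ∑ i ∈ B, f i := fun f => by
      rw [hB, Finset.sum_filter]
      exact Finset.sum_congr rfl fun i _ => by by_cases h : (i : ℕ) < k + 1 <;> simp [h]
    have mem : ∀ c : X (m + 2), c ∈ clifford m k ↔ ∑ i ∈ A, c i ^ 2 = k / m ∧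
        ∑ i ∈ B, c i ^ 2 = (m - k : ℝ) / m := fun c => by
      rw [← sA, ← sB]; rfl
    refine ⟨{c | 0 < ∑ i ∈ A, y i * c i} ∩ {c | 0 < ∑ i ∈ B, y i * c i}, ?_, ⟨?_, ?_⟩, ?_⟩
    · refine (isOpen_lt continuous_const ?_).inter (isOpen_lt continuous_const ?_) <;> fun_prop
    · have h := ((mem y).1 hy).1
      have h' : ∑ i ∈ A, y i * y i = k / m := by
        rw [← h]; exact Finset.sum_congr rfl fun i _ => by ring
      simp only [Set.mem_ofPred_eq, h']
      positivity
    · have h := ((mem y).1 hy).2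
      have h' : ∑ i ∈ B, y i * y i = (m - k : ℝ) / m := by
        rw [← h]; exact Finset.sum_congr rfl fun i _ => by ring
      simp only [Set.mem_ofPred_eq, h']
      exact div_pos (by linarith) hm0
    · rintro c ⟨hc, hcA, hcB⟩ c' ⟨hc', hcA', hcB'⟩ s t hst
      have hs : s = 0 := by
        refine Clc.block A y c c' s ?_ ?_ hcA hcA'
        · rw [((mem c).1 hc).1, ((mem c').1 hc').1]
        · intro i hi
          have hi' : (i : ℕ) < k + 1 := by simpa [hA] using hi
          have := hst i
          rwa [if_pos hi'] at this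
      have ht : t = 0 := by
        refine Clc.block B y c c' t ?_ ?_ hcB hcB'
        · rw [((mem c).1 hc).2, ((mem c').1 hc').2]
        · intro i hi
          have hi' : ¬ (i : ℕ) < k + 1 := by simpa [hB] using hi
          have := hst i
          rwa [if_neg hi'] at this
      ext i
      have := hst i
      rw [hs, ht] at this
      simp only [zero_mul, ite_self] at this
      linarith

end MPfbfa44
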