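import Mathlib
import Pool.Agent.Lib.MP_fbfa44_gt.IX.Cal

set_option autoImplicit false

/-!
# Row EPT: `E ≥ 0` pointwise, and the case of equality
-/

namespace MPfbfa44

namespace Ept

/-- `E ≥ 0` at a zero of the second fundamental form. -/
theorem zero_case (m : ℕ) (G : Cal m) (hS : G.Str) (b : Fin (m + 2) → ℝ) (p : G.M)
    (hq0 : G.q p = 0) :
    0 ≤ G.E b p ∧
      (∀ k, (1 - G.h b p) * G.d k G.q p = 2 * m * G.q p * G.d k (G.h b) p) ∧
      m * ∑ i, (∑ j, G.B i j p * G.d j (G.h b) p) ^ 2 =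
        (m - 1) * G.q p * G.gp (G.h b) (G.h b) p := by
  have hB : ∀ i j, G.B i j p = 0 := by
    intro i j
    have h1 : ∑ i, ∑ j, G.B i j p * G.B i j p = 0 := hq0
    have h2 := (Finset.sum_eq_zero_iff_of_nonneg
      (fun i _ => Finset.sum_nonneg (fun j _ => mul_self_nonneg _))).1 h1 i (Finset.mem_univ i)
    have h3 := (Finset.sum_eq_zero_iff_of_nonneg
      (fun j _ => mul_self_nonneg _)).1 h2 j (Finset.mem_univ j)
    exact mul_self_eq_zero.1 h3
  have hd : ∀ k, G.d k G.q p = 0 := by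
    intro k
    rw [hS.dq]
    simp [hB]
  have hgp : G.gp G.q (G.h b) p = 0 := by simp [Cal.gp, hd]
  have hgq : G.gp G.q G.q p = 0 := by simp [Cal.gp, hd]
  have hE : G.E b p = G.tau p * (1 - G.h b p) ^ 2 := by
    simp [Cal.E, hgp, hgq, hq0, hB]
  have htau : 0 ≤ G.tau p := by
    unfold Cal.tau
    exact Finset.sum_nonneg (fun k _ => Finset.sum_nonneg (fun i _ =>
      Finset.sum_nonneg (fun j _ => mul_self_nonneg _)))
  refine ⟨?_, ?_, ?_⟩
  · rw [hE]
    positivity
  · intro k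
    rw [hd, hq0]
    ring
  · rw [hq0]
    simp [hB]

/-- The squared norm of a multiple. -/
theorem sum_scale {d : ℕ} (c : ℝ) (v w : Fin d → ℝ) :
    ∑ k, (c * v k) * (c * w k) = c ^ 2 * ∑ k, v k * w k := by
  rw [Finset.mul_sum]
  exact Finset.sum_congr rfl (fun k _ => by ring)

theorem sum_scale2 {d : ℕ} (c e : ℝ) (v w : Fin d → ℝ) :
    ∑ k, (c * v k) * (e * w k) = c * e * ∑ k, v k * w k := by
  rw [Finset.mul_sum]
  exact Finset.sum_congr rfl (fun k _ => by ring)

theorem sum_scaleB {d : ℕ} (c : ℝ) (B : Fin d → Fin d → ℝ) (v : Fin d → ℝ) :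
    ∑ i, (∑ j, B i j * (c * v j)) ^ 2 = c ^ 2 * ∑ i, (∑ j, B i j * v j) ^ 2 := by
  rw [Finset.mul_sum]
  refine Finset.sum_congr rfl (fun i _ => ?_)
  have : ∑ j, B i j * (c * v j) = c * ∑ j, B i j * v j := by
    rw [Finset.mul_sum]
    exact Finset.sum_congr rfl (fun j _ => by ring)
  rw [this]
  ring

/-- The elementary computation behind `E ≥ FORM / q`. -/
theorem num {m q tau u rr Br rh hh Bh : ℝ} (hm : 2 ≤ m) (hq : 0 < q)
    (hk : 2 * ((m + 2) / (m * q) * rr) - (q * (((m + 2) / (m * q)) ^ 2 * rr) +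
      (2 * m / (m + 2)) * (((m + 2) / (m * q)) ^ 2 * Br)) / 3 ≤ tau) :
    (1 / q) * ((2 * m ^ 2 + 8 * m - 4) / (3 * m ^ 2) * (u ^ 2 * rr) -
      2 * (m + 2) / (3 * m) * ((u ^ 2 * Br) / q) - 4 * (u * q * rh) +
      (m + 1) * (q ^ 2 * hh) + m * ((q ^ 2 * Bh) / q)) ≤
    (tau - 4 * rr / (4 * q)) * u ^ 2 - 2 * u * (2 * rh) + (m + 1) * q * hh + m * Bh := by
  have hm0 : (0 : ℝ) < m := by linarith
  have hm2 : (0 : ℝ) < m + 2 := by linarith
  have hne : m ≠ 0 := hm0.ne'
  have hne2 : m + 2 ≠ 0 := hm2.ne'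
  have hqn : q ≠ 0 := hq.ne'
  have e1 : (1 / q) * ((2 * m ^ 2 + 8 * m - 4) / (3 * m ^ 2) * (u ^ 2 * rr) -
      2 * (m + 2) / (3 * m) * ((u ^ 2 * Br) / q) - 4 * (u * q * rh) +
      (m + 1) * (q ^ 2 * hh) + m * ((q ^ 2 * Bh) / q)) =
      (2 * ((m + 2) / (m * q) * rr) - (q * (((m + 2) / (m * q)) ^ 2 * rr) +
      (2 * m / (m + 2)) * (((m + 2) / (m * q)) ^ 2 * Br)) / 3 - 4 * rr / (4 * q)) * u ^ 2 -
      2 * u * (2 * rh) + (m + 1) * q * hh + m * Bh := by
    field_simp
    ring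
  rw [e1]
  have h2 : 0 ≤ u ^ 2 := sq_nonneg u
  have h3 := mul_le_mul_of_nonneg_right (sub_le_sub_right hk (4 * rr / (4 * q))) h2
  linarith

end Ept

open Ept in
/-- Row EPT. -/
theorem ept_proof (hG : GrnStatement) (hK : KatStatement) (hO : OpnStatement)
    (hQ : QfmStatement) : EptStatement := by
  intro m G hS hm b p
  by_cases hq0 : G.q p = 0
  · obtain ⟨h1, h2, h3⟩ := zero_case m G hS b p hq0
    exact ⟨h1, fun _ => ⟨h2, h3⟩⟩
  have hqn : 0 ≤ G.q p :=
    Finset.sum_nonneg (fun i _ => Finset.sum_nonneg (fun j _ => mul_self_nonneg _))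
  have hq : 0 < G.q p := lt_of_le_of_ne hqn (Ne.symm hq0)
  have hSh : G.Sm (G.h b) := ((hG m G hS).2.2.2 b).1
  have hmR : (2 : ℝ) ≤ m := by exact_mod_cast hm
  have hm0 : (0 : ℝ) < m := by linarith
  -- the vectors
  set r : Fin (m + 2) → ℝ := fun k => G.d k G.q p / 2 with hr
  set w : Fin (m + 2) → ℝ := fun k => G.d k (G.h b) p with hw
  set u : ℝ := 1 - G.h b p with hu
  have hrk : ∀ k, r k = ∑ i, ∑ j, G.B i j p * G.T k i j p := by
    intro k
    simp only [hr]
    rw [hS.dq]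
    ring
  have hrx : ∑ i, G.x i p * r i = 0 := by
    have := G.tx G.q hS.sq p
    have h2 : ∑ i, G.x i p * r i = (∑ i, G.x i p * G.d i G.q p) / 2 := by
      rw [Finset.sum_div]
      exact Finset.sum_congr rfl (fun i _ => by simp only [hr]; ring)
    rw [h2, this]
    simp
  have hrν : ∑ i, G.ν i p * r i = 0 := by
    have := G.tν G.q hS.sq p
    have h2 : ∑ i, G.ν i p * r i = (∑ i, G.ν i p * G.d i G.q p) / 2 := by
      rw [Finset.sum_div]
      exact Finset.sum_congr rfl (fun i _ => by simp only [hr]; ring)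
    rw [h2, this]
    simp
  have hwx : ∑ i, G.x i p * w i = 0 := G.tx _ hSh p
  have hwν : ∑ i, G.ν i p * w i = 0 := G.tν _ hSh p
  -- the space of tangential vectors
  let W : Submodule ℝ (Fin (m + 2) → ℝ) :=
    { carrier := {v | ∑ i, G.x i p * v i = 0 ∧ ∑ i, G.ν i p * v i = 0}
      add_mem' := by
        intro a c ha hc
        simp only [Set.mem_setOf_eq] at ha hc ⊢
        constructor
        · simp only [Pi.add_apply, mul_add, Finset.sum_add_distrib]
          rw [ha.1, hc.1, add_zero]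
        · simp only [Pi.add_apply, mul_add, Finset.sum_add_distrib]
          rw [ha.2, hc.2, add_zero]
      zero_mem' := by simp
      smul_mem' := by
        intro c a ha
        simp only [Set.mem_setOf_eq] at ha ⊢
        constructor
        · have : ∑ i, G.x i p * (c • a) i = c * ∑ i, G.x i p * a i := by
            rw [Finset.mul_sum]
            exact Finset.sum_congr rfl (fun i _ => by simp only [Pi.smul_apply, smul_eq_mul]; ring)
          rw [this, ha.1, mul_zero]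
        · have : ∑ i, G.ν i p * (c • a) i = c * ∑ i, G.ν i p * a i := by
            rw [Finset.mul_sum]
            exact Finset.sum_congr rfl (fun i _ => by simp only [Pi.smul_apply, smul_eq_mul]; ring)
          rw [this, ha.2, mul_zero] }
  have hOW : ∀ v ∈ W, (m : ℝ) * ∑ i, (∑ j, G.B i j p * v j) ^ 2 ≤
      ((m : ℝ) - 1) * (G.q p * ∑ k, v k * v k) := by
    intro v hv
    exact hO m hm (fun i => G.x i p) (fun i => G.ν i p) (fun i j => G.B i j p) v
      (G.xx p) (G.νν p) (G.xν p) (fun i j => hS.Bs i j p) (fun i => hS.Bx i p)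
      (fun i => hS.Bν i p) (hS.Bt p) hv.1 hv.2
  have hrW : (fun k => u * r k) ∈ W := by
    have := W.smul_mem u (show r ∈ W from ⟨hrx, hrν⟩)
    exact this
  have hwW : (fun k => G.q p * w k) ∈ W := by
    have := W.smul_mem (G.q p) (show w ∈ W from ⟨hwx, hwν⟩)
    exact this
  obtain ⟨hF, hFe⟩ := hQ m hm (m + 2) (fun i j => G.B i j p) (G.q p) hq
    (fun i j => hS.Bs i j p) W hOW (fun k => u * r k) hrW (fun k => G.q p * w k) hwW
  -- the Kato inequality
  have hkat := hK m (by omega) (fun i => G.x i p) (fun i => G.ν i p) (fun i j => G.B i j p)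
    (fun k i j => G.T k i j p) r (fun k => ((m : ℝ) + 2) / (m * G.q p) * r k)
    (G.xx p) (G.νν p) (G.xν p) (fun i j => hS.Bs i j p) (fun i => hS.Bx i p)
    (fun i => hS.Bν i p) (hS.Bt p) (fun k i j => hS.T12 k i j p) (fun k i j => hS.T23 k i j p)
    (fun k i => hS.Tx k i p) (fun k i => hS.Tν k i p) (fun k => hS.Tt k p) hrk
    (by
      have := W.smul_mem (((m : ℝ) + 2) / (m * G.q p)) (show r ∈ W from ⟨hrx, hrν⟩)
      exact this.1)
    (by
      have := W.smul_mem (((m : ℝ) + 2) / (m * G.q p)) (show r ∈ W from ⟨hrx, hrν⟩)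
      exact this.2)
  have hz1 : ∑ k, r k * (((m : ℝ) + 2) / (m * G.q p) * r k) =
      ((m : ℝ) + 2) / (m * G.q p) * ∑ k, r k * r k := by
    rw [Finset.mul_sum]
    exact Finset.sum_congr rfl (fun k _ => by ring)
  rw [hz1, sum_scale, sum_scaleB] at hkat
  have hnum := num (u := u) (rh := ∑ k, r k * w k) (hh := ∑ k, w k * w k)
    (Bh := ∑ i, (∑ j, G.B i j p * w j) ^ 2) hmR hq hkat
  rw [sum_scale, sum_scaleB, sum_scale2, sum_scale, sum_scaleB] at hF hFe
  -- the identification of `E`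
  have hgqq : G.gp G.q G.q p = 4 * ∑ k, r k * r k := by
    simp only [Cal.gp, hr]
    rw [Finset.mul_sum]
    exact Finset.sum_congr rfl (fun k _ => by ring)
  have hgqh : G.gp G.q (G.h b) p = 2 * ∑ k, r k * w k := by
    simp only [Cal.gp, hr, hw]
    rw [Finset.mul_sum]
    exact Finset.sum_congr rfl (fun k _ => by ring)
  have hE : G.E b p = (G.tau p - 4 * (∑ k, r k * r k) / (4 * G.q p)) * u ^ 2 -
      2 * u * (2 * ∑ k, r k * w k) + (m + 1) * G.q p * (∑ k, w k * w k) +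
      m * ∑ i, (∑ j, G.B i j p * w j) ^ 2 := by
    unfold Cal.E
    rw [hgqq, hgqh]
    rfl
  have hle : (1 / G.q p) * _ ≤ G.E b p := le_of_le_of_eq hnum hE.symm
  have hqi : 0 < 1 / G.q p := by positivity
  refine ⟨le_trans (mul_nonneg hqi.le hF) hle, ?_⟩
  intro hE0
  rw [hE0] at hle
  have hF0 := nonpos_of_mul_nonpos_right hle hqi
  obtain ⟨h1, h2⟩ := hFe hF0
  constructor
  · intro k
    have := h1 k
    simp only [hr, hw] at this
    change u * G.d k G.q p = 2 * m * G.q p * G.d k (G.h b) p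
    linarith
  · change (m : ℝ) * ∑ i, (∑ j, G.B i j p * w j) ^ 2 =
      (m - 1) * G.q p * ∑ k, w k * w k
    have hq2 : (G.q p) ^ 2 ≠ 0 := by positivity
    apply mul_left_cancel₀ hq2
    linarith

end MPfbfa44
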