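import Mathlib
import Pool.Agent.Lib.MP_fbfa44_gt.IX.Geo

set_option autoImplicit false

/-!
# A compact embedded minimal hypersurface of the sphere is connected

The elementary proof for the sphere (Frankel): if `M` is the disjoint union of two nonempty clopen
sets, take `p` and `q` in the two parts with `⟨x p, x q⟩` maximal; the tangent spaces at `p` and
`q` coincide and the sum of the second derivatives in the directions `(e, e)` is
`2 m (1 - ⟨x p, x q⟩) > 0`.
-/

namespace MPfbfa44

open MeasureTheory Filter Topology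
open scoped Manifold ContDiff

/-- Statement FRK. -/
def FrkStatement : Prop :=
  ∀ (m : ℕ), 1 ≤ m → ∀ (M : Type) [TopologicalSpace M] [T2Space M] [CompactSpace M] [Nonempty M]
    [ChartedSpace (X m) M] [IsManifold (𝓡 m) ∞ M] (S : Hypersurface m M), S.IsMinimal →
    Function.Injective S.x → ConnectedSpace M

namespace Frk

section curves

variable {E : Type} [NormedAddCommGroup E] [InnerProductSpace ℝ E]

theorem evDiff {φ : ℝ → E} (h : ContDiffAt ℝ 2 φ 0) :
    ∀ᶠ s in 𝓝 (0 : ℝ), HasDerivAt φ (deriv φ s) s := by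
  have h1 : ∀ᶠ s in 𝓝 (0 : ℝ), ContDiffAt ℝ 2 φ s := h.eventually (by simp)
  filter_upwards [h1] with s hs
  exact (hs.differentiableAt (by norm_num)).hasDerivAt

theorem diff2 {φ : ℝ → E} (h : ContDiffAt ℝ 2 φ 0) :
    HasDerivAt (deriv φ) (deriv (deriv φ) 0) 0 := by
  have h1 : ContDiffAt ℝ 1 (deriv φ) 0 := by
    have h2 : ContDiffAt ℝ 1 (fderiv ℝ φ) 0 := h.fderiv_right (by norm_num)
    have : deriv φ = fun s => fderiv ℝ φ s 1 := by
      funext s; exact (fderiv_apply_one_eq_deriv).symm
    rw [this]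
    exact h2.clm_apply contDiffAt_const
  exact (h1.differentiableAt (by norm_num)).hasDerivAt

/-- The second derivative at a local maximum of `⟨φ, ψ⟩`. -/
theorem second_le {φ ψ : ℝ → E} (hφ : ContDiffAt ℝ 2 φ 0) (hψ : ContDiffAt ℝ 2 ψ 0)
    (hmax : IsLocalMax (fun s => (inner ℝ (φ s) (ψ s) : ℝ)) 0) :
    (inner ℝ (deriv (deriv φ) 0) (ψ 0) : ℝ) + 2 * inner ℝ (deriv φ 0) (deriv ψ 0) +
      inner ℝ (φ 0) (deriv (deriv ψ) 0) ≤ 0 := by
  set F : ℝ → ℝ := fun s => (inner ℝ (φ s) (ψ s) : ℝ) with hF
  have h1 : ∀ᶠ s in 𝓝 (0 : ℝ), HasDerivAt F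
      (inner ℝ (φ s) (deriv ψ s) + inner ℝ (deriv φ s) (ψ s)) s := by
    filter_upwards [evDiff hφ, evDiff hψ] with s h1 h2
    exact h1.inner ℝ h2
  have h2 : deriv F =ᶠ[𝓝 0] fun s => (inner ℝ (φ s) (deriv ψ s) + inner ℝ (deriv φ s) (ψ s) : ℝ) := by
    filter_upwards [h1] with s hs using hs.deriv
  have h3 : HasDerivAt (fun s => (inner ℝ (φ s) (deriv ψ s) + inner ℝ (deriv φ s) (ψ s) : ℝ))
      ((inner ℝ (φ 0) (deriv (deriv ψ) 0) + inner ℝ (deriv φ 0) (deriv ψ 0)) +
        (inner ℝ (deriv φ 0) (deriv ψ 0) + inner ℝ (deriv (deriv φ) 0) (ψ 0))) 0 := by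
    refine HasDerivAt.add ?_ ?_
    · exact (evDiff hφ).self_of_nhds.inner ℝ (diff2 hψ)
    · exact (diff2 hφ).inner ℝ (evDiff hψ).self_of_nhds
  have h4 : deriv (deriv F) 0 = (inner ℝ (φ 0) (deriv (deriv ψ) 0) + inner ℝ (deriv φ 0) (deriv ψ 0)) +
        (inner ℝ (deriv φ 0) (deriv ψ 0) + inner ℝ (deriv (deriv φ) 0) (ψ 0)) := by
    rw [h2.deriv_eq]; exact h3.deriv
  by_contra hcon
  push Not at hcon
  have h5 : 0 < deriv (deriv F) 0 := by rw [h4]; linarith
  have h6 : deriv F 0 = 0 := hmax.deriv_eq_zero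
  have h7 : IsLocalMin F 0 :=
    isLocalMin_of_deriv_deriv_pos h5 h6 h1.self_of_nhds.continuousAt
  have h8 : F =ᶠ[𝓝 0] fun _ => F 0 := by
    filter_upwards [hmax, h7] with s hs1 hs2
    exact le_antisymm hs1 hs2
  have h9 : deriv F =ᶠ[𝓝 0] fun _ => (0 : ℝ) := by
    have := h8.deriv
    simpa using this
  have h10 : deriv (deriv F) 0 = 0 := by
    rw [h9.deriv_eq]; simp
  linarith

theorem inner_zero_deriv {φ ψ : ℝ → E} {a b : E} (h1 : HasDerivAt φ a 0) (h2 : HasDerivAt ψ b 0)
    {c : ℝ} (h : ∀ᶠ s in 𝓝 (0 : ℝ), (inner ℝ (φ s) (ψ s) : ℝ) = c) :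
    (inner ℝ (φ 0) b : ℝ) + inner ℝ a (ψ 0) = 0 := by
  have h3 := h1.inner ℝ h2
  have h4 : (fun s => (inner ℝ (φ s) (ψ s) : ℝ)) =ᶠ[𝓝 0] fun _ => c := h
  have h5 := h3.congr_of_eventuallyEq h4.symm
  exact h5.unique (hasDerivAt_const (0 : ℝ) c)

/-- The second derivative of a curve on the unit sphere. -/
theorem curve_x {φ : ℝ → E} (h : ContDiffAt ℝ 2 φ 0)
    (h1 : ∀ s, (inner ℝ (φ s) (φ s) : ℝ) = 1) :
    (inner ℝ (deriv (deriv φ) 0) (φ 0) : ℝ) = -inner ℝ (deriv φ 0) (deriv φ 0) := by
  have h2 : ∀ᶠ s in 𝓝 (0 : ℝ), (inner ℝ (deriv φ s) (φ s) : ℝ) = 0 := by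
    filter_upwards [evDiff h] with s hs
    have h3 := hs.inner ℝ hs
    have h4 : (fun t => (inner ℝ (φ t) (φ t) : ℝ)) = fun _ => 1 := funext h1
    rw [h4] at h3
    have h5 := h3.unique (hasDerivAt_const s (1 : ℝ))
    rw [real_inner_comm] at h5
    linarith
  have h3 := inner_zero_deriv (diff2 h) (evDiff h).self_of_nhds h2
  linarith

/-- The normal component of the second derivative. -/
theorem curve_ν {φ n : ℝ → E} (h : ContDiffAt ℝ 2 φ 0) (hn : ContDiffAt ℝ 2 n 0)
    (h1 : ∀ᶠ s in 𝓝 (0 : ℝ), (inner ℝ (n s) (deriv φ s) : ℝ) = 0) :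
    (inner ℝ (deriv (deriv φ) 0) (n 0) : ℝ) = -inner ℝ (deriv n 0) (deriv φ 0) := by
  have h3 := inner_zero_deriv (evDiff hn).self_of_nhds (diff2 h) h1
  rw [real_inner_comm] at h3
  linarith

end curves

section charts

variable {m : ℕ} {M : Type} [TopologicalSpace M] [ChartedSpace (X m) M] [IsManifold (𝓡 m) ∞ M]

theorem chart_smooth {F : Type} [NormedAddCommGroup F] [NormedSpace ℝ F] {f : M → F}
    (hf : Smooth m f) (p : M) {y : X m} (hy : y ∈ (chartAt (X m) p).target) :
    ContDiffAt ℝ ∞ (f ∘ (chartAt (X m) p).symm) y := by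
  have h1 : ContMDiffOn (𝓡 m) (𝓡 m) ∞ (chartAt (X m) p).symm (chartAt (X m) p).target :=
    contMDiffOn_chart_symm
  have h2 : ContMDiffOn (𝓡 m) 𝓘(ℝ, F) ∞ (f ∘ (chartAt (X m) p).symm)
      (chartAt (X m) p).target := ContMDiff.comp_contMDiffOn hf h1
  have h3 := contMDiffOn_iff_contDiffOn.1 h2
  exact h3.contDiffAt ((chartAt (X m) p).open_target.mem_nhds hy)

theorem chart_der {F : Type} [NormedAddCommGroup F] [NormedSpace ℝ F] {f : M → F}
    (hf : Smooth m f) (p : M) :
    der m f p = fderiv ℝ (f ∘ (chartAt (X m) p).symm) (chartAt (X m) p p) := by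
  have h1 : MDifferentiableAt (𝓡 m) 𝓘(ℝ, F) f p := hf.mdifferentiableAt (by simp)
  have h2 : der m f p = fderivWithin ℝ (writtenInExtChartAt (𝓡 m) 𝓘(ℝ, F) p f)
      (Set.range (𝓡 m)) ((extChartAt (𝓡 m) p) p) := h1.mfderiv
  rw [h2]
  have h3 : Set.range (𝓡 m) = Set.univ := by simp
  rw [h3, fderivWithin_univ]
  rfl

theorem chart_fderiv {F : Type} [NormedAddCommGroup F] [NormedSpace ℝ F] {f : M → F}
    (hf : Smooth m f) (p : M) {y : X m} (hy : y ∈ (chartAt (X m) p).target) (v : X m) :
    fderiv ℝ (f ∘ (chartAt (X m) p).symm) y v = der m f ((chartAt (X m) p).symm y)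
      (mfderiv (𝓡 m) (𝓡 m) (chartAt (X m) p).symm y v) := by
  have h1 : MDifferentiableAt (𝓡 m) (𝓡 m) (chartAt (X m) p).symm y :=
    ((contMDiffOn_chart_symm (I := 𝓡 m) (n := ∞) (x := p)).contMDiffAt
      ((chartAt (X m) p).open_target.mem_nhds hy)).mdifferentiableAt (by simp)
  have h2 : MDifferentiableAt (𝓡 m) 𝓘(ℝ, F) f ((chartAt (X m) p).symm y) :=
    hf.mdifferentiableAt (by simp)
  have h3 := mfderiv_comp_apply y h2 h1 v
  rw [mfderiv_eq_fderiv] at h3
  exact h3

variable (S : Hypersurface m M)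

/-- The curve in the hypersurface with initial vector `v`. -/
noncomputable def cx (p : M) (v : X m) (s : ℝ) : X (m + 2) :=
  S.x ((chartAt (X m) p).symm (chartAt (X m) p p + s • v))

/-- The normal along the curve. -/
noncomputable def cn (p : M) (v : X m) (s : ℝ) : X (m + 2) :=
  S.ν ((chartAt (X m) p).symm (chartAt (X m) p p + s • v))

theorem two_le_infty : (2 : WithTop ℕ∞) ≤ ∞ := WithTop.coe_le_coe.2 le_top

theorem line_smooth (y v : X m) : ContDiff ℝ 2 (fun s : ℝ => y + s • v) :=
  contDiff_const.add (contDiff_id.smul contDiff_const)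

theorem curve_smooth {f : M → X (m + 2)} (hf : Smooth m f) (p : M) (v : X m) :
    ContDiffAt ℝ 2 (fun s : ℝ => f ((chartAt (X m) p).symm (chartAt (X m) p p + s • v))) 0 := by
  have h1 : ContDiffAt ℝ 2 (f ∘ (chartAt (X m) p).symm) (chartAt (X m) p p + (0 : ℝ) • v) := by
    have := chart_smooth hf p (mem_chart_target (X m) p)
    simpa using this.of_le two_le_infty
  exact ContDiffAt.comp (g := f ∘ (chartAt (X m) p).symm)
    (f := fun s : ℝ => chartAt (X m) p p + s • v) (0 : ℝ) h1 (line_smooth _ v).contDiffAt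

theorem curve_near (p : M) (v : X m) :
    ∀ᶠ s in 𝓝 (0 : ℝ), chartAt (X m) p p + s • v ∈ (chartAt (X m) p).target := by
  have h1 : ContinuousAt (fun s : ℝ => chartAt (X m) p p + s • v) 0 :=
    (line_smooth _ v).continuous.continuousAt
  apply h1.eventually_mem
  simpa using (chartAt (X m) p).open_target.mem_nhds (mem_chart_target (X m) p)

theorem curve_deriv {f : M → X (m + 2)} (hf : Smooth m f) (p : M) (v : X m) :
    ∀ᶠ s in 𝓝 (0 : ℝ), deriv (fun s : ℝ => f ((chartAt (X m) p).symm
      (chartAt (X m) p p + s • v))) s =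
      fderiv ℝ (f ∘ (chartAt (X m) p).symm) (chartAt (X m) p p + s • v) v := by
  filter_upwards [curve_near p v] with s hs
  have h1 : HasFDerivAt (f ∘ (chartAt (X m) p).symm)
      (fderiv ℝ (f ∘ (chartAt (X m) p).symm) (chartAt (X m) p p + s • v))
      (chartAt (X m) p p + s • v) :=
    ((chart_smooth hf p hs).differentiableAt (by simp)).hasFDerivAt
  have h2 : HasDerivAt (fun s : ℝ => chartAt (X m) p p + s • v) v s := by
    have := ((hasDerivAt_id s).smul_const v).const_add (chartAt (X m) p p)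
    simpa using this
  exact (h1.comp_hasDerivAt s h2).deriv

theorem curve_deriv0 {f : M → X (m + 2)} (hf : Smooth m f) (p : M) (v : X m) :
    deriv (fun s : ℝ => f ((chartAt (X m) p).symm (chartAt (X m) p p + s • v))) 0 =
      der m f p v := by
  rw [(curve_deriv hf p v).self_of_nhds, chart_der hf p]
  simp

theorem curve_zero (f : M → X (m + 2)) (p : M) (v : X m) :
    f ((chartAt (X m) p).symm (chartAt (X m) p p + (0 : ℝ) • v)) = f p := by
  simp

theorem cx_x (p : M) (v : X m) :
    (inner ℝ (deriv (deriv (cx S p v)) 0) (S.x p) : ℝ) =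
      -inner ℝ (der m S.x p v) (der m S.x p v) := by
  have h := curve_x (φ := cx S p v) (curve_smooth S.smooth_x p v) (by
    intro s; unfold cx; rw [real_inner_self_eq_norm_sq, S.norm_x]; norm_num)
  have h1 : deriv (cx S p v) 0 = der m S.x p v := curve_deriv0 S.smooth_x p v
  have h2 : cx S p v 0 = S.x p := curve_zero S.x p v
  rw [h1, h2] at h
  exact h

theorem cx_ν (p : M) (v : X m) :
    (inner ℝ (deriv (deriv (cx S p v)) 0) (S.ν p) : ℝ) =
      -inner ℝ (der m S.ν p v) (der m S.x p v) := by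
  have h := curve_ν (φ := cx S p v) (n := cn S p v) (curve_smooth S.smooth_x p v)
    (curve_smooth S.smooth_ν p v) (by
      filter_upwards [curve_deriv S.smooth_x p v, curve_near p v] with s hs hs2
      have h3 : deriv (cx S p v) s = _ := hs
      rw [h3, chart_fderiv S.smooth_x p hs2]
      exact S.inner_ν_dx _ _)
  have h1 : deriv (cx S p v) 0 = der m S.x p v := curve_deriv0 S.smooth_x p v
  have h2 : deriv (cn S p v) 0 = der m S.ν p v := curve_deriv0 S.smooth_ν p v
  have h3 : cn S p v 0 = S.ν p := curve_zero S.ν p v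
  rw [h1, h2, h3] at h
  exact h

/-- `x ⟂ dx`. -/
theorem inner_x_dx (p : M) (v : X m) : (inner ℝ (S.x p) (der m S.x p v) : ℝ) = 0 := by
  have h1 := (evDiff (φ := cx S p v) (curve_smooth S.smooth_x p v)).self_of_nhds
  have h2 := inner_zero_deriv (c := 1) h1 h1 (Eventually.of_forall (by
    intro s; unfold cx; rw [real_inner_self_eq_norm_sq, S.norm_x]; norm_num))
  have h3 : deriv (cx S p v) 0 = der m S.x p v := curve_deriv0 S.smooth_x p v
  have h4 : cx S p v 0 = S.x p := curve_zero S.x p v
  rw [h3, h4, real_inner_comm] at h2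
  rw [real_inner_comm]
  linarith

end charts

section algebra

variable {m : ℕ} {M : Type} [TopologicalSpace M] [ChartedSpace (X m) M] [IsManifold (𝓡 m) ∞ M]
variable (S : Hypersurface m M)

theorem xx (p : M) : (inner ℝ (S.x p) (S.x p) : ℝ) = 1 := by
  rw [real_inner_self_eq_norm_sq, S.norm_x]; norm_num

theorem νν (p : M) : (inner ℝ (S.ν p) (S.ν p) : ℝ) = 1 := by
  rw [real_inner_self_eq_norm_sq, S.norm_ν]; norm_num

/-- Every vector is the sum of a tangent vector and of multiples of `x` and `ν`. -/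
theorem decomp (p : M) (w : X (m + 2)) :
    ∃ v : X m, w = der m S.x p v + (inner ℝ (S.x p) w : ℝ) • S.x p +
      (inner ℝ (S.ν p) w : ℝ) • S.ν p := by
  let G : (X m × ℝ × ℝ) →ₗ[ℝ] X (m + 2) :=
    { toFun := fun z => der m S.x p z.1 + z.2.1 • S.x p + z.2.2 • S.ν p
      map_add' := by
        intro a b
        simp only [Prod.fst_add, Prod.snd_add, map_add, add_smul]
        abel
      map_smul' := by
        intro c a
        simp only [Prod.smul_fst, Prod.smul_snd, map_smul, smul_add, smul_smul, smul_eq_mul,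
          RingHom.id_apply] }
  have e1 : ∀ z, (inner ℝ (S.x p) (G z) : ℝ) = z.2.1 := by
    intro z
    show (inner ℝ (S.x p) (der m S.x p z.1 + z.2.1 • S.x p + z.2.2 • S.ν p) : ℝ) = z.2.1
    rw [inner_add_right, inner_add_right, inner_smul_right, inner_smul_right, inner_x_dx, xx,
      real_inner_comm, S.inner_ν_x]
    ring
  have e2 : ∀ z, (inner ℝ (S.ν p) (G z) : ℝ) = z.2.2 := by
    intro z
    show (inner ℝ (S.ν p) (der m S.x p z.1 + z.2.1 • S.x p + z.2.2 • S.ν p) : ℝ) = z.2.2
    rw [inner_add_right, inner_add_right, inner_smul_right, inner_smul_right, S.inner_ν_dx,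
      S.inner_ν_x, νν]
    ring
  have hinj : Function.Injective G := by
    rw [injective_iff_map_eq_zero]
    intro z hz
    have h1 := e1 z
    have h2 := e2 z
    rw [hz, inner_zero_right] at h1 h2
    have h3 : der m S.x p z.1 = 0 := by
      have : G z = der m S.x p z.1 + z.2.1 • S.x p + z.2.2 • S.ν p := rfl
      rw [← h1, ← h2, hz] at this
      simpa using this.symm
    have h4 : z.1 = 0 := by
      apply S.immersion p
      rw [h3, map_zero]
    exact Prod.ext h4 (Prod.ext h1.symm h2.symm)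
  have hdim : Module.finrank ℝ (X m × ℝ × ℝ) = Module.finrank ℝ (X (m + 2)) := by
    simp
  have hsurj : Function.Surjective G :=
    (LinearMap.injective_iff_surjective_of_finrank_eq_finrank hdim).1 hinj
  obtain ⟨z, hz⟩ := hsurj w
  refine ⟨z.1, ?_⟩
  have h1 := e1 z
  have h2 := e2 z
  rw [hz] at h1 h2
  rw [h1, h2, ← hz]
  rfl

theorem tangent_of (p : M) (w : X (m + 2)) (h1 : (inner ℝ (S.x p) w : ℝ) = 0)
    (h2 : (inner ℝ (S.ν p) w : ℝ) = 0) : ∃ v : X m, der m S.x p v = w := by
  obtain ⟨v, hv⟩ := decomp S p w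
  refine ⟨v, ?_⟩
  rw [h1, h2, zero_smul, zero_smul, add_zero, add_zero] at hv
  exact hv.symm

theorem normal_of (p : M) (w : X (m + 2)) (h : ∀ v, (inner ℝ w (der m S.x p v) : ℝ) = 0) :
    w = (inner ℝ (S.x p) w : ℝ) • S.x p + (inner ℝ (S.ν p) w : ℝ) • S.ν p := by
  obtain ⟨v, hv⟩ := decomp S p w
  have h1 : (inner ℝ (der m S.x p v) (der m S.x p v) : ℝ) = 0 := by
    have h2 := h v
    rw [hv, inner_add_left, inner_add_left, inner_smul_left, inner_smul_left, inner_x_dx,
      S.inner_ν_dx] at h2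
    simpa using h2
  have h3 : der m S.x p v = 0 := inner_self_eq_zero.1 h1
  rw [h3, zero_add] at hv
  exact hv

omit [IsManifold (𝓡 m) ∞ M] in
theorem vec_sum (v : X m) : v = ∑ a, v a • (cv a : X m) := by
  ext i
  simp [cv, Pi.single_apply]

/-- The trace in an orthonormal frame. -/
theorem trace_frame (p : M) (v : Fin m → X m)
    (h : ∀ i j, (inner ℝ (der m S.x p (v i)) (der m S.x p (v j)) : ℝ) = if i = j then 1 else 0) :
    ∑ i, -(inner ℝ (der m S.ν p (v i)) (der m S.x p (v i)) : ℝ) = S.meanCurvature p := by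
  let V : Matrix (Fin m) (Fin m) ℝ := Matrix.of fun a i => v i a
  have hx : ∀ i, der m S.x p (v i) = ∑ a, V a i • der m S.x p (cv a) := by
    intro i
    conv_lhs => rw [vec_sum (v i)]
    rw [map_sum]
    exact Finset.sum_congr rfl fun a _ => by rw [map_smul]; rfl
  have hν : ∀ i, der m S.ν p (v i) = ∑ a, V a i • der m S.ν p (cv a) := by
    intro i
    conv_lhs => rw [vec_sum (v i)]
    rw [map_sum]
    exact Finset.sum_congr rfl fun a _ => by rw [map_smul]; rfl
  have h1 : V.transpose * S.gram p * V = 1 := by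
    ext i j
    have h2 := h i j
    rw [hx i, hx j, sum_inner] at h2
    simp only [inner_sum, inner_smul_left, inner_smul_right] at h2
    rw [Matrix.one_apply, ← h2, Matrix.mul_apply]
    simp only [Matrix.mul_apply, Matrix.transpose_apply, Hypersurface.gram, Matrix.of_apply,
      Finset.sum_mul, conj_trivial]
    rw [Finset.sum_comm]
    refine Finset.sum_congr rfl fun a _ => Finset.sum_congr rfl fun b _ => ?_
    ring
  have h2 : V * V.transpose * S.gram p = 1 := by
    have h3 : V * (V.transpose * S.gram p) = 1 := mul_eq_one_comm.1 h1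
    rw [Matrix.mul_assoc]; exact h3
  have h3 : (S.gram p)⁻¹ = V * V.transpose := Matrix.inv_eq_left_inv h2
  have h4 : ∑ i, -(inner ℝ (der m S.ν p (v i)) (der m S.x p (v i)) : ℝ) =
      (V.transpose * S.second p * V).trace := by
    unfold Matrix.trace
    refine Finset.sum_congr rfl fun i _ => ?_
    rw [hx i, hν i, sum_inner]
    simp only [inner_sum, inner_smul_left, inner_smul_right, Matrix.diag_apply, Matrix.mul_apply,
      Matrix.transpose_apply, Hypersurface.second, Matrix.of_apply, Finset.sum_mul, conj_trivial]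
    rw [Finset.sum_comm, ← Finset.sum_neg_distrib]
    refine Finset.sum_congr rfl fun a _ => ?_
    rw [← Finset.sum_neg_distrib]
    refine Finset.sum_congr rfl fun b _ => ?_
    ring
  rw [h4, Hypersurface.meanCurvature, h3, Matrix.mul_assoc, Matrix.trace_mul_comm,
    Matrix.mul_assoc, Matrix.trace_mul_comm]

end algebra

end Frk

theorem sq_eq_one_cases {c : ℝ} (h : c ^ 2 = 1) : c = 1 ∨ c = -1 := by
  have h1 : (c - 1) * (c + 1) = 0 := by linarith [h, (by ring : (c - 1) * (c + 1) = c ^ 2 - 1)]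
  rcases mul_eq_zero.1 h1 with h2 | h2
  · left; linarith
  · right; linarith

/-- Row FRK. -/
theorem frk_proof : FrkStatement := by
  intro m hm M _ _ _ _ _ _ S hmin hinj
  have hpre : PreconnectedSpace M := by
    rw [preconnectedSpace_iff_clopen]
    intro s hs
    by_contra hcon
    push Not at hcon
    obtain ⟨hne, hne2⟩ := hcon
    have hcx : Continuous S.x := S.smooth_x.continuous
    -- the maximum
    have hK : IsCompact (s ×ˢ sᶜ) := hs.isClosed.isCompact.prod hs.compl.isClosed.isCompact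
    have hKne : (s ×ˢ sᶜ).Nonempty :=
      hne.prod (Set.nonempty_compl.2 hne2)
    obtain ⟨⟨p, q⟩, hpq, hmax⟩ := hK.exists_isMaxOn hKne
      (f := fun z : M × M => (inner ℝ (S.x z.1) (S.x z.2) : ℝ))
      ((hcx.comp continuous_fst).inner (hcx.comp continuous_snd)).continuousOn
    obtain ⟨hp, hq⟩ := hpq
    simp only at hp hq
    have hmax' : ∀ p' ∈ s, ∀ q' ∈ sᶜ, (inner ℝ (S.x p') (S.x q') : ℝ) ≤
        inner ℝ (S.x p) (S.x q) := fun p' hp' q' hq' => hmax (Set.mk_mem_prod hp' hq')
    -- curves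
    have hnear : ∀ (t : Set M), IsOpen t → ∀ p' ∈ t, ∀ v : X m, ∀ᶠ r in 𝓝 (0 : ℝ),
        (chartAt (X m) p').symm (chartAt (X m) p' p' + r • v) ∈ t := by
      intro t ht p' hp' v
      have h1 : ContinuousAt (fun r : ℝ => (chartAt (X m) p').symm
          (chartAt (X m) p' p' + r • v)) 0 := by
        refine ContinuousAt.comp (g := (chartAt (X m) p').symm) ?_
          (Frk.line_smooth _ v).continuous.continuousAt
        apply (chartAt (X m) p').continuousAt_symm
        simpa using mem_chart_target (X m) p'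
      apply h1.eventually_mem
      simpa using ht.mem_nhds hp'
    have hloc : ∀ v w : X m, IsLocalMax (fun r => (inner ℝ (Frk.cx S p v r)
        (Frk.cx S q w r) : ℝ)) 0 := by
      intro v w
      filter_upwards [hnear s hs.isOpen p hp v, hnear sᶜ hs.compl.isOpen q hq w] with r h1 h2
      have h3 : Frk.cx S p v 0 = S.x p := Frk.curve_zero S.x p v
      have h4 : Frk.cx S q w 0 = S.x q := Frk.curve_zero S.x q w
      rw [h3, h4]
      exact hmax' _ h1 _ h2
    have hcrit : ∀ v w : X m, (inner ℝ (S.x p) (der m S.x q w) : ℝ) +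
        inner ℝ (der m S.x p v) (S.x q) = 0 := by
      intro v w
      have h1 := (Frk.evDiff (φ := Frk.cx S p v)
        (Frk.curve_smooth S.smooth_x p v)).self_of_nhds
      have h2 := (Frk.evDiff (φ := Frk.cx S q w)
        (Frk.curve_smooth S.smooth_x q w)).self_of_nhds
      have h3 := h1.inner ℝ h2
      have h4 := (hloc v w).hasDerivAt_eq_zero h3
      have h5 : deriv (Frk.cx S p v) 0 = der m S.x p v := Frk.curve_deriv0 S.smooth_x p v
      have h6 : deriv (Frk.cx S q w) 0 = der m S.x q w := Frk.curve_deriv0 S.smooth_x q w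
      have h7 : Frk.cx S p v 0 = S.x p := Frk.curve_zero S.x p v
      have h8 : Frk.cx S q w 0 = S.x q := Frk.curve_zero S.x q w
      rw [h5, h6, h7, h8] at h4
      exact h4
    have hcp : ∀ v, (inner ℝ (S.x q) (der m S.x p v) : ℝ) = 0 := by
      intro v
      have := hcrit v 0
      rw [map_zero, inner_zero_right, zero_add, real_inner_comm] at this
      exact this
    have hcq : ∀ w, (inner ℝ (S.x p) (der m S.x q w) : ℝ) = 0 := by
      intro w
      have := hcrit 0 w
      rw [map_zero, inner_zero_left, add_zero] at this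
      exact this
    set c : ℝ := inner ℝ (S.x p) (S.x q) with hc
    set s1 : ℝ := inner ℝ (S.ν p) (S.x q) with hs1
    set s2 : ℝ := inner ℝ (S.ν q) (S.x p) with hs2
    have hxq : S.x q = c • S.x p + s1 • S.ν p := Frk.normal_of S p (S.x q) hcp
    have hxp : S.x p = c • S.x q + s2 • S.ν q := by
      have := Frk.normal_of S q (S.x p) hcq
      rw [real_inner_comm] at this
      exact this
    have hn2 : c ^ 2 + s2 ^ 2 = 1 := by
      have h1 := Frk.xx S p
      conv_lhs at h1 => rw [hxp]
      rw [inner_add_left, inner_add_right, inner_add_right, inner_smul_left, inner_smul_left,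
        inner_smul_right, inner_smul_right, inner_smul_left, inner_smul_right, inner_smul_left,
        inner_smul_right, Frk.xx, Frk.νν, S.inner_ν_x, real_inner_comm, S.inner_ν_x] at h1
      simp only [conj_trivial] at h1
      nlinarith [h1]
    have hn1 : c ^ 2 + s1 ^ 2 = 1 := by
      have h1 := Frk.xx S q
      conv_lhs at h1 => rw [hxq]
      rw [inner_add_left, inner_add_right, inner_add_right, inner_smul_left, inner_smul_left,
        inner_smul_right, inner_smul_right, inner_smul_left, inner_smul_right, inner_smul_left,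
        inner_smul_right, Frk.xx, Frk.νν, S.inner_ν_x, real_inner_comm, S.inner_ν_x] at h1
      simp only [conj_trivial] at h1
      nlinarith [h1]
    -- the second derivative
    have hsec : ∀ v w : X m,
        (-c * inner ℝ (der m S.x p v) (der m S.x p v) -
          s1 * inner ℝ (der m S.ν p v) (der m S.x p v)) +
        2 * inner ℝ (der m S.x p v) (der m S.x q w) +
        (-c * inner ℝ (der m S.x q w) (der m S.x q w) -
          s2 * inner ℝ (der m S.ν q w) (der m S.x q w)) ≤ (0 : ℝ) := by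
      intro v w
      have h1 := Frk.second_le (φ := Frk.cx S p v) (ψ := Frk.cx S q w)
        (Frk.curve_smooth S.smooth_x p v) (Frk.curve_smooth S.smooth_x q w) (hloc v w)
      have h5 : deriv (Frk.cx S p v) 0 = der m S.x p v := Frk.curve_deriv0 S.smooth_x p v
      have h6 : deriv (Frk.cx S q w) 0 = der m S.x q w := Frk.curve_deriv0 S.smooth_x q w
      have h7 : Frk.cx S p v 0 = S.x p := Frk.curve_zero S.x p v
      have h8 : Frk.cx S q w 0 = S.x q := Frk.curve_zero S.x q w
      rw [h5, h6, h7, h8] at h1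
      have h9 : (inner ℝ (deriv (deriv (Frk.cx S p v)) 0) (S.x q) : ℝ) =
          -c * inner ℝ (der m S.x p v) (der m S.x p v) -
            s1 * inner ℝ (der m S.ν p v) (der m S.x p v) := by
        conv_lhs => rw [hxq]
        rw [inner_add_right, inner_smul_right, inner_smul_right, Frk.cx_x, Frk.cx_ν]
        ring
      have h10 : (inner ℝ (S.x p) (deriv (deriv (Frk.cx S q w)) 0) : ℝ) =
          -c * inner ℝ (der m S.x q w) (der m S.x q w) -
            s2 * inner ℝ (der m S.ν q w) (der m S.x q w) := by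
        rw [real_inner_comm]
        conv_lhs => rw [hxp]
        rw [inner_add_right, inner_smul_right, inner_smul_right, Frk.cx_x, Frk.cx_ν]
        ring
      rw [h9, h10] at h1
      exact h1
    -- `s2 ≠ 0`
    have hs2ne : s2 ≠ 0 := by
      intro h0
      have hc2 : c ^ 2 = 1 := by rw [h0] at hn2; linarith
      have h1' : s1 = 0 := by
        have : s1 ^ 2 = 0 := by linarith
        exact pow_eq_zero_iff (two_ne_zero) |>.1 this
      rcases sq_eq_one_cases hc2 with h | h
      · rw [h, h0, one_smul, zero_smul, add_zero] at hxp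
        have := hinj hxp
        exact hq (this ▸ hp)
      · let v0 : X m := cv ⟨0, hm⟩
        have h2 := hsec v0 0
        rw [h, h1', h0] at h2
        simp only [map_zero, inner_zero_right, mul_zero, add_zero, zero_mul,
          sub_zero, neg_neg, one_mul] at h2
        have h3 : der m S.x p v0 = 0 :=
          inner_self_eq_zero.1 (le_antisymm h2 real_inner_self_nonneg)
        have h4 : v0 = 0 := by
          apply S.immersion p
          rw [h3, map_zero]
        have h5 : v0 ⟨0, hm⟩ = 0 := by rw [h4]; rfl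
        simp [v0, cv] at h5
    -- frames
    have hT : ∀ v, ∃ w, der m S.x q w = der m S.x p v := by
      intro v
      apply Frk.tangent_of S q
      · exact hcp v
      · have h1 : (inner ℝ (S.x p) (der m S.x p v) : ℝ) = 0 := Frk.inner_x_dx S p v
        rw [hxp, inner_add_left, inner_smul_left, inner_smul_left, hcp v] at h1
        simp only [conj_trivial, mul_zero, zero_add] at h1
        exact (mul_eq_zero.1 h1).resolve_left hs2ne
    obtain ⟨v, hv⟩ : ∃ v : Fin m → X m, ∀ i j, (inner ℝ (der m S.x p (v i))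
        (der m S.x p (v j)) : ℝ) = if i = j then 1 else 0 := by
      let D : X m →ₗ[ℝ] X (m + 2) := (der m S.x p : X m →L[ℝ] X (m + 2))
      have hD : Function.Injective D := S.immersion p
      have hfr : Module.finrank ℝ (LinearMap.range D) = m := by
        rw [LinearMap.finrank_range_of_inj hD]
        simp
      let b := (stdOrthonormalBasis ℝ (LinearMap.range D)).reindex (finCongr hfr)
      have hb : ∀ i, ∃ u, D u = (b i : X (m + 2)) := fun i => (b i).2
      choose v hv using hb
      refine ⟨v, fun i j => ?_⟩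
      have h1 : der m S.x p (v i) = (b i : X (m + 2)) := hv i
      have h2 : der m S.x p (v j) = (b j : X (m + 2)) := hv j
      rw [h1, h2]
      have h3 := orthonormal_iff_ite.1 b.orthonormal i j
      exact h3
    choose w hw using fun i => hT (v i)
    have hw' : ∀ i j, (inner ℝ (der m S.x q (w i)) (der m S.x q (w j)) : ℝ) =
        if i = j then 1 else 0 := by
      intro i j
      rw [hw, hw]
      exact hv i j
    have ht1 := Frk.trace_frame S p v hv
    have ht2 := Frk.trace_frame S q w hw'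
    rw [hmin] at ht1 ht2
    rw [Finset.sum_neg_distrib, neg_eq_zero] at ht1 ht2
    have hsum : ∑ i, ((-c * 1 - s1 * inner ℝ (der m S.ν p (v i)) (der m S.x p (v i))) + 2 * 1 +
        (-c * 1 - s2 * inner ℝ (der m S.ν q (w i)) (der m S.x q (w i)))) ≤ (0 : ℝ) := by
      refine Finset.sum_nonpos fun i _ => ?_
      have h1 := hsec (v i) (w i)
      have h2 := hv i i
      have h3 := hw' i i
      rw [if_pos rfl] at h2 h3
      have h4 : (inner ℝ (der m S.x p (v i)) (der m S.x q (w i)) : ℝ) = 1 := by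
        rw [hw]; exact h2
      rw [h2, h3, h4] at h1
      exact h1
    have hsum2 : ∑ i, ((-c * 1 - s1 * inner ℝ (der m S.ν p (v i)) (der m S.x p (v i))) + 2 * 1 +
        (-c * 1 - s2 * inner ℝ (der m S.ν q (w i)) (der m S.x q (w i)))) =
        (2 - 2 * c) * (m : ℝ) := by
      have : ∀ i, ((-c * 1 - s1 * inner ℝ (der m S.ν p (v i)) (der m S.x p (v i))) + 2 * 1 +
        (-c * 1 - s2 * inner ℝ (der m S.ν q (w i)) (der m S.x q (w i)))) =
        (2 - 2 * c) - s1 * inner ℝ (der m S.ν p (v i)) (der m S.x p (v i)) -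
          s2 * (inner ℝ (der m S.ν q (w i)) (der m S.x q (w i)) : ℝ) := fun i => by ring
      rw [Finset.sum_congr rfl fun i _ => this i, Finset.sum_sub_distrib, Finset.sum_sub_distrib,
        ← Finset.mul_sum, ← Finset.mul_sum, ht1, ht2]
      simp
      ring
    rw [hsum2] at hsum
    have hm' : (0 : ℝ) < m := by exact_mod_cast hm
    have hc1 : 1 ≤ c := by
      by_contra h
      push Not at h
      have : 0 < (2 - 2 * c) * (m : ℝ) := mul_pos (by linarith) hm'
      linarith
    have hs20 : 0 < s2 ^ 2 := by positivity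
    nlinarith
  exact { toPreconnectedSpace := hpre, toNonempty := inferInstance }

end MPfbfa44
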