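import Pool.Agent.Lib.MP_fbfa44_gt.IX.Cal

set_option autoImplicit false

/-!
# Row GRN: Green's formula, the Laplacians of `x` and `ν`, integrability (helper34)
-/

namespace MPfbfa44

open MeasureTheory

namespace Cal

variable {m : ℕ} (G : Cal m)

theorem grn_int (f : G.M → ℝ) (hf : Continuous f) : Integrable f G.μ :=
  hf.integrable_of_hasCompactSupport (HasCompactSupport.of_compactSpace f)

theorem grn_pos (f : G.M → ℝ) (hf : Continuous f) (h0 : ∀ p, 0 ≤ f p)
    (hi : ∫ p, f p ∂G.μ ≤ 0) : ∀ p, f p = 0 := by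
  have h1 : ∫ p, f p ∂G.μ = 0 := le_antisymm hi (integral_nonneg h0)
  have h2 := (integral_eq_zero_iff_of_nonneg h0 (G.grn_int f hf)).1 h1
  have h3 := (Continuous.ae_eq_iff_eq (μ := G.μ) hf continuous_zero).1 h2
  exact fun p => congrFun h3 p

variable {G}

theorem Str.sgp (hG : G.Str) (f g : G.M → ℝ) (hf : G.Sm f) (hg : G.Sm g) : G.Sm (G.gp f g) :=
  (hG.ssum _ (fun i p => G.d i f p * G.d i g p)
    (fun i => G.smul _ _ (G.sd i f hf) (G.sd i g hg))).1

theorem Str.slap (hG : G.Str) (f : G.M → ℝ) (hf : G.Sm f) : G.Sm (G.lap f) :=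
  (hG.ssum _ (fun i p => G.d i (G.d i f) p) (fun i => G.sd i _ (G.sd i f hf))).1

theorem Str.green (hG : G.Str) (f g : G.M → ℝ) (hf : G.Sm f) (hg : G.Sm g) :
    ∫ p, G.gp f g p ∂G.μ = -∫ p, f p * G.lap g p ∂G.μ := by
  have h1 := G.div (fun i p => f p * G.d i g p) (fun i => G.smul _ _ hf (G.sd i g hg))
    (fun p => by
      have h2 := G.tx g hg p
      calc ∑ i, G.x i p * (f p * G.d i g p) = f p * ∑ i, G.x i p * G.d i g p := by
            rw [Finset.mul_sum]
            exact Finset.sum_congr rfl fun i _ => by ring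
        _ = 0 := by rw [h2, mul_zero])
    (fun p => by
      have h2 := G.tν g hg p
      calc ∑ i, G.ν i p * (f p * G.d i g p) = f p * ∑ i, G.ν i p * G.d i g p := by
            rw [Finset.mul_sum]
            exact Finset.sum_congr rfl fun i _ => by ring
        _ = 0 := by rw [h2, mul_zero])
  have h3 : ∀ p, ∑ i, G.d i (fun p => f p * G.d i g p) p = G.gp f g p + f p * G.lap g p := by
    intro p
    unfold gp lap
    rw [Finset.mul_sum, ← Finset.sum_add_distrib]
    exact Finset.sum_congr rfl fun i _ => G.dmul i f _ hf (G.sd i g hg) p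
  simp only [h3] at h1
  have h4 : ∫ p, (G.gp f g p + f p * G.lap g p) ∂G.μ =
      ∫ p, G.gp f g p ∂G.μ + ∫ p, f p * G.lap g p ∂G.μ :=
    integral_add (G.grn_int _ (G.cont _ (hG.sgp f g hf hg)))
      (G.grn_int (fun p => f p * G.lap g p) ((G.cont f hf).mul (G.cont _ (hG.slap g hg))))
  rw [h4] at h1
  linarith

theorem Str.sh (hG : G.Str) (b : Fin (m + 2) → ℝ) : G.Sm (G.h b) :=
  (hG.ssum _ (fun i p => b i * G.x i p) (fun i => G.smul _ _ (G.sconst (b i)) (G.sx i))).1

theorem Str.sz (hG : G.Str) (b : Fin (m + 2) → ℝ) : G.Sm (G.z b) :=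
  (hG.ssum _ (fun i p => b i * G.ν i p) (fun i => G.smul _ _ (G.sconst (b i)) (G.sν i))).1

/-- the derivative of a multiple -/
theorem d_smul (i : Fin (m + 2)) (c : ℝ) (f : G.M → ℝ) (hf : G.Sm f) (p : G.M) :
    G.d i (fun p => c * f p) p = c * G.d i f p := by
  rw [G.dmul i (fun _ => c) f (G.sconst c) hf, G.dconst]
  ring

theorem Str.dh (hG : G.Str) (b : Fin (m + 2) → ℝ) (i : Fin (m + 2)) (p : G.M) :
    G.d i (G.h b) p = b i - G.h b p * G.x i p - G.z b p * G.ν i p := by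
  have h1 := (hG.ssum _ (fun i p => b i * G.x i p)
    (fun i => G.smul _ _ (G.sconst (b i)) (G.sx i))).2 i p
  have h2 : G.d i (G.h b) p = ∑ j, G.d i (fun p => b j * G.x j p) p := h1
  rw [h2]
  have h3 : ∀ j, G.d i (fun p => b j * G.x j p) p =
      b j * (if i = j then (1 : ℝ) else 0) - b j * G.x j p * G.x i p -
        b j * G.ν j p * G.ν i p := by
    intro j
    rw [d_smul i (b j) (G.x j) (G.sx j), G.dx]
    ring
  rw [Finset.sum_congr rfl fun j _ => h3 j, Finset.sum_sub_distrib, Finset.sum_sub_distrib,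
    ← Finset.sum_mul, ← Finset.sum_mul]
  simp only [mul_ite, mul_one, mul_zero, Finset.sum_ite_eq, Finset.mem_univ, if_true]
  rfl

theorem Str.dz (hG : G.Str) (b : Fin (m + 2) → ℝ) (i : Fin (m + 2)) (p : G.M) :
    G.d i (G.z b) p = -∑ j, G.B i j p * b j := by
  have h1 := (hG.ssum _ (fun i p => b i * G.ν i p)
    (fun i => G.smul _ _ (G.sconst (b i)) (G.sν i))).2 i p
  have h2 : G.d i (G.z b) p = ∑ j, G.d i (fun p => b j * G.ν j p) p := h1
  rw [h2, ← Finset.sum_neg_distrib]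
  refine Finset.sum_congr rfl fun j _ => ?_
  rw [d_smul i (b j) (G.ν j) (G.sν j), hG.dν]
  ring

theorem Str.laph (hG : G.Str) (b : Fin (m + 2) → ℝ) (p : G.M) :
    G.lap (G.h b) p = -(m * G.h b p) := by
  unfold lap
  have h1 : ∀ i, G.d i (G.d i (G.h b)) p = -(G.d i (G.h b) p * G.x i p) -
      G.h b p * (1 - G.x i p * G.x i p - G.ν i p * G.ν i p) - G.d i (G.z b) p * G.ν i p -
        G.z b p * G.d i (G.ν i) p := by
    intro i
    have h2 : G.d i (G.h b) = fun p => b i + (-1 * (G.h b p * G.x i p) +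
        -1 * (G.z b p * G.ν i p)) := by
      funext p
      rw [hG.dh]
      ring
    have s1 : G.Sm (fun p => G.h b p * G.x i p) := G.smul _ _ (hG.sh b) (G.sx i)
    have s2 : G.Sm (fun p => G.z b p * G.ν i p) := G.smul _ _ (hG.sz b) (G.sν i)
    have s3 : G.Sm (fun p => -1 * (G.h b p * G.x i p)) := G.smul _ _ (G.sconst (-1)) s1
    have s4 : G.Sm (fun p => -1 * (G.z b p * G.ν i p)) := G.smul _ _ (G.sconst (-1)) s2
    conv_lhs => rw [h2]
    rw [G.dadd i _ _ (G.sconst (b i)) (G.sadd _ _ s3 s4), G.dconst, G.dadd i _ _ s3 s4,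
      d_smul i (-1) _ s1, d_smul i (-1) _ s2, G.dmul i _ _ (hG.sh b) (G.sx i),
      G.dmul i _ _ (hG.sz b) (G.sν i), G.dx, if_pos rfl]
    ring
  rw [Finset.sum_congr rfl fun i _ => h1 i]
  have e1 : ∑ i, G.d i (G.h b) p * G.x i p = 0 := by
    rw [← G.tx _ (hG.sh b) p]
    exact Finset.sum_congr rfl fun i _ => mul_comm _ _
  have e2 : ∑ i, G.d i (G.z b) p * G.ν i p = 0 := by
    rw [← G.tν _ (hG.sz b) p]
    exact Finset.sum_congr rfl fun i _ => mul_comm _ _
  have e3 : ∑ i, G.h b p * (1 - G.x i p * G.x i p - G.ν i p * G.ν i p) = m * G.h b p := by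
    rw [← Finset.mul_sum, Finset.sum_sub_distrib, Finset.sum_sub_distrib, G.xx, G.νν]
    simp only [Finset.sum_const, Finset.card_univ, Fintype.card_fin, nsmul_eq_mul, mul_one]
    push_cast
    ring
  have e4 : ∑ i, G.z b p * G.d i (G.ν i) p = 0 := by
    rw [← Finset.mul_sum, G.mean, mul_zero]
  rw [Finset.sum_sub_distrib, Finset.sum_sub_distrib, Finset.sum_sub_distrib,
    Finset.sum_neg_distrib, e1, e2, e3, e4]
  ring

theorem Str.divB (hG : G.Str) (j : Fin (m + 2)) (p : G.M) :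
    ∑ i, G.d i (G.B i j) p = G.ν j p * G.q p := by
  have h1 : ∀ i, G.d i (G.B i j) p = G.T j i i p - G.x i p * G.B i j p -
      G.x j p * G.B i i p + G.ν i p * G.B2 i j p + G.ν j p * G.B2 i i p := by
    intro i
    rw [hG.dB, hG.T23 i i j, hG.T12 i j i]
  rw [Finset.sum_congr rfl fun i _ => h1 i]
  have e1 : ∑ i, G.x i p * G.B i j p = 0 := by
    rw [← hG.Bx j p]
    exact Finset.sum_congr rfl fun i _ => by rw [hG.Bs i j, mul_comm]
  have e2 : ∑ i, G.x j p * G.B i i p = 0 := by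
    rw [← Finset.mul_sum, hG.Bt, mul_zero]
  have e3 : ∑ i, G.ν i p * G.B2 i j p = 0 := by
    unfold B2
    have : ∀ i, G.ν i p * ∑ k, G.B i k p * G.B k j p =
        ∑ k, G.B k i p * G.ν i p * G.B k j p := by
      intro i
      rw [Finset.mul_sum]
      exact Finset.sum_congr rfl fun k _ => by rw [hG.Bs i k]; ring
    rw [Finset.sum_congr rfl fun i _ => this i, Finset.sum_comm]
    refine Finset.sum_eq_zero fun k _ => ?_
    rw [← Finset.sum_mul, hG.Bν, zero_mul]
  have e4 : ∑ i, G.ν j p * G.B2 i i p = G.ν j p * G.q p := by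
    rw [← Finset.mul_sum]
    congr 1
    unfold B2 q
    exact Finset.sum_congr rfl fun i _ => Finset.sum_congr rfl fun k _ => by rw [hG.Bs k i]
  rw [Finset.sum_add_distrib, Finset.sum_add_distrib, Finset.sum_sub_distrib,
    Finset.sum_sub_distrib, e1, e2, e3, e4, hG.Tt]
  ring

theorem Str.lapz (hG : G.Str) (b : Fin (m + 2) → ℝ) (p : G.M) :
    G.lap (G.z b) p = -(G.q p * G.z b p) := by
  unfold lap
  have h1 : ∀ i, G.d i (G.d i (G.z b)) p = ∑ j, -(b j) * G.d i (G.B i j) p := by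
    intro i
    have h2 : G.d i (G.z b) = fun p => ∑ j, -(b j) * G.B i j p := by
      funext p
      rw [hG.dz, ← Finset.sum_neg_distrib]
      exact Finset.sum_congr rfl fun j _ => by ring
    rw [h2]
    have h3 := (hG.ssum _ (fun j p => -(b j) * G.B i j p)
      (fun j => G.smul _ _ (G.sconst (-(b j))) (hG.sB i j))).2 i p
    rw [h3]
    exact Finset.sum_congr rfl fun j _ => d_smul i (-(b j)) _ (hG.sB i j) p
  rw [Finset.sum_congr rfl fun i _ => h1 i, Finset.sum_comm]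
  have h4 : ∀ j, ∑ i, -(b j) * G.d i (G.B i j) p = -(G.q p * (b j * G.ν j p)) := by
    intro j
    rw [← Finset.mul_sum, hG.divB]
    ring
  rw [Finset.sum_congr rfl fun j _ => h4 j, Finset.sum_neg_distrib, ← Finset.mul_sum]
  rfl

theorem Str.gph (hG : G.Str) (b : Fin (m + 2) → ℝ) (p : G.M) :
    G.gp (G.h b) (G.h b) p = (∑ i, b i ^ 2) - G.h b p ^ 2 - G.z b p ^ 2 := by
  unfold gp
  have h1 : ∀ i, G.d i (G.h b) p * G.d i (G.h b) p = b i ^ 2 +
      G.h b p ^ 2 * (G.x i p * G.x i p) + G.z b p ^ 2 * (G.ν i p * G.ν i p) -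
      2 * G.h b p * (b i * G.x i p) - 2 * G.z b p * (b i * G.ν i p) +
      2 * G.h b p * G.z b p * (G.x i p * G.ν i p) := by
    intro i
    rw [hG.dh]
    ring
  rw [Finset.sum_congr rfl fun i _ => h1 i]
  simp only [Finset.sum_add_distrib, Finset.sum_sub_distrib, ← Finset.mul_sum]
  rw [G.xx, G.νν, G.xν]
  have e1 : ∑ i, b i * G.x i p = G.h b p := rfl
  have e2 : ∑ i, b i * G.ν i p = G.z b p := rfl
  rw [e1, e2]
  ring

theorem Str.Bh (hG : G.Str) (b : Fin (m + 2) → ℝ) (p : G.M) (i : Fin (m + 2)) :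
    ∑ j, G.B i j p * b j = ∑ j, G.B i j p * G.d j (G.h b) p := by
  have h1 : ∀ j, G.B i j p * G.d j (G.h b) p = G.B i j p * b j -
      G.h b p * (G.B i j p * G.x j p) - G.z b p * (G.B i j p * G.ν j p) := by
    intro j
    rw [hG.dh]
    ring
  rw [Finset.sum_congr rfl fun j _ => h1 j]
  simp only [Finset.sum_sub_distrib, ← Finset.mul_sum]
  rw [hG.Bx, hG.Bν]
  ring

end Cal

/-- Row GRN. -/
theorem grn_proof : GrnStatement := by
  intro m G hG
  exact ⟨G.grn_int, G.grn_pos, fun f g hf hg => ⟨hG.sgp f g hf hg, hG.slap f hf,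
    hG.green f g hf hg⟩, fun b => ⟨hG.sh b, hG.sz b, fun p => ⟨fun i => hG.dh b i p,
    fun i => hG.dz b i p, hG.laph b p, hG.lapz b p, hG.gph b p, hG.Bh b p⟩⟩⟩

end MPfbfa44
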