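import Mathlib
import Pool.Agent.Lib.MP_fbfa44_gt.IX.Geo

set_option autoImplicit false

/-!
# Row GRT: great spheres
-/

namespace MPfbfa44

open scoped Manifold ContDiff

theorem grt_conn (m : ℕ) (hm : 1 ≤ m) (u : X (m + 2)) (hu : ‖u‖ = 1) :
    IsPreconnected {y : X (m + 2) | ‖y‖ = 1 ∧ (inner ℝ u y : ℝ) = 0} := by
  have hne : u ≠ 0 := by
    rintro rfl
    simp at hu
  have hfin : Module.finrank ℝ (Submodule.span ℝ {u})ᗮ = m + 1 := by
    haveI : Fact (Module.finrank ℝ (X (m + 2)) = (m + 1) + 1) := ⟨by simp⟩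
    exact Submodule.finrank_orthogonal_span_singleton hne
  have hrank : 1 < Module.rank ℝ (Submodule.span ℝ {u})ᗮ := by
    rw [← Module.finrank_eq_rank, hfin]
    exact_mod_cast (by omega : 1 < m + 1)
  have h1 := isPreconnected_sphere hrank (0 : (Submodule.span ℝ {u})ᗮ) 1
  have h2 := h1.image (fun v : (Submodule.span ℝ {u})ᗮ => (v : X (m + 2)))
    continuous_subtype_val.continuousOn
  have h3 : (fun v : (Submodule.span ℝ {u})ᗮ => (v : X (m + 2))) ''
      Metric.sphere (0 : (Submodule.span ℝ {u})ᗮ) 1 =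
      {y : X (m + 2) | ‖y‖ = 1 ∧ (inner ℝ u y : ℝ) = 0} := by
    ext y
    constructor
    · rintro ⟨v, hv, rfl⟩
      rw [mem_sphere_zero_iff_norm] at hv
      exact ⟨hv, Submodule.mem_orthogonal_singleton_iff_inner_right.1 v.2⟩
    · rintro ⟨hy, hi⟩
      exact ⟨⟨y, Submodule.mem_orthogonal_singleton_iff_inner_right.2 hi⟩,
        mem_sphere_zero_iff_norm.2 hy, rfl⟩
  rw [h3] at h2
  exact h2

theorem grt_inj {n : ℕ} (u y c c' : X n) (hu : ‖u‖ = 1) (hy : ‖y‖ = 1)
    (huy : (inner ℝ u y : ℝ) = 0) (hc : ‖c‖ = 1) (huc : (inner ℝ u c : ℝ) = 0) (hc' : ‖c'‖ = 1)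
    (huc' : (inner ℝ u c' : ℝ) = 0) (h : 0 < (inner ℝ y c : ℝ)) (h' : 0 < (inner ℝ y c' : ℝ))
    (s t : ℝ) (he : c - c' = s • y + t • u) : c = c' := by
  have huu : (inner ℝ u u : ℝ) = 1 := by rw [real_inner_self_eq_norm_sq, hu]; norm_num
  have hyy : (inner ℝ y y : ℝ) = 1 := by rw [real_inner_self_eq_norm_sq, hy]; norm_num
  have hcc : (inner ℝ c c : ℝ) = 1 := by rw [real_inner_self_eq_norm_sq, hc]; norm_num
  have hcc' : (inner ℝ c' c' : ℝ) = 1 := by rw [real_inner_self_eq_norm_sq, hc']; norm_num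
  have ht : t = 0 := by
    have h1 := congrArg (fun w => (inner ℝ u w : ℝ)) he
    simp only [inner_sub_right, inner_add_right, inner_smul_right, huc, huc', huy, huu] at h1
    linarith
  subst ht
  have he' : c = c' + s • y := by
    have : c - c' = s • y := by simpa using he
    rw [← this]
    abel
  have hyc : (inner ℝ y c : ℝ) = inner ℝ y c' + s := by
    rw [he', inner_add_right, inner_smul_right, hyy]
    ring
  have h2 : (inner ℝ c c : ℝ) = inner ℝ c' c' + 2 * s * inner ℝ y c' + s ^ 2 := by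
    rw [he']
    simp only [inner_add_left, inner_add_right, inner_smul_left, inner_smul_right, hyy,
      real_inner_comm c' y]
    simp
    ring
  rw [hcc, hcc'] at h2
  have h3 : s * (2 * inner ℝ y c' + s) = 0 := by linarith
  rcases mul_eq_zero.1 h3 with hs | hs
  · rw [he', hs]
    simp
  · exfalso
    linarith

theorem grt_proof : GrtStatement := by
  intro m hm u hu
  refine ⟨grt_conn m hm u hu, fun y hy huy => ⟨{c | 0 < (inner ℝ y c : ℝ)}, ?_, ?_, ?_⟩⟩
  · exact isOpen_lt continuous_const (continuous_const.inner continuous_id)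
  · show 0 < (inner ℝ y y : ℝ)
    rw [real_inner_self_eq_norm_sq, hy]
    norm_num
  · intro c hc hcn huc c' hc' hcn' huc' s t he
    exact grt_inj u y c c' hu hy huy hcn huc hcn' huc' hc hc' s t he

end MPfbfa44
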