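import Mathlib
import Pool.Agent.Lib.MP_fbfa44_gt.IX.Cal

set_option autoImplicit false

/-!
# Row IDX: index at most `m + 3` gives `Q0 f ≥ 0` whenever `∫ q f = 0`
-/

namespace MPfbfa44

open MeasureTheory

/-- The map `(v, s, t) ↦ <v, ν> + s + t f`. -/
noncomputable def idxMap {m : ℕ} (G : Cal m) (f : G.M → ℝ) :
    ((Fin (m + 2) → ℝ) × ℝ × ℝ) →ₗ[ℝ] (G.M → ℝ) where
  toFun a := fun p => G.z a.1 p + (a.2.1 + a.2.2 * f p)
  map_add' a b := by
    funext p
    simp only [Cal.z, Prod.fst_add, Prod.snd_add, Pi.add_apply, add_mul, Finset.sum_add_distrib]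
    ring
  map_smul' c a := by
    funext p
    simp only [Cal.z, Prod.smul_fst, Prod.smul_snd, Pi.smul_apply, smul_eq_mul, RingHom.id_apply,
      mul_add, Finset.mul_sum, mul_assoc]

theorem idxMap_apply {m : ℕ} (G : Cal m) (f : G.M → ℝ) (v : Fin (m + 2) → ℝ) (s t : ℝ) :
    idxMap G f (v, s, t) = fun p => G.z v p + (s + t * f p) := rfl

theorem idx_smooth {m : ℕ} (G : Cal m) (hG : G.Str) (hgrn : GrnStatement) (f : G.M → ℝ)
    (hf : G.Sm f) (v : Fin (m + 2) → ℝ) (s t : ℝ) :
    G.Sm (fun p => G.z v p + (s + t * f p)) := by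
  have hz : G.Sm (G.z v) := ((hgrn m G hG).2.2.2 v).2.1
  exact G.sadd _ _ hz (G.sadd _ _ (G.sconst s) (G.smul _ _ (G.sconst t) hf))

theorem idx_add {α : Type} [MeasurableSpace α] (μ : Measure α) (f g : α → ℝ)
    (hf : Integrable f μ) (hg : Integrable g μ) :
    ∫ p, (f p + g p) ∂μ = ∫ p, f p ∂μ + ∫ p, g p ∂μ := integral_add hf hg

theorem idx_six {α : Type} [MeasurableSpace α] (μ : Measure α) (a b c d e f : α → ℝ)
    (ha : Integrable a μ) (hb : Integrable b μ) (hc : Integrable c μ) (hd : Integrable d μ)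
    (he : Integrable e μ) (hf : Integrable f μ) :
    ∫ p, (((((a p + b p) + c p) - d p) - e p) - f p) ∂μ =
      ((((∫ p, a p ∂μ + ∫ p, b p ∂μ) + ∫ p, c p ∂μ) - ∫ p, d p ∂μ) - ∫ p, e p ∂μ) -
        ∫ p, f p ∂μ := by
  have h1 : Integrable (fun p => a p + b p) μ := ha.add hb
  have h2 : Integrable (fun p => (a p + b p) + c p) μ := h1.add hc
  have h3 : Integrable (fun p => ((a p + b p) + c p) - d p) μ := h2.sub hd
  have h4 : Integrable (fun p => (((a p + b p) + c p) - d p) - e p) μ := h3.sub he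
  rw [integral_sub h4 hf, integral_sub h3 he, integral_sub h2 hd, integral_add h1 hc,
    integral_add ha hb]

theorem idx_Q {m : ℕ} (G : Cal m) (hG : G.Str) (hgrn : GrnStatement) (f : G.M → ℝ)
    (hf : G.Sm f) (h0 : ∫ p, G.q p * f p ∂G.μ = 0) (v : Fin (m + 2) → ℝ) (s t : ℝ) :
    G.Q (fun p => G.z v p + (s + t * f p)) =
      -(s ^ 2 * ∫ p, G.q p ∂G.μ) + t ^ 2 * G.Q0 f -
        m * ∫ p, (G.z v p + (s + t * f p)) * (G.z v p + (s + t * f p)) ∂G.μ := by
  obtain ⟨hint, -, hgreen, hlin⟩ := hgrn m G hG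
  obtain ⟨-, hz, hzp⟩ := hlin v
  have hu : G.Sm (fun p => s + t * f p) :=
    G.sadd _ _ (G.sconst s) (G.smul _ _ (G.sconst t) hf)
  have hdu : ∀ i p, G.d i (fun p => s + t * f p) p = t * G.d i f p := by
    intro i p
    have h1 := G.dadd i (fun _ => s) (fun p => t * f p) (G.sconst s)
      (G.smul _ _ (G.sconst t) hf) p
    have h2 := G.dmul i (fun _ => t) f (G.sconst t) hf p
    rw [h1, h2, G.dconst, G.dconst]
    ring
  have hdw : ∀ i p, G.d i (fun p => G.z v p + (s + t * f p)) p =
      G.d i (G.z v) p + t * G.d i f p := by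
    intro i p
    have h1 := G.dadd i (G.z v) (fun p => s + t * f p) hz hu p
    rw [h1, hdu]
  have hs : G.Sm (fun p => G.z v p + (s + t * f p)) := idx_smooth G hG hgrn f hf v s t
  have hlap : ∀ p, G.lap (G.z v) p = -(G.q p * G.z v p) := fun p => (hzp p).2.2.2.1
  have gww := hgreen (G.z v) (G.z v) hz hz
  have guw := hgreen (fun p => s + t * f p) (G.z v) hu hz
  have czl : Continuous (G.lap (G.z v)) := G.cont _ (hgreen (G.z v) (G.z v) hz hz).2.1
  have gff := hgreen f f hf hf
  have key : ∀ p, G.gp (fun p => G.z v p + (s + t * f p)) (fun p => G.z v p + (s + t * f p)) p -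
      (G.q p + m) * ((G.z v p + (s + t * f p)) * (G.z v p + (s + t * f p))) =
      ((((((G.gp (G.z v) (G.z v) p + G.z v p * G.lap (G.z v) p) +
      2 * (G.gp (fun p => s + t * f p) (G.z v) p + (s + t * f p) * G.lap (G.z v) p)) +
      t ^ 2 * (G.gp f f p - G.q p * (f p * f p))) - s ^ 2 * G.q p) -
      (2 * s * t) * (G.q p * f p)) -
      m * ((G.z v p + (s + t * f p)) * (G.z v p + (s + t * f p)))) := by
    intro p
    have e1 : G.gp (fun p => G.z v p + (s + t * f p)) (fun p => G.z v p + (s + t * f p)) p =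
        G.gp (G.z v) (G.z v) p + 2 * G.gp (fun p => s + t * f p) (G.z v) p +
        t ^ 2 * G.gp f f p := by
      simp only [Cal.gp, Finset.mul_sum]
      rw [← Finset.sum_add_distrib, ← Finset.sum_add_distrib]
      refine Finset.sum_congr rfl fun i _ => ?_
      rw [hdw, hdu]
      ring
    rw [e1, hlap]
    ring
  have cz : Continuous (G.z v) := G.cont _ hz
  have cu : Continuous (fun p => s + t * f p) := G.cont _ hu
  have cf : Continuous f := G.cont _ hf
  have cq : Continuous G.q := G.cont _ hG.sq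
  have cw : Continuous (fun p => G.z v p + (s + t * f p)) := G.cont _ hs
  have i1 : Integrable (fun p => G.gp (G.z v) (G.z v) p + G.z v p * G.lap (G.z v) p) G.μ :=
    hint _ ((G.cont _ gww.1).add (cz.mul czl))
  have i2 : Integrable (fun p => 2 * (G.gp (fun p => s + t * f p) (G.z v) p +
      (s + t * f p) * G.lap (G.z v) p)) G.μ :=
    hint _ (continuous_const.mul ((G.cont _ guw.1).add (cu.mul czl)))
  have i3 : Integrable (fun p => t ^ 2 * (G.gp f f p - G.q p * (f p * f p))) G.μ :=
    hint _ (continuous_const.mul ((G.cont _ gff.1).sub (cq.mul (cf.mul cf))))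
  have i4 : Integrable (fun p => s ^ 2 * G.q p) G.μ := hint _ (continuous_const.mul cq)
  have i5 : Integrable (fun p => (2 * s * t) * (G.q p * f p)) G.μ :=
    hint _ (continuous_const.mul (cq.mul cf))
  have i6 : Integrable (fun p => (m : ℝ) *
      ((G.z v p + (s + t * f p)) * (G.z v p + (s + t * f p)))) G.μ :=
    hint _ (continuous_const.mul (cw.mul cw))
  have j1 : ∫ p, (G.gp (G.z v) (G.z v) p + G.z v p * G.lap (G.z v) p) ∂G.μ = 0 := by
    refine (idx_add G.μ (fun p => G.gp (G.z v) (G.z v) p) (fun p => G.z v p * G.lap (G.z v) p)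
      (hint _ (G.cont _ gww.1)) (hint _ (cz.mul czl))).trans ?_
    rw [gww.2.2]
    ring
  have j2 : ∫ p, (G.gp (fun p => s + t * f p) (G.z v) p +
      (s + t * f p) * G.lap (G.z v) p) ∂G.μ = 0 := by
    refine (idx_add G.μ (fun p => G.gp (fun p => s + t * f p) (G.z v) p)
      (fun p => (s + t * f p) * G.lap (G.z v) p)
      (hint _ (G.cont _ guw.1)) (hint _ (cu.mul czl))).trans ?_
    rw [guw.2.2]
    ring
  unfold Cal.Q
  rw [integral_congr_ae (Filter.Eventually.of_forall key)]
  refine (idx_six G.μ _ _ _ _ _ _ i1 i2 i3 i4 i5 i6).trans ?_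
  rw [integral_const_mul, integral_const_mul, integral_const_mul, integral_const_mul,
    integral_const_mul, j1, j2, h0]
  unfold Cal.Q0
  ring

/-- Row IDX. -/
theorem idx_proof (hgrn : GrnStatement) (hnul : NulStatement) : IdxStatement := by
  intro m G hG hm hq hidx f hf h0
  by_contra hneg
  push Not at hneg
  obtain ⟨hint, hzero, -, hlin⟩ := hgrn m G hG
  have cq : Continuous G.q := G.cont _ hG.sq
  have q0 : ∀ p, 0 ≤ G.q p := fun p =>
    Finset.sum_nonneg fun i _ => Finset.sum_nonneg fun j _ => mul_self_nonneg _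
  have qpos : 0 < ∫ p, G.q p ∂G.μ := by
    by_contra hc
    push Not at hc
    obtain ⟨p, hp⟩ := hq
    exact hp (hzero G.q cq q0 hc p)
  -- negativity
  have hnegQ : ∀ a : (Fin (m + 2) → ℝ) × ℝ × ℝ, a ≠ 0 → G.Q (idxMap G f a) < 0 := by
    rintro ⟨v, s, t⟩ ha
    rw [idxMap_apply, idx_Q G hG hgrn f hf h0 v s t]
    have cw : Continuous (fun p => G.z v p + (s + t * f p)) :=
      G.cont _ (idx_smooth G hG hgrn f hf v s t)
    have hnn : 0 ≤ ∫ p, (G.z v p + (s + t * f p)) * (G.z v p + (s + t * f p)) ∂G.μ :=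
      integral_nonneg fun p => mul_self_nonneg _
    have hmnn : 0 ≤ (m : ℝ) *
        ∫ p, (G.z v p + (s + t * f p)) * (G.z v p + (s + t * f p)) ∂G.μ :=
      mul_nonneg (Nat.cast_nonneg m) hnn
    by_cases hs : s = 0
    · by_cases ht : t = 0
      · subst hs
        subst ht
        have hv : v ≠ 0 := by
          rintro rfl
          exact ha rfl
        have hz : ∃ p, G.z v p ≠ 0 := by
          by_contra hc
          push Not at hc
          obtain ⟨p, hp⟩ := hq
          exact hp (hnul m G hG hm v hv hc p)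
        have hpos : 0 < ∫ p, (G.z v p + (0 + 0 * f p)) * (G.z v p + (0 + 0 * f p)) ∂G.μ := by
          by_contra hc
          push Not at hc
          obtain ⟨p, hp⟩ := hz
          have h1 := hzero (fun p => (G.z v p + (0 + 0 * f p)) * (G.z v p + (0 + 0 * f p)))
            (cw.mul cw) (fun p => mul_self_nonneg _) hc p
          have h2 : G.z v p * G.z v p = 0 := by
            have h3 : G.z v p + (0 + 0 * f p) = G.z v p := by ring
            simpa only [h3] using h1
          exact hp (mul_self_eq_zero.mp h2)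
        have hm' : (0 : ℝ) < m := by exact_mod_cast hm
        have h4 := mul_pos hm' hpos
        have h5 : (0 : ℝ) ^ 2 = 0 := by norm_num
        rw [h5]
        linarith
      · have h1 : t ^ 2 * G.Q0 f < 0 :=
          mul_neg_of_pos_of_neg (by positivity) hneg
        have h2 : 0 ≤ s ^ 2 * ∫ p, G.q p ∂G.μ := mul_nonneg (sq_nonneg s) qpos.le
        linarith
    · have h1 : t ^ 2 * G.Q0 f ≤ 0 :=
        mul_nonpos_of_nonneg_of_nonpos (sq_nonneg t) hneg.le
      have h2 : 0 < s ^ 2 * ∫ p, G.q p ∂G.μ := mul_pos (by positivity) qpos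
      linarith
  have Q0' : G.Q (0 : G.M → ℝ) = 0 := by
    have h1 := idx_Q G hG hgrn f hf h0 0 0 0
    have h2 : (fun p => G.z 0 p + (0 + 0 * f p)) = (0 : G.M → ℝ) := by
      funext p
      simp [Cal.z]
    rw [h2] at h1
    rw [h1]
    have h3 : ∀ p, G.z 0 p + (0 + 0 * f p) = 0 := fun p => congrFun h2 p
    simp only [h3]
    simp
  have hinj : Function.Injective (idxMap G f) := by
    rw [← LinearMap.ker_eq_bot]
    rw [LinearMap.ker_eq_bot']
    intro a ha
    by_contra hne
    have h1 := hnegQ a hne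
    rw [ha, Q0'] at h1
    exact lt_irrefl _ h1
  have hrank := hidx (LinearMap.range (idxMap G f))
    (by
      rintro g ⟨⟨v, s, t⟩, rfl⟩
      rw [idxMap_apply]
      exact idx_smooth G hG hgrn f hf v s t)
    (by
      rintro g ⟨a, rfl⟩ hg
      refine hnegQ a ?_
      rintro rfl
      exact hg (map_zero _))
  have e := (LinearEquiv.ofInjective (idxMap G f) hinj).rank_eq
  rw [← e] at hrank
  rw [← Module.finrank_eq_rank, Nat.cast_le, Module.finrank_prod, Module.finrank_prod,
    Module.finrank_fintype_fun_eq_card, Module.finrank_self, Fintype.card_fin] at hrank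
  omega

end MPfbfa44
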