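import Pool.Agent.Lib.MP_fbfa44_gt.IX.Geo

set_option autoImplicit false

/-!
# Row INJ: index at most `m + 3` and image a Clifford hypersurface give injectivity

Paper: finding 4721 on MP_fbfa44_gt (helper80).  If `x p₀ = x p₁ = c` with `p₀ ≠ p₁` then the set
`{w > 0}`, `w = (1 + h₁) (1 + h₂)`, `h₁ = <x, c₁> / |c₁|²`, `h₂ = <x, c₂> / |c₂|²`, is the disjoint
union of two nonempty open sets, and each of them carries a function on which `Q0` is negative.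
-/

namespace MPfbfa44

open MeasureTheory
open scoped Manifold ContDiff

/-- `P` is the matrix of an orthogonal projection with `<P x, x> = k / m` on the hypersurface. -/
structure Split {m : ℕ} (G : Cal m) (k : ℕ) (P : Fin (m + 2) → Fin (m + 2) → ℝ) : Prop where
  k1 : 1 ≤ k
  km : k + 1 ≤ m
  sym : ∀ i j, P i j = P j i
  idem : ∀ i j, ∑ l, P i l * P l j = P i j
  eq : ∀ p, ∑ i, ∑ j, P i j * (G.x i p * G.x j p) = (k / m : ℝ)

/-- `b` in the first summand, `d` in the second, of the norms of `c₁/|c₁|²`, `c₂/|c₂|²`. -/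
structure Pair {m : ℕ} (k : ℕ) (P : Fin (m + 2) → Fin (m + 2) → ℝ)
    (b d : Fin (m + 2) → ℝ) : Prop where
  pb : ∀ i, ∑ j, P i j * b j = b i
  pd : ∀ i, ∑ j, P i j * d j = 0
  nb : ∑ i, b i ^ 2 = (m / k : ℝ)
  nd : ∑ i, d i ^ 2 = (m / (m - k) : ℝ)

/-- The function `w = (1 + h₁) (1 + h₂)`. -/
def Cal.w {m : ℕ} (G : Cal m) (b d : Fin (m + 2) → ℝ) (p : G.M) : ℝ :=
  (1 + G.h b p) * (1 + G.h d p)

/-- Row SPH (from STR, GRN): the gradients of `h₁` and `h₂`. -/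
def SphStatement : Prop := ∀ (m : ℕ) (G : Cal m), G.Str →
  ∀ (k : ℕ) (P : Fin (m + 2) → Fin (m + 2) → ℝ), Split G k P →
    (∀ p, ∃ s : ℝ, s ≠ 0 ∧ ∀ i, ∑ j, P i j * G.x j p = k / m * G.x i p + s * G.ν i p) ∧
    ∀ b d, Pair k P b d → ∀ p,
      G.gp (G.h b) (G.h b) p = m / k * (1 - G.h b p ^ 2) ∧
      G.gp (G.h d) (G.h d) p = m / (m - k) * (1 - G.h d p ^ 2) ∧
      G.gp (G.h b) (G.h d) p = 0 ∧
      (-1 ≤ G.h b p ∧ G.h b p ≤ 1) ∧ (-1 ≤ G.h d p ∧ G.h d p ≤ 1)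

/-- Row NEG (from STR, GRN, SPH): the upper bound of `Q0`. -/
def NegStatement : Prop := ∀ (m : ℕ) (G : Cal m), G.Str → (∀ p, G.q p = m) →
  ∀ (k : ℕ) (P : Fin (m + 2) → Fin (m + 2) → ℝ), Split G k P → ∀ b d, Pair k P b d →
  ∀ (F σ : G.M → ℝ) (δ : ℝ), G.Sm F → (∀ p, 0 ≤ F p) → (∀ p, 0 ≤ σ p ∧ σ p ≤ 1) →
    (∀ i p, G.d i F p = σ p * G.d i (G.w b d) p) →
    (∀ p, F p * (G.w b d p - F p - δ) ≤ 0) →
    G.Q0 F ≤ -(m * ∫ p, F p * (1 - G.h b p * G.h d p - δ) ∂G.μ)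

/-- The cut-off functions of `w` on the open set `U`. -/
def Cal.Cutoff {m : ℕ} (G : Cal m) (w : G.M → ℝ) (U : Set G.M) : Prop :=
  ∀ δ : ℝ, 0 < δ → ∃ F σ : G.M → ℝ, G.Sm F ∧ (∀ p, 0 ≤ F p ∧ F p ≤ w p) ∧
    (∀ p, 0 ≤ σ p ∧ σ p ≤ 1) ∧ (∀ i p, G.d i F p = σ p * G.d i w p) ∧
    (∀ p, p ∉ U → F p = 0 ∧ σ p = 0) ∧ ∀ p ∈ U, w p - δ ≤ F p

/-- Row TWO (from STR, GRN, SPH, NEG): two open sets give a contradiction. -/
def TwoStatement : Prop := ∀ (m : ℕ) (G : Cal m), G.Str → 2 ≤ m → (∀ p, G.q p = m) →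
  (∀ f, G.Sm f → ∫ p, G.q p * f p ∂G.μ = 0 → 0 ≤ G.Q0 f) →
  ∀ (k : ℕ) (P : Fin (m + 2) → Fin (m + 2) → ℝ), Split G k P → ∀ b d, Pair k P b d →
  ∀ U V : Set G.M, IsOpen U → IsOpen V → Disjoint U V →
    (∀ p, 0 < G.w b d p ↔ p ∈ U ∪ V) →
    (∃ p ∈ U, G.h b p * G.h d p < 1) → (∃ p ∈ V, G.h b p * G.h d p < 1) →
    G.Cutoff (G.w b d) U → G.Cutoff (G.w b d) V → False

/-- Row CUT (geometric): the cut-off functions exist. -/
def CutStatement : Prop :=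
  ∀ (m : ℕ) (M : Type) [TopologicalSpace M] [ChartedSpace (X m) M] [IsManifold (𝓡 m) ∞ M]
    (S : Hypersurface m M) (w : M → ℝ) (U V : Set M) (δ : ℝ), Smooth m w → IsOpen U →
    IsOpen V → Disjoint U V → (∀ p, 0 ≤ w p) → (∀ p, 0 < w p ↔ p ∈ U ∪ V) → 0 < δ →
    ∃ F σ : M → ℝ, Smooth m F ∧ (∀ p, 0 ≤ F p ∧ F p ≤ w p) ∧
      (∀ p, 0 ≤ σ p ∧ σ p ≤ 1) ∧ (∀ p, S.grad F p = σ p • S.grad w p) ∧
      (∀ p, p ∉ U → F p = 0 ∧ σ p = 0) ∧ ∀ p ∈ U, w p - δ ≤ F p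

/-- Row LHM (geometric): local homeomorphism onto `C`; the hypothesis is that of row OPM. -/
def LhmStatement : Prop :=
  ∀ (m : ℕ) (M : Type) [TopologicalSpace M] [ChartedSpace (X m) M] [IsManifold (𝓡 m) ∞ M]
    (S : Hypersurface m M) (C : Set (X (m + 2))) (hC : ∀ p, S.x p ∈ C),
    (∀ p : M, ∃ U : Set (X (m + 2)), IsOpen U ∧ S.x p ∈ U ∧ ∀ c ∈ C ∩ U, ∀ c' ∈ C ∩ U,
      (∀ v, (inner ℝ (c - c') (der m S.x p v) : ℝ) = 0) → c = c') →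
    IsLocalHomeomorph (fun p => (⟨S.x p, hC p⟩ : C))

/-- The function `h₁ = <y, c₁> / |c₁|²`. -/
noncomputable def h1 (m k : ℕ) (c y : X (m + 2)) : ℝ :=
  m / k * ∑ i : Fin (m + 2), if (i : ℕ) < k + 1 then c i * y i else 0

/-- The function `h₂ = <y, c₂> / |c₂|²`. -/
noncomputable def h2 (m k : ℕ) (c y : X (m + 2)) : ℝ :=
  m / (m - k) * ∑ i : Fin (m + 2), if (i : ℕ) < k + 1 then 0 else c i * y i

/-- Row TOP (topology only): a local homeomorphism of a compact space to the Clifford hypersurface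
which is not injective; the points far from the cut locus of `c`. -/
def TopStatement : Prop :=
  ∀ (m k : ℕ), 1 ≤ k → k + 1 ≤ m → ∀ (M : Type) [TopologicalSpace M] [T2Space M] [CompactSpace M]
    (y : M → clifford m k), IsLocalHomeomorph y → ∀ p₀ p₁ : M, y p₀ = y p₁ →
    IsPreconnected {p : M | 0 < (1 + h1 m k (y p₀) (y p)) * (1 + h2 m k (y p₀) (y p))} → p₀ = p₁

/-- Row INJ: the assembly. -/
def InjStatement : Prop :=
  ∀ (m : ℕ), 2 ≤ m → ∀ (M : Type) [TopologicalSpace M] [T2Space M] [CompactSpace M]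
    [ConnectedSpace M] [ChartedSpace (X m) M] [IsManifold (𝓡 m) ∞ M] [MeasurableSpace M]
    [BorelSpace M] (S : Hypersurface m M), S.IsMinimal → (∀ p, S.normSqA p = m) →
    ∀ μ : Measure M, S.IsAreaMeasure μ → S.MorseIndexLE μ (m + 3) → ∀ k : ℕ, 1 ≤ k → k + 1 ≤ m →
      ∀ L : X (m + 2) ≃ₗᵢ[ℝ] X (m + 2), Set.range S.x ⊆ L '' clifford m k →
        Function.Injective S.x

end MPfbfa44
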