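import Mathlib
import Pool.Agent.Lib.MP_fbfa44_gt.IX.Geo

set_option autoImplicit false

/-!
# The Clifford hypersurface is locally injective under the projection to the tangent spaces

`cliff_locinj` is exactly the hypothesis of rows OPM and LHM.
-/

namespace MPfbfa44

open MeasureTheory
open scoped Manifold ContDiff

namespace INJ

/-- The derivative of a constant function of `f`. -/
theorem fderiv_comp_const {m n : ℕ} {M : Type} [TopologicalSpace M] [ChartedSpace (X m) M]
    [IsManifold (𝓡 m) ∞ M] (f : M → X n) (hf : Smooth m f) (φ : X n → ℝ)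
    (hφ : Differentiable ℝ φ) (c : ℝ) (h : ∀ p, φ (f p) = c) (p : M) (v : X m) :
    fderiv ℝ φ (f p) (der m f p v) = 0 := by
  have h1 : MDifferentiableAt (𝓡 m) 𝓘(ℝ, X n) f p :=
    (hf.mdifferentiable (by simp)) p
  have h2 : MDifferentiableAt 𝓘(ℝ, X n) 𝓘(ℝ, ℝ) φ (f p) := (hφ (f p)).mdifferentiableAt
  have h3 := mfderiv_comp p h2 h1
  have h4 : φ ∘ f = fun _ => c := by
    funext q
    exact h q
  rw [h4, mfderiv_const, mfderiv_eq_fderiv] at h3
  have h5 := congrArg (fun A => A v) h3
  exact h5.symm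

/-- The truncation to the first `k + 1` coordinates. -/
noncomputable def trunc (m k : ℕ) (y : X (m + 2)) : X (m + 2) :=
  WithLp.toLp 2 (fun i => if (i : ℕ) < k + 1 then y i else 0)

theorem trunc_apply (m k : ℕ) (y : X (m + 2)) (i : Fin (m + 2)) :
    trunc m k y i = if (i : ℕ) < k + 1 then y i else 0 := rfl

/-- The truncation as a continuous linear map. -/
noncomputable def truncL (m k : ℕ) : X (m + 2) →L[ℝ] X (m + 2) :=
  LinearMap.toContinuousLinearMap
    { toFun := trunc m k
      map_add' := by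
        intro x y
        ext i
        simp only [trunc_apply, PiLp.add_apply]
        split_ifs <;> simp
      map_smul' := by
        intro c x
        ext i
        simp only [trunc_apply, PiLp.smul_apply, smul_eq_mul, RingHom.id_apply]
        split_ifs <;> simp }

theorem truncL_apply (m k : ℕ) (y : X (m + 2)) : truncL m k y = trunc m k y := rfl

theorem inner_trunc (m k : ℕ) (y z : X (m + 2)) :
    (inner ℝ (trunc m k y) z : ℝ) =
      ∑ i : Fin (m + 2), if (i : ℕ) < k + 1 then y i * z i else 0 := by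
  rw [PiLp.inner_apply]
  refine Finset.sum_congr rfl fun i _ => ?_
  rw [trunc_apply]
  split_ifs <;> simp [mul_comm]

theorem inner_trunc_comm (m k : ℕ) (y z : X (m + 2)) :
    (inner ℝ (trunc m k y) z : ℝ) = inner ℝ y (trunc m k z) := by
  rw [real_inner_comm (trunc m k z) y, inner_trunc, inner_trunc]
  refine Finset.sum_congr rfl fun i _ => ?_
  split_ifs
  · ring
  · rfl

theorem trunc_trunc (m k : ℕ) (y : X (m + 2)) : trunc m k (trunc m k y) = trunc m k y := by
  ext i
  simp only [trunc_apply]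
  split_ifs <;> rfl

theorem inner_trunc_self (m k : ℕ) (y : X (m + 2)) :
    (inner ℝ (trunc m k y) y : ℝ) = ∑ i : Fin (m + 2), if (i : ℕ) < k + 1 then y i ^ 2 else 0 := by
  rw [inner_trunc]
  refine Finset.sum_congr rfl fun i _ => ?_
  split_ifs
  · ring
  · rfl

theorem cliff_trunc {m k : ℕ} {y : X (m + 2)} (hy : y ∈ clifford m k) :
    (inner ℝ (trunc m k y) y : ℝ) = k / m := by
  rw [inner_trunc_self]
  exact hy.1

theorem cliff_norm {m k : ℕ} (hm : m ≠ 0) {y : X (m + 2)} (hy : y ∈ clifford m k) :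
    (inner ℝ y y : ℝ) = 1 := by
  have h0 : (m : ℝ) ≠ 0 := by exact_mod_cast hm
  have h : (inner ℝ y y : ℝ) = (∑ i : Fin (m + 2), if (i : ℕ) < k + 1 then y i ^ 2 else 0) +
      ∑ i : Fin (m + 2), if (i : ℕ) < k + 1 then 0 else y i ^ 2 := by
    rw [PiLp.inner_apply, ← Finset.sum_add_distrib]
    refine Finset.sum_congr rfl fun i _ => ?_
    split_ifs
    · simp [sq]
    · simp [sq]
  rw [h, hy.1, hy.2]
  field_simp
  ring

/-- The orthogonal complement of the tangent space is spanned by the two components. -/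
theorem perp_span (hGrd : GrdStatement) {m : ℕ} {M : Type} [TopologicalSpace M]
    [ChartedSpace (X m) M] (S : Hypersurface m M) (p : M) (e : X (m + 2)) (A : ℝ) (hA : 0 < A)
    (hA1 : A < 1) (h1 : (inner ℝ e e : ℝ) = A) (h2 : (inner ℝ e (S.x p) : ℝ) = A)
    (h3 : ∀ v, (inner ℝ e (der m S.x p v) : ℝ) = 0)
    (h4 : ∀ v, (inner ℝ (S.x p) (der m S.x p v) : ℝ) = 0) (w : X (m + 2))
    (hw : ∀ v, (inner ℝ w (der m S.x p v) : ℝ) = 0) :
    ∃ s t : ℝ, w = s • e + t • (S.x p - e) := by
  obtain ⟨-, -, -, hspan⟩ := hGrd m M S p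
  have hxx : (inner ℝ (S.x p) (S.x p) : ℝ) = 1 := by
    rw [real_inner_self_eq_norm_sq, S.norm_x]; norm_num
  have hνν : (inner ℝ (S.ν p) (S.ν p) : ℝ) = 1 := by
    rw [real_inner_self_eq_norm_sq, S.norm_ν]; norm_num
  have hνx : (inner ℝ (S.ν p) (S.x p) : ℝ) = 0 := S.inner_ν_x p
  have hxν : (inner ℝ (S.x p) (S.ν p) : ℝ) = 0 := by rw [real_inner_comm]; exact hνx
  have hxe : (inner ℝ (S.x p) e : ℝ) = A := by rw [real_inner_comm]; exact h2
  -- a vector orthogonal to everything vanishes
  have hzero : ∀ z : X (m + 2), (inner ℝ (S.x p) z : ℝ) = 0 → (inner ℝ (S.ν p) z : ℝ) = 0 →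
      (∀ v, (inner ℝ z (der m S.x p v) : ℝ) = 0) → z = 0 := by
    intro z hz1 hz2 hz3
    obtain ⟨u, hu⟩ := hspan z hz1 hz2
    have : (inner ℝ z z : ℝ) = 0 := by
      nth_rewrite 2 [hu]
      exact hz3 u
    exact inner_self_eq_zero.mp this
  -- the vector n
  set n : X (m + 2) := e - A • S.x p with hn
  set κ : ℝ := inner ℝ (S.ν p) n with hκ
  have hn1 : (inner ℝ (S.x p) n : ℝ) = 0 := by
    rw [hn, inner_sub_right, inner_smul_right, hxx, hxe]; ring
  have hn3 : ∀ v, (inner ℝ n (der m S.x p v) : ℝ) = 0 := by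
    intro v
    rw [hn, inner_sub_left, inner_smul_left, h3, h4]; simp
  have hnn : n - κ • S.ν p = 0 := by
    refine hzero _ ?_ ?_ ?_
    · rw [inner_sub_right, inner_smul_right, hn1, hxν]; ring
    · rw [inner_sub_right, inner_smul_right, hνν, ← hκ]; ring
    · intro v
      rw [inner_sub_left, inner_smul_left, hn3, S.inner_ν_dx]; simp
  have hnν : n = κ • S.ν p := sub_eq_zero.mp hnn
  have hnsq : (inner ℝ n n : ℝ) = A - A ^ 2 := by
    have : (inner ℝ n n : ℝ) = inner ℝ e e - A * inner ℝ e (S.x p) := by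
      nth_rewrite 1 [hn]
      rw [inner_sub_left, inner_smul_left, hn1, hn, inner_sub_right, inner_smul_right]
      simp
    rw [this, h1, h2]; ring
  have hκ0 : κ ≠ 0 := by
    intro h0
    rw [h0, zero_smul] at hnν
    rw [hnν, inner_zero_left] at hnsq
    nlinarith
  -- the decomposition
  refine ⟨(inner ℝ w e : ℝ) / A, (inner ℝ w (S.x p - e) : ℝ) / (1 - A), ?_⟩
  set s : ℝ := (inner ℝ w e : ℝ) / A with hs
  set t : ℝ := (inner ℝ w (S.x p - e) : ℝ) / (1 - A) with ht
  have hsA : s * A = inner ℝ w e := by rw [hs]; field_simp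
  have hA1' : (1 - A) ≠ 0 := by linarith
  have htA : t * (1 - A) = inner ℝ w (S.x p) - inner ℝ w e := by
    rw [ht, inner_sub_right]; field_simp
  have hwx : (inner ℝ (S.x p) w : ℝ) = inner ℝ w (S.x p) := real_inner_comm _ _
  have hwe : (inner ℝ e w : ℝ) = inner ℝ w e := real_inner_comm _ _
  have key : w - (s • e + t • (S.x p - e)) = 0 := by
    have k1 : (inner ℝ (S.x p) (w - (s • e + t • (S.x p - e))) : ℝ) = 0 := by
      rw [inner_sub_right, inner_add_right, inner_smul_right, inner_smul_right, inner_sub_right,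
        hxx, hxe, hwx]
      linarith
    have k2 : (inner ℝ e (w - (s • e + t • (S.x p - e))) : ℝ) = 0 := by
      rw [inner_sub_right, inner_add_right, inner_smul_right, inner_smul_right, inner_sub_right,
        h1, h2, hwe]
      linarith
    have k3 : (inner ℝ n (w - (s • e + t • (S.x p - e))) : ℝ) = 0 := by
      rw [hn, inner_sub_left, inner_smul_left, k1, k2]; simp
    refine hzero _ k1 ?_ ?_
    · rw [hnν, inner_smul_left] at k3
      have := (mul_eq_zero.mp k3).resolve_left (by simpa using hκ0)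
      exact this
    · intro v
      rw [inner_sub_left, inner_add_left, inner_smul_left, inner_smul_left, inner_sub_left,
        hw, h3, h4]; simp
  exact sub_eq_zero.mp key

theorem x_perp {m : ℕ} {M : Type} [TopologicalSpace M] [ChartedSpace (X m) M]
    [IsManifold (𝓡 m) ∞ M] (S : Hypersurface m M) (p : M) (v : X m) :
    (inner ℝ (S.x p) (der m S.x p v) : ℝ) = 0 := by
  have h := fderiv_comp_const S.x S.smooth_x (fun z => (inner ℝ z z : ℝ))
    (differentiable_id.inner ℝ differentiable_id) 1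
    (fun q => by rw [real_inner_self_eq_norm_sq, S.norm_x]; norm_num) p v
  rw [fderiv_inner_apply ℝ differentiableAt_fun_id differentiableAt_fun_id] at h
  simp only [fderiv_fun_id, ContinuousLinearMap.coe_id', id_eq] at h
  have h' := real_inner_comm (der m S.x p v) (S.x p)
  linarith

end INJ

open INJ in
/-- The hypothesis of rows OPM and LHM for the Clifford hypersurface. -/
theorem cliff_locinj (hGrd : GrdStatement) (hClc : ClcStatement) {m k : ℕ} (hk1 : 1 ≤ k)
    (hkm : k + 1 ≤ m) {M : Type} [TopologicalSpace M] [ChartedSpace (X m) M]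
    [IsManifold (𝓡 m) ∞ M] (S : Hypersurface m M) (L : X (m + 2) ≃ₗᵢ[ℝ] X (m + 2))
    (hC : Set.range S.x ⊆ L '' clifford m k) :
    ∀ p : M, ∃ U : Set (X (m + 2)), IsOpen U ∧ S.x p ∈ U ∧ ∀ c ∈ L '' clifford m k ∩ U,
      ∀ c' ∈ L '' clifford m k ∩ U,
        (∀ v, (inner ℝ (c - c') (der m S.x p v) : ℝ) = 0) → c = c' := by
  intro p
  have hm0 : m ≠ 0 := by omega
  have hmR : (0 : ℝ) < m := by exact_mod_cast (by omega : 0 < m)
  have hkR : (0 : ℝ) < k := by exact_mod_cast (by omega : 0 < k)
  have hkmR : (k : ℝ) < m := by exact_mod_cast (by omega : k < m)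
  -- the point of the model
  have hy : ∀ q : M, L.symm (S.x q) ∈ clifford m k := by
    intro q
    obtain ⟨z, hz, hzq⟩ := hC ⟨q, rfl⟩
    rw [← hzq, LinearIsometryEquiv.symm_apply_apply]
    exact hz
  set y : X (m + 2) := L.symm (S.x p) with hydef
  have hLy : L y = S.x p := by rw [hydef, LinearIsometryEquiv.apply_symm_apply]
  obtain ⟨U, hU1, hU2, hU3⟩ := (hClc m k hk1 hkm).2 y (hy p)
  -- the component
  set e : X (m + 2) := L (trunc m k y) with he
  have h1 : (inner ℝ e e : ℝ) = k / m := by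
    rw [he, LinearIsometryEquiv.inner_map_map, inner_trunc_comm, trunc_trunc,
      ← inner_trunc_comm]
    exact cliff_trunc (hy p)
  have h2 : (inner ℝ e (S.x p) : ℝ) = k / m := by
    rw [← hLy, he, LinearIsometryEquiv.inner_map_map]
    exact cliff_trunc (hy p)
  have h3 : ∀ v, (inner ℝ e (der m S.x p v) : ℝ) = 0 := by
    intro v
    set T : X (m + 2) →L[ℝ] X (m + 2) :=
      (L.toContinuousLinearEquiv : X (m + 2) →L[ℝ] X (m + 2)).comp
        ((truncL m k).comp (L.symm.toContinuousLinearEquiv : X (m + 2) →L[ℝ] X (m + 2))) with hT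
    have hTa : ∀ z, T z = L (trunc m k (L.symm z)) := fun z => rfl
    have hTs : ∀ z z', (inner ℝ (T z) z' : ℝ) = inner ℝ z (T z') := by
      intro z z'
      rw [hTa, hTa]
      have e1 : (inner ℝ (L (trunc m k (L.symm z))) z' : ℝ) =
          inner ℝ (trunc m k (L.symm z)) (L.symm z') := by
        rw [← LinearIsometryEquiv.inner_map_map L (trunc m k (L.symm z)),
          LinearIsometryEquiv.apply_symm_apply]
      have e2 : (inner ℝ z (L (trunc m k (L.symm z'))) : ℝ) =
          inner ℝ (L.symm z) (trunc m k (L.symm z')) := by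
        rw [← LinearIsometryEquiv.inner_map_map L (L.symm z),
          LinearIsometryEquiv.apply_symm_apply]
      rw [e1, e2, inner_trunc_comm]
    have hq : ∀ q, (inner ℝ (T (S.x q)) (S.x q) : ℝ) = k / m := by
      intro q
      rw [hTa]
      have e1 : (inner ℝ (L (trunc m k (L.symm (S.x q)))) (S.x q) : ℝ) =
          inner ℝ (trunc m k (L.symm (S.x q))) (L.symm (S.x q)) := by
        rw [← LinearIsometryEquiv.inner_map_map L (trunc m k (L.symm (S.x q))),
          LinearIsometryEquiv.apply_symm_apply]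
      rw [e1]
      exact cliff_trunc (hy q)
    have h := fderiv_comp_const S.x S.smooth_x (fun z => (inner ℝ (T z) z : ℝ))
      (T.differentiable.inner ℝ differentiable_id) (k / m) hq p v
    rw [fderiv_inner_apply ℝ (T.differentiableAt) differentiableAt_fun_id] at h
    simp only [fderiv_fun_id, ContinuousLinearMap.coe_id', id_eq,
      ContinuousLinearMap.fderiv] at h
    rw [hTs (der m S.x p v)] at h
    have h' := real_inner_comm (der m S.x p v) (T (S.x p))
    have hTp : T (S.x p) = e := by rw [hTa, ← hydef, he]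
    rw [hTp] at h h'
    linarith
  have hA1 : (k : ℝ) / m < 1 := by rw [div_lt_one hmR]; exact hkmR
  refine ⟨L '' U, ?_, ⟨y, hU2, hLy⟩, ?_⟩
  · exact L.toHomeomorph.isOpenMap U hU1
  · rintro c ⟨⟨z, hz, rfl⟩, ⟨z1, hz1, hz1'⟩⟩ c' ⟨⟨z', hz', rfl⟩, ⟨z2, hz2, hz2'⟩⟩ hc
    have e1 : z1 = z := L.injective hz1'
    have e2 : z2 = z' := L.injective hz2'
    subst e1
    subst e2
    obtain ⟨s, t, hst⟩ := perp_span hGrd S p e (k / m) (by positivity) hA1 h1 h2 h3
      (x_perp S p) (L z1 - L z2) hc
    have hzz : z1 - z2 = s • trunc m k y + t • (y - trunc m k y) := by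
      apply L.injective
      rw [map_sub, hst, map_add, map_smul, map_smul, map_sub, hLy]
    have := hU3 z1 ⟨hz, hz1⟩ z2 ⟨hz', hz2⟩ s t (by
      intro i
      have h := congrArg (fun u : X (m + 2) => u i) hzz
      simp only [PiLp.sub_apply, PiLp.add_apply, PiLp.smul_apply, smul_eq_mul,
        trunc_apply] at h
      rw [h]
      split_ifs <;> ring)
    rw [this]

end MPfbfa44
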