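import Pool.Agent.Lib.MP_fbfa44_gt.IX.Cal
import Pool.Agent.Lib.MP_fbfa44_gt.H40.AlgK

/-! Row KAT of MP_fbfa44_gt: the refined Kato inequality. -/

set_option autoImplicit false

namespace MPfbfa44

open Finset IdxLinK

/-- the tangential projection -/
def katP {d : ℕ} (x ν : Fin d → ℝ) (i j : Fin d) : ℝ :=
  (if i = j then (1 : ℝ) else 0) - x i * x j - ν i * ν j

theorem katP_sum {d : ℕ} (x ν f : Fin d → ℝ) (i : Fin d) :
    ∑ k, katP x ν i k * f k = f i - x i * (∑ k, x k * f k) - ν i * (∑ k, ν k * f k) := by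
  unfold katP
  have e : ∀ k, ((if i = k then (1 : ℝ) else 0) - x i * x k - ν i * ν k) * f k =
      (if i = k then f k else 0) - x i * (x k * f k) - ν i * (ν k * f k) := by
    intro k
    split_ifs with h <;> ring
  simp only [e]
  rw [sum_sub_distrib, sum_sub_distrib, ← mul_sum, ← mul_sum]
  simp

theorem katP_symm {d : ℕ} (x ν : Fin d → ℝ) (i j : Fin d) : katP x ν i j = katP x ν j i := by
  unfold katP
  by_cases h : i = j
  · rw [h]
  · rw [if_neg h, if_neg (fun h' => h h'.symm)]
    ring

theorem kat_proof : KatStatement := by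
  intro m hm x ν B T r z hx hν hxν hB hBx hBν htr h12 h23 hTx hTν hTt hr hzx hzν
  have hPx : ∀ j, ∑ k, x k * katP x ν k j = 0 := by
    intro j
    have e := katP_sum x ν x j
    rw [hx] at e
    have e2 : ∑ k, ν k * x k = 0 := by
      rw [← hxν]; exact sum_congr rfl fun k _ => mul_comm _ _
    rw [e2] at e
    have e3 : ∑ k, x k * katP x ν k j = ∑ k, katP x ν j k * x k :=
      sum_congr rfl fun k _ => by rw [katP_symm x ν k j, mul_comm]
    rw [e3, e]; ring
  have hPν : ∀ j, ∑ k, ν k * katP x ν k j = 0 := by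
    intro j
    have e := katP_sum x ν ν j
    rw [hν, hxν] at e
    have e3 : ∑ k, ν k * katP x ν k j = ∑ k, katP x ν j k * ν k :=
      sum_congr rfl fun k _ => by rw [katP_symm x ν k j, mul_comm]
    rw [e3, e]; ring
  have hT : Tan (katP x ν) B (m : ℝ) := by
    refine ⟨by exact_mod_cast hm, katP_symm x ν, ?_, ?_, hB, ?_, htr⟩
    · intro i j
      rw [katP_sum x ν (fun k => katP x ν k j) i, hPx, hPν]
      ring
    · unfold katP
      simp only [if_true, sum_sub_distrib]
      rw [hx, hν]
      simp
      ring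
    · intro i j
      rw [katP_sum x ν (fun k => B k j) i]
      have e1 : ∑ k, x k * B k j = 0 := by
        rw [← hBx j]; exact sum_congr rfl fun k _ => by rw [hB k j, mul_comm]
      have e2 : ∑ k, ν k * B k j = 0 := by
        rw [← hBν j]; exact sum_congr rfl fun k _ => by rw [hB k j, mul_comm]
      rw [e1, e2]; ring
  have hT2 : Ten (katP x ν) T := by
    refine ⟨h12, h23, fun i => ?_⟩
    have e : ∀ j, ∑ k, T i j k * katP x ν j k = T i j j := by
      intro j
      have e1 := katP_sum x ν (fun k => T i j k) j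
      have e2 : ∑ k, x k * T i j k = 0 := by
        rw [← hTx i j]; exact sum_congr rfl fun k _ => mul_comm _ _
      have e3 : ∑ k, ν k * T i j k = 0 := by
        rw [← hTν i j]; exact sum_congr rfl fun k _ => mul_comm _ _
      simp only [e2, e3] at e1
      rw [mul_zero, mul_zero, sub_zero, sub_zero] at e1
      rw [← e1]
      exact sum_congr rfl fun k _ => mul_comm _ _
    simp only [e]
    exact hTt i
  have key := kato hT hT2 z
  have e1 : ip z (ct T B) = ∑ k, r k * z k := by
    unfold ip ct
    refine sum_congr rfl fun k _ => ?_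
    rw [hr k, mul_comm]
    congr 1
    exact sum_congr rfl fun i _ => sum_congr rfl fun j _ => mul_comm _ _
  have e2 : n2 B = ∑ i, ∑ j, B i j * B i j := by
    unfold n2
    exact sum_congr rfl fun i _ => sum_congr rfl fun j _ => by ring
  have e3 : v2 z = ∑ k, z k * z k := by
    unfold v2
    exact sum_congr rfl fun i _ => by ring
  have e4 : v2 (ap B z) = ∑ i, (∑ j, B i j * z j) ^ 2 := rfl
  have e5 : n3 T = ∑ k, ∑ i, ∑ j, T k i j * T k i j := by
    unfold n3
    exact sum_congr rfl fun k _ => sum_congr rfl fun i _ => sum_congr rfl fun j _ => by ring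
  rw [e1, e2, e3, e4, e5] at key
  exact key

end MPfbfa44
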