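import Mathlib
import Pool.Agent.Lib.MP_fbfa44_gt.IX.Cal

set_option autoImplicit false

/-!
# Row NUL: if some `<b, ν>` vanishes identically then the second fundamental form vanishes

Author: helper65.  Moments argument of Step 1 of the paper.
-/

namespace MPfbfa44

open MeasureTheory

namespace Nul

variable {m : ℕ} (G : Cal m)

theorem sm_pow {f : G.M → ℝ} (hf : G.Sm f) (n : ℕ) : G.Sm (fun p => f p ^ n) := by
  induction n with
  | zero => simpa using G.sconst 1
  | succ n ih =>
    have h1 : (fun p => f p ^ (n + 1)) = fun p => f p ^ n * f p := by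
      funext p; rw [pow_succ]
    rw [h1]
    exact G.smul _ _ ih hf

theorem d_pow {f : G.M → ℝ} (hf : G.Sm f) (n : ℕ) (i : Fin (m + 2)) (p : G.M) :
    G.d i (fun p => f p ^ (n + 1)) p = (n + 1) * f p ^ n * G.d i f p := by
  induction n with
  | zero => simp
  | succ n ih =>
    have h1 : (fun p => f p ^ (n + 1 + 1)) = fun p => f p ^ (n + 1) * f p := by
      funext p; rw [pow_succ]
    rw [h1, G.dmul i _ _ (sm_pow G hf (n + 1)) hf p, ih]
    push_cast
    ring

theorem gp_mul_left {f g k : G.M → ℝ} (hf : G.Sm f) (hg : G.Sm g) (p : G.M) :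
    G.gp (fun p => f p * g p) k p = g p * G.gp f k p + f p * G.gp g k p := by
  unfold Cal.gp
  rw [Finset.mul_sum, Finset.mul_sum, ← Finset.sum_add_distrib]
  refine Finset.sum_congr rfl fun i _ => ?_
  rw [G.dmul i f g hf hg p]
  ring

theorem gp_pow_left {f k : G.M → ℝ} (hf : G.Sm f) (n : ℕ) (p : G.M) :
    G.gp (fun p => f p ^ (n + 1)) k p = (n + 1) * f p ^ n * G.gp f k p := by
  unfold Cal.gp
  rw [Finset.mul_sum]
  refine Finset.sum_congr rfl fun i _ => ?_
  rw [d_pow G hf n i p]
  ring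

/-- The unit case. -/
theorem unit_case (grn : GrnStatement) (H : G.Str) (hm : 1 ≤ m) (b : Fin (m + 2) → ℝ)
    (hb : ∑ i, b i ^ 2 = 1) (hz : ∀ p, G.z b p = 0) : ∀ p, G.q p = 0 := by
  obtain ⟨hint, hnn, hgreen, hlin⟩ := grn m G H
  obtain ⟨hSh, hSz, hpt⟩ := hlin b
  -- first identities
  have Bb : ∀ i p, ∑ j, G.B i j p * b j = 0 := by
    intro i p
    have h1 := (hpt p).2.1 i
    have hz0 : G.z b = fun _ => (0 : ℝ) := funext hz
    rw [hz0, G.dconst] at h1
    linarith
  have dh : ∀ i p, G.d i (G.h b) p = b i - G.h b p * G.x i p := by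
    intro i p
    have h1 := (hpt p).1 i
    rw [hz p] at h1
    rw [h1]; ring
  have hlap : ∀ p, G.lap (G.h b) p = -(m * G.h b p) := fun p => (hpt p).2.2.1
  have ghh : ∀ p, G.gp (G.h b) (G.h b) p = 1 - G.h b p ^ 2 := by
    intro p
    have h1 := (hpt p).2.2.2.2.1
    rw [hb, hz p] at h1
    rw [h1]; ring
  have hxb : ∀ p, ∑ j, G.x j p * b j = G.h b p := by
    intro p
    unfold Cal.h
    exact Finset.sum_congr rfl fun j _ => mul_comm _ _
  have hνb : ∀ p, ∑ j, G.ν j p * b j = 0 := by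
    intro p
    rw [← hz p]
    unfold Cal.z
    exact Finset.sum_congr rfl fun j _ => mul_comm _ _
  have B2b : ∀ k p, ∑ j, G.B2 k j p * b j = 0 := by
    intro k p
    unfold Cal.B2
    simp only [Finset.sum_mul]
    rw [Finset.sum_comm]
    refine Finset.sum_eq_zero fun l _ => ?_
    have h1 := Bb l p
    calc ∑ j, G.B k l p * G.B l j p * b j = G.B k l p * ∑ j, G.B l j p * b j := by
          rw [Finset.mul_sum]
          exact Finset.sum_congr rfl fun j _ => by ring
      _ = 0 := by rw [h1, mul_zero]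
  have Tb : ∀ k i p, ∑ j, G.T k i j p * b j = G.h b p * G.B k i p := by
    intro k i p
    have e0 : (fun p => ∑ j, G.B i j p * b j) = fun _ => (0 : ℝ) := funext (Bb i)
    have e1 : ∀ j, G.Sm (fun p => G.B i j p * b j) :=
      fun j => G.smul _ _ (H.sB i j) (G.sconst (b j))
    have e2 := (H.ssum (m + 2) (fun j p => G.B i j p * b j) e1).2 k p
    have e3 : ∀ j, G.d k (fun p => G.B i j p * b j) p = G.d k (G.B i j) p * b j := by
      intro j
      have h1 := G.dmul k (G.B i j) (fun _ => b j) (H.sB i j) (G.sconst (b j)) p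
      simp only [G.dconst, mul_zero, add_zero] at h1
      exact h1
    have e4 : G.d k (fun p => ∑ j, G.B i j p * b j) p = 0 := by
      rw [e0, G.dconst]
    have e5 : ∑ j, G.d k (G.B i j) p * b j = 0 := by
      rw [← e4]
      refine Eq.trans ?_ e2.symm
      exact Finset.sum_congr rfl fun j _ => (e3 j).symm
    have e6 : ∑ j, G.d k (G.B i j) p * b j =
        ∑ j, G.T k i j p * b j - G.x i p * ∑ j, G.B k j p * b j
          - G.B k i p * ∑ j, G.x j p * b j + G.ν i p * ∑ j, G.B2 k j p * b j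
          + G.B2 k i p * ∑ j, G.ν j p * b j := by
      simp only [Finset.mul_sum, ← Finset.sum_add_distrib, ← Finset.sum_sub_distrib]
      refine Finset.sum_congr rfl fun j _ => ?_
      rw [H.dB k i j p]
      ring
    rw [e5, Bb k p, hxb p, B2b k p, hνb p] at e6
    linarith
  have gqh : ∀ p, G.gp G.q (G.h b) p = 2 * G.h b p * G.q p := by
    intro p
    have e1 : G.gp G.q (G.h b) p = ∑ k, G.d k G.q p * b k - G.h b p * ∑ k, G.x k p * G.d k G.q p := by
      unfold Cal.gp
      rw [Finset.mul_sum, ← Finset.sum_sub_distrib]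
      refine Finset.sum_congr rfl fun k _ => ?_
      rw [dh k p]
      ring
    rw [G.tx G.q H.sq p, mul_zero, sub_zero] at e1
    rw [e1]
    have e2 : ∀ k, G.d k G.q p * b k = ∑ i, ∑ j, 2 * (G.B i j p * (G.T i j k p * b k)) := by
      intro k
      rw [H.dq k p, Finset.mul_sum, Finset.sum_mul]
      refine Finset.sum_congr rfl fun i _ => ?_
      rw [Finset.mul_sum, Finset.sum_mul]
      refine Finset.sum_congr rfl fun j _ => ?_
      rw [H.T12 k i j p, H.T23 i k j p]
      ring
    rw [Finset.sum_congr rfl fun k _ => e2 k, Finset.sum_comm]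
    have e3 : ∀ i, ∑ k, ∑ j, 2 * (G.B i j p * (G.T i j k p * b k)) =
        ∑ j, 2 * G.h b p * (G.B i j p * G.B i j p) := by
      intro i
      rw [Finset.sum_comm]
      refine Finset.sum_congr rfl fun j _ => ?_
      rw [← Finset.mul_sum, ← Finset.mul_sum, Tb i j p]
      ring
    rw [Finset.sum_congr rfl fun i _ => e3 i]
    unfold Cal.q
    rw [Finset.mul_sum]
    refine Finset.sum_congr rfl fun i _ => ?_
    rw [Finset.mul_sum]
  -- Green with `h`
  have green : ∀ f, G.Sm f → ∫ p, G.gp f (G.h b) p ∂G.μ = m * ∫ p, f p * G.h b p ∂G.μ := by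
    intro f hf
    rw [(hgreen f (G.h b) hf hSh).2.2, ← integral_neg, ← integral_const_mul]
    refine integral_congr_ae (Filter.Eventually.of_forall fun p => ?_)
    simp only [hlap p]
    ring
  have hcont : Continuous (G.h b) := G.cont _ hSh
  have qcont : Continuous G.q := G.cont _ H.sq
  have qnn : ∀ p, 0 ≤ G.q p := by
    intro p
    unfold Cal.q
    exact Finset.sum_nonneg fun i _ => Finset.sum_nonneg fun j _ => mul_self_nonneg _
  have h1nn : ∀ p, 0 ≤ 1 - G.h b p ^ 2 := by
    intro p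
    rw [← ghh p]
    unfold Cal.gp
    exact Finset.sum_nonneg fun i _ => mul_self_nonneg _
  -- the function `1 - h²`
  set w : G.M → ℝ := fun p => 1 + (-1) * G.h b p ^ 2 with hw
  have hSw : G.Sm w := G.sadd _ _ (G.sconst 1) (G.smul _ _ (G.sconst (-1)) (sm_pow G hSh 2))
  have dw : ∀ i p, G.d i w p = -2 * G.h b p * G.d i (G.h b) p := by
    intro i p
    have e1 := G.dadd i (fun _ => (1 : ℝ)) (fun p => (-1) * G.h b p ^ 2) (G.sconst 1)
      (G.smul _ _ (G.sconst (-1)) (sm_pow G hSh 2)) p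
    have e2 := G.dmul i (fun _ => (-1 : ℝ)) (fun p => G.h b p ^ 2) (G.sconst (-1))
      (sm_pow G hSh 2) p
    have e3 := d_pow G hSh 1 i p
    have e4 : G.d i w p = _ := e1
    rw [e4, e2, G.dconst, G.dconst]
    have e5 : G.d i (fun p => G.h b p ^ 2) p = _ := e3
    rw [e5]
    push_cast
    ring
  have gwh : ∀ p, G.gp w (G.h b) p = -2 * G.h b p * (1 - G.h b p ^ 2) := by
    intro p
    rw [← ghh p]
    unfold Cal.gp
    rw [Finset.mul_sum]
    refine Finset.sum_congr rfl fun i _ => ?_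
    rw [dw i p]
    ring
  have wval : ∀ p, w p = 1 - G.h b p ^ 2 := by intro p; simp only [hw]; ring
  have hψS : G.Sm (fun p => G.q p * w p) := G.smul _ _ H.sq hSw
  have gψh : ∀ p, G.gp (fun p => G.q p * w p) (G.h b) p = 0 := by
    intro p
    rw [gp_mul_left G H.sq hSw p, gqh p, gwh p, wval p]
    ring
  -- moments
  have moment : ∀ f, G.Sm f → (∀ p, G.gp f (G.h b) p = 0) → ∀ k : ℕ,
      (2 * (k : ℝ) + 1) * ∫ p, f p * G.h b p ^ (2 * k) ∂G.μ =
        (2 * (k : ℝ) + 1 + m) * ∫ p, f p * G.h b p ^ (2 * (k + 1)) ∂G.μ := by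
    intro f hf hf0 k
    have e1 := green (fun p => f p * G.h b p ^ (2 * k + 1)) (G.smul _ _ hf (sm_pow G hSh _))
    have e2 : ∀ p, G.gp (fun p => f p * G.h b p ^ (2 * k + 1)) (G.h b) p =
        (2 * (k : ℝ) + 1) * (f p * G.h b p ^ (2 * k)) -
          (2 * (k : ℝ) + 1) * (f p * G.h b p ^ (2 * (k + 1))) := by
      intro p
      rw [gp_mul_left G hf (sm_pow G hSh _) p, hf0 p, gp_pow_left G hSh (2 * k) p, ghh p]
      push_cast
      ring
    have i1 : Integrable (fun p => f p * G.h b p ^ (2 * k)) G.μ :=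
      hint _ ((G.cont _ hf).mul (hcont.pow _))
    have i2 : Integrable (fun p => f p * G.h b p ^ (2 * (k + 1))) G.μ :=
      hint _ ((G.cont _ hf).mul (hcont.pow _))
    rw [integral_congr_ae (Filter.Eventually.of_forall e2),
      integral_sub (i1.const_mul _) (i2.const_mul _), integral_const_mul, integral_const_mul] at e1
    have e3 : ∫ p, f p * G.h b p ^ (2 * k + 1) * G.h b p ∂G.μ =
        ∫ p, f p * G.h b p ^ (2 * (k + 1)) ∂G.μ := by
      refine integral_congr_ae (Filter.Eventually.of_forall fun p => ?_)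
      simp only
      ring
    rw [e3] at e1
    linarith
  set J : ℕ → ℝ := fun k => ∫ p, (G.q p * w p) * G.h b p ^ (2 * k) ∂G.μ with hJ
  set L : ℕ → ℝ := fun k => ∫ p, (1 : ℝ) * G.h b p ^ (2 * k) ∂G.μ with hL
  have mJ : ∀ k : ℕ, (2 * (k : ℝ) + 1) * J k = (2 * (k : ℝ) + 1 + m) * J (k + 1) :=
    moment (fun p => G.q p * w p) hψS gψh
  have mL : ∀ k : ℕ, (2 * (k : ℝ) + 1) * L k = (2 * (k : ℝ) + 1 + m) * L (k + 1) := by
    refine moment (fun _ => (1 : ℝ)) (G.sconst 1) fun p => ?_
    unfold Cal.gp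
    exact Finset.sum_eq_zero fun i _ => by rw [G.dconst, zero_mul]
  have L0 : 0 < L 0 := by
    have e1 : L 0 = G.μ.real Set.univ := by
      simp [hL]
    rw [e1]
    exact ENNReal.toReal_pos (IsOpen.measure_pos G.μ isOpen_univ Set.univ_nonempty).ne'
      (measure_ne_top _ _)
  have Lpos : ∀ k, 0 < L k := by
    intro k
    induction k with
    | zero => exact L0
    | succ k ih =>
      have e1 := mL k
      have e2 : 0 < (2 * (k : ℝ) + 1) * L k := by positivity
      rw [e1] at e2
      exact (mul_pos_iff_of_pos_left (by positivity)).mp e2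
  have ratio : ∀ k, J k * L 0 = L k * J 0 := by
    intro k
    induction k with
    | zero => ring
    | succ k ih =>
      have e1 := mL k
      have e2 := mJ k
      have e3 : (2 * (k : ℝ) + 1 + m) ≠ 0 := by positivity
      apply mul_left_cancel₀ e3
      calc (2 * (k : ℝ) + 1 + m) * (J (k + 1) * L 0)
          = ((2 * (k : ℝ) + 1 + m) * J (k + 1)) * L 0 := by ring
        _ = (2 * (k : ℝ) + 1) * (J k * L 0) := by rw [← e2]; ring
        _ = ((2 * (k : ℝ) + 1) * L k) * J 0 := by rw [ih]; ring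
        _ = (2 * (k : ℝ) + 1 + m) * (L (k + 1) * J 0) := by rw [e1]; ring
  -- `q` is bounded
  obtain ⟨p₀, -, hp₀⟩ := isCompact_univ.exists_isMaxOn Set.univ_nonempty qcont.continuousOn
  have qle : ∀ p, G.q p ≤ G.q p₀ := fun p => hp₀ (Set.mem_univ p)
  have wcont : Continuous w := G.cont _ hSw
  have i0 : ∀ k : ℕ, Integrable (fun p => (1 : ℝ) * G.h b p ^ (2 * k)) G.μ := fun k =>
    hint _ (continuous_const.mul (hcont.pow _))
  have Jle : ∀ k, J k ≤ G.q p₀ * (L k - L (k + 1)) := by
    intro k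
    have e1 : G.q p₀ * (L k - L (k + 1)) =
        ∫ p, G.q p₀ * ((1 : ℝ) * G.h b p ^ (2 * k) - (1 : ℝ) * G.h b p ^ (2 * (k + 1))) ∂G.μ := by
      rw [integral_const_mul, integral_sub (i0 k) (i0 (k + 1))]
    rw [e1]
    refine integral_mono (hint _ ((qcont.mul wcont).mul (hcont.pow _)))
      (((i0 k).sub (i0 (k + 1))).const_mul _) fun p => ?_
    have e2 : 0 ≤ G.h b p ^ (2 * k) := by
      rw [pow_mul]; positivity
    have e3 : G.q p * w p ≤ G.q p₀ * w p :=
      mul_le_mul_of_nonneg_right (qle p) (by rw [wval p]; exact h1nn p)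
    calc (G.q p * w p) * G.h b p ^ (2 * k) ≤ (G.q p₀ * w p) * G.h b p ^ (2 * k) :=
          mul_le_mul_of_nonneg_right e3 e2
      _ = G.q p₀ * ((1 : ℝ) * G.h b p ^ (2 * k) - (1 : ℝ) * G.h b p ^ (2 * (k + 1))) := by
          rw [wval p]; ring
  have J0le : ∀ k : ℕ, (2 * (k : ℝ) + 1 + m) * J 0 ≤ G.q p₀ * m * L 0 := by
    intro k
    have e1 := mL k
    have e2 := Jle k
    have e3 := ratio k
    have e4 := Lpos k
    have e5 : (2 * (k : ℝ) + 1 + m) * (L k - L (k + 1)) = m * L k := by
      rw [mul_sub, ← e1]; ring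
    have e6 : 0 < 2 * (k : ℝ) + 1 + m := by positivity
    have e7 : ((2 * (k : ℝ) + 1 + m) * J 0) * L k ≤ (G.q p₀ * m * L 0) * L k := by
      calc ((2 * (k : ℝ) + 1 + m) * J 0) * L k = (2 * (k : ℝ) + 1 + m) * (J k * L 0) := by
            rw [e3]; ring
        _ ≤ (2 * (k : ℝ) + 1 + m) * ((G.q p₀ * (L k - L (k + 1))) * L 0) :=
            mul_le_mul_of_nonneg_left (mul_le_mul_of_nonneg_right e2 L0.le) e6.le
        _ = G.q p₀ * ((2 * (k : ℝ) + 1 + m) * (L k - L (k + 1))) * L 0 := by ring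
        _ = (G.q p₀ * m * L 0) * L k := by rw [e5]; ring
    exact le_of_mul_le_mul_right e7 e4
  have J0 : J 0 ≤ 0 := by
    by_contra hcon
    rw [not_le] at hcon
    obtain ⟨k, hk⟩ := exists_nat_gt (G.q p₀ * m * L 0 / J 0)
    rw [div_lt_iff₀ hcon] at hk
    have e1 := J0le k
    have e2 : (k : ℝ) * J 0 ≤ (2 * (k : ℝ) + 1 + m) * J 0 := by
      refine mul_le_mul_of_nonneg_right ?_ hcon.le
      have : (0 : ℝ) ≤ k := Nat.cast_nonneg k
      have : (0 : ℝ) ≤ m := Nat.cast_nonneg m
      linarith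
    linarith
  have ψ0 : ∀ p, G.q p * w p = 0 := by
    refine hnn _ (qcont.mul wcont) (fun p => ?_) ?_
    · rw [wval p]
      exact mul_nonneg (qnn p) (h1nn p)
    · have e1 : J 0 = ∫ p, G.q p * w p ∂G.μ := by
        simp only [hJ, mul_zero, pow_zero, mul_one]
      rw [← e1]
      exact J0
  have qh : ∀ p, G.q p * G.h b p ^ 2 = G.q p := by
    intro p
    have e1 := ψ0 p
    rw [wval p] at e1
    linarith
  by_cases h2 : m = 2
  · -- use `q²`
    have e1 := green (fun p => G.q p * G.q p * G.h b p) (G.smul _ _ (G.smul _ _ H.sq H.sq) hSh)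
    have e2 : ∀ p, G.gp (fun p => G.q p * G.q p * G.h b p) (G.h b) p =
        4 * (G.q p * G.q p) := by
      intro p
      rw [gp_mul_left G (G.smul _ _ H.sq H.sq) hSh p, gp_mul_left G H.sq H.sq p, gqh p, ghh p]
      linear_combination (3 * G.q p) * qh p
    have e3 : ∀ p, G.q p * G.q p * G.h b p * G.h b p = G.q p * G.q p := by
      intro p
      linear_combination (G.q p) * qh p
    rw [integral_congr_ae (Filter.Eventually.of_forall e2),
      integral_congr_ae (Filter.Eventually.of_forall e3), integral_const_mul] at e1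
    have h3 : (m : ℝ) = 2 := by exact_mod_cast h2
    rw [h3] at e1
    have e4 : ∫ p, G.q p * G.q p ∂G.μ ≤ 0 := by linarith
    have e5 := hnn (fun p => G.q p * G.q p) (qcont.mul qcont) (fun p => mul_self_nonneg _) e4
    intro p
    exact mul_self_eq_zero.mp (e5 p)
  · have e1 := green (fun p => G.q p * G.h b p) (G.smul _ _ H.sq hSh)
    have e2 : ∀ p, G.gp (fun p => G.q p * G.h b p) (G.h b) p = 2 * G.q p := by
      intro p
      rw [gp_mul_left G H.sq hSh p, gqh p, ghh p]
      linear_combination qh p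
    have e3 : ∀ p, G.q p * G.h b p * G.h b p = G.q p := by
      intro p
      linear_combination qh p
    rw [integral_congr_ae (Filter.Eventually.of_forall e2),
      integral_congr_ae (Filter.Eventually.of_forall e3), integral_const_mul] at e1
    have e4 : ((2 : ℝ) - m) * ∫ p, G.q p ∂G.μ = 0 := by linarith
    have e5 : ((2 : ℝ) - m) ≠ 0 := by
      intro hc
      apply h2
      have : (m : ℝ) = 2 := by linarith
      exact_mod_cast this
    have e6 : ∫ p, G.q p ∂G.μ = 0 := (mul_eq_zero.mp e4).resolve_left e5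
    exact hnn _ qcont qnn e6.le

end Nul

/-- Row NUL. -/
theorem nul_proof (grn : GrnStatement) : NulStatement := by
  intro m G H hm b hb hz
  have hs : 0 < ∑ i, b i ^ 2 := by
    obtain ⟨i, hi⟩ := Function.ne_iff.mp hb
    have hi' : b i ≠ 0 := hi
    exact Finset.sum_pos' (fun j _ => sq_nonneg _) ⟨i, Finset.mem_univ i, by positivity⟩
  set r : ℝ := (Real.sqrt (∑ i, b i ^ 2))⁻¹ with hr
  refine Nul.unit_case G grn H hm (fun i => r * b i) ?_ fun p => ?_
  · have e1 : ∑ i, (r * b i) ^ 2 = r ^ 2 * ∑ i, b i ^ 2 := by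
      rw [Finset.mul_sum]
      exact Finset.sum_congr rfl fun i _ => by ring
    rw [e1, hr, inv_pow, Real.sq_sqrt hs.le]
    exact inv_mul_cancel₀ hs.ne'
  · have e1 : G.z (fun i => r * b i) p = r * G.z b p := by
      unfold Cal.z
      rw [Finset.mul_sum]
      exact Finset.sum_congr rfl fun i _ => by ring
    rw [e1, hz p, mul_zero]

end MPfbfa44
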