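import Pool.Agent.Lib.MP_fbfa44_gt.IX.Geo

set_option autoImplicit false

/-!
# Row OPM: an immersion into a connected set which is locally injective under the projections to the
tangent spaces is onto

The end of the proof follows `Onto25/Onto.lean` (helper25).
-/

namespace MPfbfa44

open Set Filter Topology
open scoped Manifold ContDiff

/-- The local statement. -/
theorem opm_local {m n : ℕ} {phi : X m → X n} {u0 : X m} (hphi : ContDiffAt ℝ 1 phi u0)
    (hinj : Function.Injective (fderiv ℝ phi u0)) (C U : Set (X n)) (hU : IsOpen U)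
    (hu0 : phi u0 ∈ U) (hC : ∀ u, phi u ∈ C)
    (hCU : ∀ c ∈ C ∩ U, ∀ c' ∈ C ∩ U,
      (∀ v, (inner ℝ (c - c') (fderiv ℝ phi u0 v) : ℝ) = 0) → c = c') :
    ∀ᶠ y in 𝓝 (phi u0), y ∈ C → y ∈ range phi := by
  set D : X m →L[ℝ] X n := fderiv ℝ phi u0 with hD
  set Dt : X n →L[ℝ] X m := ContinuousLinearMap.adjoint D with hDt
  have hst : HasStrictFDerivAt phi D u0 := by
    rw [hD]
    exact hphi.hasStrictFDerivAt (by norm_num)
  have hT : HasStrictFDerivAt (fun u => Dt (phi u)) (Dt.comp D) u0 :=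
    Dt.hasStrictFDerivAt.comp u0 hst
  have hinj2 : Function.Injective (Dt.comp D).toLinearMap := by
    rw [injective_iff_map_eq_zero]
    intro v hv
    have h1 : Dt (D v) = 0 := hv
    have h2 : (inner ℝ (D v) (D v) : ℝ) = 0 := by
      rw [← ContinuousLinearMap.adjoint_inner_left, ← hDt, h1, inner_zero_left]
    have h3 : D v = 0 := inner_self_eq_zero.1 h2
    exact hinj (by rw [h3, map_zero])
  have hrange : (Dt.comp D).toLinearMap.range = ⊤ :=
    LinearMap.range_eq_top.mpr ((LinearMap.injective_iff_surjective).mp hinj2)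
  have hmap : map (fun u => Dt (phi u)) (𝓝 u0) = 𝓝 (Dt (phi u0)) :=
    hT.map_nhds_eq_of_surj hrange
  have hN : {u | phi u ∈ U} ∈ 𝓝 u0 := hphi.continuousAt (hU.mem_nhds hu0)
  have him := image_mem_map (m := fun u => Dt (phi u)) hN
  rw [hmap] at him
  have hc1 : ∀ᶠ y in 𝓝 (phi u0), Dt y ∈ (fun u => Dt (phi u)) '' {u | phi u ∈ U} :=
    (Dt.continuous.continuousAt (x := phi u0)) him
  filter_upwards [hc1, hU.mem_nhds hu0] with y hy hyU hyC
  obtain ⟨u, hu, huy⟩ := hy
  refine ⟨u, ?_⟩
  refine (hCU y ⟨hyC, hyU⟩ (phi u) ⟨hC u, hu⟩ fun v => ?_).symm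
  rw [← ContinuousLinearMap.adjoint_inner_left, ← hDt, map_sub, ← huy]
  simp

theorem opm_proof : OpmStatement := by
  intro m M _ _ _ _ _ S C hCc hsub hloc
  have hcont : Continuous S.x := S.smooth_x.continuous
  have hcl : IsClosed (range S.x) := (isCompact_range hcont).isClosed
  have hlocal : ∀ p : M, ∀ᶠ y in 𝓝 (S.x p), y ∈ C → y ∈ range S.x := by
    intro p
    obtain ⟨U, hU, hpU, hCU⟩ := hloc p
    set e := extChartAt (𝓡 m) p with he
    set phi : X m → X (m + 2) := S.x ∘ e.symm with hphi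
    have hxp : ContMDiffAt (𝓡 m) 𝓘(ℝ, X (m + 2)) ∞ S.x p := S.smooth_x p
    have hcd : ContDiffAt ℝ ∞ phi (e p) := by
      have h := (contMDiffAt_iff.mp hxp).2
      simpa [hphi, he, contDiffWithinAt_univ] using h
    have hfd : fderiv ℝ phi (e p) = der m S.x p := by
      have hmd : MDifferentiableAt (𝓡 m) 𝓘(ℝ, X (m + 2)) S.x p := hxp.mdifferentiableAt (by simp)
      rw [der, hmd.mfderiv]
      simp [hphi, he, writtenInExtChartAt, fderivWithin_univ]
    have hep : e.symm (e p) = p := extChartAt_to_inv (I := 𝓡 m) p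
    have hpp : phi (e p) = S.x p := by simp [hphi, hep]
    have h := opm_local (phi := phi) (u0 := e p) (hcd.of_le (by simp))
      (by rw [hfd]; exact S.immersion p) C U hU (by rw [hpp]; exact hpU)
      (fun u => hsub ⟨e.symm u, rfl⟩) (by rw [hfd]; exact hCU)
    rw [hpp] at h
    filter_upwards [h] with y hy hyC
    obtain ⟨u, hu⟩ := hy hyC
    exact ⟨e.symm u, hu⟩
  have : PreconnectedSpace C := Subtype.preconnectedSpace hCc
  have hclopen : IsClopen ((Subtype.val : C → X (m + 2)) ⁻¹' range S.x) := by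
    constructor
    · exact hcl.preimage continuous_subtype_val
    · rw [isOpen_iff_mem_nhds]
      rintro ⟨y, hy⟩ ⟨p, hp⟩
      simp only at hp
      have h1 := hlocal p
      rw [hp] at h1
      have h2 : Tendsto (Subtype.val : C → X (m + 2)) (𝓝 ⟨y, hy⟩) (𝓝 y) :=
        continuous_subtype_val.continuousAt
      filter_upwards [h2.eventually h1] with z hz
      exact hz z.2
  have huniv : (Subtype.val : C → X (m + 2)) ⁻¹' range S.x = univ := by
    apply hclopen.eq_univ
    obtain ⟨p⟩ := ‹Nonempty M›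
    exact ⟨⟨S.x p, hsub ⟨p, rfl⟩⟩, ⟨p, rfl⟩⟩
  apply Subset.antisymm hsub
  intro y hy
  have : (⟨y, hy⟩ : C) ∈ (Subtype.val : C → X (m + 2)) ⁻¹' range S.x := by
    rw [huniv]
    trivial
  exact this

end MPfbfa44
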