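import Pool.Agent.Lib.MP_fbfa44_gt.IX.Kat
import Pool.Agent.Lib.MP_fbfa44_gt.H40.AlgP

/-! Row OPN of MP_fbfa44_gt: the norm of a traceless symmetric form. -/

set_option autoImplicit false

namespace MPfbfa44

open Finset

theorem opn_proof : OpnStatement := by
  intro m hm x ν B v hx hν hxν hB hBx hBν htr hvx hvν
  have hPx : ∀ j, ∑ k, x k * katP x ν k j = 0 := by
    intro j
    have e := katP_sum x ν x j
    rw [hx] at e
    have e2 : ∑ k, ν k * x k = 0 := by
      rw [← hxν]; exact sum_congr rfl fun k _ => mul_comm _ _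
    rw [e2] at e
    have e3 : ∑ k, x k * katP x ν k j = ∑ k, katP x ν j k * x k :=
      sum_congr rfl fun k _ => by rw [katP_symm x ν k j, mul_comm]
    rw [e3, e]; ring
  have hPν : ∀ j, ∑ k, ν k * katP x ν k j = 0 := by
    intro j
    have e := katP_sum x ν ν j
    rw [hν, hxν] at e
    have e3 : ∑ k, ν k * katP x ν k j = ∑ k, katP x ν j k * ν k :=
      sum_congr rfl fun k _ => by rw [katP_symm x ν k j, mul_comm]
    rw [e3, e]; ring
  have hT : IdxLinP.Tan (katP x ν) B (m : ℝ) := by
    refine ⟨by exact_mod_cast hm, katP_symm x ν, ?_, ?_, hB, ?_, htr⟩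
    · intro i j
      rw [katP_sum x ν (fun k => katP x ν k j) i, hPx, hPν]
      ring
    · unfold katP
      simp only [if_true, sum_sub_distrib]
      rw [hx, hν]
      simp
      ring
    · intro i j
      rw [katP_sum x ν (fun k => B k j) i]
      have e1 : ∑ k, x k * B k j = 0 := by
        rw [← hBx j]; exact sum_congr rfl fun k _ => by rw [hB k j, mul_comm]
      have e2 : ∑ k, ν k * B k j = 0 := by
        rw [← hBν j]; exact sum_congr rfl fun k _ => by rw [hB k j, mul_comm]
      rw [e1, e2]; ring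
  have key := IdxLinP.v2_ap_le hT v
  have e2 : IdxLinP.n2 B = ∑ i, ∑ j, B i j * B i j := by
    unfold IdxLinP.n2
    exact sum_congr rfl fun i _ => sum_congr rfl fun j _ => by ring
  have e3 : IdxLinP.v2 v = ∑ k, v k * v k := by
    unfold IdxLinP.v2
    exact sum_congr rfl fun i _ => by ring
  have e4 : IdxLinP.v2 (IdxLinP.ap B v) = ∑ i, (∑ j, B i j * v j) ^ 2 := rfl
  rw [e2, e3, e4, mul_assoc] at key
  exact key

end MPfbfa44
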