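import Pool.Agent.Lib.MP_fbfa44_gt.IX.Cal
import Pool.Agent.Lib.MP_fbfa44_gt.Onto25.Par

set_option autoImplicit false

/-!
# Row PAR: parallel second fundamental form (helper25)
-/

namespace MPfbfa44

open Finset Pool.MP_fbfa44_gt.Idx8 Pool.MP_fbfa44_gt.Onto25

namespace Par25

variable {m : ℕ}

/-- The subring of smooth functions. -/
def smSub (G : Cal m) : Subring (G.M → ℝ) where
  carrier := {f | G.Sm f}
  mul_mem' {f g} hf hg := G.smul f g hf hg
  one_mem' := G.sconst 1
  add_mem' {f g} hf hg := G.sadd f g hf hg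
  zero_mem' := G.sconst 0
  neg_mem' {f} hf := by
    have h1 := G.smul (fun _ => (-1 : ℝ)) f (G.sconst (-1)) hf
    have h2 : (fun p => (-1 : ℝ) * f p) = -f := by
      funext p; simp
    rw [h2] at h1
    exact h1

/-- Evaluation at a point. -/
def ev (G : Cal m) (p : G.M) : smSub G →+* ℝ := (Pi.evalRingHom (fun _ : G.M => ℝ) p).comp
  (smSub G).subtype

theorem ev_mk (G : Cal m) (p : G.M) (f : G.M → ℝ) (hf : f ∈ smSub G) :
    ev G p ⟨f, hf⟩ = f p := rfl

theorem ev_ext (G : Cal m) {a b : smSub G} (h : ∀ p, ev G p a = ev G p b) : a = b :=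
  Subtype.ext (funext h)

/-- The calculus of helper8 on the subring of smooth functions. -/
def calc8 (G : Cal m) (hS : G.Str) : Calc (Fin (m + 2)) (smSub G) where
  d i := {
    toFun := fun f => ⟨G.d i f.1, G.sd i f.1 f.2⟩
    map_zero' := Subtype.ext (funext fun p => G.dconst i 0 p)
    map_add' := fun f g => Subtype.ext (funext fun p => G.dadd i f.1 g.1 f.2 g.2 p) }
  x i := ⟨G.x i, G.sx i⟩
  nu i := ⟨G.ν i, G.sν i⟩
  h i j := ⟨G.B i j, hS.sB i j⟩
  mul i f g := ev_ext G fun p => by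
    have h1 := G.dmul i f.1 g.1 f.2 g.2 p
    change G.d i (fun p => f.1 p * g.1 p) p = f.1 p * G.d i g.1 p + g.1 p * G.d i f.1 p
    rw [h1]; ring
  xx := ev_ext G fun p => by
    rw [map_sum, map_one]; simp only [map_mul, ev_mk]; exact G.xx p
  nn := ev_ext G fun p => by
    rw [map_sum, map_one]; simp only [map_mul, ev_mk]; exact G.νν p
  xn := ev_ext G fun p => by
    rw [map_sum, map_zero]; simp only [map_mul, ev_mk]; exact G.xν p
  tx f := ev_ext G fun p => by
    rw [map_sum, map_zero]; simp only [map_mul]; exact G.tx f.1 f.2 p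
  tn f := ev_ext G fun p => by
    rw [map_sum, map_zero]; simp only [map_mul]; exact G.tν f.1 f.2 p
  dx i j := ev_ext G fun p => by
    rw [map_sub, map_sub, map_mul, map_mul]
    have h1 := G.dx i j p
    have h2 : ev G p (if i = j then (1 : smSub G) else 0) = if i = j then (1 : ℝ) else 0 := by
      split_ifs
      · exact map_one _
      · exact map_zero _
    rw [h2]; exact h1
  dn i j := ev_ext G fun p => by
    rw [map_neg]; exact hS.dν i j p
  symm i j := ev_ext G fun p => hS.Bs i j p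
  tr := ev_ext G fun p => by
    rw [map_sum, map_zero]; exact hS.Bt p
  comm i j f := ev_ext G fun p => by
    have h1 := hS.com f.1 f.2 j i p
    simp only [map_add, map_sub, map_mul, map_sum]
    change G.d i (G.d j f.1) p - G.d j (G.d i f.1) p =
      G.ν j p * (∑ k, G.B i k p * G.d k f.1 p) - G.ν i p * (∑ k, G.B j k p * G.d k f.1 p)
        - G.x j p * G.d i f.1 p + G.x i p * G.d j f.1 p
    rw [h1]; ring

variable (G : Cal m) (hS : G.Str)

theorem ev_x (i) (p : G.M) : ev G p ((calc8 G hS).x i) = G.x i p := rfl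
theorem ev_nu (i) (p : G.M) : ev G p ((calc8 G hS).nu i) = G.ν i p := rfl
theorem ev_h (i j) (p : G.M) : ev G p ((calc8 G hS).h i j) = G.B i j p := rfl
theorem ev_dh (k i j) (p : G.M) :
    ev G p ((calc8 G hS).d k ((calc8 G hS).h i j)) = G.d k (G.B i j) p := rfl

theorem ev_h2 (i j) (p : G.M) : ev G p ((calc8 G hS).h2 i j) = G.B2 i j p := by
  simp only [Calc.h2, map_sum, map_mul, ev_h, Cal.B2]

theorem ev_S (p : G.M) : ev G p ((calc8 G hS).S) = G.q p := by
  simp only [Calc.S, map_sum, map_mul, ev_h, Cal.q]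

theorem B2_symm (hS : G.Str) (i j : Fin (m + 2)) (p : G.M) : G.B2 i j p = G.B2 j i p := by
  simp only [Cal.B2]
  exact sum_congr rfl fun k _ => by rw [hS.Bs i k, hS.Bs k j, mul_comm]

theorem ev_T (k i j) (p : G.M) : ev G p ((calc8 G hS).T k i j) = G.T k i j p := by
  simp only [Calc.T, map_add, map_sub, map_mul, ev_h, ev_x, ev_nu, ev_h2, ev_dh, Cal.T]
  rw [hS.Bs k i, B2_symm G hS k i]
  ring

end Par25

open Par25

/-- Row PAR. -/
theorem par_proof : ParStatement := by
  intro m G hS hm hq htau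
  have hm0 : (m : ℝ) ≠ 0 := by
    have : 0 < m := by omega
    exact_mod_cast this.ne'
  obtain ⟨p0⟩ := G.ne
  -- T = 0
  have hT : ∀ k i j p, G.T k i j p = 0 := by
    intro k i j p
    have h1 := htau p
    simp only [Cal.tau] at h1
    have h2 := (sum_eq_zero_iff_of_nonneg (fun k _ => sum_nonneg fun i _ => sum_nonneg fun j _ =>
      mul_self_nonneg _)).mp h1 k (mem_univ k)
    have h3 := (sum_eq_zero_iff_of_nonneg (fun i _ => sum_nonneg fun j _ =>
      mul_self_nonneg _)).mp h2 i (mem_univ i)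
    have h4 := (sum_eq_zero_iff_of_nonneg (fun j _ => mul_self_nonneg _)).mp h3 j (mem_univ j)
    exact mul_self_eq_zero.mp h4
  set C := calc8 G hS with hC
  have hTC : ∀ k i j, C.T k i j = 0 := fun k i j => ev_ext G fun p => by
    rw [ev_T, hT, map_zero]
  -- the constant
  have hconst : ∀ f : smSub G, (∀ k, C.d k f = 0) → ∀ p p', ev G p f = ev G p' f := by
    intro f hf
    apply G.conn f.1 f.2
    intro i p
    have := congrArg (ev G p) (hf i)
    rw [map_zero] at this
    exact this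
  set t0 : ℝ := ev G p0 (t3 C) with ht0
  have ht : ∀ p, ev G p (t3 C) = t0 := fun p => hconst _ (d_t3 C hTC) p p0
  set c : ℝ := t0 / m with hc
  have ht' : t0 = m * c := by rw [hc]; field_simp
  have hquad : ∀ p i j, G.B2 i j p = G.P i j p + c * G.B i j p := by
    intro p i j
    have h1 := congrArg (ev G p) (quad C hTC i j)
    rw [map_add, map_mul, map_mul, map_mul, ev_S, ev_h2, ev_h, ht, hq] at h1
    have h2 : ev G p (P C i j) = G.P i j p := by
      simp only [P, map_sub, map_mul, hC, ev_x, ev_nu, Cal.P]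
      congr 2
      split_ifs
      · exact map_one _
      · exact map_zero _
    rw [h2, ht'] at h1
    apply mul_left_cancel₀ hm0
    rw [h1]; ring
  set R : Matrix (Fin (m + 2)) (Fin (m + 2)) ℝ := Matrix.of fun i j =>
    G.B i j p0 - G.x i p0 * G.ν j p0 - G.ν i p0 * G.x j p0 + c * (G.ν i p0 * G.ν j p0) with hR
  have hRp : ∀ p i j, R i j =
      G.B i j p - G.x i p * G.ν j p - G.ν i p * G.x j p + c * (G.ν i p * G.ν j p) := by
    intro p i j
    have h1 := hconst _ (fun k => d_Rm C hTC k i j) p0 p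
    simp only [map_add, map_sub, map_mul, ht] at h1
    rw [ev_S, ev_S, hq, hq] at h1
    simp only [hC, ev_h, ev_x, ev_nu] at h1
    rw [ht'] at h1
    have h2 : R i j = G.B i j p0 - G.x i p0 * G.ν j p0 - G.ν i p0 * G.x j p0 +
      c * (G.ν i p0 * G.ν j p0) := rfl
    rw [h2]
    apply mul_left_cancel₀ hm0
    linear_combination h1
  have hBx := hS.Bx
  have hBν := hS.Bν
  have xB : ∀ j p, ∑ i, G.x i p * G.B i j p = 0 := by
    intro j p
    rw [← hBx j p]
    exact sum_congr rfl fun i _ => by rw [hS.Bs i j]; ring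
  have νB : ∀ j p, ∑ i, G.ν i p * G.B i j p = 0 := by
    intro j p
    rw [← hBν j p]
    exact sum_congr rfl fun i _ => by rw [hS.Bs i j]; ring
  have νx : ∀ p, ∑ i, G.ν i p * G.x i p = 0 := by
    intro p
    rw [← G.xν p]
    exact sum_congr rfl fun i _ => mul_comm _ _
  refine ⟨c, R, ?_, ?_, ?_, ?_⟩
  · ext i j
    rw [Matrix.transpose_apply, hRp p0, hRp p0, hS.Bs i j]
    ring
  · ext i j
    rw [Matrix.mul_apply, Matrix.add_apply, Matrix.smul_apply, Matrix.one_apply, smul_eq_mul]
    have e1 : ∀ k, R i k * R k j =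
        G.B i k p0 * G.B k j p0 - (G.B i k p0 * G.x k p0) * G.ν j p0
          - (G.B i k p0 * G.ν k p0) * G.x j p0 + (G.B i k p0 * G.ν k p0) * (c * G.ν j p0)
        - G.x i p0 * (G.ν k p0 * G.B k j p0) + (G.ν k p0 * G.x k p0) * (G.x i p0 * G.ν j p0)
          + (G.ν k p0 * G.ν k p0) * (G.x i p0 * G.x j p0)
          - (G.ν k p0 * G.ν k p0) * (c * G.x i p0 * G.ν j p0)
        - G.ν i p0 * (G.x k p0 * G.B k j p0) + (G.x k p0 * G.x k p0) * (G.ν i p0 * G.ν j p0)
          + (G.x k p0 * G.ν k p0) * (G.ν i p0 * G.x j p0)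
          - (G.x k p0 * G.ν k p0) * (c * G.ν i p0 * G.ν j p0)
        + c * G.ν i p0 * (G.ν k p0 * G.B k j p0)
          - (G.ν k p0 * G.x k p0) * (c * G.ν i p0 * G.ν j p0)
          - (G.ν k p0 * G.ν k p0) * (c * G.ν i p0 * G.x j p0)
          + (G.ν k p0 * G.ν k p0) * (c * c * G.ν i p0 * G.ν j p0) := by
      intro k
      rw [hRp p0 i k, hRp p0 k j]
      ring
    simp only [e1, sum_add_distrib, sum_sub_distrib, ← sum_mul, ← mul_sum]
    rw [hBx, hBν, xB, νB, νx, G.xν, G.xx, G.νν]
    have e2 : ∑ k, G.B i k p0 * G.B k j p0 = G.B2 i j p0 := rfl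
    rw [e2, hquad, hRp p0]
    simp only [Cal.P]
    ring
  · have e1 : ∀ i, R i i = G.B i i p0 - G.x i p0 * G.ν i p0 - G.x i p0 * G.ν i p0
        + c * (G.ν i p0 * G.ν i p0) := by
      intro i; rw [hRp p0]; ring
    simp only [Matrix.trace, Matrix.diag_apply, e1, sum_add_distrib, sum_sub_distrib, ← mul_sum]
    rw [hS.Bt, G.xν, G.νν]
    ring
  · intro p
    have e1 : ∀ i j, R i j * (G.x i p * G.x j p) =
        (G.B i j p * G.x j p) * G.x i p - (G.ν j p * G.x j p) * (G.x i p * G.x i p)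
        - (G.x j p * G.x j p) * (G.ν i p * G.x i p)
        + (G.ν j p * G.x j p) * (c * G.ν i p * G.x i p) := by
      intro i j
      rw [hRp p]; ring
    simp only [e1, sum_add_distrib, sum_sub_distrib, ← sum_mul, ← mul_sum]
    simp only [hBx, νx, G.xx, zero_mul, mul_zero, sum_const_zero]
    ring

end MPfbfa44
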