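import Pool.Agent.Lib.MP_fbfa44_gt.IX.Cal
import Pool.Agent.Lib.MP_fbfa44_gt.Onto25.Class

set_option autoImplicit false

/-!
# Row PRJ: the eigenspaces of the constant matrix (helper25)
-/

namespace MPfbfa44

open PoolOnto25

/-- Row PRJ. -/
theorem prj_proof : PrjStatement := by
  intro m hm c R hsym hq htr
  set A : EuclideanSpace ℝ (Fin (m + 2)) →ₗ[ℝ] EuclideanSpace ℝ (Fin (m + 2)) :=
    Matrix.toLpLin 2 2 R with hA
  have hAi : ∀ y z : EuclideanSpace ℝ (Fin (m + 2)),
      (inner ℝ (A y) z : ℝ) = ∑ i, ∑ j, R i j * (z i * y j) := by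
    intro y z
    rw [PiLp.inner_apply]
    refine Finset.sum_congr rfl fun i _ => ?_
    have : A y i = ∑ j, R i j * y j := rfl
    rw [this]
    simp only [RCLike.inner_apply, conj_trivial, Finset.mul_sum]
    exact Finset.sum_congr rfl fun j _ => by ring
  have hAs : A.IsSymmetric := by
    intro y z
    rw [hAi, real_inner_comm, hAi, Finset.sum_comm]
    refine Finset.sum_congr rfl fun i _ => Finset.sum_congr rfl fun j _ => ?_
    have : R j i = R i j := by
      have := congrFun (congrFun hsym i) j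
      simpa [Matrix.transpose_apply] using this
    rw [this]; ring
  have hAq : ∀ y, A (A y) = y + c • A y := by
    intro y
    have h1 : A ∘ₗ A = LinearMap.id + c • A := by
      rw [hA, ← Matrix.toLpLin_mul_same, hq, map_add, map_smul, Matrix.toLpLin_one]
    have h2 := congrArg (fun f => f y) h1
    simpa using h2
  have hAt : LinearMap.trace ℝ _ A = c := by
    rw [hA, Matrix.toLpLin_eq_toLin,
      LinearMap.trace_eq_matrix_trace ℝ (PiLp.basisFun 2 ℝ (Fin (m + 2))),
      LinearMap.toMatrix_toLin, htr]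
  obtain ⟨k, l, V, hk, hl, hkl, hV, hW, hx⟩ := split_data A hAs c hAq hAt
    (m := m) (by omega) (by simp)
  obtain ⟨L, hL⟩ := adapted hkl V hV hW
  refine ⟨k, hk, by omega, L.symm, ?_⟩
  intro y hy hRy
  have h1 := hx (L.symm y) hy (by rw [hAi]; exact hRy)
  have h2 := hL (L.symm y)
  rw [L.apply_symm_apply] at h2
  constructor
  · rw [← Finset.sum_filter, ← h2.1, h1.1]
  · have e1 : (∑ i : Fin (m + 2), if (i : ℕ) < k + 1 then 0 else y i ^ 2) =
        ∑ i : Fin (m + 2) with ¬ i.val < k + 1, y i ^ 2 := by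
      rw [Finset.sum_filter]
      exact Finset.sum_congr rfl fun i _ => by split_ifs <;> rfl
    rw [e1, ← h2.2, h1.2]
    congr 1
    have : (k : ℝ) + l = m := by exact_mod_cast hkl
    linarith

end MPfbfa44
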