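import Pool.Agent.Lib.MP_fbfa44_gt.IX.Cal

set_option autoImplicit false

/-!
# Row QEP: `Q0` of `√(q + t) L` for an affine function `L = <b, x> + c`
-/

namespace MPfbfa44

open MeasureTheory

theorem qep_proof (hS : SimStatement) (hG : GrnStatement) : QepStatement := by
  intro m G st t ht b c
  obtain ⟨hint, -, hgr, hhz⟩ := hG m G st
  have hsim := hS m G st
  have sq : G.Sm G.q := st.sq
  have sh : G.Sm (G.h b) := (hhz b).1
  have q0 : ∀ p, 0 ≤ G.q p := fun p =>
    Finset.sum_nonneg fun i _ => Finset.sum_nonneg fun j _ => mul_self_nonneg _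
  have sqt : G.Sm (fun p => G.q p + t) := G.sadd G.q (fun _ => t) sq (G.sconst t)
  have qt : ∀ p, 0 < G.q p + t := fun p => by have := q0 p; linarith
  have su : G.Sm (fun p => Real.sqrt (G.q p + t)) := G.ssqrt _ sqt qt
  have sL : G.Sm (fun p => G.h b p + c) := G.sadd (G.h b) (fun _ => c) sh (G.sconst c)
  have dqt : ∀ i p, G.d i (fun p => G.q p + t) p = G.d i G.q p := fun i p => by
    rw [G.dadd i G.q (fun _ => t) sq (G.sconst t) p, G.dconst i t p, add_zero]
  have dL : ∀ i p, G.d i (fun p => G.h b p + c) p = G.d i (G.h b) p := fun i p => by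
    rw [G.dadd i (G.h b) (fun _ => c) sh (G.sconst c) p, G.dconst i c p, add_zero]
  have du : ∀ i p, G.d i (fun p => Real.sqrt (G.q p + t)) p =
      G.d i G.q p / (2 * Real.sqrt (G.q p + t)) := fun i p => by
    rw [G.dsqrt i (fun p => G.q p + t) sqt qt p, dqt i p]
  have duL : ∀ i p, G.d i (fun p => Real.sqrt (G.q p + t) * (G.h b p + c)) p =
      G.d i G.q p / (2 * Real.sqrt (G.q p + t)) * (G.h b p + c) +
        Real.sqrt (G.q p + t) * G.d i (G.h b) p := fun i p => by
    rw [G.dmul i (fun p => Real.sqrt (G.q p + t)) (fun p => G.h b p + c) su sL p, du i p, dL i p]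
  -- the square of `L`
  have sL2 : G.Sm (fun p => (G.h b p + c) * (G.h b p + c)) := G.smul _ _ sL sL
  have dL2 : ∀ i p, G.d i (fun p => (G.h b p + c) * (G.h b p + c)) p =
      2 * (G.h b p + c) * G.d i (G.h b) p := fun i p => by
    rw [G.dmul i (fun p => G.h b p + c) (fun p => G.h b p + c) sL sL p, dL i p]
    ring
  have gL2 : ∀ p, G.gp (fun p => (G.h b p + c) * (G.h b p + c)) G.q p =
      2 * ((G.h b p + c) * G.gp G.q (G.h b) p) := fun p => by
    simp only [Cal.gp, dL2, Finset.mul_sum]
    refine Finset.sum_congr rfl fun i _ => ?_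
    ring
  -- the gradient of `√(q + t) L`
  have key1 : ∀ p, G.gp (fun p => Real.sqrt (G.q p + t) * (G.h b p + c))
      (fun p => Real.sqrt (G.q p + t) * (G.h b p + c)) p =
      G.gp G.q G.q p / (4 * (G.q p + t)) * (G.h b p + c) ^ 2 +
        (G.h b p + c) * G.gp G.q (G.h b) p + (G.q p + t) * G.gp (G.h b) (G.h b) p := fun p => by
    have hr : Real.sqrt (G.q p + t) * Real.sqrt (G.q p + t) = G.q p + t :=
      Real.mul_self_sqrt (qt p).le
    have hr0 : Real.sqrt (G.q p + t) ≠ 0 := (Real.sqrt_pos.2 (qt p)).ne'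
    have hq0 : G.q p + t ≠ 0 := (qt p).ne'
    simp only [Cal.gp, duL, Finset.mul_sum, Finset.sum_div, Finset.sum_mul,
      ← Finset.sum_add_distrib]
    refine Finset.sum_congr rfl fun i _ => ?_
    generalize Real.sqrt (G.q p + t) = r at hr hr0
    rw [← hr] at hq0 ⊢
    field_simp
    ring
  have gcont : ∀ f g, G.Sm f → G.Sm g → Continuous (G.gp f g) := fun f g hf hg =>
    G.cont _ (hgr f g hf hg).1
  have cq := G.cont _ sq
  have ch := G.cont _ sh
  have ctau := G.cont _ st.stau
  have cqq := gcont _ _ sq sq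
  have cqh := gcont _ _ sq sh
  have chh := gcont _ _ sh sh
  have clq := G.cont _ (hgr G.q G.q sq sq).2.1
  have iA : Integrable (fun p => (G.tau p - G.gp G.q G.q p / (4 * (G.q p + t))) *
      (G.h b p + c) ^ 2) G.μ := by
    refine hint _ ((ctau.sub (cqq.div ?_ fun p => ?_)).mul ((ch.add continuous_const).pow 2))
    · exact continuous_const.mul (cq.add continuous_const)
    · have := qt p
      positivity
  have iB : Integrable (fun p => G.q p * (G.gp (G.h b) (G.h b) p - m * (G.h b p + c) ^ 2) +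
      t * (G.gp (G.h b) (G.h b) p - G.q p * (G.h b p + c) ^ 2)) G.μ := by
    refine hint _ ((cq.mul (chh.sub (continuous_const.mul ((ch.add continuous_const).pow 2)))).add
      (continuous_const.mul (chh.sub (cq.mul ((ch.add continuous_const).pow 2)))))
  have iC1 : Integrable (fun p => (G.h b p + c) * G.gp G.q (G.h b) p) G.μ :=
    hint _ ((ch.add continuous_const).mul cqh)
  have iC2 : Integrable (fun p => (G.h b p + c) * (G.h b p + c) * G.lap G.q p) G.μ :=
    hint _ (((ch.add continuous_const).mul (ch.add continuous_const)).mul clq)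
  have hC : ∫ p, ((G.h b p + c) * G.gp G.q (G.h b) p +
      1 / 2 * ((G.h b p + c) * (G.h b p + c) * G.lap G.q p)) ∂G.μ = 0 := by
    have h1 := (hgr _ _ sL2 sq).2.2
    simp only [gL2] at h1
    rw [integral_const_mul] at h1
    rw [integral_add iC1 (iC2.const_mul _), integral_const_mul]
    linarith
  have hall : G.Q0 (fun p => Real.sqrt (G.q p + t) * (G.h b p + c)) =
      ∫ p, (-((G.tau p - G.gp G.q G.q p / (4 * (G.q p + t))) * (G.h b p + c) ^ 2) +
        (G.q p * (G.gp (G.h b) (G.h b) p - m * (G.h b p + c) ^ 2) +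
          t * (G.gp (G.h b) (G.h b) p - G.q p * (G.h b p + c) ^ 2)) +
        ((G.h b p + c) * G.gp G.q (G.h b) p +
          1 / 2 * ((G.h b p + c) * (G.h b p + c) * G.lap G.q p))) ∂G.μ := by
    unfold Cal.Q0
    refine integral_congr_ae (Filter.Eventually.of_forall fun p => ?_)
    have hr : Real.sqrt (G.q p + t) * Real.sqrt (G.q p + t) = G.q p + t :=
      Real.mul_self_sqrt (qt p).le
    have e1 : Real.sqrt (G.q p + t) * (G.h b p + c) * (Real.sqrt (G.q p + t) * (G.h b p + c)) =
        (G.q p + t) * (G.h b p + c) ^ 2 := by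
      calc _ = Real.sqrt (G.q p + t) * Real.sqrt (G.q p + t) * (G.h b p + c) ^ 2 := by ring
        _ = _ := by rw [hr]
    simp only [key1, e1, hsim p]
    ring
  have iA' : Integrable (fun p => -((G.tau p - G.gp G.q G.q p / (4 * (G.q p + t))) *
      (G.h b p + c) ^ 2)) G.μ := iA.neg
  have iAB : Integrable (fun p => -((G.tau p - G.gp G.q G.q p / (4 * (G.q p + t))) *
      (G.h b p + c) ^ 2) + (G.q p * (G.gp (G.h b) (G.h b) p - m * (G.h b p + c) ^ 2) +
      t * (G.gp (G.h b) (G.h b) p - G.q p * (G.h b p + c) ^ 2))) G.μ := iA'.add iB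
  have iC : Integrable (fun p => (G.h b p + c) * G.gp G.q (G.h b) p +
      1 / 2 * ((G.h b p + c) * (G.h b p + c) * G.lap G.q p)) G.μ := iC1.add (iC2.const_mul _)
  rw [hall, integral_add iAB iC, hC, integral_add iA' iB, add_zero, integral_neg]

end MPfbfa44
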