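import Mathlib
import Pool.Agent.Lib.MP_fbfa44_gt.IX.Cal

set_option autoImplicit false

/-!
# Calculus rules used in the rows RIG and PAR
-/

namespace MPfbfa44

open MeasureTheory

namespace H41

variable {m : ℕ} (G : Cal m)

theorem s_cmul (c : ℝ) {f : G.M → ℝ} (hf : G.Sm f) : G.Sm (fun p => c * f p) :=
  G.smul (fun _ => c) f (G.sconst c) hf

theorem d_cmul (c : ℝ) {f : G.M → ℝ} (hf : G.Sm f) (i : Fin (m + 2)) (p : G.M) :
    G.d i (fun p => c * f p) p = c * G.d i f p := by
  have h1 := G.dmul i (fun _ => c) f (G.sconst c) hf p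
  rw [G.dconst] at h1
  rw [h1]
  ring

theorem s_neg {f : G.M → ℝ} (hf : G.Sm f) : G.Sm (fun p => -f p) := by
  have h1 : (fun p => -f p) = fun p => (-1 : ℝ) * f p := by
    funext p
    ring
  rw [h1]
  exact s_cmul G _ hf

theorem d_neg {f : G.M → ℝ} (hf : G.Sm f) (i : Fin (m + 2)) (p : G.M) :
    G.d i (fun p => -f p) p = -G.d i f p := by
  have h1 : (fun p => -f p) = fun p => (-1 : ℝ) * f p := by
    funext p
    ring
  rw [h1, d_cmul G _ hf]
  ring

theorem s_sub {f g : G.M → ℝ} (hf : G.Sm f) (hg : G.Sm g) : G.Sm (fun p => f p - g p) := by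
  have h1 : (fun p => f p - g p) = fun p => f p + (fun p => -g p) p := by
    funext p
    ring
  rw [h1]
  exact G.sadd f _ hf (s_neg G hg)

theorem d_sub {f g : G.M → ℝ} (hf : G.Sm f) (hg : G.Sm g) (i : Fin (m + 2)) (p : G.M) :
    G.d i (fun p => f p - g p) p = G.d i f p - G.d i g p := by
  have h1 : (fun p => f p - g p) = fun p => f p + (fun p => -g p) p := by
    funext p
    ring
  rw [h1, G.dadd i f _ hf (s_neg G hg), d_neg G hg]
  ring

theorem s_pow {f : G.M → ℝ} (hf : G.Sm f) (n : ℕ) : G.Sm (fun p => f p ^ n) := by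
  induction n with
  | zero =>
    have h1 : (fun p => f p ^ 0) = fun _ => (1 : ℝ) := by
      funext p
      simp
    rw [h1]
    exact G.sconst 1
  | succ n ih =>
    have h1 : (fun p => f p ^ (n + 1)) = fun p => (fun p => f p ^ n) p * f p := by
      funext p
      simp only [pow_succ]
    rw [h1]
    exact G.smul _ f ih hf

theorem d_pow {f : G.M → ℝ} (hf : G.Sm f) (n : ℕ) (i : Fin (m + 2)) (p : G.M) :
    G.d i (fun p => f p ^ (n + 1)) p = (n + 1) * f p ^ n * G.d i f p := by
  induction n with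
  | zero =>
    have h1 : (fun p => f p ^ (0 + 1)) = f := by
      funext p
      simp
    rw [h1]
    simp
  | succ n ih =>
    have h1 : (fun p => f p ^ (n + 1 + 1)) = fun p => (fun p => f p ^ (n + 1)) p * f p := by
      funext p
      simp only [pow_succ]
    rw [h1, G.dmul i _ f (s_pow G hf (n + 1)) hf, ih]
    push_cast
    ring

/-- a function which is constant has vanishing gradient -/
theorem d_of_const {f : G.M → ℝ} {c : ℝ} (hf : ∀ p, f p = c) (i : Fin (m + 2)) (p : G.M) :
    G.d i f p = 0 := by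
  have h1 : f = fun _ => c := funext hf
  rw [h1, G.dconst]

theorem B_zero {p : G.M} (h : G.q p = 0) (i j : Fin (m + 2)) : G.B i j p = 0 := by
  have h1 : ∑ i, ∑ j, G.B i j p * G.B i j p = 0 := h
  have h2 := (Finset.sum_eq_zero_iff_of_nonneg (fun i _ =>
    Finset.sum_nonneg fun j _ => mul_self_nonneg (G.B i j p))).1 h1 i (Finset.mem_univ i)
  have h3 := (Finset.sum_eq_zero_iff_of_nonneg (fun j _ =>
    mul_self_nonneg (G.B i j p))).1 h2 j (Finset.mem_univ j)
  exact mul_self_eq_zero.1 h3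

theorem q_nonneg (p : G.M) : 0 ≤ G.q p :=
  Finset.sum_nonneg fun i _ => Finset.sum_nonneg fun j _ => mul_self_nonneg (G.B i j p)

theorem T_zero (h : ∀ p, G.tau p = 0) (k i j : Fin (m + 2)) (p : G.M) : G.T k i j p = 0 := by
  have h1 : ∑ k, ∑ i, ∑ j, G.T k i j p * G.T k i j p = 0 := h p
  have h2 := (Finset.sum_eq_zero_iff_of_nonneg (fun k _ => Finset.sum_nonneg fun i _ =>
    Finset.sum_nonneg fun j _ => mul_self_nonneg (G.T k i j p))).1 h1 k (Finset.mem_univ k)
  have h3 := (Finset.sum_eq_zero_iff_of_nonneg (fun i _ =>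
    Finset.sum_nonneg fun j _ => mul_self_nonneg (G.T k i j p))).1 h2 i (Finset.mem_univ i)
  have h4 := (Finset.sum_eq_zero_iff_of_nonneg (fun j _ =>
    mul_self_nonneg (G.T k i j p))).1 h3 j (Finset.mem_univ j)
  exact mul_self_eq_zero.1 h4

end H41

end MPfbfa44
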