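import Mathlib
import Pool.Agent.Lib.MP_fbfa44_gt.IX.Cal
import Pool.Agent.Lib.MP_fbfa44_gt.IX.H41Bas

set_option autoImplicit false

/-!
# Row RIG: rigidity
-/

namespace MPfbfa44

open MeasureTheory

namespace H41

variable {m : ℕ} (G : Cal m)

/-- `E` vanishes off the zeros of `q`. -/
theorem E_zero (S : G.Str)
    (g2 : ∀ f g, G.Sm f → G.Sm g → G.Sm (G.gp f g)) (b : Fin (m + 2) → ℝ) (hh : G.Sm (G.h b))
    (hE0 : ∀ p, 0 ≤ G.E b p) (hEi : Integrable (G.E b) G.μ) (hE : ∫ p, G.E b p ∂G.μ ≤ 0) (p : G.M)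
    (hp : G.q p ≠ 0) : G.E b p = 0 := by
  have hae : G.E b =ᵐ[G.μ] 0 :=
    (integral_eq_zero_iff_of_nonneg hE0 hEi).1 (le_antisymm hE (integral_nonneg hE0))
  set Φ : G.M → ℝ := fun p => (G.q p * G.tau p - G.gp G.q G.q p / 4) * (1 - G.h b p) ^ 2 -
    2 * (1 - G.h b p) * G.q p * G.gp G.q (G.h b) p +
    (m + 1) * G.q p ^ 2 * G.gp (G.h b) (G.h b) p +
    m * G.q p * ∑ i, (∑ j, G.B i j p * G.d j (G.h b) p) ^ 2 with hΦ
  have hΦE : ∀ p, Φ p = G.q p * G.E b p := by
    intro p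
    by_cases h0 : G.q p = 0
    · have h1 : ∀ k, G.d k G.q p = 0 := by
        intro k
        rw [S.dq]
        simp only [B_zero G h0, zero_mul, Finset.sum_const_zero, mul_zero]
      have h2 : G.gp G.q G.q p = 0 := by
        simp only [Cal.gp, h1, zero_mul, Finset.sum_const_zero]
      simp only [hΦ, h0, h2]
      ring
    · simp only [hΦ, Cal.E]
      field_simp
  have hc1 := G.cont _ S.sq
  have hc2 := G.cont _ S.stau
  have hc3 := G.cont _ (g2 _ _ S.sq S.sq)
  have hc4 := G.cont _ (g2 _ _ S.sq hh)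
  have hc5 := G.cont _ (g2 _ _ hh hh)
  have hc6 := G.cont _ hh
  have hc7 : Continuous fun p => ∑ i, (∑ j, G.B i j p * G.d j (G.h b) p) ^ 2 := by
    refine continuous_finsetSum _ fun i _ => Continuous.pow ?_ 2
    exact continuous_finsetSum _ fun j _ => (G.cont _ (S.sB i j)).mul (G.cont _ (G.sd j _ hh))
  have hΦc : Continuous Φ := by
    refine Continuous.add (Continuous.add (Continuous.sub ?_ ?_) ?_) ?_
    · exact ((hc1.mul hc2).sub (hc3.div_const 4)).mul ((continuous_const.sub hc6).pow 2)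
    · exact ((continuous_const.mul (continuous_const.sub hc6)).mul hc1).mul hc4
    · exact (continuous_const.mul (hc1.pow 2)).mul hc5
    · exact (continuous_const.mul hc1).mul hc7
  have hΦ0 : Φ =ᵐ[G.μ] (fun _ => (0 : ℝ)) := by
    filter_upwards [hae] with p hp
    rw [hΦE, hp]
    simp
  have h3 : Φ = fun _ => (0 : ℝ) := (Continuous.ae_eq_iff_eq G.μ hΦc continuous_const).1 hΦ0
  have h4 : G.q p * G.E b p = 0 := by
    rw [← hΦE, h3]
  rcases mul_eq_zero.1 h4 with h5 | h5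
  · exact absurd h5 hp
  · exact h5

/-- the function `q (1 - h)^(2m)` is constant -/
theorem F_const (S : G.Str) (hm : 2 ≤ m) (b : Fin (m + 2) → ℝ) (hh : G.Sm (G.h b))
    (h1 : ∀ k p, (1 - G.h b p) * G.d k G.q p = 2 * m * G.q p * G.d k (G.h b) p) (p p' : G.M) :
    G.q p * (1 - G.h b p) ^ (2 * m) = G.q p' * (1 - G.h b p') ^ (2 * m) := by
  obtain ⟨n, rfl⟩ : ∃ n, m = n + 1 := ⟨m - 1, by omega⟩
  have hu : G.Sm (fun p => 1 - G.h b p) := s_sub G (G.sconst 1) hh
  have hud : ∀ i p, G.d i (fun p => 1 - G.h b p) p = -G.d i (G.h b) p := by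
    intro i p
    have h2 := d_sub G (G.sconst 1) hh i p
    rw [G.dconst] at h2
    rw [h2]
    ring
  have e1 : 2 * (n + 1) = (2 * n + 1) + 1 := by ring
  have hun := s_pow G hu (2 * (n + 1))
  refine G.conn (fun p => G.q p * (fun p => (fun p => 1 - G.h b p) p ^ (2 * (n + 1))) p)
    (G.smul _ _ S.sq hun) (fun i p => ?_) p p'
  rw [G.dmul i _ _ S.sq hun]
  have h3 : G.d i (fun p => (fun p => 1 - G.h b p) p ^ (2 * (n + 1))) p =
      (2 * (n + 1)) * (1 - G.h b p) ^ (2 * n + 1) * -G.d i (G.h b) p := by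
    rw [e1, d_pow G hu (2 * n + 1) i p, hud]
    push_cast
    ring
  rw [h3]
  have h4 := h1 i p
  push_cast at h4
  have h5 : (1 - G.h b p) ^ (2 * (n + 1)) = (1 - G.h b p) ^ (2 * n + 1) * (1 - G.h b p) := by
    rw [e1, pow_succ]
  simp only [h5]
  linear_combination (1 - G.h b p) ^ (2 * n + 1) * h4

/-- `q` vanishes nowhere and `h` is never `1` -/
theorem q_ne (S : G.Str) (hm : 2 ≤ m) (b : Fin (m + 2) → ℝ) (hh : G.Sm (G.h b))
    (hlap : ∀ p, G.lap (G.h b) p = -(m * G.h b p)) (hq0 : ∃ p, G.q p ≠ 0)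
    (h1 : ∀ k p, (1 - G.h b p) * G.d k G.q p = 2 * m * G.q p * G.d k (G.h b) p) (p : G.M) :
    G.q p * (1 - G.h b p) ^ (2 * m) ≠ 0 := by
  intro h0
  have hm0 : (m : ℝ) ≠ 0 := by
    have : m ≠ 0 := by omega
    exact_mod_cast this
  have hm1 : (2 * m - 1 : ℝ) ≠ 0 := by
    have : (2 : ℝ) ≤ m := by exact_mod_cast hm
    intro h2
    linarith
  have hall : ∀ p', G.q p' * (1 - G.h b p') = 0 := by
    intro p'
    have h2 : G.q p' * (1 - G.h b p') ^ (2 * m) = 0 := by
      rw [F_const G S hm b hh h1 p' p, h0]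
    rcases mul_eq_zero.1 h2 with h3 | h3
    · rw [h3, zero_mul]
    · rw [pow_eq_zero_iff (by omega)] at h3
      rw [h3, mul_zero]
  have hu : G.Sm (fun p => 1 - G.h b p) := s_sub G (G.sconst 1) hh
  have hud : ∀ i p, G.d i (fun p => 1 - G.h b p) p = -G.d i (G.h b) p := by
    intro i p
    have h2 := d_sub G (G.sconst 1) hh i p
    rw [G.dconst] at h2
    rw [h2]
    ring
  have hqd : ∀ i p, G.q p * G.d i (G.h b) p = 0 := by
    intro i p
    have h2 := d_of_const G hall i p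
    have h3 : G.d i (fun p => G.q p * (fun p => 1 - G.h b p) p) p = 0 := h2
    rw [G.dmul i _ _ S.sq hu, hud] at h3
    have h4 : (2 * m - 1 : ℝ) * (G.q p * G.d i (G.h b) p) = 0 := by
      linear_combination h3 - h1 i p
    rcases mul_eq_zero.1 h4 with h5 | h5
    · exact absurd h5 hm1
    · exact h5
  obtain ⟨p', hp'⟩ := hq0
  have hdiv : G.q p' * G.lap (G.h b) p' = 0 := by
    have h2 : ∀ i, G.d i G.q p' * G.d i (G.h b) p' + G.q p' * G.d i (G.d i (G.h b)) p' = 0 := by
      intro i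
      have h3 := d_of_const G (hqd i) i p'
      rw [G.dmul i _ _ S.sq (G.sd i _ hh)] at h3
      exact h3
    have h4 : ∀ i, G.q p' * (G.q p' * G.d i (G.d i (G.h b)) p') = 0 := by
      intro i
      have h5 := h2 i
      have h6 := hqd i p'
      linear_combination G.q p' * h5 - G.d i G.q p' * h6
    have h7 : ∀ i, G.q p' * G.d i (G.d i (G.h b)) p' = 0 := by
      intro i
      rcases mul_eq_zero.1 (h4 i) with h8 | h8
      · exact absurd h8 hp'
      · exact h8
    simp only [Cal.lap, Finset.mul_sum, h7, Finset.sum_const_zero]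
  rw [hlap] at hdiv
  have h9 : G.h b p' = 0 := by
    rcases mul_eq_zero.1 hdiv with h8 | h8
    · exact absurd h8 hp'
    · have h10 : (m : ℝ) * G.h b p' = 0 := by linarith
      rcases mul_eq_zero.1 h10 with h11 | h11
      · exact absurd h11 hm0
      · exact h11
  have h12 := hall p'
  rw [h9] at h12
  exact hp' (by linarith)

/-- the integral identities give `∫ q (h - |b|²) = 0` -/
theorem int_qh (S : G.Str) (hm : 2 ≤ m) (b : Fin (m + 2) → ℝ) (hh : G.Sm (G.h b))
    (hz : G.Sm (G.z b)) (g1 : ∀ f : G.M → ℝ, Continuous f → Integrable f G.μ)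
    (g3 : ∀ f g, G.Sm f → G.Sm g → G.Sm (G.gp f g) ∧ G.Sm (G.lap f) ∧
      ∫ p, G.gp f g p ∂G.μ = -∫ p, f p * G.lap g p ∂G.μ)
    (g5 : ∀ p, (∀ i, G.d i (G.h b) p = b i - G.h b p * G.x i p - G.z b p * G.ν i p) ∧
    (∀ i, G.d i (G.z b) p = -∑ j, G.B i j p * b j) ∧
    G.lap (G.h b) p = -(m * G.h b p) ∧ G.lap (G.z b) p = -(G.q p * G.z b p) ∧
    G.gp (G.h b) (G.h b) p = (∑ i, b i ^ 2) - G.h b p ^ 2 - G.z b p ^ 2 ∧
    (∀ i, ∑ j, G.B i j p * b j = ∑ j, G.B i j p * G.d j (G.h b) p))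
    (hi : ∀ k p, (1 - G.h b p) * G.d k G.q p = 2 * m * G.q p * G.d k (G.h b) p)
    (hii : ∀ p, m * ∑ i, (∑ j, G.B i j p * G.d j (G.h b) p) ^ 2 =
      (m - 1) * G.q p * G.gp (G.h b) (G.h b) p) :
    ∫ p, G.q p * G.h b p ∂G.μ = (∑ i, b i ^ 2) * ∫ p, G.q p ∂G.μ := by
  have hm2 : (2 : ℝ) ≤ m := by exact_mod_cast hm
  have hm0 : (m : ℝ) ≠ 0 := by linarith
  have hus : G.Sm (fun p => 1 - G.h b p) := s_sub G (G.sconst 1) hh
  have hud : ∀ i p, G.d i (fun p => 1 - G.h b p) p = -G.d i (G.h b) p := by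
    intro i p
    have h2 := d_sub G (G.sconst 1) hh i p
    rw [G.dconst] at h2
    rw [h2]
    ring
  have hqu : G.Sm (fun p => G.q p * (fun p => 1 - G.h b p) p) := G.smul _ _ S.sq hus
  have cq := G.cont _ S.sq
  have ch := G.cont _ hh
  have cz := G.cont _ hz
  have cg := G.cont _ (g3 _ _ hh hh).1
  have i1 : Integrable (fun p => G.q p * G.gp (G.h b) (G.h b) p) G.μ := g1 _ (cq.mul cg)
  have i2 : Integrable (fun p => G.q p * G.h b p) G.μ := g1 _ (cq.mul ch)
  have i3 : Integrable (fun p => G.q p * G.h b p ^ 2) G.μ := g1 _ (cq.mul (ch.pow 2))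
  have i4 : Integrable (fun p => G.q p * G.z b p ^ 2) G.μ := g1 _ (cq.mul (cz.pow 2))
  have i0 : Integrable (fun p => G.q p) G.μ := g1 _ cq
  have e1 : (2 * m - 1 : ℝ) * ∫ p, G.q p * G.gp (G.h b) (G.h b) p ∂G.μ =
      m * (∫ p, G.q p * G.h b p ∂G.μ - ∫ p, G.q p * G.h b p ^ 2 ∂G.μ) := by
    have h1 := (g3 _ _ hqu hh).2.2
    have h2 : (fun p => G.gp (fun p => G.q p * (fun p => 1 - G.h b p) p) (G.h b) p) =
        fun p => (2 * m - 1 : ℝ) * (G.q p * G.gp (G.h b) (G.h b) p) := by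
      funext p
      simp only [Cal.gp, Finset.mul_sum]
      refine Finset.sum_congr rfl fun i _ => ?_
      have h3 : G.d i (fun p => G.q p * (1 - G.h b p)) p = (2 * m - 1 : ℝ) *
          (G.q p * G.d i (G.h b) p) := by
        have h4 := G.dmul i _ _ S.sq hus p
        rw [hud] at h4
        rw [h4]
        linear_combination hi i p
      rw [h3]
      ring
    have h5 : (fun p => G.q p * (fun p => 1 - G.h b p) p * G.lap (G.h b) p) =
        fun p => -(m * (G.q p * G.h b p - G.q p * G.h b p ^ 2)) := by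
      funext p
      rw [(g5 p).2.2.1]
      ring
    rw [h2, h5, integral_const_mul, integral_neg, integral_const_mul, integral_sub i2 i3] at h1
    rw [h1]
    ring
  have e2 : (m - 1 : ℝ) * ∫ p, G.q p * G.gp (G.h b) (G.h b) p ∂G.μ =
      m * ∫ p, G.q p * G.z b p ^ 2 ∂G.μ := by
    have h1 := (g3 _ _ hz hz).2.2
    have h2 : (fun p => m * G.gp (G.z b) (G.z b) p) =
        fun p => (m - 1 : ℝ) * (G.q p * G.gp (G.h b) (G.h b) p) := by
      funext p
      rw [← mul_assoc, ← hii p]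
      congr 1
      simp only [Cal.gp]
      refine Finset.sum_congr rfl fun i _ => ?_
      rw [(g5 p).2.1 i, (g5 p).2.2.2.2.2 i]
      ring
    have h5 : (fun p => G.z b p * G.lap (G.z b) p) = fun p => -(G.q p * G.z b p ^ 2) := by
      funext p
      rw [(g5 p).2.2.2.1]
      ring
    rw [h5, integral_neg, neg_neg] at h1
    rw [← h1, ← integral_const_mul, ← integral_const_mul, h2]
  have e3 : ∫ p, G.q p * G.gp (G.h b) (G.h b) p ∂G.μ = (∑ i, b i ^ 2) * ∫ p, G.q p ∂G.μ -
      ∫ p, G.q p * G.h b p ^ 2 ∂G.μ - ∫ p, G.q p * G.z b p ^ 2 ∂G.μ := by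
    have i5 : Integrable (fun p => (∑ i, b i ^ 2) * G.q p - G.q p * G.h b p ^ 2) G.μ :=
      (i0.const_mul _).sub i3
    rw [← integral_const_mul, ← integral_sub (i0.const_mul _) i3, ← integral_sub i5 i4]
    refine integral_congr_ae (Filter.Eventually.of_forall fun p => ?_)
    simp only [(g5 p).2.2.2.2.1]
    ring
  have e4 : (m : ℝ) * (∫ p, G.q p * G.h b p ∂G.μ) = m * ((∑ i, b i ^ 2) * ∫ p, G.q p ∂G.μ) := by
    linear_combination -e1 + e2 + m * e3
  exact mul_left_cancel₀ hm0 e4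

/-- `h` is constant -/
theorem h_const (S : G.Str) (hm : 2 ≤ m) (b : Fin (m + 2) → ℝ) (hh : G.Sm (G.h b))
    (g1 : ∀ f : G.M → ℝ, Continuous f → Integrable f G.μ)
    (g2 : ∀ f : G.M → ℝ, Continuous f → (∀ p, 0 ≤ f p) → ∫ p, f p ∂G.μ ≤ 0 → ∀ p, f p = 0)
    (hb : ∑ i, b i ^ 2 ≤ 1)
    (hint : ∀ i, ∫ p, Real.sqrt (G.q p) * G.q p * (G.x i p - b i) ∂G.μ = 0)
    (hF : ∀ p, G.q p * (1 - G.h b p) ^ (2 * m) ≠ 0)
    (hFc : ∀ p p', G.q p * (1 - G.h b p) ^ (2 * m) = G.q p' * (1 - G.h b p') ^ (2 * m))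
    (hqh : ∫ p, G.q p * G.h b p ∂G.μ = (∑ i, b i ^ 2) * ∫ p, G.q p ∂G.μ) (p : G.M) :
    G.h b p = ∑ i, b i ^ 2 := by
  set g : ℝ := ∑ i, b i ^ 2 with hg
  have hq : ∀ p, 0 < G.q p := fun p =>
    lt_of_le_of_ne (q_nonneg G p) fun h => hF p (by rw [← h, zero_mul])
  have hu0 : ∀ p, 1 - G.h b p ≠ 0 := fun p h =>
    hF p (by rw [h, zero_pow (by omega), mul_zero])
  have hle : ∀ p, G.h b p ≤ 1 := by
    intro p
    have h1 := Finset.sum_mul_sq_le_sq_mul_sq Finset.univ b (fun i => G.x i p)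
    have h2 : ∑ i, G.x i p ^ 2 = 1 := by
      rw [← G.xx p]
      exact Finset.sum_congr rfl fun i _ => by ring
    rw [h2, mul_one] at h1
    have h3 : G.h b p ^ 2 ≤ 1 := le_trans h1 hb
    nlinarith [sq_nonneg (G.h b p - 1)]
  have hu : ∀ p, 0 < 1 - G.h b p := fun p =>
    lt_of_le_of_ne (by linarith [hle p]) (Ne.symm (hu0 p))
  have cq := G.cont _ S.sq
  have ch := G.cont _ hh
  have ca : Continuous fun p => Real.sqrt (G.q p) := Real.continuous_sqrt.comp cq
  have i0 : Integrable (fun p => G.q p) G.μ := g1 _ cq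
  have i2 : Integrable (fun p => G.q p * G.h b p) G.μ := g1 _ (cq.mul ch)
  have hz1 : ∫ p, G.q p * (G.h b p - g) ∂G.μ = 0 := by
    have h1 : (fun p => G.q p * (G.h b p - g)) = fun p => G.q p * G.h b p - g * G.q p := by
      funext p
      ring
    rw [h1, integral_sub i2 (i0.const_mul g), integral_const_mul, hqh]
    ring
  have hz2 : ∫ p, Real.sqrt (G.q p) * (G.q p * (G.h b p - g)) ∂G.μ = 0 := by
    have h1 : (fun p => Real.sqrt (G.q p) * (G.q p * (G.h b p - g))) =
        fun p => ∑ i, b i * (Real.sqrt (G.q p) * G.q p * (G.x i p - b i)) := by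
      funext p
      have h2 : G.h b p - g = ∑ i, b i * (G.x i p - b i) := by
        rw [hg]
        simp only [Cal.h, mul_sub, Finset.sum_sub_distrib]
        congr 1
        exact Finset.sum_congr rfl fun i _ => by ring
      rw [h2]
      simp only [Finset.mul_sum]
      exact Finset.sum_congr rfl fun i _ => by ring
    rw [h1, integral_finsetSum]
    · refine Finset.sum_eq_zero fun i _ => ?_
      rw [integral_const_mul, hint, mul_zero]
    · intro i _
      exact g1 _ (continuous_const.mul ((ca.mul cq).mul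
        ((G.cont _ (G.sx i)).sub continuous_const)))
  rcases lt_or_eq_of_le hb with hg1 | hg1
  · -- the main case
    have hg0 : 0 < 1 - g := by linarith
    obtain ⟨p0⟩ := G.ne
    set K : ℝ := Real.sqrt (G.q p0 * (1 - G.h b p0) ^ (2 * m)) with hK
    have hK0 : 0 < K := Real.sqrt_pos.2 (mul_pos (hq p0) (pow_pos (hu p0) _))
    have ha : ∀ p, Real.sqrt (G.q p) * (1 - G.h b p) ^ m = K := by
      intro p
      rw [hK, hFc p0 p, Real.sqrt_mul (hq p).le, mul_comm 2 m, pow_mul,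
        Real.sqrt_sq (pow_pos (hu p) _).le]
    set s : ℝ := K / (1 - g) ^ m with hs
    have hs1 : s * (1 - g) ^ m = K := div_mul_cancel₀ _ (pow_pos hg0 m).ne'
    have key1 : ∀ p, g < G.h b p → s < Real.sqrt (G.q p) := by
      intro p hp
      have h1 : (1 - G.h b p) ^ m < (1 - g) ^ m :=
        pow_lt_pow_left₀ (by linarith) (hu p).le (by omega)
      by_contra h2
      have h3 : Real.sqrt (G.q p) ≤ s := not_lt.1 h2
      have h4 : 0 < Real.sqrt (G.q p) := Real.sqrt_pos.2 (hq p)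
      have h5 := ha p
      nlinarith [pow_pos (hu p) m, pow_pos hg0 m]
    have key2 : ∀ p, G.h b p < g → Real.sqrt (G.q p) < s := by
      intro p hp
      have h1 : (1 - g) ^ m < (1 - G.h b p) ^ m :=
        pow_lt_pow_left₀ (by linarith) hg0.le (by omega)
      by_contra h2
      have h3 : s ≤ Real.sqrt (G.q p) := not_lt.1 h2
      have h4 : 0 < Real.sqrt (G.q p) := Real.sqrt_pos.2 (hq p)
      have h5 := ha p
      nlinarith [pow_pos (hu p) m, pow_pos hg0 m]
    have hψ0 : ∀ p, 0 ≤ G.q p * ((Real.sqrt (G.q p) - s) * (G.h b p - g)) := by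
      intro p
      refine mul_nonneg (hq p).le ?_
      rcases lt_trichotomy (G.h b p) g with h1 | h1 | h1
      · exact (mul_pos_of_neg_of_neg (by linarith [key2 p h1]) (by linarith)).le
      · rw [h1, sub_self, mul_zero]
      · exact (mul_pos (by linarith [key1 p h1]) (by linarith)).le
    have hψi : ∫ p, G.q p * ((Real.sqrt (G.q p) - s) * (G.h b p - g)) ∂G.μ ≤ 0 := by
      have h1 : (fun p => G.q p * ((Real.sqrt (G.q p) - s) * (G.h b p - g))) =
          fun p => Real.sqrt (G.q p) * (G.q p * (G.h b p - g)) - s * (G.q p * (G.h b p - g)) := by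
        funext p
        ring
      have i6 : Integrable (fun p => Real.sqrt (G.q p) * (G.q p * (G.h b p - g))) G.μ :=
        g1 _ (ca.mul (cq.mul (ch.sub continuous_const)))
      have i7 : Integrable (fun p => s * (G.q p * (G.h b p - g))) G.μ :=
        g1 _ (continuous_const.mul (cq.mul (ch.sub continuous_const)))
      rw [h1, integral_sub i6 i7, integral_const_mul, hz1, hz2]
      simp
    have hψ : G.q p * ((Real.sqrt (G.q p) - s) * (G.h b p - g)) = 0 :=
      g2 _ (cq.mul ((ca.sub continuous_const).mul (ch.sub continuous_const))) hψ0 hψi p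
    rcases mul_eq_zero.1 hψ with h1 | h1
    · exact absurd h1 (hq p).ne'
    · rcases lt_trichotomy (G.h b p) g with h2 | h2 | h2
      · have := mul_pos_of_neg_of_neg (sub_neg.2 (key2 p h2)) (sub_neg.2 h2)
        linarith
      · exact h2
      · have := mul_pos (sub_pos.2 (key1 p h2)) (sub_pos.2 h2)
        linarith
  · -- `|b| = 1`
    exfalso
    have h1 : ∀ p, 0 ≤ G.q p * (g - G.h b p) := fun p =>
      mul_nonneg (hq p).le (by rw [hg1]; exact (hu p).le)
    have h2 : ∫ p, G.q p * (g - G.h b p) ∂G.μ ≤ 0 := by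
      have h3 : (fun p => G.q p * (g - G.h b p)) = fun p => -(G.q p * (G.h b p - g)) := by
        funext p
        ring
      rw [h3, integral_neg, hz1, neg_zero]
    have h4 : G.q p * (g - G.h b p) = 0 := g2 _ (cq.mul (continuous_const.sub ch)) h1 h2 p
    rcases mul_eq_zero.1 h4 with h5 | h5
    · exact absurd h5 (hq p).ne'
    · rw [hg1] at h5
      exact hu0 p h5

end H41

/-- Row RIG. -/
theorem rig_proof (hsim : SimStatement) (hgrn : GrnStatement) (hept : EptStatement) :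
    RigStatement := by
  intro m G S hm hq0 b hb hint hEi hE
  obtain ⟨g1, g2, g3, g4⟩ := hgrn m G S
  obtain ⟨hh, hz, g5⟩ := g4 b
  have hm2 : (2 : ℝ) ≤ m := by exact_mod_cast hm
  have hm0 : (m : ℝ) ≠ 0 := by linarith
  have hE0 : ∀ p, 0 ≤ G.E b p := fun p => (hept m G S hm b p).1
  have hEz : ∀ p, G.q p ≠ 0 → G.E b p = 0 := fun p hp =>
    H41.E_zero G S (fun f g hf hg => (g3 f g hf hg).1) b hh hE0 hEi hE p hp
  have hi : ∀ k p, (1 - G.h b p) * G.d k G.q p = 2 * m * G.q p * G.d k (G.h b) p := by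
    intro k p
    by_cases h0 : G.q p = 0
    · rw [S.dq]
      simp only [H41.B_zero G h0, h0, zero_mul, mul_zero, Finset.sum_const_zero]
    · exact ((hept m G S hm b p).2 (hEz p h0)).1 k
  have hii : ∀ p, m * ∑ i, (∑ j, G.B i j p * G.d j (G.h b) p) ^ 2 =
      (m - 1) * G.q p * G.gp (G.h b) (G.h b) p := by
    intro p
    by_cases h0 : G.q p = 0
    · simp [H41.B_zero G h0, h0]
    · exact ((hept m G S hm b p).2 (hEz p h0)).2
  have hF := H41.q_ne G S hm b hh (fun p => (g5 p).2.2.1) hq0 hi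
  have hq : ∀ p, 0 < G.q p := fun p =>
    lt_of_le_of_ne (H41.q_nonneg G p) fun h => hF p (by rw [← h, zero_mul])
  have hqh := H41.int_qh G S hm b hh hz g1 g3 g5 hi hii
  have hc := H41.h_const G S hm b hh g1 g2 hb hint hF
    (fun p p' => H41.F_const G S hm b hh hi p p') hqh
  have hdh : ∀ i p, G.d i (G.h b) p = 0 := fun i p => H41.d_of_const G hc i p
  have hlap : ∀ p, G.lap (G.h b) p = 0 := by
    intro p
    simp only [Cal.lap]
    exact Finset.sum_eq_zero fun i _ => H41.d_of_const G (hdh i) i p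
  have hh0 : ∀ p, G.h b p = 0 := by
    intro p
    have h1 := (g5 p).2.2.1
    rw [hlap] at h1
    have h2 : (m : ℝ) * G.h b p = 0 := by linarith
    rcases mul_eq_zero.1 h2 with h3 | h3
    · exact absurd h3 hm0
    · exact h3
  have hdq : ∀ k p, G.d k G.q p = 0 := by
    intro k p
    have h1 := hi k p
    rw [hh0, hdh] at h1
    linarith
  have hlq : ∀ p, G.lap G.q p = 0 := by
    intro p
    simp only [Cal.lap]
    exact Finset.sum_eq_zero fun i _ => H41.d_of_const G (hdq i) i p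
  have htau : ∀ p, G.tau p = 0 := by
    intro p
    have h1 := hEz p (hq p).ne'
    simp only [Cal.E, Cal.gp, hdq, hdh, hh0, mul_zero, Finset.sum_const_zero, zero_div, sub_zero,
      one_pow, mul_one, add_zero, ne_eq, OfNat.ofNat_ne_zero, not_false_eq_true, zero_pow] at h1
    exact h1
  refine ⟨fun p => ?_, htau⟩
  have h1 := hsim m G S p
  rw [hlq, htau] at h1
  have h2 : G.q p * (m - G.q p) = 0 := by linarith [h1]
  rcases mul_eq_zero.1 h2 with h3 | h3
  · exact absurd h3 (hq p).ne'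
  · linarith

end MPfbfa44
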