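import Pool.Agent.Lib.MP_fbfa44_gt.IX.Cal
import Pool.Agent.Lib.MP_fbfa44_gt.Idx8.Alg

set_option autoImplicit false

/-!
# SIM: the identity of Simons

The smooth functions form a commutative ring; the identity is the one of `Idx8/Alg.lean`.
-/

namespace MPfbfa44

namespace SIM

open Finset Pool.MP_fbfa44_gt.Idx8

variable {m : ℕ} (G : Cal m)

/-- the ring of the smooth functions -/
def Rg : Subring (G.M → ℝ) where
  carrier := {f | G.Sm f}
  mul_mem' := fun {f g} hf hg => G.smul f g hf hg
  one_mem' := G.sconst 1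
  add_mem' := fun {f g} hf hg => G.sadd f g hf hg
  zero_mem' := G.sconst 0
  neg_mem' := fun {f} hf => by
    have h := G.smul (fun _ => (-1 : ℝ)) f (G.sconst (-1)) hf
    have e : (-f) = fun p => (-1 : ℝ) * f p := by
      funext p
      rw [Pi.neg_apply]
      ring
    change G.Sm (-f)
    rw [e]
    exact h

/-- evaluation at a point -/
def ev (p : G.M) : Rg G →+* ℝ := (Pi.evalRingHom (fun _ => ℝ) p).comp (Rg G).subtype

theorem ev_mk (p : G.M) (f : G.M → ℝ) (hf : G.Sm f) : ev G p ⟨f, hf⟩ = f p := rfl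

theorem ev_ext {a b : Rg G} (h : ∀ p, ev G p a = ev G p b) : a = b :=
  Subtype.ext (funext h)

/-- the derivations -/
def D (i : Fin (m + 2)) : Rg G →+ Rg G :=
  AddMonoidHom.mk' (fun f => ⟨G.d i f.1, G.sd i f.1 f.2⟩) fun f g =>
    Subtype.ext (funext fun p => G.dadd i f.1 g.1 f.2 g.2 p)

theorem ev_D (p : G.M) (i : Fin (m + 2)) (f : Rg G) : ev G p (D G i f) = G.d i f.1 p := rfl

/-- the calculus on the ring of the smooth functions -/
def C (S : G.Str) : Calc (Fin (m + 2)) (Rg G) where
  d := D G
  x := fun i => ⟨G.x i, G.sx i⟩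
  nu := fun i => ⟨G.ν i, G.sν i⟩
  h := fun i j => ⟨G.B i j, S.sB i j⟩
  mul := fun i f g => ev_ext G fun p => by
    have h := G.dmul i f.1 g.1 f.2 g.2 p
    change G.d i (fun p => f.1 p * g.1 p) p = f.1 p * G.d i g.1 p + g.1 p * G.d i f.1 p
    rw [h]
    ring
  xx := ev_ext G fun p => by
    rw [map_sum, map_one]
    simp only [map_mul, ev_mk]
    exact G.xx p
  nn := ev_ext G fun p => by
    rw [map_sum, map_one]
    simp only [map_mul, ev_mk]
    exact G.νν p
  xn := ev_ext G fun p => by
    rw [map_sum, map_zero]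
    simp only [map_mul, ev_mk]
    exact G.xν p
  tx := fun f => ev_ext G fun p => by
    rw [map_sum, map_zero]
    simp only [map_mul, ev_mk, ev_D]
    exact G.tx f.1 f.2 p
  tn := fun f => ev_ext G fun p => by
    rw [map_sum, map_zero]
    simp only [map_mul, ev_mk, ev_D]
    exact G.tν f.1 f.2 p
  dx := fun i j => ev_ext G fun p => by
    have h : ev G p (if i = j then 1 else 0) = if i = j then (1 : ℝ) else 0 := by
      split_ifs
      · exact map_one _
      · exact map_zero _
    change G.d i (G.x j) p = ev G p (if i = j then 1 else 0) - G.x i p * G.x j p -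
      G.ν i p * G.ν j p
    rw [h]
    exact G.dx i j p
  dn := fun i j => ev_ext G fun p => by
    rw [map_neg, ev_D, ev_mk]
    exact S.dν i j p
  symm := fun i j => ev_ext G fun p => S.Bs i j p
  tr := ev_ext G fun p => by
    rw [map_sum, map_zero]
    simp only [ev_mk]
    exact S.Bt p
  comm := fun i j f => ev_ext G fun p => by
    have h := S.com f.1 f.2 i j p
    simp only [map_sub, map_add, map_mul, map_sum, ev_mk, ev_D]
    change G.d i (G.d j f.1) p - G.d j (G.d i f.1) p = _
    linear_combination -h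

theorem ev_h2 (S : G.Str) (p : G.M) (i j : Fin (m + 2)) :
    ev G p ((C G S).h2 i j) = G.B2 i j p := by
  unfold Calc.h2
  rw [map_sum]
  simp only [map_mul]
  rfl

theorem ev_T (S : G.Str) (p : G.M) (k i j : Fin (m + 2)) :
    ev G p ((C G S).T k i j) = G.T k i j p := by
  have e1 : G.B i k p = G.B k i p := S.Bs i k p
  have e2 : G.B2 i k p = G.B2 k i p := by
    rw [← ev_h2 G S, ← ev_h2 G S, (C G S).h2_symm i k]
  unfold Calc.T
  rw [map_sub, map_sub, map_add, map_add, map_mul, map_mul, map_mul, map_mul, ev_h2, ev_h2, e2]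
  change G.d k (G.B i j) p + G.x j p * G.B i k p + G.x i p * G.B k j p - G.ν j p * G.B2 k i p -
    G.ν i p * G.B2 k j p = G.T k i j p
  rw [e1]
  unfold Cal.T
  ring

theorem coe_S (S : G.Str) : ((C G S).S : G.M → ℝ) = G.q := by
  funext p
  change ev G p (C G S).S = G.q p
  unfold Calc.S
  simp only [map_sum, map_mul]
  rfl

theorem ev_TT (S : G.Str) (p : G.M) : ev G p (C G S).TT = G.tau p := by
  unfold Calc.TT Cal.tau
  simp only [map_sum, map_mul, ev_T]

end SIM

open SIM in
/-- Row SIM. -/
theorem sim_proof : SimStatement := by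
  intro m G S p
  have h := congrArg (ev G p) (C G S).simons
  rw [map_sum, map_mul, map_sub, map_add, map_mul, map_mul, map_sub, map_natCast, map_ofNat,
    Fintype.card_fin, ev_TT] at h
  have e1 : ev G p (C G S).S = G.q p := congrFun (coe_S G S) p
  have e2 : ∀ k, ev G p ((C G S).d k ((C G S).d k (C G S).S)) = G.d k (G.d k G.q) p := by
    intro k
    change G.d k (G.d k ((C G S).S : G.M → ℝ)) p = _
    rw [coe_S]
  rw [Finset.sum_congr rfl fun k _ => e2 k, e1] at h
  unfold Cal.lap
  rw [h]
  push_cast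
  ring

end MPfbfa44
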