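import Pool.Agent.Lib.MP_fbfa44_gt.IX.Cal
import Pool.Agent.Lib.MP_fbfa44_gt.Idx8.Alg
import Pool.Agent.Lib.MP_fbfa44_gt.IX.Sim

set_option autoImplicit false

/-!
# STR: the structure equations

The smooth functions form a commutative ring; the commutator of the derivations follows from the
symmetry of the Hessian, the symmetry of the second fundamental form follows from the commutator,
and the rest is `Idx8/Alg.lean`.
-/

namespace MPfbfa44

namespace STR

open Finset Pool.MP_fbfa44_gt.Idx8 SIM

variable {m : ℕ} (G : Cal m)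

/-- the position -/
def Xr (i : Fin (m + 2)) : Rg G := ⟨G.x i, G.sx i⟩

/-- the normal -/
def Nr (i : Fin (m + 2)) : Rg G := ⟨G.ν i, G.sν i⟩

/-- the second fundamental form -/
def Br (i j : Fin (m + 2)) : Rg G := -D G i (Nr G j)

theorem ev_X (p : G.M) (i : Fin (m + 2)) : ev G p (Xr G i) = G.x i p := rfl

theorem ev_N (p : G.M) (i : Fin (m + 2)) : ev G p (Nr G i) = G.ν i p := rfl

theorem coe_B (i j : Fin (m + 2)) : ((Br G i j : Rg G) : G.M → ℝ) = G.B i j := rfl

theorem D_mul (i : Fin (m + 2)) (f g : Rg G) : D G i (f * g) = f * D G i g + g * D G i f :=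
  ev_ext G fun p => by
    have h := G.dmul i f.1 g.1 f.2 g.2 p
    change G.d i (fun p => f.1 p * g.1 p) p = f.1 p * G.d i g.1 p + g.1 p * G.d i f.1 p
    rw [h]
    ring

theorem XX : ∑ i, Xr G i * Xr G i = 1 := ev_ext G fun p => by
  rw [map_sum, map_one]
  simp only [map_mul, ev_X]
  exact G.xx p

theorem NN : ∑ i, Nr G i * Nr G i = 1 := ev_ext G fun p => by
  rw [map_sum, map_one]
  simp only [map_mul, ev_N]
  exact G.νν p

theorem XN : ∑ i, Xr G i * Nr G i = 0 := ev_ext G fun p => by
  rw [map_sum, map_zero]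
  simp only [map_mul, ev_X, ev_N]
  exact G.xν p

theorem NX : ∑ i, Nr G i * Xr G i = 0 := by
  rw [← XN G]
  exact sum_congr rfl fun i _ => mul_comm _ _

theorem tX (f : Rg G) : ∑ i, Xr G i * D G i f = 0 := ev_ext G fun p => by
  rw [map_sum, map_zero]
  simp only [map_mul, ev_X, ev_D]
  exact G.tx f.1 f.2 p

theorem tN (f : Rg G) : ∑ i, Nr G i * D G i f = 0 := ev_ext G fun p => by
  rw [map_sum, map_zero]
  simp only [map_mul, ev_N, ev_D]
  exact G.tν f.1 f.2 p

theorem dX (i j : Fin (m + 2)) :
    D G i (Xr G j) = (if i = j then 1 else 0) - Xr G i * Xr G j - Nr G i * Nr G j :=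
  ev_ext G fun p => by
    have h : ev G p (if i = j then 1 else 0) = if i = j then (1 : ℝ) else 0 := by
      split_ifs
      · exact map_one _
      · exact map_zero _
    change G.d i (G.x j) p = ev G p (if i = j then 1 else 0) - G.x i p * G.x j p -
      G.ν i p * G.ν j p
    rw [h]
    exact G.dx i j p

theorem dN (i j : Fin (m + 2)) : D G i (Nr G j) = -Br G i j := (neg_neg _).symm

/-- contraction with the projection -/
theorem projR (v : Fin (m + 2) → Rg G) (i : Fin (m + 2)) :
    ∑ j, D G i (Xr G j) * v j =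
      v i - Xr G i * (∑ j, Xr G j * v j) - Nr G i * (∑ j, Nr G j * v j) := by
  simp only [dX, sub_mul, sum_sub_distrib, ite_mul, one_mul, zero_mul, sum_ite_eq, mem_univ,
    if_true, mul_assoc]
  rw [← mul_sum, ← mul_sum]

theorem xB (j : Fin (m + 2)) : ∑ i, Xr G i * Br G i j = 0 := by
  have h1 := tX G (Nr G j)
  simp only [dN, mul_neg, sum_neg_distrib, neg_eq_zero] at h1
  exact h1

theorem nB (j : Fin (m + 2)) : ∑ i, Nr G i * Br G i j = 0 := by
  have h1 := tN G (Nr G j)
  simp only [dN, mul_neg, sum_neg_distrib, neg_eq_zero] at h1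
  exact h1

theorem xB' (i : Fin (m + 2)) : ∑ j, Xr G j * Br G i j = 0 := by
  have h1 : D G i (∑ j, Xr G j * Nr G j) = 0 := by rw [XN, map_zero]
  rw [map_sum] at h1
  simp only [D_mul, dN, sum_add_distrib, mul_neg, sum_neg_distrib] at h1
  have h2 := projR G (fun j => Nr G j) i
  rw [XN, NN] at h2
  have h3 : ∑ j, Nr G j * D G i (Xr G j) = ∑ j, D G i (Xr G j) * Nr G j :=
    sum_congr rfl fun j _ => mul_comm _ _
  rw [h3, h2] at h1
  linear_combination -h1

theorem nB' (i : Fin (m + 2)) : ∑ j, Nr G j * Br G i j = 0 := by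
  have h1 : D G i (∑ j, Nr G j * Nr G j) = 0 := by
    rw [NN]
    exact ev_ext G fun p => by
      rw [ev_D, map_zero]
      exact G.dconst i 1 p
  rw [map_sum] at h1
  simp only [D_mul, dN, sum_add_distrib, mul_neg, sum_neg_distrib] at h1
  refine ev_ext G fun p => ?_
  have h2 := congrArg (ev G p) h1
  rw [map_add, map_neg, map_zero] at h2
  rw [map_zero]
  linear_combination (-1 / 2 : ℝ) * h2

/-- differentiate `∑ x_a D_a f = 0` -/
theorem xDD (f : Rg G) (j : Fin (m + 2)) : ∑ a, Xr G a * D G j (D G a f) = -D G j f := by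
  have h1 : D G j (∑ a, Xr G a * D G a f) = 0 := by rw [tX, map_zero]
  rw [map_sum] at h1
  simp only [D_mul, sum_add_distrib] at h1
  have h2 := projR G (fun a => D G a f) j
  rw [tX, tN] at h2
  have h3 : ∑ a, D G a f * D G j (Xr G a) = ∑ a, D G j (Xr G a) * D G a f :=
    sum_congr rfl fun a _ => mul_comm _ _
  rw [h3, h2] at h1
  linear_combination h1

/-- differentiate `∑ ν_a D_a f = 0` -/
theorem nDD (f : Rg G) (j : Fin (m + 2)) :
    ∑ a, Nr G a * D G j (D G a f) = ∑ k, Br G j k * D G k f := by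
  have h1 : D G j (∑ a, Nr G a * D G a f) = 0 := by rw [tN, map_zero]
  rw [map_sum] at h1
  simp only [D_mul, dN, sum_add_distrib, mul_neg, sum_neg_distrib] at h1
  have h3 : ∑ a, D G a f * Br G j a = ∑ k, Br G j k * D G k f :=
    sum_congr rfl fun a _ => mul_comm _ _
  rw [h3] at h1
  linear_combination h1

/-- the commutator, contracted with projections -/
theorem projK (f : Rg G) (i j : Fin (m + 2)) :
    ∑ a, ∑ b, D G i (Xr G a) * D G j (Xr G b) * (D G b (D G a f) - D G a (D G b f)) = 0 := by
  refine ev_ext G fun p => ?_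
  rw [map_sum, map_zero]
  simp only [map_sum, map_mul, map_sub, ev_D]
  have hx : ∀ i : Fin (m + 2), ∑ a, G.x a p * G.d i (G.x a) p = 0 := by
    intro i
    have h := congrArg (ev G p) (projR G (fun a => Xr G a) i)
    rw [XX, NX] at h
    simp only [map_sum, map_mul, map_sub, ev_D, ev_X, map_one, map_zero] at h
    have h2 : ∑ a, G.x a p * G.d i (G.x a) p = ∑ a, G.d i (G.x a) p * G.x a p :=
      sum_congr rfl fun a _ => mul_comm _ _
    rw [h2]
    change ∑ a, G.d i (G.x a) p * G.x a p = _ at h
    rw [h]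
    ring
  have hn : ∀ i : Fin (m + 2), ∑ a, G.ν a p * G.d i (G.x a) p = 0 := by
    intro i
    have h := congrArg (ev G p) (projR G (fun a => Nr G a) i)
    rw [XN, NN] at h
    simp only [map_sum, map_mul, map_sub, ev_D, ev_N, map_one, map_zero] at h
    have h2 : ∑ a, G.ν a p * G.d i (G.x a) p = ∑ a, G.d i (G.x a) p * G.ν a p :=
      sum_congr rfl fun a _ => mul_comm _ _
    rw [h2]
    change ∑ a, G.d i (G.x a) p * G.ν a p = _ at h
    rw [h]
    ring
  have h := G.hess f.1 f.2 p (fun a => G.d i (G.x a) p) (fun b => G.d j (G.x b) p) (hx i) (hn i)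
    (hx j) (hn j)
  rw [← sub_eq_zero, ← sum_sub_distrib] at h
  rw [← h]
  refine sum_congr rfl fun a _ => ?_
  rw [← sum_sub_distrib]
  refine sum_congr rfl fun b _ => ?_
  change G.d i (G.x a) p * G.d j (G.x b) p * (G.d b (G.d a f.1) p - G.d a (G.d b f.1) p) = _
  ring

/-- the commutator -/
theorem comR (f : Rg G) (i j : Fin (m + 2)) : D G j (D G i f) - D G i (D G j f) =
    -Xr G i * D G j f + Xr G j * D G i f + Nr G i * (∑ k, Br G j k * D G k f) -
      Nr G j * (∑ k, Br G i k * D G k f) := by
  have h0 := projK G f i j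
  -- the inner sum
  have h1 : ∀ a, ∑ b, D G i (Xr G a) * D G j (Xr G b) * (D G b (D G a f) - D G a (D G b f)) =
      D G i (Xr G a) * ((D G j (D G a f) - D G a (D G j f)) - Xr G j * D G a f +
        Nr G j * ∑ k, Br G a k * D G k f) := by
    intro a
    have h2 := projR G (fun b => D G b (D G a f) - D G a (D G b f)) j
    have h3 : ∑ b, Xr G b * (D G b (D G a f) - D G a (D G b f)) = D G a f := by
      simp only [mul_sub, sum_sub_distrib]
      rw [tX, xDD]
      ring
    have h4 : ∑ b, Nr G b * (D G b (D G a f) - D G a (D G b f)) =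
        -∑ k, Br G a k * D G k f := by
      simp only [mul_sub, sum_sub_distrib]
      rw [tN, nDD]
      ring
    rw [h3, h4] at h2
    simp only [mul_assoc]
    rw [← mul_sum, h2]
    ring
  rw [sum_congr rfl fun a _ => h1 a] at h0
  have h5 := projR G (fun a => (D G j (D G a f) - D G a (D G j f)) - Xr G j * D G a f +
    Nr G j * ∑ k, Br G a k * D G k f) i
  have hb : ∀ w : Fin (m + 2) → Rg G, (∀ k, ∑ a, w a * Br G a k = 0) →
      ∑ a, w a * ∑ k, Br G a k * D G k f = 0 := by
    intro w hw
    simp only [mul_sum]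
    rw [sum_comm]
    refine sum_eq_zero fun k _ => ?_
    have h : ∀ a, w a * (Br G a k * D G k f) = (w a * Br G a k) * D G k f := fun a => by ring
    simp only [h]
    rw [← sum_mul, hw, zero_mul]
  have h6 : ∑ a, Xr G a * ((D G j (D G a f) - D G a (D G j f)) - Xr G j * D G a f +
      Nr G j * ∑ k, Br G a k * D G k f) = -D G j f := by
    have e : ∀ a, Xr G a * ((D G j (D G a f) - D G a (D G j f)) - Xr G j * D G a f +
        Nr G j * ∑ k, Br G a k * D G k f) = Xr G a * D G j (D G a f) - Xr G a * D G a (D G j f) -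
        Xr G j * (Xr G a * D G a f) + Nr G j * (Xr G a * ∑ k, Br G a k * D G k f) :=
      fun a => by ring
    simp only [e, sum_add_distrib, sum_sub_distrib]
    rw [← mul_sum, ← mul_sum, xDD, tX, tX, hb _ (xB G)]
    ring
  have h7 : ∑ a, Nr G a * ((D G j (D G a f) - D G a (D G j f)) - Xr G j * D G a f +
      Nr G j * ∑ k, Br G a k * D G k f) = ∑ k, Br G j k * D G k f := by
    have e : ∀ a, Nr G a * ((D G j (D G a f) - D G a (D G j f)) - Xr G j * D G a f +
        Nr G j * ∑ k, Br G a k * D G k f) = Nr G a * D G j (D G a f) - Nr G a * D G a (D G j f) -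
        Xr G j * (Nr G a * D G a f) + Nr G j * (Nr G a * ∑ k, Br G a k * D G k f) :=
      fun a => by ring
    simp only [e, sum_add_distrib, sum_sub_distrib]
    rw [← mul_sum, ← mul_sum, nDD, tN, tN, hb _ (nB G)]
    ring
  rw [h6, h7] at h5
  rw [h5] at h0
  linear_combination h0

/-- the second fundamental form is symmetric -/
theorem symB (i j : Fin (m + 2)) : Br G i j = Br G j i := by
  have key : ∀ k, (Br G j i - Br G i j) * Nr G k = 0 := by
    intro k
    have h := comR G (Xr G k) i j
    have hc : ∀ a b : Fin (m + 2), D G a (if b = k then (1 : Rg G) else 0) = 0 := by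
      intro a b
      refine ev_ext G fun p => ?_
      rw [ev_D, map_zero]
      split_ifs
      · exact G.dconst a 1 p
      · exact G.dconst a 0 p
    have hB : ∀ a, ∑ l, Br G a l * D G l (Xr G k) = Br G a k := by
      intro a
      have h1 := projR G (fun l => Br G a l) k
      rw [xB', nB'] at h1
      have h2 : ∑ l, Br G a l * D G l (Xr G k) = ∑ l, D G k (Xr G l) * Br G a l := by
        refine sum_congr rfl fun l _ => ?_
        have h3 : D G l (Xr G k) = D G k (Xr G l) := by
          rw [dX, dX]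
          simp only [eq_comm (a := l) (b := k)]
          ring
        rw [h3, mul_comm]
      rw [h2, h1]
      ring
    rw [hB, hB] at h
    have e : ∀ a b : Fin (m + 2), D G b (D G a (Xr G k)) =
        -(Xr G a * D G b (Xr G k) + Xr G k * D G b (Xr G a)) +
          (Nr G a * Br G b k + Nr G k * Br G b a) := by
      intro a b
      rw [dX G a k, map_sub, map_sub, D_mul, D_mul, hc, dN, dN]
      ring
    rw [e i j, e j i] at h
    have h3 : D G j (Xr G i) = D G i (Xr G j) := by
      rw [dX, dX]
      simp only [eq_comm (a := j) (b := i)]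
      ring
    rw [h3] at h
    linear_combination h
  have h1 : ∑ k, ((Br G j i - Br G i j) * Nr G k) * Nr G k = 0 :=
    sum_eq_zero fun k _ => by rw [key k, zero_mul]
  simp only [mul_assoc] at h1
  rw [← mul_sum, NN, mul_one] at h1
  linear_combination -h1

theorem trB : ∑ i, Br G i i = 0 := ev_ext G fun p => by
  rw [map_sum, map_zero]
  have h := G.mean p
  have h2 : ∀ i, ev G p (Br G i i) = -G.d i (G.ν i) p := fun i => rfl
  rw [sum_congr rfl fun i _ => h2 i, sum_neg_distrib, h, neg_zero]

/-- the calculus on the ring of the smooth functions -/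
def C0 : Calc (Fin (m + 2)) (Rg G) where
  d := D G
  x := Xr G
  nu := Nr G
  h := Br G
  mul := D_mul G
  xx := XX G
  nn := NN G
  xn := XN G
  tx := tX G
  tn := tN G
  dx := dX G
  dn := dN G
  symm := symB G
  tr := trB G
  comm := fun i j f => by linear_combination -comR G f i j

theorem coe_sum {ι : Type} (s : Finset ι) (f : ι → Rg G) :
    ((∑ i ∈ s, f i : Rg G) : G.M → ℝ) = fun p => ∑ i ∈ s, (f i).1 p := by
  funext p
  change ev G p (∑ i ∈ s, f i) = _
  rw [map_sum]
  rfl

theorem coe_h2 (i j : Fin (m + 2)) : (((C0 G).h2 i j : Rg G) : G.M → ℝ) = G.B2 i j := by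
  unfold Calc.h2
  rw [coe_sum]
  rfl

theorem coe_T (k i j : Fin (m + 2)) : (((C0 G).T k i j : Rg G) : G.M → ℝ) = G.T k i j := by
  funext p
  have e1 : G.B i k p = G.B k i p := congrArg (ev G p) (symB G i k)
  have e2 : G.B2 i k p = G.B2 k i p := by
    rw [← coe_h2, ← coe_h2, (C0 G).h2_symm i k]
  have h1 : (((C0 G).T k i j : Rg G) : G.M → ℝ) p = G.d k (G.B i j) p + G.x j p * G.B i k p +
      G.x i p * G.B k j p - G.ν j p * (((C0 G).h2 i k : Rg G) : G.M → ℝ) p -
      G.ν i p * (((C0 G).h2 k j : Rg G) : G.M → ℝ) p := rfl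
  rw [h1, coe_h2, coe_h2, e1, e2]
  unfold Cal.T
  ring

theorem coe_S : (((C0 G).S : Rg G) : G.M → ℝ) = G.q := by
  unfold Calc.S
  rw [coe_sum]
  funext p
  refine sum_congr rfl fun i _ => ?_
  rw [coe_sum]
  rfl

theorem coe_TT : (((C0 G).TT : Rg G) : G.M → ℝ) = G.tau := by
  unfold Calc.TT
  rw [coe_sum]
  funext p
  refine sum_congr rfl fun k _ => ?_
  rw [coe_sum]
  refine sum_congr rfl fun i _ => ?_
  rw [coe_sum]
  refine sum_congr rfl fun j _ => ?_
  change (((C0 G).T k i j : Rg G) : G.M → ℝ) p * (((C0 G).T k i j : Rg G) : G.M → ℝ) p = _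
  rw [coe_T]

theorem str : G.Str where
  sB := fun i j => (Br G i j).2
  sB2 := fun i j => by
    rw [← coe_h2]
    exact ((C0 G).h2 i j).2
  sq := by
    rw [← coe_S]
    exact ((C0 G).S).2
  sT := fun k i j => by
    rw [← coe_T]
    exact ((C0 G).T k i j).2
  stau := by
    rw [← coe_TT]
    exact ((C0 G).TT).2
  ssum := fun n f hf => by
    have h1 := coe_sum G univ fun i : Fin n => (⟨f i, hf i⟩ : Rg G)
    have h2 : G.Sm fun p => ∑ i, f i p := by
      have h3 := (∑ i, (⟨f i, hf i⟩ : Rg G)).2
      rw [h1] at h3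
      exact h3
    refine ⟨h2, fun k p => ?_⟩
    have h4 := congrArg (ev G p) (map_sum (D G k) (fun i : Fin n => (⟨f i, hf i⟩ : Rg G)) univ)
    rw [ev_D, h1, map_sum] at h4
    exact h4
  Bs := fun i j p => congrArg (ev G p) (symB G i j)
  Bx := fun i p => by
    have h := congrArg (ev G p) (xB' G i)
    rw [map_sum, map_zero] at h
    rw [← h]
    exact sum_congr rfl fun j _ => mul_comm _ _
  Bν := fun i p => by
    have h := congrArg (ev G p) (nB' G i)
    rw [map_sum, map_zero] at h
    rw [← h]
    exact sum_congr rfl fun j _ => mul_comm _ _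
  Bt := fun p => by
    have h := congrArg (ev G p) (trB G)
    rw [map_sum, map_zero] at h
    exact h
  dν := fun i j p => (neg_neg _).symm
  dB := fun k i j p => by
    unfold Cal.T
    ring
  com := fun f hf i j p => by
    have h := congrArg (ev G p) (comR G ⟨f, hf⟩ i j)
    simp only [map_sub, map_add, map_mul, map_sum, map_neg, ev_X, ev_N] at h
    exact h
  T12 := fun k i j p => by
    rw [← coe_T, ← coe_T, (C0 G).T_symm' k i j]
  T23 := fun k i j p => by
    rw [← coe_T, ← coe_T, (C0 G).T_symm k i j]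
  Tx := fun k i p => by
    have h := congrArg (ev G p) ((C0 G).xT k i)
    rw [map_sum, map_zero] at h
    rw [← h]
    refine sum_congr rfl fun j _ => ?_
    rw [← coe_T, mul_comm, map_mul]
    rfl
  Tν := fun k i p => by
    have h := congrArg (ev G p) ((C0 G).nT k i)
    rw [map_sum, map_zero] at h
    rw [← h]
    refine sum_congr rfl fun j _ => ?_
    rw [← coe_T, mul_comm, map_mul]
    rfl
  Tt := fun k p => by
    have h := congrArg (ev G p) ((C0 G).T_tr k)
    rw [map_sum, map_zero] at h
    rw [← h]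
    refine sum_congr rfl fun i _ => ?_
    rw [← coe_T, (C0 G).T_rot k i i, (C0 G).T_symm i k i]
    rfl
  dq := fun k p => by
    have h := congrArg (ev G p) ((C0 G).dS k)
    have h1 : ev G p ((C0 G).d k (C0 G).S) = G.d k (((C0 G).S : Rg G) : G.M → ℝ) p := rfl
    rw [h1, coe_S] at h
    rw [h, map_mul, map_ofNat]
    congr 1
    unfold Calc.q
    simp only [map_sum, map_mul]
    refine sum_congr rfl fun i _ => sum_congr rfl fun j _ => ?_
    rw [← coe_T]
    rfl

end STR

/-- Row STR. -/
theorem str_proof : StrStatement := fun _ G => STR.str G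

end MPfbfa44
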