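import Mathlib
import Pool.Agent.Lib.MP_fbfa44_gt.IX.Cao
import Pool.Agent.Lib.MP_fbfa44_gt.IX.Aex
import Pool.Agent.Lib.MP_fbfa44_gt.IX.Str
import Pool.Agent.Lib.MP_fbfa44_gt.IX.Sim
import Pool.Agent.Lib.MP_fbfa44_gt.IX.Grn
import Pool.Agent.Lib.MP_fbfa44_gt.IX.NulRow
import Pool.Agent.Lib.MP_fbfa44_gt.IX.Idx
import Pool.Agent.Lib.MP_fbfa44_gt.IX.Qep
import Pool.Agent.Lib.MP_fbfa44_gt.IX.Kat
import Pool.Agent.Lib.MP_fbfa44_gt.IX.Opn
import Pool.Agent.Lib.MP_fbfa44_gt.IX.Qfm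
import Pool.Agent.Lib.MP_fbfa44_gt.IX.Ept
import Pool.Agent.Lib.MP_fbfa44_gt.IX.Rig
import Pool.Agent.Lib.MP_fbfa44_gt.IX.Par
import Pool.Agent.Lib.MP_fbfa44_gt.IX.Prj
import Pool.Agent.Lib.MP_fbfa44_gt.IX.Opm
import Pool.Agent.Lib.MP_fbfa44_gt.IX.Clc
import Pool.Agent.Lib.MP_fbfa44_gt.IX.Grt
import Pool.Agent.Lib.MP_fbfa44_gt.IX.Injl
import Pool.Agent.Lib.MP_fbfa44_gt.IX.InjDefs
import Pool.Agent.Lib.MP_fbfa44_gt.IX.Frk

set_option autoImplicit false

/-!
# Row ASM: assembly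
-/

namespace MPfbfa44

open MeasureTheory
open scoped Manifold ContDiff

theorem nul0 : NulStatement := nul_proof grn_proof

theorem idx0 : IdxStatement := idx_proof grn_proof nul0

theorem qep0 : QepStatement := qep_proof sim_proof grn_proof

theorem ept0 : EptStatement := ept_proof grn_proof kat_proof opn_proof qfm_proof

theorem rig0 : RigStatement := rig_proof sim_proof grn_proof ept0

/-- The abstract theorem: index at most `m + 3` gives `|A|² = m` and `∇A = 0`. -/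
theorem abs_main (hLim : LimStatement) (m : ℕ) (hm : 2 ≤ m) (G : Cal m)
    (hq : ∃ p, G.q p ≠ 0) (hI : G.IdxLE (m + 3)) : (∀ p, G.q p = m) ∧ ∀ p, G.tau p = 0 := by
  have hS := str_proof m G
  have h1 := idx0 m G hS (by omega) hq hI
  obtain ⟨b, hb, hc, hE, hE0⟩ := hLim m G hS hq h1
  exact rig0 m G hS hm hq b hb hc hE hE0

section

variable {m : ℕ} {M : Type} [TopologicalSpace M] [T2Space M] [CompactSpace M]
    [ConnectedSpace M] [ChartedSpace (X m) M] [IsManifold (𝓡 m) ∞ M] [MeasurableSpace M]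
    [BorelSpace M] (S : Hypersurface m M)

/-- If the second fundamental form vanishes identically then the hypersurface is equatorial. -/
theorem equatorial_of_zero (hm : 1 ≤ m) (hmin : S.IsMinimal) (μ : Measure M)
    (hμ : S.IsAreaMeasure μ) (h0 : ∀ p, S.normSqA p = 0) : S.IsEquatorial := by
  -- the normal is constant
  have hB : ∀ j p, S.grad (fun p' => S.ν p' j) p = 0 := by
    intro j p
    have h1 := h0 p
    rw [(gcu0 m M S p).2] at h1
    have h2 := (Finset.sum_eq_zero_iff_of_nonneg (fun i _ => Finset.sum_nonneg fun j _ =>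
      mul_self_nonneg (S.grad (fun p' => S.ν p' j) p i))).1 h1
    ext i
    have h3 := (Finset.sum_eq_zero_iff_of_nonneg (fun j _ =>
      mul_self_nonneg (S.grad (fun p' => S.ν p' j) p i))).1 (h2 i (Finset.mem_univ i)) j
      (Finset.mem_univ j)
    exact mul_self_eq_zero.1 h3
  have hν : ∀ p p', S.ν p = S.ν p' := by
    intro p p'
    ext j
    exact cnn0 m M S (fun p => S.ν p j) (smooth_comp _ S.smooth_ν j) (hB j) p p'
  obtain ⟨p₀⟩ : Nonempty M := inferInstance
  refine ⟨S.ν p₀, S.norm_ν p₀, ?_⟩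
  obtain ⟨hc, hloc⟩ := grt_proof m hm (S.ν p₀) (S.norm_ν p₀)
  refine opm_proof m M S _ hc ?_ ?_
  · rintro _ ⟨p, rfl⟩
    refine ⟨S.norm_x p, ?_⟩
    rw [hν p₀ p]
    exact S.inner_ν_x p
  · intro p
    obtain ⟨U, hU, hpU, hinj⟩ := hloc (S.x p) (S.norm_x p) (by
      rw [hν p₀ p]
      exact S.inner_ν_x p)
    refine ⟨U, hU, hpU, ?_⟩
    rintro c ⟨⟨hc1, hc2⟩, hcU⟩ c' ⟨⟨hc1', hc2'⟩, hcU'⟩ hperp
    -- decompose `c - c'`
    set w := c - c' with hw
    set w' := w - (inner ℝ (S.x p) w : ℝ) • S.x p - (inner ℝ (S.ν p) w : ℝ) • S.ν p with hw'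
    have hxx : (inner ℝ (S.x p) (S.x p) : ℝ) = 1 := by
      rw [real_inner_self_eq_norm_sq, S.norm_x p, one_pow]
    have hνν : (inner ℝ (S.ν p) (S.ν p) : ℝ) = 1 := by
      rw [real_inner_self_eq_norm_sq, S.norm_ν p, one_pow]
    have hνx := S.inner_ν_x p
    have hxν : (inner ℝ (S.x p) (S.ν p) : ℝ) = 0 := by
      rw [real_inner_comm]
      exact hνx
    have e1 : (inner ℝ (S.x p) w' : ℝ) = 0 := by
      rw [hw', inner_sub_right, inner_sub_right, inner_smul_right, inner_smul_right, hxx, hxν]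
      ring
    have e2 : (inner ℝ (S.ν p) w' : ℝ) = 0 := by
      rw [hw', inner_sub_right, inner_sub_right, inner_smul_right, inner_smul_right, hνx, hνν]
      ring
    obtain ⟨u, hu⟩ := (grd_proof m M S p).2.2.2 w' e1 e2
    have hxd : (inner ℝ (S.x p) (der m S.x p u) : ℝ) = 0 := by
      rw [← hu]
      exact e1
    have e3 : (inner ℝ w' w' : ℝ) = 0 := by
      have h1 : (inner ℝ w' (der m S.x p u) : ℝ) = 0 := by
        rw [hw', inner_sub_left, inner_sub_left, inner_smul_left, inner_smul_left, hperp u, hxd,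
          S.inner_ν_dx p u]
        simp
      rw [← hu] at h1
      exact h1
    have e4 : w' = 0 := inner_self_eq_zero.1 e3
    have e5 : c - c' = (inner ℝ (S.x p) w : ℝ) • S.x p + (inner ℝ (S.ν p) w : ℝ) • S.ν p₀ := by
      rw [hν p₀ p, ← hw]
      rw [hw'] at e4
      have := sub_eq_zero.1 e4
      rw [sub_eq_iff_eq_add] at this
      exact this.trans (add_comm _ _)
    exact hinj c hcU hc1 hc2 c' hcU' hc1' hc2' _ _ e5

/-- The main theorem for connected `M`, with the additional information `|A|² = m`. -/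
theorem conn_main (hLim : LimStatement) (hm : 2 ≤ m) (hmin : S.IsMinimal)
    (hne : ¬ S.IsEquatorial) (μ : Measure M) (hμ : S.IsAreaMeasure μ)
    (hI : S.MorseIndexLE μ (m + 3)) :
    (∀ p, S.normSqA p = m) ∧ ∃ k : ℕ, 1 ≤ k ∧ k + 1 ≤ m ∧
      ∃ L : X (m + 2) ≃ₗᵢ[ℝ] X (m + 2), Set.range S.x = L '' clifford m k := by
  have hq : ∃ p, (calOf S hmin μ hμ).q p ≠ 0 := by
    by_contra hcon
    push Not at hcon
    exact hne (equatorial_of_zero S (by omega) hmin μ hμ fun p => by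
      rw [← calOf_q S hmin μ hμ p]
      exact hcon p)
  obtain ⟨h1, h2⟩ := abs_main hLim m hm (calOf S hmin μ hμ) hq (calOf_idx S hmin μ hμ _ hI)
  refine ⟨fun p => by rw [← calOf_q S hmin μ hμ p]; exact h1 p, ?_⟩
  obtain ⟨c, R, hR1, hR2, hR3, hR4⟩ := par_proof m (calOf S hmin μ hμ) (str_proof _ _) hm h1 h2
  obtain ⟨k, hk1, hkm, L, hL⟩ := prj_proof m hm c R hR1 hR2 hR3
  refine ⟨k, hk1, hkm, L, ?_⟩
  have hsub : Set.range S.x ⊆ L '' clifford m k := by
    rintro _ ⟨p, rfl⟩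
    refine ⟨L.symm (S.x p), ?_, L.apply_symm_apply _⟩
    refine hL (L.symm (S.x p)) ?_ ?_
    · rw [L.apply_symm_apply]
      exact S.norm_x p
    · rw [L.apply_symm_apply]
      exact hR4 p
  refine opm_proof m M S _ ?_ hsub (cliff_locinj grd_proof clc_proof hk1 hkm S L hsub)
  exact (clc_proof m k hk1 hkm).1.image L L.continuous.continuousOn

end

theorem asm_proof (hLim : LimStatement) : MainStatement := by
  intro m hm M _ _ _ _ _ _ _ _ S hmin hne
  exact ⟨aex_proof m M S, fun μ hμ hI => (conn_main S hLim hm hmin hne μ hμ hI).2⟩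

/-- The final theorem: `M` is connected or the hypersurface is embedded; the conclusion contains
the injectivity of the immersion. -/
def FinalStatement : Prop :=
  ∀ (m : ℕ), 2 ≤ m → ∀ (M : Type) [TopologicalSpace M] [T2Space M] [CompactSpace M] [Nonempty M]
    [ChartedSpace (X m) M] [IsManifold (𝓡 m) ∞ M] [MeasurableSpace M] [BorelSpace M]
    (S : Hypersurface m M), (ConnectedSpace M ∨ Function.Injective S.x) → S.IsMinimal →
    ¬ S.IsEquatorial →
    (∃! μ : Measure M, S.IsAreaMeasure μ) ∧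
    ∀ μ : Measure M, S.IsAreaMeasure μ → S.MorseIndexLE μ (m + 3) →
      ∃ k : ℕ, 1 ≤ k ∧ k + 1 ≤ m ∧ ∃ L : X (m + 2) ≃ₗᵢ[ℝ] X (m + 2),
        Set.range S.x = L '' clifford m k ∧ Function.Injective S.x

theorem final_of (hLim : LimStatement) (hInj : InjStatement) : FinalStatement := by
  intro m hm M _ _ _ _ _ _ _ _ S hc hmin hne
  have hconn : ConnectedSpace M := by
    rcases hc with h | h
    · exact h
    · exact frk_proof m (by omega) M S hmin h
  refine ⟨aex_proof m M S, fun μ hμ hI => ?_⟩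
  obtain ⟨hA, k, hk1, hkm, L, hL⟩ := conn_main S hLim hm hmin hne μ hμ hI
  exact ⟨k, hk1, hkm, L, hL, hInj m hm M S hmin hA μ hμ hI k hk1 hkm L hL.subset⟩

end MPfbfa44
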