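import Pool.Agent.Lib.MP_fbfa44_gt.IX.InjDefs

set_option autoImplicit false

/-!
# Row CUT: the cut-off functions
-/

namespace MPfbfa44

open Set Filter Topology MeasureTheory
open scoped Manifold ContDiff

/-- The one variable function. -/
theorem cut_phi (δ : ℝ) (hδ : 0 < δ) : ∃ φ s : ℝ → ℝ, ContDiff ℝ ∞ φ ∧
    (∀ t, HasDerivAt φ (s t) t) ∧ (∀ t, 0 ≤ s t ∧ s t ≤ 1) ∧
    (∀ t, t ≤ δ / 2 → φ t = 0 ∧ s t = 0) ∧
    ∀ t, 0 ≤ t → 0 ≤ φ t ∧ φ t ≤ t ∧ t - δ ≤ φ t := by
  set s : ℝ → ℝ := fun t => Real.smoothTransition (2 * t / δ - 1) with hs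
  set φ : ℝ → ℝ := fun t => ∫ u in (0 : ℝ)..t, s u with hφ
  have hsm : ContDiff ℝ ∞ s := by
    have h1 : ContDiff ℝ ∞ fun t : ℝ => 2 * t / δ - 1 := by fun_prop
    exact Real.smoothTransition.contDiff.comp h1
  have hcont : Continuous s := hsm.continuous
  have hs01 : ∀ t, 0 ≤ s t ∧ s t ≤ 1 := fun t =>
    ⟨Real.smoothTransition.nonneg _, Real.smoothTransition.le_one _⟩
  have hs0 : ∀ t, t ≤ δ / 2 → s t = 0 := by
    intro t ht
    refine Real.smoothTransition.zero_of_nonpos ?_
    have : 2 * t / δ ≤ 1 := by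
      rw [div_le_one hδ]
      linarith
    linarith
  have hs1 : ∀ t, δ ≤ t → s t = 1 := by
    intro t ht
    refine Real.smoothTransition.one_of_one_le ?_
    have : 2 ≤ 2 * t / δ := by
      rw [le_div_iff₀ hδ]
      linarith
    linarith
  have hder : ∀ t, HasDerivAt φ (s t) t := fun t =>
    (hcont.integral_hasStrictDerivAt 0 t).hasDerivAt
  have hderiv : deriv φ = s := funext fun t => (hder t).deriv
  have hφ0 : ∀ t, t ≤ δ / 2 → φ t = 0 := by
    intro t ht
    have h1 : φ t = ∫ _u in (0 : ℝ)..t, (0 : ℝ) := by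
      refine intervalIntegral.integral_congr fun u hu => ?_
      refine hs0 u ?_
      rw [mem_uIcc] at hu
      rcases hu with hu | hu
      · linarith [hu.2]
      · linarith [hu.2]
    rw [h1]
    simp
  have hint : ∀ a b : ℝ, IntervalIntegrable s volume a b := fun a b => hcont.intervalIntegrable a b
  have hφn : ∀ t, 0 ≤ t → 0 ≤ φ t := fun t ht =>
    intervalIntegral.integral_nonneg ht fun u _ => (hs01 u).1
  refine ⟨φ, s, ?_, hder, hs01, fun t ht => ⟨hφ0 t ht, hs0 t ht⟩, fun t ht => ⟨hφn t ht, ?_, ?_⟩⟩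
  · rw [contDiff_infty_iff_deriv, hderiv]
    exact ⟨fun t => (hder t).differentiableAt, hsm⟩
  · have h1 : φ t ≤ ∫ _u in (0 : ℝ)..t, (1 : ℝ) :=
      intervalIntegral.integral_mono_on ht (hint 0 t) (by simp) fun u _ => (hs01 u).2
    have h2 : ∫ _u in (0 : ℝ)..t, (1 : ℝ) = t := by simp
    linarith
  · rcases le_total t δ with h | h
    · have := hφn t ht
      linarith
    · have h1 : φ t = φ δ + ∫ u in δ..t, s u :=
        (intervalIntegral.integral_add_adjacent_intervals (hint 0 δ) (hint δ t)).symm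
      have h2 : ∫ u in δ..t, s u = ∫ _u in δ..t, (1 : ℝ) := by
        refine intervalIntegral.integral_congr fun u hu => ?_
        rw [uIcc_of_le h] at hu
        exact hs1 u hu.1
      have h3 : ∫ _u in δ..t, (1 : ℝ) = t - δ := by simp
      have h4 := hφn δ hδ.le
      linarith

section

variable {m : ℕ} {M : Type} [TopologicalSpace M] [ChartedSpace (X m) M]

/-- The chain rule. -/
theorem cut_der (w : M → ℝ) (hw : Smooth m w) (φ s : ℝ → ℝ) (p : M)
    (h : HasDerivAt φ (s (w p)) (w p)) :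
    der m (fun q => φ (w q)) p = s (w p) • der m w p := by
  have h1 : MDifferentiableAt (𝓡 m) 𝓘(ℝ, ℝ) w p := (hw p).mdifferentiableAt (by simp)
  have h2 : HasMFDerivAt (𝓡 m) 𝓘(ℝ, ℝ) w p (mfderiv (𝓡 m) 𝓘(ℝ, ℝ) w p) := h1.hasMFDerivAt
  have h3 : HasMFDerivAt 𝓘(ℝ, ℝ) 𝓘(ℝ, ℝ) φ (w p)
      (ContinuousLinearMap.toSpanSingleton ℝ (s (w p))) := h.hasFDerivAt.hasMFDerivAt
  have h4 := (h3.comp p h2).mfderiv
  have h5 : der m (fun q => φ (w q)) p =
      (ContinuousLinearMap.toSpanSingleton ℝ (s (w p))).comp (der m w p) := h4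
  rw [h5]
  refine ContinuousLinearMap.ext fun v => ?_
  change der m w p v * s (w p) = s (w p) * der m w p v
  ring

theorem cut_der_congr {f g : M → ℝ} {p : M} (h : f =ᶠ[𝓝 p] g) : der m f p = der m g p := by
  rw [der, der]
  exact h.mfderiv_eq

theorem cut_der_const (c : ℝ) (p : M) : der m (fun _ : M => c) p = 0 := by
  rw [der]
  exact mfderiv_const

/-- The gradient from the derivative. -/
theorem cut_grad (S : Hypersurface m M) (f g : M → ℝ) (p : M) (c : ℝ)
    (h : der m f p = c • der m g p) : S.grad f p = c • S.grad g p := by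
  unfold Hypersurface.grad
  rw [h]
  simp only [Finset.smul_sum, smul_smul]
  refine Finset.sum_congr rfl fun i _ => Finset.sum_congr rfl fun j _ => ?_
  congr 1
  change (S.gram p)⁻¹ i j * (c * der m g p (cv i)) = c * ((S.gram p)⁻¹ i j * der m g p (cv i))
  ring

end

theorem cut_proof : CutStatement := by
  classical
  intro m M _ _ _ S w U V δ hw hU hV hUV hw0 hwUV hδ
  obtain ⟨φ, s, hφ, hder, hs01, hlow, hpos⟩ := cut_phi δ hδ
  set F : M → ℝ := fun p => if p ∈ U then φ (w p) else 0 with hF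
  set σ : M → ℝ := fun p => if p ∈ U then s (w p) else 0 with hσ
  have hFU : ∀ p ∈ U, F =ᶠ[𝓝 p] fun q => φ (w q) := by
    intro p hp
    filter_upwards [hU.mem_nhds hp] with q hq
    exact if_pos hq
  have hFn : ∀ p, p ∉ U → F =ᶠ[𝓝 p] fun _ => (0 : ℝ) := by
    intro p hp
    by_cases hpV : p ∈ V
    · filter_upwards [hV.mem_nhds hpV] with q hq
      exact if_neg fun h => Set.disjoint_left.1 hUV h hq
    · have h1 : w p ≤ 0 := not_lt.1 fun h => by
        rcases (hwUV p).1 h with h2 | h2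
        · exact hp h2
        · exact hpV h2
      have h2 : ∀ᶠ q in 𝓝 p, w q < δ / 2 :=
        hw.continuous.continuousAt.eventually (gt_mem_nhds (by linarith))
      filter_upwards [h2] with q hq
      by_cases hqU : q ∈ U
      · simp only [hF, if_pos hqU]
        exact (hlow _ hq.le).1
      · exact if_neg hqU
  have hderF : ∀ p, der m F p = σ p • der m w p := by
    intro p
    by_cases hp : p ∈ U
    · rw [cut_der_congr (hFU p hp), cut_der w hw φ s p (hder _)]
      simp only [hσ, if_pos hp]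
    · rw [cut_der_congr (hFn p hp), cut_der_const]
      simp only [hσ, if_neg hp]
      exact (zero_smul ℝ _).symm
  refine ⟨F, σ, ?_, ?_, ?_, ?_, ?_, ?_⟩
  · intro p
    by_cases hp : p ∈ U
    · have h1 : ContMDiffAt (𝓡 m) 𝓘(ℝ, ℝ) ∞ (fun q => φ (w q)) p :=
        (hφ.contMDiff.contMDiffAt).comp p (hw p)
      exact h1.congr_of_eventuallyEq (hFU p hp)
    · exact contMDiffAt_const.congr_of_eventuallyEq (hFn p hp)
  · intro p
    by_cases hp : p ∈ U
    · simp only [hF, if_pos hp]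
      exact ⟨(hpos _ (hw0 p)).1, (hpos _ (hw0 p)).2.1⟩
    · simp only [hF, if_neg hp]
      exact ⟨le_rfl, hw0 p⟩
  · intro p
    by_cases hp : p ∈ U
    · simp only [hσ, if_pos hp]
      exact hs01 _
    · simp only [hσ, if_neg hp]
      norm_num
  · intro p
    exact cut_grad S F w p (σ p) (hderF p)
  · intro p hp
    simp only [hF, hσ, if_neg hp, and_self]
  · intro p hp
    simp only [hF, if_pos hp]
    exact (hpos _ (hw0 p)).2.2

end MPfbfa44
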