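import Mathlib
import Pool.Agent.Lib.MP_fbfa44_gt.IX.Geo
import Pool.Agent.Lib.MP_fbfa44_gt.IX.Cnn
import Pool.Agent.Lib.MP_fbfa44_gt.IX.Idx
import Pool.Agent.Lib.MP_fbfa44_gt.IX.Gcu

set_option autoImplicit false

/-!
# Row DIS: an embedded closed minimal hypersurface of index at most `m + 3` is connected

For a connected component `K` of `M` the calculus of tangential derivatives on `K` is built from
the functions on `K`, extended by zero to `M`.
-/

namespace MPfbfa44

open MeasureTheory Filter Topology
open scoped Manifold ContDiff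

namespace Dis

variable {m : ℕ} {M : Type} [TopologicalSpace M] [ChartedSpace (X m) M]

theorem der_congr {F : Type} [NormedAddCommGroup F] [NormedSpace ℝ F] {f g : M → F} {p : M}
    (h : f =ᶠ[𝓝 p] g) : der m f p = der m g p := h.mfderiv_eq

theorem grad_congr (S : Hypersurface m M) {f g : M → ℝ} {p : M} (h : f =ᶠ[𝓝 p] g) :
    S.grad f p = S.grad g p := by
  unfold Hypersurface.grad
  simp only [der_congr h]

theorem smooth_of_local {f : M → ℝ} (h : ∀ p, ∃ g : M → ℝ, Smooth m g ∧ f =ᶠ[𝓝 p] g) :
    Smooth m f := fun p => by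
  obtain ⟨g, hg, he⟩ := h p
  exact (hg p).congr_of_eventuallyEq he

open Classical in
/-- Extension by zero. -/
noncomputable def ext (K : Set M) (f : K → ℝ) : M → ℝ := fun p => if h : p ∈ K then f ⟨p, h⟩ else 0

theorem ext_mem {K : Set M} (f : K → ℝ) (p : K) : ext K f p.1 = f p := by
  unfold ext
  rw [dif_pos p.2]

theorem ext_mem' {K : Set M} (f : K → ℝ) {p : M} (hp : p ∈ K) : ext K f p = f ⟨p, hp⟩ := by
  unfold ext
  rw [dif_pos hp]

theorem ext_not {K : Set M} (f : K → ℝ) {p : M} (hp : p ∉ K) : ext K f p = 0 := by
  unfold ext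
  rw [dif_neg hp]

open Classical in
/-- Extension by one. -/
noncomputable def posext (K : Set M) (f : K → ℝ) : M → ℝ :=
  fun p => if h : p ∈ K then f ⟨p, h⟩ else 1

theorem posext_mem {K : Set M} (f : K → ℝ) (p : K) : posext K f p.1 = f p := by
  unfold posext
  rw [dif_pos p.2]

theorem posext_mem' {K : Set M} (f : K → ℝ) {p : M} (hp : p ∈ K) : posext K f p = f ⟨p, hp⟩ := by
  unfold posext
  rw [dif_pos hp]

theorem posext_not {K : Set M} (f : K → ℝ) {p : M} (hp : p ∉ K) : posext K f p = 1 := by
  unfold posext
  rw [dif_neg hp]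

theorem posext_pos {K : Set M} (f : K → ℝ) (hf : ∀ p, 0 < f p) (p : M) : 0 < posext K f p := by
  by_cases hp : p ∈ K
  · rw [posext_mem' f hp]
    exact hf _
  · rw [posext_not f hp]
    exact one_pos

theorem smooth_coord {n : ℕ} {f : M → X n} (hf : Smooth m f) (i : Fin n) :
    Smooth m (fun p => f p i) :=
  (EuclideanSpace.proj (𝕜 := ℝ) i : X n →L[ℝ] ℝ).contMDiff.comp hf

variable {K : Set M} (hK : IsClopen K)
include hK

theorem ev_not (f : K → ℝ) {p : M} (hp : p ∉ K) : ext K f =ᶠ[𝓝 p] fun _ => 0 := by
  filter_upwards [hK.compl.isOpen.mem_nhds hp] with q hq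
  exact ext_not f hq

theorem ev_mem (f : K → ℝ) (F : M → ℝ) (h : ∀ q : K, f q = F q.1) {p : M} (hp : p ∈ K) :
    ext K f =ᶠ[𝓝 p] F := by
  filter_upwards [hK.isOpen.mem_nhds hp] with q hq
  rw [ext_mem' f hq, h]

/-- The extension by zero of the restriction of a smooth function is smooth. -/
theorem smooth_ext (f : K → ℝ) (F : M → ℝ) (hF : Smooth m F) (h : ∀ q : K, f q = F q.1) :
    Smooth m (ext K f) := by
  refine smooth_of_local fun p => ?_
  by_cases hp : p ∈ K
  · exact ⟨F, hF, ev_mem hK f F h hp⟩
  · exact ⟨fun _ => 0, contMDiff_const, ev_not hK f hp⟩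

theorem grad_ext (S : Hypersurface m M) (f : K → ℝ) (F : M → ℝ) (h : ∀ q : K, f q = F q.1)
    (p : K) : S.grad (ext K f) p.1 = S.grad F p.1 :=
  grad_congr S (ev_mem hK f F h p.2)

theorem grad_ext_not (S : Hypersurface m M) (f : K → ℝ) {p : M} (hp : p ∉ K) :
    S.grad (ext K f) p = 0 := by
  rw [grad_congr S (ev_not hK f hp)]
  unfold Hypersurface.grad
  have h0 : der m (fun _ : M => (0 : ℝ)) p = 0 := mfderiv_const
  simp [h0]

omit [ChartedSpace (X m) M] in
theorem integral_on [MeasurableSpace M] [BorelSpace M] (μ : Measure M) (g : M → ℝ)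
    (h0 : ∀ p, p ∉ K → g p = 0) :
    ∫ p : K, g p.1 ∂(μ.comap Subtype.val) = ∫ p, g p ∂μ := by
  rw [integral_subtype_comap hK.isOpen.measurableSet g]
  exact setIntegral_eq_integral_of_forall_compl_eq_zero h0

theorem smooth_posext (f : K → ℝ) (hf : Smooth m (ext K f)) : Smooth m (posext K f) := by
  refine smooth_of_local fun p => ?_
  by_cases hp : p ∈ K
  · refine ⟨ext K f, hf, ?_⟩
    filter_upwards [hK.isOpen.mem_nhds hp] with q hq
    rw [ext_mem' f hq, posext_mem' f hq]
  · refine ⟨fun _ => 1, contMDiff_const, ?_⟩
    filter_upwards [hK.compl.isOpen.mem_nhds hp] with q hq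
    exact posext_not f hq

end Dis

open Dis in
/-- The calculus on a clopen connected set. -/
noncomputable def calOn (hGSM : GsmStatement) (hGHS : GhsStatement) (hGCA : GcaStatement)
    (hGCU : GcuStatement) (hGDV : GdvStatement) (hAFP : AfpStatement)
    {m : ℕ} {M : Type} [TopologicalSpace M] [T2Space M] [CompactSpace M]
    [ChartedSpace (X m) M] [IsManifold (𝓡 m) ∞ M] [MeasurableSpace M]
    [BorelSpace M] (S : Hypersurface m M) (hmin : S.IsMinimal) (μ : Measure M)
    (hμ : S.IsAreaMeasure μ) (K : Set M) (hK : IsClopen K) (hKc : IsConnected K) : Cal m :=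
  haveI : IsFiniteMeasure μ := (hAFP m M S μ hμ).1
  haveI : μ.IsOpenPosMeasure := (hAFP m M S μ hμ).2
  haveI hcK : CompactSpace K := isCompact_iff_compactSpace.mp hK.isClosed.isCompact
  haveI : Nonempty K := hKc.nonempty.to_subtype
  { M := K
    μ := μ.comap Subtype.val
    fin := ⟨by
      rw [(MeasurableEmbedding.subtype_coe hK.isOpen.measurableSet).comap_apply]
      exact measure_lt_top μ _⟩
    opos := ⟨fun U hU hne => by
      rw [(MeasurableEmbedding.subtype_coe hK.isOpen.measurableSet).comap_apply]
      exact (hK.isOpen.isOpenEmbedding_subtypeVal.isOpenMap U hU).measure_ne_zero μ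
        (hne.image _)⟩
    Sm := fun f => Smooth m (ext K f)
    d := fun i f p => S.grad (ext K f) p.1 i
    x := fun i p => S.x p.1 i
    ν := fun i p => S.ν p.1 i
    cont := by
      intro f hf
      have h : f = fun p : K => ext K f p.1 := by
        funext p
        rw [ext_mem]
      rw [h]
      exact (ContMDiff.continuous hf).comp continuous_subtype_val
    sconst := fun c => smooth_ext hK _ (fun _ => c) contMDiff_const fun _ => rfl
    sadd := by
      intro f g hf hg
      exact smooth_ext hK _ (fun p => ext K f p + ext K g p)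
        (ContMDiff.add hf hg) fun q => by simp only [ext_mem]
    smul := by
      intro f g hf hg
      exact smooth_ext hK _ (fun p => ext K f p * ext K g p)
        (ContMDiff.mul hf hg) fun q => by simp only [ext_mem]
    ssqrt := by
      intro f hf hpos
      have hF := smooth_posext hK f hf
      have hFpos := posext_pos (K := K) f hpos
      exact smooth_ext hK _ (fun p => Real.sqrt (posext K f p))
        (((hGCA m M S hKc.nonempty.some).2.2.1 _ hF hFpos).1) fun q => by simp only [posext_mem]
    sd := by
      intro i f hf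
      refine smooth_ext hK _ (fun p => S.grad (ext K f) p i) ?_ fun _ => rfl
      exact smooth_coord (hGSM m M S _ hf) i
    sx := fun i => smooth_ext hK _ (fun p => S.x p i) (smooth_coord S.smooth_x i) fun _ => rfl
    sν := fun i => smooth_ext hK _ (fun p => S.ν p i) (smooth_coord S.smooth_ν i) fun _ => rfl
    dconst := by
      intro i c p
      rw [grad_ext hK S _ (fun _ => c) (fun _ => rfl), (hGCA m M S p.1).1 c]
      rfl
    dadd := by
      intro i f g hf hg p
      rw [grad_ext hK S _ (fun p => ext K f p + ext K g p) (fun q => by simp only [ext_mem]),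
        ((hGCA m M S p.1).2.1 _ _ hf hg).2.2.1]
      rfl
    dmul := by
      intro i f g hf hg p
      rw [grad_ext hK S _ (fun p => ext K f p * ext K g p) (fun q => by simp only [ext_mem]),
        ((hGCA m M S p.1).2.1 _ _ hf hg).2.2.2]
      simp only [PiLp.add_apply, PiLp.smul_apply, smul_eq_mul, ext_mem]
      ring
    dsqrt := by
      intro i f hf hpos p
      have hF := smooth_posext hK f hf
      have hFpos := posext_pos (K := K) f hpos
      rw [grad_ext hK S _ (fun p => Real.sqrt (posext K f p)) (fun q => by simp only [posext_mem]),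
        ((hGCA m M S p.1).2.2.1 _ hF hFpos).2, posext_mem,
        grad_ext hK S f (posext K f) (fun q => by simp only [posext_mem])]
      simp only [PiLp.smul_apply, smul_eq_mul]
      rw [div_eq_inv_mul]
    xx := by
      intro p
      have := S.norm_x p.1
      rw [← Gcu.inner_sum (S.x p.1) (S.x p.1), real_inner_self_eq_norm_sq, this]
      norm_num
    νν := by
      intro p
      have := S.norm_ν p.1
      rw [← Gcu.inner_sum (S.ν p.1) (S.ν p.1), real_inner_self_eq_norm_sq, this]
      norm_num
    xν := by
      intro p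
      have := S.inner_ν_x p.1
      rw [← Gcu.inner_sum (S.x p.1) (S.ν p.1), real_inner_comm]
      exact this
    tx := fun f _ p => ((hGCA m M S p.1).2.2.2.1 _).1
    tν := fun f _ p => ((hGCA m M S p.1).2.2.2.1 _).2
    dx := by
      intro i j p
      rw [grad_ext hK S _ (fun p => S.x p j) (fun _ => rfl)]
      exact (hGCA m M S p.1).2.2.2.2.1 i j
    hess := by
      intro f hf p u w h1 h2 h3 h4
      have h := hGHS m M S _ hf p.1 u w h1 h2 h3 h4
      have e : ∀ i j, S.grad (ext K fun q : K => S.grad (ext K f) q.1 i) p.1 j =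
          S.grad (fun p' => S.grad (ext K f) p' i) p.1 j := fun i j => by
        rw [grad_ext hK S _ (fun p' => S.grad (ext K f) p' i) (fun _ => rfl)]
      simp only [e]
      exact h
    mean := by
      intro p
      have h := (hGCU m M S p.1).1
      rw [hmin p.1] at h
      have e : ∀ i, S.grad (ext K fun q : K => S.ν q.1 i) p.1 i =
          S.grad (fun p' => S.ν p' i) p.1 i := fun i => by
        rw [grad_ext hK S _ (fun p' => S.ν p' i) (fun _ => rfl)]
      simp only [e]
      linarith
    div := by
      intro Y hY h1 h2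
      have h := hGDV m M S μ hμ (fun i => ext K (Y i)) hY
        (by
          intro p
          by_cases hp : p ∈ K
          · simp only [ext_mem' _ hp]
            exact h1 ⟨p, hp⟩
          · simp only [ext_not _ hp, mul_zero, Finset.sum_const_zero])
        (by
          intro p
          by_cases hp : p ∈ K
          · simp only [ext_mem' _ hp]
            exact h2 ⟨p, hp⟩
          · simp only [ext_not _ hp, mul_zero, Finset.sum_const_zero])
      rw [← integral_on hK μ (fun p => ∑ i, S.grad (ext K (Y i)) p i) (fun p hp => by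
        simp only [grad_ext_not hK S _ hp]
        simp)] at h
      exact h
    conn := by
      intro f hf h0 p p'
      have hd : ∀ q : M, S.grad (ext K f) q = 0 := by
        intro q
        by_cases hq : q ∈ K
        · ext i
          exact h0 i ⟨q, hq⟩
        · exact grad_ext_not hK S f hq
      have : IsManifold (𝓡 m) 1 M := IsManifold.of_le (n := ∞) (by exact_mod_cast le_top)
      have hloc : IsLocallyConstant (ext K f) :=
        isLocallyConstant_of_mfderiv (ContMDiff.mdifferentiable hf (by simp)) (fun q => by
          ext v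
          have h2 : der m (ext K f) q v = 0 := by
            rw [(hGCA m M S q).2.2.2.2.2.2 v (ext K f), hd q]
            simp
          exact h2)
      have := hloc.apply_eq_of_isPreconnected hKc.isPreconnected p.2 p'.2
      rwa [ext_mem, ext_mem] at this }

end MPfbfa44
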