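import Mathlib
import Pool.Agent.Lib.MP_fbfa44_gt.IX.Dis
import Pool.Agent.Lib.MP_fbfa44_gt.IX.Grd

set_option autoImplicit false

/-!
# Row DIS, second part
-/

namespace MPfbfa44

open MeasureTheory Filter Topology
open scoped Manifold ContDiff

namespace Dis

section caseB

variable {m : ℕ} {M : Type} [TopologicalSpace M] [ChartedSpace (X m) M]

theorem der_inner (S : Hypersurface m M) (p : M) (w : X (m + 2)) (v : X m) :
    der m (fun p' => (inner ℝ w (S.x p') : ℝ)) p v = inner ℝ w (der m S.x p v) := by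
  have h1 : MDifferentiableAt (𝓡 m) 𝓘(ℝ, X (m + 2)) S.x p :=
    (S.smooth_x.mdifferentiable (by simp)) p
  have h2 := (innerSL ℝ w : X (m + 2) →L[ℝ] ℝ).hasMFDerivAt (x := S.x p)
  have h3 := h2.comp p h1.hasMFDerivAt
  have h4 := h3.mfderiv
  have h5 : (fun p' => (inner ℝ w (S.x p') : ℝ)) = (innerSL ℝ w : X (m + 2) →L[ℝ] ℝ) ∘ S.x := rfl
  unfold der
  rw [h5, h4]
  rfl

theorem smooth_inner (S : Hypersurface m M) (w : X (m + 2)) :
    Smooth m (fun p' => (inner ℝ w (S.x p') : ℝ)) :=
  (innerSL ℝ w : X (m + 2) →L[ℝ] ℝ).contMDiff.comp S.smooth_x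

theorem der_localMax [IsManifold (𝓡 m) ∞ M] (hCHT : ChtStatement) (S : Hypersurface m M)
    (f : M → ℝ) (hf : Smooth m f) (p : M) (h : IsLocalMax f p) (v : X m) : der m f p v = 0 := by
  obtain ⟨-, -, hJ⟩ := hCHT m M S p
  set e := chartAt (X m) p with he
  have hmem : e p ∈ e.target := mem_chart_target (X m) p
  have hsy : e.symm (e p) = p := e.left_inv (mem_chart_source (X m) p)
  obtain ⟨J, hJ'⟩ := hJ (e p) hmem
  have h1 : IsLocalMax (f ∘ e.symm) (e p) := by
    have hc : ContinuousAt e.symm (e p) := e.symm.continuousAt (by simpa using hmem)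
    have : Tendsto e.symm (𝓝 (e p)) (𝓝 p) := by
      have := hc.tendsto
      rwa [hsy] at this
    have h2 := this.eventually h
    filter_upwards [h2] with y hy
    simpa [Function.comp_apply, hsy] using hy
  have h2 := h1.fderiv_eq_zero
  have h3 := hJ' _ f hf (J.symm v)
  rw [h2, hsy, J.apply_symm_apply] at h3
  simpa using h3.symm

/-- A component with constant normal covers a great sphere. -/
theorem covers [IsManifold (𝓡 m) ∞ M] (hm : 1 ≤ m) (hCHT : ChtStatement) (hGRD : GrdStatement)
    (S : Hypersurface m M) (K : Set M) (hKo : IsOpen K) (hKc : IsCompact K) (hne : K.Nonempty)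
    (u : X (m + 2)) (hu : ∀ p ∈ K, S.ν p = u) (w : X (m + 2)) (hw : ‖w‖ = 1)
    (huw : (inner ℝ u w : ℝ) = 0) : ∃ p ∈ K, S.x p = w := by
  have hcont : Continuous (fun p' => (inner ℝ w (S.x p') : ℝ)) :=
    ContMDiff.continuous (smooth_inner S w)
  obtain ⟨p, hp, hmax⟩ := hKc.exists_isMaxOn hne hcont.continuousOn
  have hloc : IsLocalMax (fun p' => (inner ℝ w (S.x p') : ℝ)) p :=
    hmax.isLocalMax (hKo.mem_nhds hp)
  have hd : ∀ v, (inner ℝ w (der m S.x p v) : ℝ) = 0 := fun v => by
    rw [← der_inner S p w v]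
    exact der_localMax hCHT S _ (smooth_inner S w) p hloc v
  have hxx : (inner ℝ (S.x p) (S.x p) : ℝ) = 1 := by
    rw [real_inner_self_eq_norm_sq, S.norm_x]; norm_num
  have hxν : (inner ℝ (S.ν p) (S.x p) : ℝ) = 0 := S.inner_ν_x p
  set c : ℝ := inner ℝ w (S.x p) with hc
  obtain ⟨-, -, hinj, hrange⟩ := hGRD m M S p
  obtain ⟨u', hu'⟩ := hrange (w - c • S.x p)
    (by rw [inner_sub_right, inner_smul_right, hxx, real_inner_comm, ← hc]; ring)
    (by rw [inner_sub_right, inner_smul_right, hxν, hu p hp, huw]; ring)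
  have hz : u' = 0 := hinj u' fun v => by
    rw [← hu', inner_sub_left, inner_smul_left, hd, Hypersurface.inner_x_dx S p v]
    simp
  rw [hz, map_zero, sub_eq_zero] at hu'
  have hcc : |c| = 1 := by
    have := congrArg norm hu'
    rw [norm_smul, S.norm_x, hw, mul_one, Real.norm_eq_abs] at this
    exact this.symm
  rcases (abs_eq (zero_le_one)).mp hcc with h1 | h1
  · exact ⟨p, hp, by rw [hu', h1, one_smul]⟩
  · exfalso
    have hall : ∀ q ∈ K, S.x q = -w := by
      intro q hq
      have h2 : (inner ℝ w (S.x q) : ℝ) ≤ -1 := by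
        have h5 : (inner ℝ w (S.x q) : ℝ) ≤ c := hmax hq
        rwa [h1] at h5
      have h3 : ‖S.x q + w‖ ^ 2 ≤ 0 := by
        rw [norm_add_sq_real, S.norm_x, hw, real_inner_comm]
        linarith
      have h4 : S.x q + w = 0 := by
        have h5 : ‖S.x q + w‖ ^ 2 = 0 := le_antisymm h3 (sq_nonneg _)
        exact norm_eq_zero.mp (pow_eq_zero_iff (two_ne_zero) |>.mp h5)
      exact eq_neg_of_add_eq_zero_left h4
    have hev : S.x =ᶠ[𝓝 p] fun _ => -w := by
      filter_upwards [hKo.mem_nhds hp] with q hq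
      exact hall q hq
    have hder : der m S.x p = 0 := by
      rw [der_congr hev]
      exact mfderiv_const
    have hi := S.immersion p
    rw [hder] at hi
    have h0 : (cv ⟨0, hm⟩ : X m) = 0 := hi (by simp)
    have h1' := congrArg (fun z : X m => z ⟨0, hm⟩) h0
    simp [cv] at h1'

theorem exists_unit (n : ℕ) (hn : 3 ≤ n) (u u' : X n) :
    ∃ w : X n, ‖w‖ = 1 ∧ (inner ℝ u w : ℝ) = 0 ∧ (inner ℝ u' w : ℝ) = 0 := by
  set W : Submodule ℝ (X n) := Submodule.span ℝ {u, u'} with hW
  have h1 : Module.finrank ℝ W ≤ 2 := by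
    refine (finrank_span_le_card _).trans ?_
    rw [Set.toFinset_card]
    exact (Fintype.card_le_of_surjective (fun b : Bool => if b then (⟨u, by simp⟩ : ({u, u'} : Set (X n))) else ⟨u', by simp⟩)
      (by
        rintro ⟨z, hz⟩
        rcases hz with rfl | hz
        · exact ⟨true, by simp⟩
        · refine ⟨false, ?_⟩
          simp only [Set.mem_singleton_iff] at hz
          simp [hz])).trans (by simp)
  have h2 : Wᗮ ≠ ⊥ := by
    intro h
    have h3 := W.finrank_add_finrank_orthogonal
    rw [h, finrank_bot, finrank_euclideanSpace_fin] at h3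
    omega
  obtain ⟨w, hw, hw0⟩ := Submodule.exists_mem_ne_zero_of_ne_bot h2
  have hpos : ‖w‖ ≠ 0 := norm_ne_zero_iff.mpr hw0
  have ha : (inner ℝ u w : ℝ) = 0 := (Submodule.mem_orthogonal W w).mp hw u (Submodule.subset_span (by simp))
  have hb : (inner ℝ u' w : ℝ) = 0 := (Submodule.mem_orthogonal W w).mp hw u' (Submodule.subset_span (by simp))
  refine ⟨‖w‖⁻¹ • w, ?_, ?_, ?_⟩
  · rw [norm_smul, norm_inv, norm_norm, inv_mul_cancel₀ hpos]
  · rw [inner_smul_right, ha, mul_zero]
  · rw [inner_smul_right, hb, mul_zero]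

end caseB

section caseA

variable {m : ℕ} {M : Type} [TopologicalSpace M] [ChartedSpace (X m) M]

open Classical in
/-- The map `(b, s, t) ↦ <b, ν> + s` on `K` and `t` off `K`. -/
noncomputable def phi (S : Hypersurface m M) (K : Set M) :
    ((Fin (m + 2) → ℝ) × ℝ × ℝ) →ₗ[ℝ] (M → ℝ) where
  toFun a := fun p => if p ∈ K then (∑ i, a.1 i * S.ν p i) + a.2.1 else a.2.2
  map_add' a b := by
    funext p
    by_cases hp : p ∈ K
    · simp only [Pi.add_apply, if_pos hp, Prod.fst_add, Prod.snd_add, add_mul,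
        Finset.sum_add_distrib]
      ring
    · simp only [Pi.add_apply, if_neg hp, Prod.snd_add]
  map_smul' c a := by
    funext p
    by_cases hp : p ∈ K
    · simp only [Pi.smul_apply, if_pos hp, Prod.smul_fst, Prod.smul_snd, RingHom.id_apply,
        smul_eq_mul, mul_add, Finset.mul_sum, mul_assoc]
    · simp only [Pi.smul_apply, if_neg hp, Prod.smul_snd, RingHom.id_apply]

theorem phi_mem (S : Hypersurface m M) (K : Set M) (b : Fin (m + 2) → ℝ) (s t : ℝ) {p : M}
    (hp : p ∈ K) : phi S K (b, s, t) p = (∑ i, b i * S.ν p i) + s := by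
  unfold phi
  simp only [LinearMap.coe_mk, AddHom.coe_mk, if_pos hp]

theorem phi_not (S : Hypersurface m M) (K : Set M) (b : Fin (m + 2) → ℝ) (s t : ℝ) {p : M}
    (hp : p ∉ K) : phi S K (b, s, t) p = t := by
  unfold phi
  simp only [LinearMap.coe_mk, AddHom.coe_mk, if_neg hp]

theorem smooth_lin (S : Hypersurface m M) (b : Fin (m + 2) → ℝ) (s : ℝ) :
    Smooth m (fun p => (∑ i, b i * S.ν p i) + s) := by
  refine ContMDiff.add ?_ contMDiff_const
  have : (fun p => ∑ i, b i * S.ν p i) = fun p => ∑ i ∈ Finset.univ, (fun i p => b i * S.ν p i) i p := rfl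
  rw [this]
  exact contMDiff_finsetSum fun i _ => contMDiff_const.mul (smooth_coord S.smooth_ν i)

theorem smooth_phi (S : Hypersurface m M) {K : Set M} (hK : IsClopen K)
    (b : Fin (m + 2) → ℝ) (s t : ℝ) : Smooth m (phi S K (b, s, t)) := by
  refine smooth_of_local fun p => ?_
  by_cases hp : p ∈ K
  · refine ⟨_, smooth_lin S b s, ?_⟩
    filter_upwards [hK.isOpen.mem_nhds hp] with q hq
    exact phi_mem S K b s t hq
  · refine ⟨fun _ => t, contMDiff_const, ?_⟩
    filter_upwards [hK.compl.isOpen.mem_nhds hp] with q hq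
    exact phi_not S K b s t hq

theorem cont_grad [IsManifold (𝓡 m) ∞ M] (hGSM : GsmStatement) (S : Hypersurface m M)
    (f : M → ℝ) (hf : Smooth m f) (i : Fin (m + 2)) : Continuous (fun p => S.grad f p i) :=
  ContMDiff.continuous (smooth_coord (hGSM m M S f hf) i)

theorem cont_normSqA [IsManifold (𝓡 m) ∞ M] (hGSM : GsmStatement) (hGCU : GcuStatement)
    (S : Hypersurface m M) : Continuous S.normSqA := by
  have : S.normSqA = fun p => ∑ i, ∑ j, S.grad (fun p' => S.ν p' j) p i *
      S.grad (fun p' => S.ν p' j) p i := funext fun p => (hGCU m M S p).2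
  rw [this]
  exact continuous_finsetSum _ fun i _ => continuous_finsetSum _ fun j _ =>
    (cont_grad hGSM S _ (smooth_coord S.smooth_ν j) i).mul
      (cont_grad hGSM S _ (smooth_coord S.smooth_ν j) i)

theorem cont_integrand [IsManifold (𝓡 m) ∞ M] (hGSM : GsmStatement) (hGCA : GcaStatement)
    (hGCU : GcuStatement) (S : Hypersurface m M) (f : M → ℝ) (hf : Smooth m f) :
    Continuous (fun p => S.gradSq f p - (S.normSqA p + m) * f p ^ 2) := by
  have h : S.gradSq f = fun p => ∑ i, S.grad f p i * S.grad f p i :=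
    funext fun p => (hGCA m M S p).2.2.2.2.2.1 f
  rw [h]
  have hc : Continuous f := ContMDiff.continuous hf
  exact (continuous_finsetSum _ fun i _ => (cont_grad hGSM S f hf i).mul
    (cont_grad hGSM S f hf i)).sub
      (((cont_normSqA hGSM hGCU S).add continuous_const).mul (hc.pow 2))

theorem normSqA_nonneg [IsManifold (𝓡 m) ∞ M] (hGCU : GcuStatement)
    (S : Hypersurface m M) (p : M) : 0 ≤ S.normSqA p := by
  rw [(hGCU m M S p).2]
  exact Finset.sum_nonneg fun i _ => Finset.sum_nonneg fun j _ => mul_self_nonneg _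

end caseA

end Dis

open Dis in
theorem dis_caseA (hGSM : GsmStatement) (hGHS : GhsStatement) (hGCA : GcaStatement)
    (hGCU : GcuStatement) (hGDV : GdvStatement) (hAFP : AfpStatement)
    (hSTR : StrStatement) (hGRN : GrnStatement) (hNUL : NulStatement)
    {m : ℕ} (hm : 1 ≤ m) {M : Type} [TopologicalSpace M] [T2Space M] [CompactSpace M]
    [ChartedSpace (X m) M] [IsManifold (𝓡 m) ∞ M] [MeasurableSpace M]
    [BorelSpace M] (S : Hypersurface m M) (hmin : S.IsMinimal) (μ : Measure M)
    (hμ : S.IsAreaMeasure μ) (hidx : S.MorseIndexLE μ (m + 3)) (K : Set M) (hK : IsClopen K)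
    (hKc : IsConnected K) (hKn : Kᶜ.Nonempty) (hq : ∃ p ∈ K, S.normSqA p ≠ 0) : False := by
  set G : Cal m := calOn hGSM hGHS hGCA hGCU hGDV hAFP S hmin μ hμ K hK hKc with hGdef
  have hG : G.Str := hSTR m G
  have hfin : IsFiniteMeasure μ := (hAFP m M S μ hμ).1
  have hopos : μ.IsOpenPosMeasure := (hAFP m M S μ hμ).2
  obtain ⟨hint, hzero, -, hlin⟩ := hGRN m G hG
  have hGd : ∀ (i : Fin (m + 2)) (f : K → ℝ) (p : K), G.d i f p = S.grad (ext K f) p.1 i :=
    fun _ _ _ => rfl
  have hGq : ∀ p : K, G.q p = S.normSqA p.1 := by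
    intro p
    rw [(hGCU m M S p.1).2]
    refine Finset.sum_congr rfl fun i _ => Finset.sum_congr rfl fun j _ => ?_
    have e : G.B i j p = -S.grad (fun p' => S.ν p' j) p.1 i := by
      have h1 : G.B i j p = -S.grad (ext K fun q : K => S.ν q.1 j) p.1 i := rfl
      rw [h1, grad_ext hK S _ (fun p' => S.ν p' j) (fun _ => rfl)]
    rw [e]
    ring
  have hqn : ∃ p, G.q p ≠ 0 := by
    obtain ⟨p, hp, hp0⟩ := hq
    exact ⟨(⟨p, hp⟩ : K), by rw [hGq ⟨p, hp⟩]; exact hp0⟩
  have cq : Continuous G.q := G.cont _ hG.sq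
  have q0 : ∀ p, 0 ≤ G.q p := fun p =>
    Finset.sum_nonneg fun i _ => Finset.sum_nonneg fun j _ => mul_self_nonneg _
  have qpos : 0 < ∫ p, G.q p ∂G.μ := by
    by_contra hc
    push Not at hc
    obtain ⟨p, hp⟩ := hqn
    exact hp (hzero G.q cq q0 hc p)
  have hmr : (0 : ℝ) < m := by exact_mod_cast hm
  have hμc : 0 < μ.real Kᶜ :=
    ENNReal.toReal_pos (hK.compl.isOpen.measure_ne_zero μ hKn) (measure_ne_top μ _)
  -- the second variation of `phi`
  have key : ∀ (b : Fin (m + 2) → ℝ) (s t : ℝ), S.secondVariation μ (phi S K (b, s, t)) ≤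
      G.Q (fun p => G.z b p + (s + 0 * (fun _ => (0 : ℝ)) p)) - m * t ^ 2 * μ.real Kᶜ := by
    intro b s t
    have hsm : Smooth m (phi S K (b, s, t)) := smooth_phi S hK b s t
    have hc := cont_integrand hGSM hGCA hGCU S _ hsm
    have hI : Integrable (fun p => S.gradSq (phi S K (b, s, t)) p -
        (S.normSqA p + m) * phi S K (b, s, t) p ^ 2) μ :=
      hc.integrable_of_hasCompactSupport (HasCompactSupport.of_compactSpace _)
    have hsplit := integral_add_compl hK.isOpen.measurableSet hI
    have h1 : ∫ p in K, (S.gradSq (phi S K (b, s, t)) p -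
        (S.normSqA p + m) * phi S K (b, s, t) p ^ 2) ∂μ =
        G.Q (fun p => G.z b p + (s + 0 * (fun _ => (0 : ℝ)) p)) := by
      rw [← integral_subtype_comap hK.isOpen.measurableSet]
      refine integral_congr_ae (Eventually.of_forall fun p => ?_)
      obtain ⟨F, hF⟩ : ∃ F : K → ℝ, F = fun p : K => G.z b p + (s + 0 * (fun _ => (0 : ℝ)) p) :=
        ⟨_, rfl⟩
      have e1 : ∀ q : K, F q = phi S K (b, s, t) q.1 := by
        intro q
        rw [phi_mem S K b s t q.2, hF]
        simp only [mul_zero, add_zero]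
        rfl
      have e2 : S.gradSq (phi S K (b, s, t)) p.1 = G.gp F F p := by
        rw [(hGCA m M S p.1).2.2.2.2.2.1]
        refine Finset.sum_congr rfl fun i _ => ?_
        rw [hGd, grad_ext hK S _ (phi S K (b, s, t)) e1]
      have e3 : S.gradSq (phi S K (b, s, t)) p.1 -
          (S.normSqA p.1 + m) * phi S K (b, s, t) p.1 ^ 2 =
          G.gp F F p - (G.q p + m) * (F p * F p) := by
        rw [e2, e1 p, hGq]
        ring
      rw [hF] at e3
      exact e3
    have h2 : ∫ p in Kᶜ, (S.gradSq (phi S K (b, s, t)) p -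
        (S.normSqA p + m) * phi S K (b, s, t) p ^ 2) ∂μ ≤ -(m * t ^ 2 * μ.real Kᶜ) := by
      have h3 : ∫ p in Kᶜ, (S.gradSq (phi S K (b, s, t)) p -
          (S.normSqA p + m) * phi S K (b, s, t) p ^ 2) ∂μ ≤ ∫ p in Kᶜ, (-(m * t ^ 2) : ℝ) ∂μ := by
        refine setIntegral_mono_on hI.integrableOn (integrable_const _) hK.compl.isOpen.measurableSet
          fun p hp => ?_
        have h4 : S.gradSq (phi S K (b, s, t)) p = 0 := by
          rw [(hGCA m M S p).2.2.2.2.2.1]
          have h5 : S.grad (phi S K (b, s, t)) p = 0 := by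
            rw [grad_congr S (g := fun _ => t) (by
              filter_upwards [hK.compl.isOpen.mem_nhds hp] with q hq
              exact phi_not S K b s t hq)]
            exact (hGCA m M S p).1 t
          rw [h5]
          simp
        rw [h4, phi_not S K b s t hp]
        have h6 := normSqA_nonneg hGCU S p
        nlinarith [mul_nonneg h6 (sq_nonneg t)]
      refine h3.trans (le_of_eq ?_)
      rw [setIntegral_const, smul_eq_mul]
      ring
    unfold Hypersurface.secondVariation
    rw [← hsplit, h1]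
    linarith
  have f0 : G.Sm (fun _ => (0 : ℝ)) := G.sconst 0
  have hQ : ∀ (b : Fin (m + 2) → ℝ) (s : ℝ),
      G.Q (fun p => G.z b p + (s + 0 * (fun _ => (0 : ℝ)) p)) =
      -(s ^ 2 * ∫ p, G.q p ∂G.μ) - m * ∫ p, (G.z b p + s) * (G.z b p + s) ∂G.μ := by
    intro b s
    rw [idx_Q G hG hGRN (fun _ => 0) f0 (by simp) b s 0]
    simp
  have hneg : ∀ a : (Fin (m + 2) → ℝ) × ℝ × ℝ, a ≠ 0 →
      S.secondVariation μ (phi S K a) < 0 := by
    rintro ⟨b, s, t⟩ ha
    refine (key b s t).trans_lt ?_
    rw [hQ]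
    have hnn : 0 ≤ (m : ℝ) * ∫ p, (G.z b p + s) * (G.z b p + s) ∂G.μ :=
      mul_nonneg hmr.le (integral_nonneg fun p => mul_self_nonneg _)
    have hnt : 0 ≤ m * t ^ 2 * μ.real Kᶜ := by positivity
    have hns : 0 ≤ s ^ 2 * ∫ p, G.q p ∂G.μ := mul_nonneg (sq_nonneg s) qpos.le
    by_cases ht : t = 0
    · by_cases hs : s = 0
      · subst ht
        subst hs
        have hb : b ≠ 0 := by
          rintro rfl
          exact ha rfl
        have hz : ∃ p, G.z b p ≠ 0 := by
          by_contra hc
          push Not at hc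
          obtain ⟨p, hp⟩ := hqn
          exact hp (hNUL m G hG hm b hb hc p)
        have cz : Continuous (G.z b) := G.cont _ (hlin b).2.1
        have hpos : 0 < ∫ p, (G.z b p + 0) * (G.z b p + 0) ∂G.μ := by
          by_contra hc
          push Not at hc
          obtain ⟨p, hp⟩ := hz
          have h1 := hzero (fun p => (G.z b p + 0) * (G.z b p + 0))
            ((cz.add continuous_const).mul (cz.add continuous_const))
            (fun p => mul_self_nonneg _) hc p
          simp only [add_zero] at h1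
          exact hp (mul_self_eq_zero.mp h1)
        have h4 := mul_pos hmr hpos
        linarith
      · have h2 : 0 < s ^ 2 * ∫ p, G.q p ∂G.μ := mul_pos (by positivity) qpos
        linarith
    · have h2 : 0 < m * t ^ 2 * μ.real Kᶜ := by positivity
      linarith
  have hzero' : S.secondVariation μ (0 : M → ℝ) = 0 := by
    unfold Hypersurface.secondVariation
    have h1 : ∀ p, S.gradSq (0 : M → ℝ) p = 0 := by
      intro p
      rw [(hGCA m M S p).2.2.2.2.2.1]
      have h2 : S.grad (0 : M → ℝ) p = 0 := (hGCA m M S p).1 0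
      rw [h2]
      simp
    simp only [h1]
    simp
  have hinj : Function.Injective (phi S K) := by
    rw [← LinearMap.ker_eq_bot, LinearMap.ker_eq_bot']
    intro a ha
    by_contra hne
    have h1 := hneg a hne
    rw [ha, hzero'] at h1
    exact lt_irrefl _ h1
  have hrank := hidx (LinearMap.range (phi S K))
    (by
      rintro g ⟨⟨v, s, t⟩, rfl⟩
      exact smooth_phi S hK v s t)
    (by
      rintro g ⟨a, rfl⟩ hg
      refine hneg a ?_
      rintro rfl
      exact hg (map_zero _))
  have e := (LinearEquiv.ofInjective (phi S K) hinj).rank_eq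
  rw [← e] at hrank
  rw [← Module.finrank_eq_rank, Nat.cast_le, Module.finrank_prod, Module.finrank_prod,
    Module.finrank_fintype_fun_eq_card, Module.finrank_self, Fintype.card_fin] at hrank
  omega

/-- Row DIS: an embedded closed minimal hypersurface of index at most `m + 3` is connected. -/
def DisStatement : Prop :=
  ∀ (m : ℕ), 1 ≤ m → ∀ (M : Type) [TopologicalSpace M] [T2Space M] [CompactSpace M] [Nonempty M]
    [ChartedSpace (X m) M] [IsManifold (𝓡 m) ∞ M] [MeasurableSpace M]
    [BorelSpace M] (S : Hypersurface m M), S.IsMinimal → Function.Injective S.x →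
    ∀ μ : Measure M, S.IsAreaMeasure μ → S.MorseIndexLE μ (m + 3) → ConnectedSpace M

open Dis in
theorem dis_proof (hCHT : ChtStatement) (hGRD : GrdStatement) (hGSM : GsmStatement)
    (hGHS : GhsStatement) (hGCA : GcaStatement)
    (hGCU : GcuStatement) (hGDV : GdvStatement) (hAFP : AfpStatement)
    (hSTR : StrStatement) (hGRN : GrnStatement) (hNUL : NulStatement) : DisStatement := by
  intro m hm M _ _ _ _ _ _ _ _ S hmin hinj μ hμ hidx
  by_contra hcon
  rw [connectedSpace_iff_connectedComponent] at hcon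
  push Not at hcon
  have : LocallyConnectedSpace M := ChartedSpace.locallyConnectedSpace (X m) M
  have hclopen : ∀ p : M, IsClopen (connectedComponent p) := fun p =>
    ⟨isClosed_connectedComponent, isOpen_connectedComponent⟩
  have hconn : ∀ p : M, IsConnected (connectedComponent p) := fun p => isConnected_connectedComponent
  by_cases hq : ∃ p, S.normSqA p ≠ 0
  · obtain ⟨p, hp⟩ := hq
    exact dis_caseA hGSM hGHS hGCA hGCU hGDV hAFP hSTR hGRN hNUL hm S hmin μ hμ hidx
      (connectedComponent p) (hclopen p) (hconn p)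
      (Set.nonempty_compl.mpr (hcon p)) ⟨p, mem_connectedComponent, hp⟩
  · push Not at hq
    have hν : ∀ p q : M, q ∈ connectedComponent p → S.ν q = S.ν p := by
      intro p q hqp
      set K := connectedComponent p with hKdef
      set G : Cal m := calOn hGSM hGHS hGCA hGCU hGDV hAFP S hmin μ hμ K (hclopen p) (hconn p)
        with hGdef
      have hd : ∀ (i j : Fin (m + 2)) (r : M), S.grad (fun p' => S.ν p' j) r i = 0 := by
        intro i j r
        have h1 := (hGCU m M S r).2
        rw [hq r] at h1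
        have h2 : ∑ j, S.grad (fun p' => S.ν p' j) r i * S.grad (fun p' => S.ν p' j) r i = 0 :=
          (Finset.sum_eq_zero_iff_of_nonneg fun i _ =>
            Finset.sum_nonneg fun j _ => mul_self_nonneg _).mp h1.symm i (Finset.mem_univ i)
        have h3 := (Finset.sum_eq_zero_iff_of_nonneg fun j _ => mul_self_nonneg _).mp h2 j
          (Finset.mem_univ j)
        exact mul_self_eq_zero.mp h3
      ext j
      have h := G.conn (G.ν j) (G.sν j) (fun i r => by
        have h1 : G.d i (G.ν j) r = S.grad (ext K fun q : K => S.ν q.1 j) r.1 i := rfl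
        rw [h1, grad_ext (hclopen p) S _ (fun p' => S.ν p' j) (fun _ => rfl)]
        exact hd i j r.1) (⟨q, hqp⟩ : K) (⟨p, mem_connectedComponent⟩ : K)
      exact h
    obtain ⟨p⟩ := ‹Nonempty M›
    obtain ⟨p', hp'⟩ := Set.nonempty_compl.mpr (hcon p)
    obtain ⟨w, hw, hw1, hw2⟩ := exists_unit (m + 2) (by omega) (S.ν p) (S.ν p')
    obtain ⟨r, hr, hrw⟩ := covers hm hCHT hGRD S (connectedComponent p) (hclopen p).isOpen
      (hclopen p).isClosed.isCompact ⟨p, mem_connectedComponent⟩ (S.ν p) (hν p) w hw hw1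
    obtain ⟨r', hr', hrw'⟩ := covers hm hCHT hGRD S (connectedComponent p') (hclopen p').isOpen
      (hclopen p').isClosed.isCompact ⟨p', mem_connectedComponent⟩ (S.ν p') (hν p') w hw hw2
    have hrr : r = r' := hinj (hrw.trans hrw'.symm)
    subst hrr
    have h1 := connectedComponent_eq hr
    have h2 := connectedComponent_eq hr'
    exact hp' (by rw [h1, ← h2]; exact mem_connectedComponent)

end MPfbfa44
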