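import Mathlib
import Pool.Agent.Lib.MP_fbfa44_gt.IX.Dis2
import Pool.Agent.Lib.MP_fbfa44_gt.IX.Cao
import Pool.Agent.Lib.MP_fbfa44_gt.IX.Str
import Pool.Agent.Lib.MP_fbfa44_gt.IX.Grn
import Pool.Agent.Lib.MP_fbfa44_gt.IX.Afp

set_option autoImplicit false

/-!
# Row DIS, third part: the forms used in the assembly

`eqt`: a connected closed hypersurface with `A = 0` is equatorial.
`connected_of` : index at most `m + 3` and (not totally geodesic, or embedded) gives
connectedness.
-/

namespace MPfbfa44

open MeasureTheory Filter Topology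
open scoped Manifold ContDiff

open Dis in
/-- A connected closed hypersurface with vanishing second fundamental form is a great sphere. -/
theorem eqt {m : ℕ} (hm : 1 ≤ m) {M : Type} [TopologicalSpace M] [CompactSpace M]
    [ConnectedSpace M] [ChartedSpace (X m) M] [IsManifold (𝓡 m) ∞ M] (S : Hypersurface m M)
    (hq : ∀ p, S.normSqA p = 0) : S.IsEquatorial := by
  have hd : ∀ (i j : Fin (m + 2)) (r : M), S.grad (fun p' => S.ν p' j) r i = 0 := by
    intro i j r
    have h1 := (gcu0 m M S r).2
    rw [hq r] at h1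
    have h2 : ∑ j, S.grad (fun p' => S.ν p' j) r i * S.grad (fun p' => S.ν p' j) r i = 0 :=
      (Finset.sum_eq_zero_iff_of_nonneg fun i _ =>
        Finset.sum_nonneg fun j _ => mul_self_nonneg _).mp h1.symm i (Finset.mem_univ i)
    have h3 := (Finset.sum_eq_zero_iff_of_nonneg fun j _ => mul_self_nonneg _).mp h2 j
      (Finset.mem_univ j)
    exact mul_self_eq_zero.mp h3
  obtain ⟨p⟩ : Nonempty M := inferInstance
  have hν : ∀ q : M, S.ν q = S.ν p := by
    intro q
    ext j
    exact cnn0 m M S (fun p' => S.ν p' j) (smooth_coord S.smooth_ν j) (fun r => by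
      ext i
      exact hd i j r) q p
  refine ⟨S.ν p, S.norm_ν p, ?_⟩
  ext y
  constructor
  · rintro ⟨q, rfl⟩
    refine ⟨S.norm_x q, ?_⟩
    rw [← hν q]
    exact S.inner_ν_x q
  · rintro ⟨hy, hy'⟩
    obtain ⟨q, -, hq'⟩ := covers hm cht_proof grd_proof S Set.univ isOpen_univ isCompact_univ
      Set.univ_nonempty (S.ν p) (fun q _ => hν q) y hy hy'
    exact ⟨q, hq'⟩

/-- Index at most `m + 3`, and embedded or not totally geodesic: the manifold is connected. -/
theorem connected_of (hNUL : NulStatement) {m : ℕ} (hm : 1 ≤ m) {M : Type} [TopologicalSpace M]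
    [T2Space M] [CompactSpace M] [Nonempty M] [ChartedSpace (X m) M] [IsManifold (𝓡 m) ∞ M]
    [MeasurableSpace M] [BorelSpace M] (S : Hypersurface m M) (hmin : S.IsMinimal)
    (h : Function.Injective S.x ∨ ∃ p, S.normSqA p ≠ 0) (μ : Measure M)
    (hμ : S.IsAreaMeasure μ) (hidx : S.MorseIndexLE μ (m + 3)) : ConnectedSpace M := by
  rcases h with h | ⟨p, hp⟩
  · exact dis_proof cht_proof grd_proof gsm0 ghs0 gca0 gcu0 gdv0 afp_proof str_proof grn_proof
      hNUL m hm M S hmin h μ hμ hidx
  · by_contra hcon
    rw [connectedSpace_iff_connectedComponent] at hcon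
    push Not at hcon
    have : LocallyConnectedSpace M := ChartedSpace.locallyConnectedSpace (X m) M
    exact dis_caseA gsm0 ghs0 gca0 gcu0 gdv0 afp_proof str_proof grn_proof hNUL hm S hmin μ hμ
      hidx (connectedComponent p) ⟨isClosed_connectedComponent, isOpen_connectedComponent⟩
      isConnected_connectedComponent (Set.nonempty_compl.mpr (hcon p))
      ⟨p, mem_connectedComponent, hp⟩

end MPfbfa44
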