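import Mathlib
import Pool.Agent.Lib.MP_fbfa44_gt.IX.InjDefs
import Pool.Agent.Lib.MP_fbfa44_gt.IX.Injl

set_option autoImplicit false

/-!
# Row INJ, linear algebra: the matrix of the projection
-/

namespace MPfbfa44

namespace INJ

open MeasureTheory
open scoped Manifold ContDiff

/-- The projection in the coordinates of the ambient space. -/
noncomputable def prj (m k : ℕ) (L : X (m + 2) ≃ₗᵢ[ℝ] X (m + 2)) : X (m + 2) →L[ℝ] X (m + 2) :=
  (L.toContinuousLinearEquiv : X (m + 2) →L[ℝ] X (m + 2)).comp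
    ((truncL m k).comp (L.symm.toContinuousLinearEquiv : X (m + 2) →L[ℝ] X (m + 2)))

theorem prj_apply (m k : ℕ) (L : X (m + 2) ≃ₗᵢ[ℝ] X (m + 2)) (z : X (m + 2)) :
    prj m k L z = L (trunc m k (L.symm z)) := rfl

theorem prj_inner (m k : ℕ) (L : X (m + 2) ≃ₗᵢ[ℝ] X (m + 2)) (z w : X (m + 2)) :
    (inner ℝ (prj m k L z) w : ℝ) = inner ℝ (trunc m k (L.symm z)) (L.symm w) := by
  rw [prj_apply, ← LinearIsometryEquiv.inner_map_map L (trunc m k (L.symm z)),
    LinearIsometryEquiv.apply_symm_apply]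

theorem prj_comm (m k : ℕ) (L : X (m + 2) ≃ₗᵢ[ℝ] X (m + 2)) (z w : X (m + 2)) :
    (inner ℝ (prj m k L z) w : ℝ) = inner ℝ z (prj m k L w) := by
  rw [prj_inner, ← real_inner_comm z (prj m k L w), prj_inner, inner_trunc_comm,
    ← real_inner_comm (L.symm z) (trunc m k (L.symm w))]

theorem prj_prj (m k : ℕ) (L : X (m + 2) ≃ₗᵢ[ℝ] X (m + 2)) (z : X (m + 2)) :
    prj m k L (prj m k L z) = prj m k L z := by
  rw [prj_apply, prj_apply, LinearIsometryEquiv.symm_apply_apply, trunc_trunc]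

/-- The matrix of the projection. -/
noncomputable def prjM (m k : ℕ) (L : X (m + 2) ≃ₗᵢ[ℝ] X (m + 2)) (i j : Fin (m + 2)) : ℝ :=
  prj m k L (cv j) i

theorem inner_cv {n : ℕ} (z : X n) (i : Fin n) : (inner ℝ z (cv i) : ℝ) = z i := by
  rw [cv, EuclideanSpace.inner_single_right]
  simp

theorem sum_cv {n : ℕ} (z : X n) : ∑ i, z i • (cv i : X n) = z := by
  ext j
  rw [WithLp.ofLp_sum, Finset.sum_apply]
  simp [cv, PiLp.single_apply]

theorem prjM_mul (m k : ℕ) (L : X (m + 2) ≃ₗᵢ[ℝ] X (m + 2)) (z : X (m + 2)) (i : Fin (m + 2)) :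
    ∑ j, prjM m k L i j * z j = prj m k L z i := by
  have h : prj m k L z = ∑ j, z j • prj m k L (cv j) := by
    conv_lhs => rw [← sum_cv z]
    rw [map_sum]
    refine Finset.sum_congr rfl fun j _ => ?_
    rw [map_smul]
  rw [h, WithLp.ofLp_sum, Finset.sum_apply]
  refine Finset.sum_congr rfl fun j _ => ?_
  simp only [PiLp.smul_apply, smul_eq_mul, prjM]
  ring

theorem prjM_sym (m k : ℕ) (L : X (m + 2) ≃ₗᵢ[ℝ] X (m + 2)) (i j : Fin (m + 2)) :
    prjM m k L i j = prjM m k L j i := by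
  unfold prjM
  rw [← inner_cv (prj m k L (cv j)) i, ← inner_cv (prj m k L (cv i)) j, prj_comm,
    real_inner_comm]

theorem prjM_idem (m k : ℕ) (L : X (m + 2) ≃ₗᵢ[ℝ] X (m + 2)) (i j : Fin (m + 2)) :
    ∑ l, prjM m k L i l * prjM m k L l j = prjM m k L i j := by
  have h := prjM_mul m k L (prj m k L (cv j)) i
  rw [prj_prj] at h
  exact h

theorem prj_sum (m k : ℕ) (L : X (m + 2) ≃ₗᵢ[ℝ] X (m + 2)) (z : X (m + 2)) :
    ∑ i, ∑ j, prjM m k L i j * (z i * z j) = inner ℝ (prj m k L z) z := by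
  rw [PiLp.inner_apply]
  refine Finset.sum_congr rfl fun i _ => ?_
  have h := prjM_mul m k L z i
  calc ∑ j, prjM m k L i j * (z i * z j) = z i * ∑ j, prjM m k L i j * z j := by
        rw [Finset.mul_sum]
        refine Finset.sum_congr rfl fun j _ => ?_
        ring
    _ = _ := by
        rw [h]
        simp

/-- The two vectors `c₁/|c₁|²`, `c₂/|c₂|²` for the point `x`. -/
noncomputable def vb (m k : ℕ) (L : X (m + 2) ≃ₗᵢ[ℝ] X (m + 2)) (x : X (m + 2)) : X (m + 2) :=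
  ((m : ℝ) / k) • prj m k L x

/-- The two vectors `c₁/|c₁|²`, `c₂/|c₂|²` for the point `x`. -/
noncomputable def vd (m k : ℕ) (L : X (m + 2) ≃ₗᵢ[ℝ] X (m + 2)) (x : X (m + 2)) : X (m + 2) :=
  ((m : ℝ) / (m - k)) • (x - prj m k L x)

theorem norm_prj (m k : ℕ) (L : X (m + 2) ≃ₗᵢ[ℝ] X (m + 2)) (x : X (m + 2)) :
    (inner ℝ (prj m k L x) (prj m k L x) : ℝ) = inner ℝ (prj m k L x) x := by
  rw [prj_comm m k L x (prj m k L x), prj_prj, prj_comm m k L x x]

theorem norm_prj' (m k : ℕ) (L : X (m + 2) ≃ₗᵢ[ℝ] X (m + 2)) (x : X (m + 2)) :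
    (inner ℝ (x - prj m k L x) (x - prj m k L x) : ℝ) =
      inner ℝ x x - inner ℝ (prj m k L x) x := by
  rw [inner_sub_left, inner_sub_right, inner_sub_right, norm_prj, prj_comm m k L x x]
  ring

theorem pair_of (m k : ℕ) (hk1 : 1 ≤ k) (hkm : k + 1 ≤ m) (L : X (m + 2) ≃ₗᵢ[ℝ] X (m + 2))
    (x : X (m + 2)) (hx : (inner ℝ x x : ℝ) = 1) (hP : (inner ℝ (prj m k L x) x : ℝ) = k / m) :
    Pair k (prjM m k L) (fun i => vb m k L x i) (fun i => vd m k L x i) := by
  have hmR : (0 : ℝ) < m := by exact_mod_cast (by omega : 0 < m)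
  have hkR : (0 : ℝ) < k := by exact_mod_cast (by omega : 0 < k)
  have hkmR : (0 : ℝ) < (m : ℝ) - k := by
    have : (k : ℝ) < m := by exact_mod_cast (by omega : k < m)
    linarith
  have hsq : ∀ z : X (m + 2), ∑ i, z i ^ 2 = inner ℝ z z := by
    intro z
    rw [PiLp.inner_apply]
    refine Finset.sum_congr rfl fun i _ => ?_
    simp [sq]
  refine ⟨?_, ?_, ?_, ?_⟩
  · intro i
    rw [prjM_mul, vb, map_smul, prj_prj]
  · intro i
    rw [prjM_mul, vd, map_smul, map_sub, prj_prj, sub_self, smul_zero]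
    rfl
  · rw [hsq, vb, inner_smul_left, inner_smul_right, norm_prj, hP]
    simp only [conj_trivial]
    field_simp
  · rw [hsq, vd, inner_smul_left, inner_smul_right, norm_prj', hP, hx]
    simp only [conj_trivial]
    field_simp

/-- Equality in the Cauchy-Schwarz inequality. -/
theorem eq_of_h (m k : ℕ) (hk1 : 1 ≤ k) (hkm : k + 1 ≤ m) (L : X (m + 2) ≃ₗᵢ[ℝ] X (m + 2))
    (x z : X (m + 2)) (hx : (inner ℝ x x : ℝ) = 1) (hz : (inner ℝ z z : ℝ) = 1)
    (h1 : (inner ℝ (vb m k L x) z : ℝ) = 1) (h2 : (inner ℝ (vd m k L x) z : ℝ) = 1) : z = x := by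
  have hmR : (0 : ℝ) < m := by exact_mod_cast (by omega : 0 < m)
  have hkR : (0 : ℝ) < k := by exact_mod_cast (by omega : 0 < k)
  have hkmR : (0 : ℝ) < (m : ℝ) - k := by
    have : (k : ℝ) < m := by exact_mod_cast (by omega : k < m)
    linarith
  rw [vb, inner_smul_left] at h1
  rw [vd, inner_smul_left] at h2
  simp only [conj_trivial] at h1 h2
  have e1 : (inner ℝ (prj m k L x) z : ℝ) = k / m := by
    field_simp at h1 ⊢
    linarith
  have e2 : (inner ℝ (x - prj m k L x) z : ℝ) = (m - k) / m := by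
    field_simp at h2 ⊢
    linarith
  rw [inner_sub_left, e1] at e2
  have e3 : (inner ℝ x z : ℝ) = 1 := by
    have : (inner ℝ x z : ℝ) = (m - k) / m + k / m := by linarith
    rw [this]
    field_simp
    ring
  have e4 : (inner ℝ (z - x) (z - x) : ℝ) = 0 := by
    rw [inner_sub_left, inner_sub_right, inner_sub_right, hx, hz, real_inner_comm x z, e3]
    ring
  exact sub_eq_zero.mp (inner_self_eq_zero.mp e4)

end INJ

end MPfbfa44
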