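import Pool.Agent.Lib.MP_fbfa44_gt.IX.InjDefs

set_option autoImplicit false

/-!
# Row LHM: the immersion is a local homeomorphism onto `C`
-/

namespace MPfbfa44

open Set Filter Topology
open scoped Manifold ContDiff

/-- The local statement, with a neighbourhood. -/
theorem lhm_local {m n : ℕ} {phi : X m → X n} {u0 : X m} (hphi : ContDiffAt ℝ 1 phi u0)
    (hinj : Function.Injective (fderiv ℝ phi u0)) (C U : Set (X n)) (hU : IsOpen U)
    (hu0 : phi u0 ∈ U) (hC : ∀ u, phi u ∈ C)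
    (hCU : ∀ c ∈ C ∩ U, ∀ c' ∈ C ∩ U,
      (∀ v, (inner ℝ (c - c') (fderiv ℝ phi u0 v) : ℝ) = 0) → c = c') {N : Set (X m)}
    (hN : N ∈ 𝓝 u0) :
    ∀ᶠ y in 𝓝 (phi u0), y ∈ C → y ∈ phi '' N := by
  set D : X m →L[ℝ] X n := fderiv ℝ phi u0 with hD
  set Dt : X n →L[ℝ] X m := ContinuousLinearMap.adjoint D with hDt
  have hst : HasStrictFDerivAt phi D u0 := by
    rw [hD]
    exact hphi.hasStrictFDerivAt (by norm_num)
  have hT : HasStrictFDerivAt (fun u => Dt (phi u)) (Dt.comp D) u0 :=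
    Dt.hasStrictFDerivAt.comp u0 hst
  have hinj2 : Function.Injective (Dt.comp D).toLinearMap := by
    rw [injective_iff_map_eq_zero]
    intro v hv
    have h1 : Dt (D v) = 0 := hv
    have h2 : (inner ℝ (D v) (D v) : ℝ) = 0 := by
      rw [← ContinuousLinearMap.adjoint_inner_left, ← hDt, h1, inner_zero_left]
    have h3 : D v = 0 := inner_self_eq_zero.1 h2
    exact hinj (by rw [h3, map_zero])
  have hrange : (Dt.comp D).toLinearMap.range = ⊤ :=
    LinearMap.range_eq_top.mpr ((LinearMap.injective_iff_surjective).mp hinj2)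
  have hmap : map (fun u => Dt (phi u)) (𝓝 u0) = 𝓝 (Dt (phi u0)) :=
    hT.map_nhds_eq_of_surj hrange
  have hN2 : N ∩ {u | phi u ∈ U} ∈ 𝓝 u0 :=
    inter_mem hN (hphi.continuousAt (hU.mem_nhds hu0))
  have him := image_mem_map (m := fun u => Dt (phi u)) hN2
  rw [hmap] at him
  have hc1 : ∀ᶠ y in 𝓝 (phi u0), Dt y ∈ (fun u => Dt (phi u)) '' (N ∩ {u | phi u ∈ U}) :=
    (Dt.continuous.continuousAt (x := phi u0)) him
  filter_upwards [hc1, hU.mem_nhds hu0] with y hy hyU hyC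
  obtain ⟨u, ⟨huN, hu⟩, huy⟩ := hy
  refine ⟨u, huN, ?_⟩
  refine (hCU y ⟨hyC, hyU⟩ (phi u) ⟨hC u, hu⟩ fun v => ?_).symm
  rw [← ContinuousLinearMap.adjoint_inner_left, ← hDt, map_sub, ← huy]
  simp

/-- An immersion is locally injective. -/
theorem lhm_inj {m n : ℕ} {phi : X m → X n} {u0 : X m} (hphi : ContDiffAt ℝ 1 phi u0)
    (hinj : Function.Injective (fderiv ℝ phi u0)) : ∃ N ∈ 𝓝 u0, InjOn phi N := by
  set D : X m →L[ℝ] X n := fderiv ℝ phi u0 with hD
  set Dt : X n →L[ℝ] X m := ContinuousLinearMap.adjoint D with hDt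
  have hst : HasStrictFDerivAt phi D u0 := by
    rw [hD]
    exact hphi.hasStrictFDerivAt (by norm_num)
  have hT : HasStrictFDerivAt (fun u => Dt (phi u)) (Dt.comp D) u0 :=
    Dt.hasStrictFDerivAt.comp u0 hst
  have hinj2 : Function.Injective (Dt.comp D).toLinearMap := by
    rw [injective_iff_map_eq_zero]
    intro v hv
    have h1 : Dt (D v) = 0 := hv
    have h2 : (inner ℝ (D v) (D v) : ℝ) = 0 := by
      rw [← ContinuousLinearMap.adjoint_inner_left, ← hDt, h1, inner_zero_left]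
    have h3 : D v = 0 := inner_self_eq_zero.1 h2
    exact hinj (by rw [h3, map_zero])
  have hsurj := (LinearMap.injective_iff_surjective).mp hinj2
  let e : X m ≃L[ℝ] X m := (LinearEquiv.ofBijective (Dt.comp D).toLinearMap
    ⟨hinj2, hsurj⟩).toContinuousLinearEquiv
  have he : (e : X m →L[ℝ] X m) = Dt.comp D := by
    ext v
    rfl
  have hT' : HasStrictFDerivAt (fun u => Dt (phi u)) (e : X m →L[ℝ] X m) u0 := by
    rw [he]
    exact hT
  refine ⟨(hT'.toOpenPartialHomeomorph (fun u => Dt (phi u))).source,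
    (hT'.toOpenPartialHomeomorph (fun u => Dt (phi u))).open_source.mem_nhds
      hT'.mem_toOpenPartialHomeomorph_source, ?_⟩
  intro u hu u' hu' huu
  refine (hT'.toOpenPartialHomeomorph (fun u => Dt (phi u))).injOn hu hu' ?_
  change Dt (phi u) = Dt (phi u')
  rw [huu]

section

variable {m : ℕ} {M : Type} [TopologicalSpace M] [ChartedSpace (X m) M] (S : Hypersurface m M)

/-- The immersion in a chart: a smooth map of `X m` with the right derivative. -/
theorem lhm_chart (p : M) : ∃ phi : X m → X (m + 2), phi = S.x ∘ (extChartAt (𝓡 m) p).symm ∧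
    ContDiffAt ℝ 1 phi (extChartAt (𝓡 m) p p) ∧
    fderiv ℝ phi (extChartAt (𝓡 m) p p) = der m S.x p ∧ phi (extChartAt (𝓡 m) p p) = S.x p := by
  have hxp : ContMDiffAt (𝓡 m) 𝓘(ℝ, X (m + 2)) ∞ S.x p := S.smooth_x p
  refine ⟨S.x ∘ (extChartAt (𝓡 m) p).symm, rfl, ?_, ?_, ?_⟩
  · have h := (contMDiffAt_iff.mp hxp).2
    have h2 : ContDiffAt ℝ ∞ (S.x ∘ (extChartAt (𝓡 m) p).symm) (extChartAt (𝓡 m) p p) := by
      simpa [contDiffWithinAt_univ] using h
    exact h2.of_le (by simp)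
  · have hmd : MDifferentiableAt (𝓡 m) 𝓘(ℝ, X (m + 2)) S.x p := hxp.mdifferentiableAt (by simp)
    rw [der, hmd.mfderiv]
    simp [writtenInExtChartAt, fderivWithin_univ]
  · simp

/-- The immersion is locally injective. -/
theorem lhm_locinj (p : M) : ∃ N ∈ 𝓝 p, InjOn S.x N := by
  obtain ⟨phi, hphi, hcd, hfd, hpp⟩ := lhm_chart S p
  obtain ⟨N, hN, hNi⟩ := lhm_inj hcd (by rw [hfd]; exact S.immersion p)
  refine ⟨(extChartAt (𝓡 m) p) ⁻¹' N ∩ (extChartAt (𝓡 m) p).source,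
    inter_mem ((continuousAt_extChartAt (I := 𝓡 m) p) hN) (extChartAt_source_mem_nhds p), ?_⟩
  intro q hq q' hq' hqq
  have h1 : phi (extChartAt (𝓡 m) p q) = phi (extChartAt (𝓡 m) p q') := by
    rw [hphi]
    simp only [Function.comp_apply]
    rw [(extChartAt (𝓡 m) p).left_inv hq.2, (extChartAt (𝓡 m) p).left_inv hq'.2, hqq]
  have h2 := hNi hq.1 hq'.1 h1
  exact (extChartAt (𝓡 m) p).injOn hq.2 hq'.2 h2

/-- The immersion is open onto `C`. -/
theorem lhm_open (C : Set (X (m + 2))) (hsub : ∀ p, S.x p ∈ C)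
    (hloc : ∀ p : M, ∃ U : Set (X (m + 2)), IsOpen U ∧ S.x p ∈ U ∧ ∀ c ∈ C ∩ U, ∀ c' ∈ C ∩ U,
      (∀ v, (inner ℝ (c - c') (der m S.x p v) : ℝ) = 0) → c = c')
    (p : M) (N : Set M) (hN : N ∈ 𝓝 p) : ∀ᶠ y in 𝓝 (S.x p), y ∈ C → y ∈ S.x '' N := by
  obtain ⟨U, hU, hpU, hCU⟩ := hloc p
  obtain ⟨phi, hphi, hcd, hfd, hpp⟩ := lhm_chart S p
  have hN' : (extChartAt (𝓡 m) p).symm ⁻¹' N ∈ 𝓝 (extChartAt (𝓡 m) p p) := by
    have h1 : ContinuousAt (extChartAt (𝓡 m) p).symm (extChartAt (𝓡 m) p p) :=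
      continuousAt_extChartAt_symm (I := 𝓡 m) p
    refine h1 ?_
    rw [extChartAt_to_inv (I := 𝓡 m) p]
    exact hN
  have h := lhm_local (phi := phi) (u0 := extChartAt (𝓡 m) p p) hcd
    (by rw [hfd]; exact S.immersion p) C U hU (by rw [hpp]; exact hpU)
    (fun u => by rw [hphi]; exact hsub _) (by rw [hfd]; exact hCU) hN'
  rw [hpp] at h
  filter_upwards [h] with y hy hyC
  obtain ⟨u, hu, huy⟩ := hy hyC
  exact ⟨(extChartAt (𝓡 m) p).symm u, hu, by rw [← huy, hphi]; rfl⟩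

/-- The immersion is a local homeomorphism onto `C`. -/
theorem lhm_main (C : Set (X (m + 2))) (hsub : ∀ p, S.x p ∈ C)
    (hloc : ∀ p : M, ∃ U : Set (X (m + 2)), IsOpen U ∧ S.x p ∈ U ∧ ∀ c ∈ C ∩ U, ∀ c' ∈ C ∩ U,
      (∀ v, (inner ℝ (c - c') (der m S.x p v) : ℝ) = 0) → c = c') :
    IsLocalHomeomorph (fun p : M => (⟨S.x p, hsub p⟩ : C)) := by
  have hcont : Continuous (fun p : M => (⟨S.x p, hsub p⟩ : C)) :=
    Continuous.subtype_mk S.smooth_x.continuous _
  have hopen : IsOpenMap (fun p : M => (⟨S.x p, hsub p⟩ : C)) := by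
    refine IsOpenMap.of_nhds_le fun p => ?_
    intro W hW
    have h1 := lhm_open S C hsub hloc p _ hW
    have h2 : Tendsto (Subtype.val : C → X (m + 2)) (𝓝 ⟨S.x p, hsub p⟩) (𝓝 (S.x p)) :=
      continuous_subtype_val.continuousAt
    filter_upwards [h2.eventually h1] with z hz
    obtain ⟨q, hq, hqz⟩ := hz z.2
    have : z = (⟨S.x q, hsub q⟩ : C) := Subtype.ext hqz.symm
    rw [this]
    exact hq
  rw [isLocalHomeomorph_iff_isOpenEmbedding_restrict]
  intro p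
  obtain ⟨N, hN, hNi⟩ := lhm_locinj S p
  obtain ⟨N', hN', hN'o, hpN'⟩ := mem_nhds_iff.1 hN
  refine ⟨N', hN'o.mem_nhds hpN', ?_⟩
  refine IsOpenEmbedding.of_continuous_injective_isOpenMap
    (hcont.comp continuous_subtype_val) ?_ (hopen.comp hN'o.isOpenMap_subtype_val)
  rintro ⟨q, hq⟩ ⟨q', hq'⟩ hqq
  have h1 : S.x q = S.x q' := congrArg Subtype.val hqq
  exact Subtype.ext (hNi (hN' hq) (hN' hq') h1)

end

theorem lhm_proof : LhmStatement := by
  intro m M _ _ _ S C hC hloc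
  exact lhm_main S C hC hloc

end MPfbfa44
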