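import Pool.Agent.Lib.MP_fbfa44_gt.IX.InjDefs

set_option autoImplicit false

/-!
# Row TOP
-/

namespace MPfbfa44

open scoped Manifold ContDiff unitInterval

namespace TopRow

/-- A sum over one of the two blocks. -/
def bs {n : ℕ} (q : Fin n → Prop) [DecidablePred q] (f : Fin n → ℝ) : ℝ :=
  ∑ i, if q i then f i else 0

theorem bs_add {n : ℕ} (q : Fin n → Prop) [DecidablePred q] (f g : Fin n → ℝ) :
    bs q (fun i => f i + g i) = bs q f + bs q g := by
  unfold bs
  rw [← Finset.sum_add_distrib]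
  refine Finset.sum_congr rfl fun i _ => ?_
  split_ifs <;> simp

theorem bs_mul {n : ℕ} (q : Fin n → Prop) [DecidablePred q] (a : ℝ) (f : Fin n → ℝ) :
    bs q (fun i => a * f i) = a * bs q f := by
  unfold bs
  rw [Finset.mul_sum]
  refine Finset.sum_congr rfl fun i _ => ?_
  split_ifs <;> simp

theorem bs_nonneg {n : ℕ} (q : Fin n → Prop) [DecidablePred q] (f : Fin n → ℝ)
    (h : ∀ i, 0 ≤ f i) : 0 ≤ bs q f := by
  refine Finset.sum_nonneg fun i _ => ?_
  split_ifs
  · exact h i
  · exact le_rfl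

theorem bs_congr {n : ℕ} (q : Fin n → Prop) [DecidablePred q] (f g : Fin n → ℝ)
    (h : ∀ i, q i → f i = g i) : bs q f = bs q g := by
  refine Finset.sum_congr rfl fun i _ => ?_
  by_cases hi : q i
  · simp [hi, h i hi]
  · simp [hi]

/-- The segment. -/
theorem bs_seg {n : ℕ} (q : Fin n → Prop) [DecidablePred q] (c y : Fin n → ℝ) (r t : ℝ)
    (hc : bs q (fun i => c i ^ 2) = r) (hy : bs q (fun i => y i ^ 2) = r) :
    bs q (fun i => ((1 - t) * y i + t * c i) ^ 2) =
      r - 2 * t * (1 - t) * (r - bs q (fun i => c i * y i)) := by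
  have h1 : bs q (fun i => ((1 - t) * y i + t * c i) ^ 2) =
      bs q (fun i => (1 - t) ^ 2 * y i ^ 2 + (t ^ 2 * c i ^ 2 +
        2 * t * (1 - t) * (c i * y i))) := bs_congr q _ _ fun i _ => by ring
  rw [h1, bs_add, bs_add, bs_mul, bs_mul, bs_mul, hc, hy]
  ring

theorem bs_ge {n : ℕ} (q : Fin n → Prop) [DecidablePred q] (c y : Fin n → ℝ) (r : ℝ)
    (hc : bs q (fun i => c i ^ 2) = r) (hy : bs q (fun i => y i ^ 2) = r) :
    -r ≤ bs q (fun i => c i * y i) := by
  have h1 : 0 ≤ bs q (fun i => (c i + y i) ^ 2) := bs_nonneg q _ fun i => sq_nonneg _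
  have h2 : bs q (fun i => (c i + y i) ^ 2) = bs q (fun i => c i ^ 2 + (y i ^ 2 +
      2 * (c i * y i))) := bs_congr q _ _ fun i _ => by ring
  rw [h2, bs_add, bs_add, bs_mul, hc, hy] at h1
  linarith

/-- The denominator is positive. -/
theorem den_pos (t s : ℝ) (h0 : 0 ≤ t) (ht1 : t ≤ 1) (hs : 0 < 1 + s) :
    0 < 1 - 2 * t * (1 - t) * (1 - s) := by
  have h : 0 ≤ t * (1 - t) := mul_nonneg h0 (by linarith)
  have h2 : 4 * (t * (1 - t)) ≤ 1 := by nlinarith [sq_nonneg (2 * t - 1)]
  have h4 : 2 * t * (1 - t) * (1 - s) = 2 * (t * (1 - t)) * (1 - s) := by ring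
  rcases eq_or_lt_of_le h with h3 | h3
  · rw [h4, ← h3]
    norm_num
  · have h5 : 2 * (t * (1 - t)) * (1 - s) < 2 * (t * (1 - t)) * 2 :=
      mul_lt_mul_of_pos_left (by linarith) (by linarith)
    rw [h4]
    linarith

variable {m k : ℕ}

theorem h1_eq (c y : X (m + 2)) : h1 m k c y =
    m / k * bs (fun i : Fin (m + 2) => (i : ℕ) < k + 1) (fun i => c i * y i) := rfl

theorem h2_eq (c y : X (m + 2)) : h2 m k c y =
    m / (m - k) * bs (fun i : Fin (m + 2) => ¬ (i : ℕ) < k + 1) (fun i => c i * y i) := by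
  unfold h2 bs
  simp only [ite_not]

theorem mem_iff (y : X (m + 2)) : y ∈ clifford m k ↔
    bs (fun i : Fin (m + 2) => (i : ℕ) < k + 1) (fun i => y i ^ 2) = k / m ∧
    bs (fun i : Fin (m + 2) => ¬ (i : ℕ) < k + 1) (fun i => y i ^ 2) = (m - k : ℝ) / m := by
  unfold clifford bs
  simp only [ite_not, Set.mem_ofPred_eq]

/-- The value of `h₁` or `h₂`, according to the block of `i`. -/
noncomputable def hh (m k : ℕ) (c y : X (m + 2)) (i : Fin (m + 2)) : ℝ :=
  if (i : ℕ) < k + 1 then h1 m k c y else h2 m k c y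

/-- The contraction. -/
noncomputable def con (m k : ℕ) (c : X (m + 2)) (t : ℝ) (y : X (m + 2)) : X (m + 2) :=
  WithLp.toLp 2 fun i => ((1 - t) * y i + t * c i) /
    Real.sqrt (1 - 2 * t * (1 - t) * (1 - hh m k c y i))

section facts

variable (hk : 1 ≤ k) (hkm : k + 1 ≤ m) {c y : X (m + 2)} (hc : c ∈ clifford m k)
  (hy : y ∈ clifford m k)

include hk hkm hc hy

omit hc hy in
theorem r1 : bs (fun i : Fin (m + 2) => (i : ℕ) < k + 1) (fun i => c i * y i) =
    k / m * h1 m k c y := by
  have hk0 : (k : ℝ) ≠ 0 := by positivity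
  have hm0 : (m : ℝ) ≠ 0 := by
    have : 0 < m := by omega
    positivity
  rw [h1_eq]
  field_simp

omit hc hy in
theorem r2 : bs (fun i : Fin (m + 2) => ¬ (i : ℕ) < k + 1) (fun i => c i * y i) =
    (m - k : ℝ) / m * h2 m k c y := by
  have hk0 : (m - k : ℝ) ≠ 0 := by
    have : (k : ℝ) + 1 ≤ m := by exact_mod_cast hkm
    intro h
    linarith
  have hm0 : (m : ℝ) ≠ 0 := by
    have : 0 < m := by omega
    positivity
  rw [h2_eq]
  field_simp

theorem h1_ge : 0 ≤ 1 + h1 m k c y := by
  have hk0 : (0 : ℝ) < k := by positivity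
  have hm0 : (0 : ℝ) < m := by
    have : 0 < m := by omega
    positivity
  have h := bs_ge _ _ _ _ ((mem_iff c).1 hc).1 ((mem_iff y).1 hy).1
  rw [r1 hk hkm] at h
  have h3 : 0 < (k : ℝ) / m := by positivity
  by_contra hcon
  push Not at hcon
  nlinarith

theorem h2_ge : 0 ≤ 1 + h2 m k c y := by
  have hk0 : (0 : ℝ) < m - k := by
    have : (k : ℝ) + 1 ≤ m := by exact_mod_cast hkm
    linarith
  have hm0 : (0 : ℝ) < m := by
    have : 0 < m := by omega
    positivity
  have h := bs_ge _ _ _ _ ((mem_iff c).1 hc).2 ((mem_iff y).1 hy).2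
  rw [r2 hk hkm] at h
  have h3 : 0 < (m - k : ℝ) / m := by positivity
  by_contra hcon
  push Not at hcon
  nlinarith

theorem con_mem (h1p : 0 < 1 + h1 m k c y) (h2p : 0 < 1 + h2 m k c y) {t : ℝ} (h0 : 0 ≤ t)
    (ht1 : t ≤ 1) : con m k c t y ∈ clifford m k := by
  have hk0 : (0 : ℝ) < m - k := by
    have : (k : ℝ) + 1 ≤ m := by exact_mod_cast hkm
    linarith
  have hm0 : (0 : ℝ) < m := by
    have : 0 < m := by omega
    positivity
  have hkk : (0 : ℝ) < k := by positivity
  rw [mem_iff]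
  constructor
  · have hd := den_pos t _ h0 ht1 h1p
    have e1 : bs (fun i : Fin (m + 2) => (i : ℕ) < k + 1) (fun i => con m k c t y i ^ 2) =
        bs (fun i : Fin (m + 2) => (i : ℕ) < k + 1) (fun i =>
          (1 - 2 * t * (1 - t) * (1 - h1 m k c y))⁻¹ * ((1 - t) * y i + t * c i) ^ 2) := by
      refine bs_congr _ _ _ fun i hi => ?_
      have e2 : con m k c t y i = ((1 - t) * y i + t * c i) /
        Real.sqrt (1 - 2 * t * (1 - t) * (1 - hh m k c y i)) := rfl
      rw [e2, hh, if_pos hi, div_pow, Real.sq_sqrt hd.le, div_eq_inv_mul]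
    rw [e1, bs_mul, bs_seg _ _ _ _ t ((mem_iff c).1 hc).1 ((mem_iff y).1 hy).1,
      r1 hk hkm]
    field_simp
  · have hd := den_pos t _ h0 ht1 h2p
    have e1 : bs (fun i : Fin (m + 2) => ¬ (i : ℕ) < k + 1) (fun i => con m k c t y i ^ 2) =
        bs (fun i : Fin (m + 2) => ¬ (i : ℕ) < k + 1) (fun i =>
          (1 - 2 * t * (1 - t) * (1 - h2 m k c y))⁻¹ * ((1 - t) * y i + t * c i) ^ 2) := by
      refine bs_congr _ _ _ fun i hi => ?_
      have e2 : con m k c t y i = ((1 - t) * y i + t * c i) /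
        Real.sqrt (1 - 2 * t * (1 - t) * (1 - hh m k c y i)) := rfl
      rw [e2, hh, if_neg hi, div_pow, Real.sq_sqrt hd.le, div_eq_inv_mul]
    rw [e1, bs_mul, bs_seg _ _ _ _ t ((mem_iff c).1 hc).2 ((mem_iff y).1 hy).2,
      r2 hk hkm]
    field_simp

end facts

theorem con_zero (c y : X (m + 2)) : con m k c 0 y = y := by
  ext i
  simp [con]

theorem con_one (c y : X (m + 2)) : con m k c 1 y = c := by
  ext i
  simp [con]

theorem h1_self (hk : 1 ≤ k) (hkm : k + 1 ≤ m) {c : X (m + 2)} (hc : c ∈ clifford m k) :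
    h1 m k c c = 1 := by
  have hm0 : (0 : ℝ) < m := by
    have : 0 < m := by omega
    positivity
  have hkk : (0 : ℝ) < k := by positivity
  have h := ((mem_iff c).1 hc).1
  have e : bs (fun i : Fin (m + 2) => (i : ℕ) < k + 1) (fun i => c i * c i) =
      bs (fun i : Fin (m + 2) => (i : ℕ) < k + 1) (fun i => c i ^ 2) :=
    bs_congr _ _ _ fun i _ => by ring
  rw [h1_eq, e, h]
  field_simp

theorem h2_self (hk : 1 ≤ k) (hkm : k + 1 ≤ m) {c : X (m + 2)} (hc : c ∈ clifford m k) :
    h2 m k c c = 1 := by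
  have hm0 : (0 : ℝ) < m := by
    have : 0 < m := by omega
    positivity
  have hk0 : (0 : ℝ) < m - k := by
    have : (k : ℝ) + 1 ≤ m := by exact_mod_cast hkm
    linarith
  have h := ((mem_iff c).1 hc).2
  have e : bs (fun i : Fin (m + 2) => ¬ (i : ℕ) < k + 1) (fun i => c i * c i) =
      bs (fun i : Fin (m + 2) => ¬ (i : ℕ) < k + 1) (fun i => c i ^ 2) :=
    bs_congr _ _ _ fun i _ => by ring
  rw [h2_eq, e, h]
  field_simp

theorem con_self (hk : 1 ≤ k) (hkm : k + 1 ≤ m) {c : X (m + 2)} (hc : c ∈ clifford m k) (t : ℝ) :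
    con m k c t c = c := by
  ext i
  have e2 : con m k c t c i = ((1 - t) * c i + t * c i) /
        Real.sqrt (1 - 2 * t * (1 - t) * (1 - hh m k c c i)) := rfl
  have e3 : hh m k c c i = 1 := by
    unfold hh
    split_ifs
    · exact h1_self hk hkm hc
    · exact h2_self hk hkm hc
  rw [e2, e3]
  simp
  ring

theorem continuous_h1 (c : X (m + 2)) : Continuous (h1 m k c) := by
  unfold h1
  refine continuous_const.mul (continuous_finsetSum _ fun i _ => ?_)
  split_ifs
  · fun_prop
  · exact continuous_const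

theorem continuous_h2 (c : X (m + 2)) : Continuous (h2 m k c) := by
  unfold h2
  refine continuous_const.mul (continuous_finsetSum _ fun i _ => ?_)
  split_ifs
  · exact continuous_const
  · fun_prop

theorem continuous_hh (c : X (m + 2)) (i : Fin (m + 2)) : Continuous fun y => hh m k c y i := by
  unfold hh
  split_ifs
  · exact continuous_h1 c
  · exact continuous_h2 c

end TopRow

open TopRow

theorem top_proof : TopStatement := by
  intro m k hk hkm M _ _ _ y hy p₀ p₁ h01 hA
  have cov : IsCoveringMap y := isLocalHomeomorph_iff_isCoveringMap.1 hy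
  have ycont : Continuous y := cov.continuous
  set c : X (m + 2) := ((y p₀ : clifford m k) : X (m + 2)) with hcdef
  have hc : c ∈ clifford m k := (y p₀).2
  set A : Set M := {p : M | 0 < (1 + h1 m k c (y p)) * (1 + h2 m k c (y p))} with hAdef
  have hpos : ∀ p ∈ A, 0 < 1 + h1 m k c (y p) ∧ 0 < 1 + h2 m k c (y p) := by
    intro p hp
    have a1 := h1_ge hk hkm hc (y p).2
    have a2 := h2_ge hk hkm hc (y p).2
    have a3 : 0 < (1 + h1 m k c (y p)) * (1 + h2 m k c (y p)) := hp
    constructor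
    · rcases a1.lt_or_eq with h | h
      · exact h
      · rw [← h, zero_mul] at a3
        exact absurd a3 (lt_irrefl _)
    · rcases a2.lt_or_eq with h | h
      · exact h
      · rw [← h, mul_zero] at a3
        exact absurd a3 (lt_irrefl _)
  have hdpos : ∀ (t : I) (p : A) (i : Fin (m + 2)),
      0 < 1 - 2 * (t : ℝ) * (1 - t) * (1 - hh m k c (y p) i) := by
    intro t p i
    have h := hpos p.1 p.2
    unfold hh
    split_ifs
    · exact den_pos _ _ t.2.1 t.2.2 h.1
    · exact den_pos _ _ t.2.1 t.2.2 h.2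
  have Hcont : Continuous fun q : I × A => (⟨con m k c q.1 (y q.2), con_mem hk hkm hc (y q.2).2
      (hpos q.2.1 q.2.2).1 (hpos q.2.1 q.2.2).2 q.1.2.1 q.1.2.2⟩ : clifford m k) := by
    refine Continuous.subtype_mk ?_ _
    refine (PiLp.continuous_toLp 2 _).comp (continuous_pi fun i => ?_)
    have c1 : Continuous fun q : I × A => ((y q.2 : clifford m k) : X (m + 2)) :=
      continuous_subtype_val.comp (ycont.comp (continuous_subtype_val.comp continuous_snd))
    have c2 : Continuous fun q : I × A => (q.1 : ℝ) := continuous_subtype_val.comp continuous_fst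
    have c3 : Continuous fun q : I × A => ((y q.2 : clifford m k) : X (m + 2)) i := by
      exact (EuclideanSpace.proj i).continuous.comp c1
    have c4 : Continuous fun q : I × A => hh m k c (y q.2) i := (continuous_hh c i).comp c1
    refine Continuous.div (by fun_prop) (by fun_prop) fun q => ?_
    exact (Real.sqrt_pos.2 (hdpos q.1 q.2 i)).ne'
  let H : C(I × A, clifford m k) := ⟨_, Hcont⟩
  let f : C(A, M) := ⟨Subtype.val, continuous_subtype_val⟩
  have H0 : ∀ a, H (0, a) = y (f a) := by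
    intro a
    refine Subtype.ext ?_
    exact con_zero c (y a)
  have H1 : ∀ a, H (1, a) = y p₀ := by
    intro a
    refine Subtype.ext ?_
    exact con_one c (y a)
  let g : A → M := fun a => cov.liftHomotopy H f H0 (1, a)
  have gcont : Continuous g := (cov.liftHomotopy H f H0).continuous.comp (by fun_prop)
  have gy : ∀ a, y (g a) = y p₀ := by
    intro a
    have h := congrFun (cov.liftHomotopy_lifts H f H0) (1, a)
    exact h.trans (H1 a)
  have : PreconnectedSpace A := isPreconnected_iff_preconnectedSpace.1 hA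
  have gconst : ∀ a a', g a = g a' := fun a a' =>
    cov.const_of_comp gcont (fun a a' => (gy a).trans (gy a').symm) a a'
  have fixed : ∀ a : A, y a = y p₀ → g a = a := by
    intro a ha
    have h2 : ∀ t : I, H (t, a) = y a := by
      intro t
      refine Subtype.ext ?_
      have e1 : ((y a : clifford m k) : X (m + 2)) = c := by rw [ha]
      change con m k c t (y a) = y a
      rw [e1]
      exact con_self hk hkm hc t
    have h3 : ContinuousMap.const I (a : M) = cov.liftPath
        (H.comp <| (ContinuousMap.id I).prodMk <| .const I a) (f a) (H0 a) :=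
      (cov.eq_liftPath_iff' _).2 ⟨funext fun t => (h2 t).symm, rfl⟩
    have h4 := congrArg (fun Γ : C(I, M) => Γ 1) h3
    exact h4.symm
  have hp : ∀ p, y p = y p₀ → p ∈ A := by
    intro p hp
    change 0 < (1 + h1 m k c (y p)) * (1 + h2 m k c (y p))
    rw [hp, ← hcdef, h1_self hk hkm hc, h2_self hk hkm hc]
    norm_num
  have e0 := fixed ⟨p₀, hp p₀ rfl⟩ rfl
  have e1 := fixed ⟨p₁, hp p₁ h01.symm⟩ h01.symm
  have e2 := gconst ⟨p₀, hp p₀ rfl⟩ ⟨p₁, hp p₁ h01.symm⟩
  rw [e0, e1] at e2
  exact e2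

end MPfbfa44
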