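import Mathlib
import Pool.Agent.Lib.MP_fbfa44_gt.IX.Injm
import Pool.Agent.Lib.MP_fbfa44_gt.IX.Cao
import Pool.Agent.Lib.MP_fbfa44_gt.IX.Clc
import Pool.Agent.Lib.MP_fbfa44_gt.IX.Cut
import Pool.Agent.Lib.MP_fbfa44_gt.IX.Lhm
import Pool.Agent.Lib.MP_fbfa44_gt.IX.Top
import Pool.Agent.Lib.MP_fbfa44_gt.IX.Str

set_option autoImplicit false

/-!
# Row INJ: the assembly
-/

namespace MPfbfa44

namespace INJ

open MeasureTheory
open scoped Manifold ContDiff Topology

theorem h1_eq (m k : ℕ) (L : X (m + 2) ≃ₗᵢ[ℝ] X (m + 2)) (x z : X (m + 2)) :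
    h1 m k (L.symm x) (L.symm z) = inner ℝ (vb m k L x) z := by
  rw [vb, inner_smul_left, prj_inner, inner_trunc, h1]
  simp

theorem h2_eq (m k : ℕ) (L : X (m + 2) ≃ₗᵢ[ℝ] X (m + 2)) (x z : X (m + 2)) :
    h2 m k (L.symm x) (L.symm z) = inner ℝ (vd m k L x) z := by
  have e1 : (inner ℝ x z : ℝ) = ∑ i, L.symm x i * L.symm z i := by
    rw [← LinearIsometryEquiv.inner_map_map L.symm x z, PiLp.inner_apply]
    refine Finset.sum_congr rfl fun i _ => ?_
    simp [mul_comm]
  rw [vd, inner_smul_left, inner_sub_left, prj_inner, inner_trunc, h2, e1,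
    ← Finset.sum_sub_distrib]
  simp only [conj_trivial]
  congr 1
  refine Finset.sum_congr rfl fun i _ => ?_
  split_ifs <;> ring

theorem inner_sum {n : ℕ} (v w : X n) : (inner ℝ v w : ℝ) = ∑ i, v i * w i := by
  rw [PiLp.inner_apply]
  refine Finset.sum_congr rfl fun i _ => ?_
  simp [mul_comm]

/-- An immersion is not constant on a nonempty open set. -/
theorem not_const {m : ℕ} (hm : 1 ≤ m) {M : Type} [TopologicalSpace M] [ChartedSpace (X m) M]
    (S : Hypersurface m M) (U : Set M) (hU : IsOpen U) (p : M) (hp : p ∈ U) (c : X (m + 2))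
    (h : ∀ q ∈ U, S.x q = c) : False := by
  have h1 : S.x =ᶠ[𝓝 p] fun _ => c := by
    filter_upwards [hU.mem_nhds hp] with q hq using h q hq
  have h2 : der m S.x p = 0 := by
    unfold der
    rw [h1.mfderiv_eq, mfderiv_const]
    rfl
  have h3 := S.immersion p
  rw [h2] at h3
  have h4 : (cv (⟨0, by omega⟩ : Fin m) : X m) = 0 := h3 (by simp)
  have h5 := congrArg (fun v : X m => v ⟨0, by omega⟩) h4
  simp [cv] at h5

end INJ

open MeasureTheory INJ in
/-- Row INJ. -/
theorem inj_proof (hSph : SphStatement) (hTwo : TwoStatement) (hIdx : IdxStatement) :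
    InjStatement := by
  intro m hm M _ _ _ _ _ _ _ _ S hmin hq μ hμ hidx k hk1 hkm L hL p₀ p₁ h01
  by_contra hne
  have hmR : (0 : ℝ) < m := by exact_mod_cast (by omega : 0 < m)
  -- the calculus
  let G : Cal m := calOf S hmin μ hμ
  have hstr : G.Str := str_proof m G
  have hGq : ∀ p : M, G.q p = m := fun p => (calOf_q S hmin μ hμ p).trans (hq p)
  have hQ : ∀ f : M → ℝ, G.Sm f → ∫ p, G.q p * f p ∂G.μ = 0 → 0 ≤ G.Q0 f :=
    hIdx m G hstr (by omega) ⟨p₀, by rw [hGq]; exact hmR.ne'⟩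
      (calOf_idx S hmin μ hμ (m + 3) hidx)
  -- the Clifford hypersurface
  have hyM : ∀ q : M, L.symm (S.x q) ∈ clifford m k := by
    intro q
    obtain ⟨z, hz, hzq⟩ := hL ⟨q, rfl⟩
    rw [← hzq, LinearIsometryEquiv.symm_apply_apply]
    exact hz
  have hCp : ∀ q : M, S.x q ∈ L '' clifford m k := fun q => hL ⟨q, rfl⟩
  have hlh := lhm_proof m M S (L '' clifford m k) hCp
    (cliff_locinj grd_proof clc_proof hk1 hkm S L hL)
  let y : M → clifford m k := fun q => ⟨L.symm (S.x q), hyM q⟩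
  have hy : IsLocalHomeomorph y := by
    let e := (L.toHomeomorph.image (clifford m k)).symm
    have h1 : y = e ∘ (fun q => (⟨S.x q, hCp q⟩ : L.toHomeomorph '' clifford m k)) := by
      funext q
      apply e.symm.injective
      show e.symm (y q) = e.symm (e _)
      rw [e.symm_apply_apply]
      apply Subtype.ext
      show L (L.symm (S.x q)) = S.x q
      exact L.apply_symm_apply _
    rw [h1]
    exact e.isLocalHomeomorph.comp hlh
  have hxx : ∀ q, (inner ℝ (S.x q) (S.x q) : ℝ) = 1 := by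
    intro q
    rw [real_inner_self_eq_norm_sq, S.norm_x]; norm_num
  have hP : ∀ q, (inner ℝ (prj m k L (S.x q)) (S.x q) : ℝ) = k / m := by
    intro q
    rw [prj_inner]
    exact cliff_trunc (hyM q)
  -- the vectors
  let b : Fin (m + 2) → ℝ := fun i => vb m k L (S.x p₀) i
  let d : Fin (m + 2) → ℝ := fun i => vd m k L (S.x p₀) i
  have hb : ∀ q : M, G.h b q = inner ℝ (vb m k L (S.x p₀)) (S.x q) := fun q =>
    (inner_sum _ _).symm
  have hd : ∀ q : M, G.h d q = inner ℝ (vd m k L (S.x p₀)) (S.x q) := fun q =>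
    (inner_sum _ _).symm
  have hw : ∀ q : M, G.w b d q = (1 + h1 m k (y p₀) (y q)) * (1 + h2 m k (y p₀) (y q)) := by
    intro q
    show (1 + G.h b q) * (1 + G.h d q) = _
    rw [hb, hd, ← h1_eq, ← h2_eq]
  have hsplit : Split G k (prjM m k L) := by
    refine ⟨hk1, hkm, prjM_sym m k L, prjM_idem m k L, ?_⟩
    intro q
    exact (prj_sum m k L (S.x q)).trans (hP q)
  have hpair : Pair k (prjM m k L) b d := pair_of m k hk1 hkm L (S.x p₀) (hxx p₀) (hP p₀)
  have hs := (hSph m G hstr k (prjM m k L) hsplit).2 b d hpair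
  have hwcont : Continuous (G.w b d) := by
    have h1 : G.Sm (G.h b) := (hstr.ssum (m + 2) (fun i p => b i * G.x i p)
      (fun i => G.smul _ _ (G.sconst (b i)) (G.sx i))).1
    have h2 : G.Sm (G.h d) := (hstr.ssum (m + 2) (fun i p => d i * G.x i p)
      (fun i => G.smul _ _ (G.sconst (d i)) (G.sx i))).1
    exact G.cont _ (G.smul _ _ (G.sadd _ _ (G.sconst 1) h1) (G.sadd _ _ (G.sconst 1) h2))
  have hwS : Smooth m (fun q : M => G.w b d q) := by
    have h1 : G.Sm (G.h b) := (hstr.ssum (m + 2) (fun i p => b i * G.x i p)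
      (fun i => G.smul _ _ (G.sconst (b i)) (G.sx i))).1
    have h2 : G.Sm (G.h d) := (hstr.ssum (m + 2) (fun i p => d i * G.x i p)
      (fun i => G.smul _ _ (G.sconst (d i)) (G.sx i))).1
    exact G.smul _ _ (G.sadd _ _ (G.sconst 1) h1) (G.sadd _ _ (G.sconst 1) h2)
  have hw0 : ∀ q : M, 0 ≤ G.w b d q := by
    intro q
    obtain ⟨-, -, -, ⟨h1, -⟩, ⟨h2, -⟩⟩ := hs q
    exact mul_nonneg (by linarith) (by linarith)
  -- the set is not connected
  have hset : {p : M | 0 < (1 + h1 m k (y p₀) (y p)) * (1 + h2 m k (y p₀) (y p))} =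
      {p : M | 0 < G.w b d p} := by
    ext q
    show 0 < (1 + h1 m k (y p₀) (y q)) * (1 + h2 m k (y p₀) (y q)) ↔ 0 < G.w b d q
    rw [hw]
  have hnc : ¬ IsPreconnected {p : M | 0 < G.w b d p} := by
    intro h
    refine hne (top_proof m k hk1 hkm M y hy p₀ p₁ ?_ ?_)
    · apply Subtype.ext
      show L.symm (S.x p₀) = L.symm (S.x p₁)
      rw [h01]
    · rw [hset]
      exact h
  have hΩ : IsOpen {p : M | 0 < G.w b d p} := isOpen_lt continuous_const hwcont
  unfold IsPreconnected at hnc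
  push Not at hnc
  obtain ⟨u, v, hu, hv, huv, hnu, hnv, hemp⟩ := hnc
  set U : Set M := {p : M | 0 < G.w b d p} ∩ u with hUd
  set V : Set M := {p : M | 0 < G.w b d p} ∩ v with hVd
  have hU : IsOpen U := hΩ.inter hu
  have hV : IsOpen V := hΩ.inter hv
  have hdisj : Disjoint U V := by
    rw [Set.disjoint_left]
    rintro q ⟨hq1, hq2⟩ ⟨-, hq3⟩
    have : q ∈ ({p : M | 0 < G.w b d p} ∩ (u ∩ v)) := ⟨hq1, hq2, hq3⟩
    rw [hemp] at this
    exact this
  have hUV : ∀ p : M, 0 < G.w b d p ↔ p ∈ U ∪ V := by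
    intro q
    constructor
    · intro h
      rcases huv h with h1 | h1
      · exact Or.inl ⟨h, h1⟩
      · exact Or.inr ⟨h, h1⟩
    · rintro (h | h)
      · exact h.1
      · exact h.1
  have hlt : ∀ W : Set M, IsOpen W → W.Nonempty → (∀ q ∈ W, 0 < G.w b d q) →
      ∃ p ∈ W, G.h b p * G.h d p < 1 := by
    intro W hW ⟨q₀, hq₀⟩ hpos
    by_contra hcon
    push Not at hcon
    refine not_const (by omega) S W hW q₀ hq₀ (S.x p₀) fun q hqW => ?_
    obtain ⟨-, -, -, ⟨h1, h1'⟩, ⟨h2, h2'⟩⟩ := hs q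
    have h3 : 1 ≤ G.h b q * G.h d q := hcon q hqW
    have h4 : 0 < (1 + G.h b q) * (1 + G.h d q) := hpos q hqW
    have h5 : 0 < 1 + G.h b q := by
      rcases lt_or_eq_of_le (by linarith : 0 ≤ 1 + G.h b q) with h | h
      · exact h
      · rw [← h, zero_mul] at h4
        exact absurd h4 (lt_irrefl _)
    have h6 : 0 < 1 + G.h d q := by
      rcases lt_or_eq_of_le (by linarith : 0 ≤ 1 + G.h d q) with h | h
      · exact h
      · rw [← h, mul_zero] at h4
        exact absurd h4 (lt_irrefl _)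
    have h7 : 0 < G.h b q := by
      by_contra h
      have h8 : G.h b q ≤ 0 := not_lt.mp h
      nlinarith
    have h9 : 0 < G.h d q := by
      by_contra h
      have h8 : G.h d q ≤ 0 := not_lt.mp h
      nlinarith
    have e1 : G.h b q = 1 := by nlinarith
    have e2 : G.h d q = 1 := by nlinarith
    refine eq_of_h m k hk1 hkm L (S.x p₀) (S.x q) (hxx _) (hxx _) ?_ ?_
    · rw [← hb]; exact e1
    · rw [← hd]; exact e2
  have hcut : ∀ W W' : Set M, IsOpen W → IsOpen W' → Disjoint W W' →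
      (∀ p : M, 0 < G.w b d p ↔ p ∈ W ∪ W') → G.Cutoff (G.w b d) W := by
    intro W W' hW hW' hWW' hiff δ hδ
    obtain ⟨F, σ, f1, f2, f3, f4, f5, f6⟩ := cut_proof m M S (fun q : M => G.w b d q) W W' δ
      hwS hW hW' hWW'
      hw0 hiff hδ
    refine ⟨F, σ, f1, f2, f3, fun i p => ?_, f5, f6⟩
    show S.grad F p i = σ p * S.grad (fun q : M => G.w b d q) p i
    rw [f4 p]
    rfl
  refine hTwo m G hstr hm hGq hQ k (prjM m k L) hsplit b d hpair U V hU hV hdisj hUV
    (hlt U hU hnu fun q hq => hq.1) (hlt V hV hnv fun q hq => hq.1)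
    (hcut U V hU hV hdisj hUV) (hcut V U hV hU hdisj.symm fun q => ?_)
  rw [hUV q, Set.union_comm]

end MPfbfa44
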