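import Pool.Agent.Lib.MP_fbfa44_gt.IX.Cal

set_option autoImplicit false

/-!
# Row LIM, part 2: the weighted sum of the inequalities
-/

namespace MPfbfa44

open MeasureTheory

/-- the integrand of `QepStatement` -/
noncomputable def WL {m : ℕ} (G : Cal m) (t : ℝ) (b : Fin (m + 2) → ℝ) (c : ℝ) (p : G.M) : ℝ :=
  -((G.tau p - G.gp G.q G.q p / (4 * (G.q p + t))) * (G.h b p + c) ^ 2) +
    (G.q p * (G.gp (G.h b) (G.h b) p - m * (G.h b p + c) ^ 2) +
      t * (G.gp (G.h b) (G.h b) p - G.q p * (G.h b p + c) ^ 2))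

theorem neg_int_add {X : Type*} [MeasurableSpace X] {μ : Measure X} {f g : X → ℝ}
    (hf : Integrable f μ) (hg : Integrable g μ) :
    -(∫ p, f p ∂μ) + ∫ p, g p ∂μ = ∫ p, (-(f p) + g p) ∂μ := by
  have h1 : Integrable (fun p => -(f p)) μ := hf.neg
  rw [integral_add h1 hg, integral_neg]

theorem lim_sum (hG : GrnStatement) (hE : QepStatement) {m : ℕ} (G : Cal m) (st : G.Str)
    (hI : ∀ f, G.Sm f → ∫ p, G.q p * f p ∂G.μ = 0 → 0 ≤ G.Q0 f) (t : ℝ) (ht : 0 < t)
    (b : Fin (m + 2) → ℝ) (hb : ∑ i, b i ^ 2 ≤ 1)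
    (hc : ∀ i, ∫ p, G.q p * (Real.sqrt (G.q p + t) * (G.x i p - b i)) ∂G.μ = 0) :
    0 ≤ -(∫ p, (G.tau p - G.gp G.q G.q p / (4 * (G.q p + t))) * (1 - G.h b p) ^ 2 ∂G.μ) +
      ∫ p, (G.q p * (m * (1 - ∑ i, b i ^ 2) + G.gp (G.h b) (G.h b) p - m * (1 - G.h b p) ^ 2) +
        t * (m * (1 - ∑ i, b i ^ 2) + G.gp (G.h b) (G.h b) p -
          G.q p * (1 - G.h b p) ^ 2)) ∂G.μ := by
  classical
  obtain ⟨hint, -, hgrn, hlin⟩ := hG m G st
  set g2 := ∑ i, b i ^ 2 with hg2
  have hq0 : ∀ p, 0 ≤ G.q p := fun p => by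
    unfold Cal.q
    exact Finset.sum_nonneg fun i _ => Finset.sum_nonneg fun j _ => mul_self_nonneg _
  have hqt : ∀ p, 0 < G.q p + t := fun p => by
    have := hq0 p
    linarith
  have cq : Continuous G.q := G.cont _ st.sq
  have ctau : Continuous G.tau := G.cont _ st.stau
  have cgq : Continuous (G.gp G.q G.q) := G.cont _ (hgrn _ _ st.sq st.sq).1
  have ch : ∀ b, Continuous (G.h b) := fun b => G.cont _ (hlin b).1
  have cgh : ∀ b, Continuous (G.gp (G.h b) (G.h b)) := fun b =>
    G.cont _ (hgrn _ _ (hlin b).1 (hlin b).1).1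
  have sroot : G.Sm (fun p => Real.sqrt (G.q p + t)) :=
    G.ssqrt _ (G.sadd _ _ st.sq (G.sconst t)) hqt
  have croot : Continuous (fun p => Real.sqrt (G.q p + t)) := G.cont _ sroot
  have cx : ∀ i, Continuous (G.x i) := fun i => G.cont _ (G.sx i)
  have hs : ∀ (b : Fin (m + 2) → ℝ) (c : ℝ),
      G.Sm (fun p => Real.sqrt (G.q p + t) * (G.h b p + c)) := fun b c =>
    G.smul _ _ sroot (G.sadd _ _ (hlin b).1 (G.sconst c))
  have c1 : Continuous (fun p => G.tau p - G.gp G.q G.q p / (4 * (G.q p + t))) := by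
    refine ctau.sub (cgq.div (continuous_const.mul (cq.add continuous_const)) fun p => ?_)
    have := hqt p
    positivity
  have cA : ∀ (b : Fin (m + 2) → ℝ) (c : ℝ), Continuous
      (fun p => (G.tau p - G.gp G.q G.q p / (4 * (G.q p + t))) * (G.h b p + c) ^ 2) :=
    fun b c => c1.mul (((ch b).add continuous_const).pow 2)
  have cB : ∀ (b : Fin (m + 2) → ℝ) (c : ℝ), Continuous
      (fun p => (G.q p * (G.gp (G.h b) (G.h b) p - m * (G.h b p + c) ^ 2) +
      t * (G.gp (G.h b) (G.h b) p - G.q p * (G.h b p + c) ^ 2))) := by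
    intro b c
    have c2 : Continuous (fun p => (G.h b p + c) ^ 2) := ((ch b).add continuous_const).pow 2
    exact (cq.mul ((cgh b).sub (continuous_const.mul c2))).add
      (continuous_const.mul ((cgh b).sub (cq.mul c2)))
  have cW : ∀ (b : Fin (m + 2) → ℝ) (c : ℝ), Continuous (WL G t b c) := fun b c =>
    (cA b c).neg.add (cB b c)
  have hW : ∀ (b : Fin (m + 2) → ℝ) (c : ℝ),
      G.Q0 (fun p => Real.sqrt (G.q p + t) * (G.h b p + c)) = ∫ p, WL G t b c p ∂G.μ := by
    intro b c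
    rw [hE m G st t ht b c]
    exact neg_int_add (hint _ (cA b c)) (hint _ (cB b c))
  -- the coordinate functions
  have he : ∀ i p, G.h (Pi.single i 1) p = G.x i p := by
    intro i p
    unfold Cal.h
    simp [Pi.single_apply]
  have h1 : ∀ i, 0 ≤ ∫ p, WL G t (Pi.single i 1) (-b i) p ∂G.μ := by
    intro i
    rw [← hW]
    refine hI _ (hs _ _) ?_
    rw [← hc i]
    refine integral_congr_ae (Filter.Eventually.of_forall fun p => ?_)
    simp only [he]
    ring
  have h2 : 0 ≤ ∫ p, WL G t b (-g2) p ∂G.μ := by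
    rw [← hW]
    refine hI _ (hs _ _) ?_
    have e1 : ∀ p, G.q p * (Real.sqrt (G.q p + t) * (G.h b p + -g2)) =
        ∑ i, b i * (G.q p * (Real.sqrt (G.q p + t) * (G.x i p - b i))) := by
      intro p
      have e2 : G.h b p + -g2 = ∑ i, b i * (G.x i p - b i) := by
        rw [hg2]
        unfold Cal.h
        rw [← sub_eq_add_neg, ← Finset.sum_sub_distrib]
        exact Finset.sum_congr rfl fun i _ => by ring
      rw [e2, Finset.mul_sum, Finset.mul_sum]
      exact Finset.sum_congr rfl fun i _ => by ring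
    have e3 : ∫ p, G.q p * (Real.sqrt (G.q p + t) * (G.h b p + -g2)) ∂G.μ =
        ∫ p, ∑ i, b i * (G.q p * (Real.sqrt (G.q p + t) * (G.x i p - b i))) ∂G.μ :=
      integral_congr_ae (Filter.Eventually.of_forall e1)
    rw [e3, integral_finsetSum]
    · refine Finset.sum_eq_zero fun i _ => ?_
      rw [integral_const_mul, hc i, mul_zero]
    · intro i _
      exact hint _ (continuous_const.mul (cq.mul (croot.mul ((cx i).sub continuous_const))))
  have h3 : 0 ≤ (1 - g2) * ∑ i, ∫ p, WL G t (Pi.single i 1) (-b i) p ∂G.μ +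
      ∫ p, WL G t b (-g2) p ∂G.μ :=
    add_nonneg (mul_nonneg (by linarith) (Finset.sum_nonneg fun i _ => h1 i)) h2
  have h4 : (1 - g2) * ∑ i, ∫ p, WL G t (Pi.single i 1) (-b i) p ∂G.μ +
      ∫ p, WL G t b (-g2) p ∂G.μ =
      ∫ p, ((1 - g2) * ∑ i, WL G t (Pi.single i 1) (-b i) p + WL G t b (-g2) p) ∂G.μ := by
    rw [integral_add, integral_const_mul, integral_finsetSum]
    · intro i _
      exact hint _ (cW _ _)
    · exact (hint _ (continuous_finsetSum _ fun i _ => cW _ _)).const_mul _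
    · exact hint _ (cW _ _)
  rw [h4] at h3
  -- the right side as one integral
  have cA' : Continuous
      (fun p => (G.tau p - G.gp G.q G.q p / (4 * (G.q p + t))) * (1 - G.h b p) ^ 2) :=
    c1.mul ((continuous_const.sub (ch b)).pow 2)
  have cB' : Continuous (fun p => (G.q p * (m * (1 - g2) + G.gp (G.h b) (G.h b) p -
      m * (1 - G.h b p) ^ 2) + t * (m * (1 - g2) + G.gp (G.h b) (G.h b) p -
          G.q p * (1 - G.h b p) ^ 2))) := by
    have c2 : Continuous (fun p => (1 - G.h b p) ^ 2) := (continuous_const.sub (ch b)).pow 2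
    have c3 : Continuous (fun p => m * (1 - g2) + G.gp (G.h b) (G.h b) p) :=
      continuous_const.add (cgh b)
    exact (cq.mul (c3.sub (continuous_const.mul c2))).add
      (continuous_const.mul (c3.sub (cq.mul c2)))
  rw [neg_int_add (hint _ cA') (hint _ cB')]
  refine h3.trans (le_of_eq (integral_congr_ae (Filter.Eventually.of_forall fun p => ?_)))
  -- pointwise
  have k1 : ∑ i, (G.x i p + -b i) ^ 2 = 1 - 2 * G.h b p + g2 := by
    have : ∀ i, (G.x i p + -b i) ^ 2 = G.x i p * G.x i p - 2 * (b i * G.x i p) + b i ^ 2 :=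
      fun i => by ring
    simp only [this]
    rw [Finset.sum_add_distrib, Finset.sum_sub_distrib, ← Finset.mul_sum, G.xx]
    rfl
  have k2 : ∑ i, G.gp (G.h (Pi.single i 1)) (G.h (Pi.single i 1)) p = m := by
    have k3 : ∀ i, G.gp (G.h (Pi.single i 1)) (G.h (Pi.single i 1)) p =
        1 - G.x i p * G.x i p - G.ν i p * G.ν i p := by
      intro i
      rw [((hlin (Pi.single i 1)).2.2 p).2.2.2.2.1, he i p]
      have k4 : G.z (Pi.single i 1) p = G.ν i p := by
        unfold Cal.z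
        simp [Pi.single_apply]
      have k5 : ∑ j, (Pi.single i 1 : Fin (m + 2) → ℝ) j ^ 2 = 1 := by
        simp [Pi.single_apply]
      rw [k4, k5]
      ring
    simp only [k3]
    rw [Finset.sum_sub_distrib, Finset.sum_sub_distrib, G.xx, G.νν]
    simp
    ring
  have k6 : ∑ i, WL G t (Pi.single i 1) (-b i) p =
      -((G.tau p - G.gp G.q G.q p / (4 * (G.q p + t))) * (1 - 2 * G.h b p + g2)) +
      (G.q p * (m - m * (1 - 2 * G.h b p + g2)) + t * (m - G.q p * (1 - 2 * G.h b p + g2))) := by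
    have k7 : ∀ i, WL G t (Pi.single i 1) (-b i) p =
        (-(G.tau p - G.gp G.q G.q p / (4 * (G.q p + t))) - G.q p * m - t * G.q p) *
          (G.x i p + -b i) ^ 2 +
        (G.q p + t) * G.gp (G.h (Pi.single i 1)) (G.h (Pi.single i 1)) p := by
      intro i
      unfold WL
      rw [he i p]
      ring
    simp only [k7]
    rw [Finset.sum_add_distrib, ← Finset.mul_sum, ← Finset.mul_sum, k1, k2]
    ring
  change (1 - g2) * ∑ i, WL G t (Pi.single i 1) (-b i) p + WL G t b (-g2) p =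
    -((G.tau p - G.gp G.q G.q p / (4 * (G.q p + t))) * (1 - G.h b p) ^ 2) + _
  rw [k6]
  unfold WL
  ring

end MPfbfa44
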