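import Pool.Agent.Lib.MP_fbfa44_gt.IX.Cal

set_option autoImplicit false

/-!
# Row LIM, part 3: the centre of mass, integrability of `E`, and the limit
-/

namespace MPfbfa44

open MeasureTheory Filter Topology

namespace LIM

variable {m : ℕ} (G : Cal m)

theorem q0 (p : G.M) : 0 ≤ G.q p :=
  Finset.sum_nonneg fun _ _ => Finset.sum_nonneg fun _ _ => mul_self_nonneg _

theorem tau0 (p : G.M) : 0 ≤ G.tau p :=
  Finset.sum_nonneg fun _ _ => Finset.sum_nonneg fun _ _ => Finset.sum_nonneg fun _ _ =>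
    mul_self_nonneg _

theorem gp0 (f : G.M → ℝ) (p : G.M) : 0 ≤ G.gp f f p :=
  Finset.sum_nonneg fun _ _ => mul_self_nonneg _

variable {G}

/-- Cauchy-Schwarz -/
theorem kato (st : G.Str) (p : G.M) : G.gp G.q G.q p ≤ 4 * (G.q p * G.tau p) := by
  have h1 : ∀ k, G.d k G.q p * G.d k G.q p ≤
      4 * (G.q p * ∑ i, ∑ j, G.T k i j p * G.T k i j p) := by
    intro k
    rw [st.dq k p]
    have h2 := Finset.sum_mul_sq_le_sq_mul_sq Finset.univ
      (fun x : Fin (m + 2) × Fin (m + 2) => G.B x.1 x.2 p) (fun x => G.T k x.1 x.2 p)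
    simp only [Fintype.sum_prod_type, sq] at h2
    unfold Cal.q
    nlinarith [h2]
  calc G.gp G.q G.q p ≤ ∑ k, 4 * (G.q p * ∑ i, ∑ j, G.T k i j p * G.T k i j p) :=
        Finset.sum_le_sum fun k _ => h1 k
    _ = 4 * (G.q p * G.tau p) := by
        unfold Cal.tau
        rw [Finset.mul_sum, Finset.mul_sum]

theorem div_nn (s : ℝ) (hs : 0 ≤ s) (p : G.M) : 0 ≤ G.gp G.q G.q p / (4 * (G.q p + s)) :=
  div_nonneg (gp0 G _ p) (by have := q0 G p; positivity)

theorem div_le (st : G.Str) (s : ℝ) (hs : 0 ≤ s) (p : G.M) :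
    G.gp G.q G.q p / (4 * (G.q p + s)) ≤ G.tau p := by
  have h0 := q0 G p
  rcases (add_nonneg h0 hs).eq_or_lt with h | h
  · rw [← h, mul_zero, div_zero]
    exact tau0 G p
  · rw [div_le_iff₀ (by positivity)]
    have h1 := kato st p
    nlinarith [mul_nonneg hs (tau0 G p)]

/-- the regularised quotient is at most the quotient -/
theorem div_mono (st : G.Str) (s : ℝ) (hs : 0 ≤ s) (p : G.M) :
    G.gp G.q G.q p / (4 * (G.q p + s)) ≤ G.gp G.q G.q p / (4 * G.q p) := by
  have h0 := q0 G p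
  rcases h0.eq_or_lt with h | h
  · have h1 := kato st p
    have h2 := gp0 G G.q p
    rw [← h, zero_mul, mul_zero] at h1
    have h3 : G.gp G.q G.q p = 0 := le_antisymm h1 h2
    rw [h3, zero_div, zero_div]
  · exact div_le_div_of_nonneg_left (gp0 G _ p) (by positivity) (by linarith)

/-! ### The centre of mass -/

/-- the mass -/
noncomputable def A (G : Cal m) (t : ℝ) : ℝ := ∫ p, G.q p * Real.sqrt (G.q p + t) ∂G.μ

/-- the centre of mass -/
noncomputable def bb (G : Cal m) (t : ℝ) (i : Fin (m + 2)) : ℝ :=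
  (∫ p, G.q p * Real.sqrt (G.q p + t) * G.x i p ∂G.μ) / A G t

theorem cw (st : G.Str) (t : ℝ) : Continuous (fun p => Real.sqrt (G.q p + t)) :=
  ((G.cont _ st.sq).add continuous_const).sqrt

theorem A_pos (hG : GrnStatement) (st : G.Str) (hq : ∃ p, G.q p ≠ 0) (t : ℝ) (ht : 0 ≤ t) :
    0 < A G t := by
  by_contra hA
  obtain ⟨p, hp⟩ := hq
  have h1 := (hG m G st).2.1 (fun p => G.q p * Real.sqrt (G.q p + t))
    ((G.cont _ st.sq).mul (cw st t)) (fun p => mul_nonneg (q0 G p) (Real.sqrt_nonneg _))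
    (not_lt.1 hA) p
  have h2 : 0 < G.q p := lt_of_le_of_ne (q0 G p) (Ne.symm hp)
  have h3 : 0 < Real.sqrt (G.q p + t) := Real.sqrt_pos.2 (by linarith)
  exact (mul_pos h2 h3).ne' h1

theorem cen (hG : GrnStatement) (st : G.Str) (hq : ∃ p, G.q p ≠ 0) (t : ℝ) (ht : 0 ≤ t)
    (i : Fin (m + 2)) :
    ∫ p, G.q p * (Real.sqrt (G.q p + t) * (G.x i p - bb G t i)) ∂G.μ = 0 := by
  have hint := (hG m G st).1
  have cq := G.cont _ st.sq
  have hA := A_pos hG st hq t ht
  have h1 : ∀ p, G.q p * (Real.sqrt (G.q p + t) * (G.x i p - bb G t i)) =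
      G.q p * Real.sqrt (G.q p + t) * G.x i p - G.q p * Real.sqrt (G.q p + t) * bb G t i := by
    intro p
    ring
  simp only [h1]
  have i1 : Integrable (fun p => G.q p * Real.sqrt (G.q p + t) * G.x i p) G.μ :=
    hint _ ((cq.mul (cw st t)).mul (G.cont _ (G.sx i)))
  have i2 : Integrable (fun p => G.q p * Real.sqrt (G.q p + t) * bb G t i) G.μ :=
    hint _ ((cq.mul (cw st t)).mul continuous_const)
  rw [integral_sub i1 i2, integral_mul_const]
  have h2 : bb G t i * A G t = ∫ p, G.q p * Real.sqrt (G.q p + t) * G.x i p ∂G.μ := by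
    rw [bb, div_mul_cancel₀ _ hA.ne']
  rw [← h2, A, mul_comm]
  ring

theorem bb_le (hG : GrnStatement) (st : G.Str) (hq : ∃ p, G.q p ≠ 0) (t : ℝ) (ht : 0 ≤ t) :
    ∑ i, bb G t i ^ 2 ≤ 1 := by
  have hint := (hG m G st).1
  have cq := G.cont _ st.sq
  have hA := A_pos hG st hq t ht
  set b := bb G t with hb
  have h2 : ∀ i, b i * A G t = ∫ p, G.q p * Real.sqrt (G.q p + t) * G.x i p ∂G.μ := by
    intro i
    rw [hb, bb, div_mul_cancel₀ _ hA.ne']
  have h3 : (∑ i, b i ^ 2) * A G t =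
      ∫ p, G.q p * Real.sqrt (G.q p + t) * ∑ i, b i * G.x i p ∂G.μ := by
    have h4 : ∀ p, G.q p * Real.sqrt (G.q p + t) * ∑ i, b i * G.x i p =
        ∑ i, b i * (G.q p * Real.sqrt (G.q p + t) * G.x i p) := by
      intro p
      rw [Finset.mul_sum]
      exact Finset.sum_congr rfl fun i _ => by ring
    simp only [h4]
    rw [integral_finsetSum]
    · rw [Finset.sum_mul]
      refine Finset.sum_congr rfl fun i _ => ?_
      rw [integral_const_mul, ← h2]
      ring
    · intro i _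
      exact (hint _ ((cq.mul (cw st t)).mul (G.cont _ (G.sx i)))).const_mul _
  have h5 : ∫ p, G.q p * Real.sqrt (G.q p + t) * ∑ i, b i * G.x i p ∂G.μ ≤
      ∫ p, G.q p * Real.sqrt (G.q p + t) * (((∑ i, b i ^ 2) + 1) / 2) ∂G.μ := by
    refine integral_mono (hint _ ((cq.mul (cw st t)).mul
      (continuous_finsetSum _ fun i _ => continuous_const.mul (G.cont _ (G.sx i)))))
      (hint _ ((cq.mul (cw st t)).mul continuous_const)) fun p => ?_
    refine mul_le_mul_of_nonneg_left ?_ (mul_nonneg (q0 G p) (Real.sqrt_nonneg _))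
    have h6 : ∑ i, b i * G.x i p ≤ ∑ i, (b i ^ 2 + G.x i p * G.x i p) / 2 :=
      Finset.sum_le_sum fun i _ => by nlinarith [sq_nonneg (b i - G.x i p)]
    rw [← Finset.sum_div, Finset.sum_add_distrib, G.xx p] at h6
    exact h6
  rw [integral_mul_const, ← h3] at h5
  have h7 : (∑ i, b i ^ 2) * A G t ≤ A G t * (((∑ i, b i ^ 2) + 1) / 2) := h5
  by_contra h8
  push Not at h8
  nlinarith [mul_pos hA (sub_pos.2 h8)]

/-! ### Integrability of `E` -/

/-- the continuous part of `E` -/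
noncomputable def F (G : Cal m) (b : Fin (m + 2) → ℝ) (p : G.M) : ℝ :=
  -(2 * (1 - G.h b p) * ∑ i, G.d i G.q p * (b i - G.h b p * G.x i p - G.z b p * G.ν i p)) +
    (m + 1) * G.q p * (∑ i, (b i - G.h b p * G.x i p - G.z b p * G.ν i p) *
      (b i - G.h b p * G.x i p - G.z b p * G.ν i p)) +
    m * ∑ i, (∑ j, G.B i j p * (b j - G.h b p * G.x j p - G.z b p * G.ν j p)) ^ 2

theorem E_eq (hG : GrnStatement) (st : G.Str) (b : Fin (m + 2) → ℝ) (p : G.M) :
    G.E b p = (G.tau p - G.gp G.q G.q p / (4 * G.q p)) * (1 - G.h b p) ^ 2 + F G b p := by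
  have h1 := ((((hG m G st).2.2.2 b).2.2 p).1)
  unfold Cal.E F Cal.gp
  simp only [h1]
  ring

theorem cF (st : G.Str) : Continuous (fun y : (Fin (m + 2) → ℝ) × G.M => F G y.1 y.2) := by
  have cq := G.cont _ st.sq
  have cx : ∀ i, Continuous (G.x i) := fun i => G.cont _ (G.sx i)
  have cn : ∀ i, Continuous (G.ν i) := fun i => G.cont _ (G.sν i)
  have cB : ∀ i j, Continuous (G.B i j) := fun i j => G.cont _ (st.sB i j)
  have cdq : ∀ i, Continuous (G.d i G.q) := fun i => G.cont _ (G.sd i _ st.sq)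
  unfold F Cal.h Cal.z
  fun_prop

theorem ch2 : Continuous (fun y : (Fin (m + 2) → ℝ) × G.M => G.h y.1 y.2) := by
  have cx : ∀ i, Continuous (G.x i) := fun i => G.cont _ (G.sx i)
  unfold Cal.h
  fun_prop

theorem D_bd (st : G.Str) (p : G.M) : 0 ≤ G.tau p - G.gp G.q G.q p / (4 * G.q p) ∧
    G.tau p - G.gp G.q G.q p / (4 * G.q p) ≤ G.tau p := by
  have h1 := div_le st 0 le_rfl p
  have h2 := div_nn (G := G) 0 le_rfl p
  rw [add_zero] at h1 h2
  constructor <;> linarith

theorem E_bd (hG : GrnStatement) (st : G.Str) : ∃ C : ℝ, ∀ b : Fin (m + 2) → ℝ,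
    ∑ i, b i ^ 2 ≤ 1 → ∀ p, ‖G.E b p‖ ≤ C := by
  have hc : Continuous (fun y : (Fin (m + 2) → ℝ) × G.M =>
      G.tau y.2 * (1 - G.h y.1 y.2) ^ 2 + |F G y.1 y.2|) := by
    have h1 := cF st
    have h2 := ch2 (G := G)
    have h3 := G.cont _ st.stau
    exact ((h3.comp continuous_snd).mul ((continuous_const.sub h2).pow 2)).add h1.abs
  have hK : IsCompact ((Metric.closedBall (0 : Fin (m + 2) → ℝ) 1) ×ˢ (Set.univ : Set G.M)) :=
    (isCompact_closedBall _ _).prod isCompact_univ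
  obtain ⟨C, hC⟩ := hK.exists_bound_of_continuousOn hc.continuousOn
  refine ⟨C, fun b hb p => ?_⟩
  have hbm : b ∈ Metric.closedBall (0 : Fin (m + 2) → ℝ) 1 := by
    rw [mem_closedBall_zero_iff, pi_norm_le_iff_of_nonneg zero_le_one]
    intro i
    have h1 : b i ^ 2 ≤ 1 :=
      le_trans (Finset.single_le_sum (f := fun i => b i ^ 2) (fun i _ => sq_nonneg _)
        (Finset.mem_univ i)) hb
    rw [Real.norm_eq_abs]
    exact abs_le_one_iff_mul_self_le_one.2 (by nlinarith)
  have h2 := hC (b, p) ⟨hbm, Set.mem_univ _⟩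
  have h3 := D_bd st p
  rw [E_eq hG st b p]
  have h4 : ‖(G.tau p - G.gp G.q G.q p / (4 * G.q p)) * (1 - G.h b p) ^ 2 + F G b p‖ ≤
      G.tau p * (1 - G.h b p) ^ 2 + |F G b p| := by
    refine (norm_add_le _ _).trans ?_
    rw [Real.norm_eq_abs, Real.norm_eq_abs, abs_of_nonneg (mul_nonneg h3.1 (sq_nonneg _))]
    have := mul_le_mul_of_nonneg_right h3.2 (sq_nonneg (1 - G.h b p))
    linarith
  refine h4.trans (le_trans (le_abs_self _) ?_)
  rw [← Real.norm_eq_abs]
  exact h2

theorem E_meas (hG : GrnStatement) (st : G.Str) (b : Fin (m + 2) → ℝ) :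
    AEStronglyMeasurable (G.E b) G.μ := by
  have cq := G.cont _ st.sq
  have cqq := G.cont _ ((hG m G st).2.2.1 _ _ st.sq st.sq).1
  have ct := G.cont _ st.stau
  have chb := G.cont _ ((hG m G st).2.2.2 b).1
  have hF : Continuous (F G b) := (cF st).comp (continuous_const.prodMk continuous_id)
  have h1 : G.E b = fun p => (G.tau p - G.gp G.q G.q p / (4 * G.q p)) * (1 - G.h b p) ^ 2 +
      F G b p := by
    funext p
    exact E_eq hG st b p
  rw [h1]
  have h2 : Measurable (fun p => (G.tau p - G.gp G.q G.q p / (4 * G.q p)) * (1 - G.h b p) ^ 2 +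
      F G b p) := by
    refine Measurable.add (Measurable.mul (ct.measurable.sub (cqq.measurable.div
      (measurable_const.mul cq.measurable))) ((measurable_const.sub chb.measurable).pow_const 2))
      hF.measurable
  exact h2.aestronglyMeasurable

theorem E_int (hG : GrnStatement) (st : G.Str) (b : Fin (m + 2) → ℝ) (hb : ∑ i, b i ^ 2 ≤ 1) :
    Integrable (G.E b) G.μ := by
  obtain ⟨C, hC⟩ := E_bd hG st
  exact Integrable.of_bound (E_meas hG st b) C (Eventually.of_forall fun p => hC b hb p)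

theorem E_cont (hG : GrnStatement) (st : G.Str) (p : G.M) : Continuous (fun b => G.E b p) := by
  simp only [E_eq hG st]
  have h1 : Continuous (fun b : Fin (m + 2) → ℝ => F G b p) :=
    (cF st).comp (continuous_id.prodMk continuous_const)
  have h2 : Continuous (fun b : Fin (m + 2) → ℝ => G.h b p) :=
    (ch2 (G := G)).comp (continuous_id.prodMk continuous_const)
  exact (continuous_const.mul ((continuous_const.sub h2).pow 2)).add h1

/-! ### The limit -/

/-- `1 / (n + 1)` -/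
noncomputable def tn (n : ℕ) : ℝ := 1 / ((n : ℝ) + 1)

theorem tn_pos (n : ℕ) : 0 < tn n := by
  unfold tn
  positivity

theorem tn_le (n : ℕ) : tn n ≤ 1 := by
  unfold tn
  rw [div_le_one (by positivity)]
  have : (0 : ℝ) ≤ n := Nat.cast_nonneg n
  linarith

theorem tn_lim : Tendsto tn atTop (𝓝 0) := tendsto_one_div_add_atTop_nhds_zero_nat

theorem lim_int (st : G.Str) (f : G.M → ℝ) (hf : Continuous f) :
    Tendsto (fun n => ∫ p, G.q p * Real.sqrt (G.q p + tn n) * f p ∂G.μ) atTop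
      (𝓝 (∫ p, G.q p * Real.sqrt (G.q p + 0) * f p ∂G.μ)) := by
  have cq := G.cont _ st.sq
  have hc : Continuous (fun p => G.q p * Real.sqrt (G.q p + 1) * f p) :=
    (cq.mul (cw st 1)).mul hf
  obtain ⟨C, hC⟩ := isCompact_univ.exists_bound_of_continuousOn hc.continuousOn
  refine tendsto_integral_of_dominated_convergence (fun _ => C) ?_ (integrable_const C) ?_ ?_
  · intro n
    exact ((cq.mul (cw st (tn n))).mul hf).measurable.aestronglyMeasurable
  · intro n
    refine Eventually.of_forall fun p => ?_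
    refine le_trans ?_ (hC p (Set.mem_univ _))
    have h1 : Real.sqrt (G.q p + tn n) ≤ Real.sqrt (G.q p + 1) :=
      Real.sqrt_le_sqrt (by have := tn_le n; linarith)
    have h2 : |G.q p * Real.sqrt (G.q p + tn n)| ≤ |G.q p * Real.sqrt (G.q p + 1)| := by
      rw [abs_mul, abs_mul, abs_of_nonneg (Real.sqrt_nonneg (G.q p + tn n)),
        abs_of_nonneg (Real.sqrt_nonneg (G.q p + 1))]
      exact mul_le_mul_of_nonneg_left h1 (abs_nonneg _)
    rw [Real.norm_eq_abs, Real.norm_eq_abs, abs_mul, abs_mul (G.q p * Real.sqrt (G.q p + 1))]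
    exact mul_le_mul_of_nonneg_right h2 (abs_nonneg _)
  · refine Eventually.of_forall fun p => ?_
    have h1 : Tendsto (fun n => Real.sqrt (G.q p + tn n)) atTop (𝓝 (Real.sqrt (G.q p + 0))) :=
      (Real.continuous_sqrt.tendsto _).comp (tendsto_const_nhds.add tn_lim)
    exact (tendsto_const_nhds.mul h1).mul tendsto_const_nhds

theorem A_lim (st : G.Str) : Tendsto (fun n => A G (tn n)) atTop (𝓝 (A G 0)) := by
  have h1 := lim_int st (fun _ => 1) continuous_const
  simp only [mul_one] at h1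
  exact h1

theorem bb_lim (hG : GrnStatement) (st : G.Str) (hq : ∃ p, G.q p ≠ 0) :
    Tendsto (fun n => bb G (tn n)) atTop (𝓝 (bb G 0)) := by
  rw [tendsto_pi_nhds]
  intro i
  exact (lim_int st (G.x i) (G.cont _ (G.sx i))).div (A_lim st) (A_pos hG st hq 0 le_rfl).ne'

/-- the limit, given the estimate for `t > 0` -/
theorem lim_final (hG : GrnStatement) (st : G.Str) (hq : ∃ p, G.q p ≠ 0) (K : ℝ)
    (hK : ∀ n, ∫ p, G.E (bb G (tn n)) p ∂G.μ ≤ tn n * K) :
    ∃ b : Fin (m + 2) → ℝ, ∑ i, b i ^ 2 ≤ 1 ∧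
      (∀ i, ∫ p, Real.sqrt (G.q p) * G.q p * (G.x i p - b i) ∂G.μ = 0) ∧
      Integrable (G.E b) G.μ ∧ ∫ p, G.E b p ∂G.μ ≤ 0 := by
  have hb0 := bb_le hG st hq 0 le_rfl
  refine ⟨bb G 0, hb0, ?_, E_int hG st _ hb0, ?_⟩
  · intro i
    have h1 := cen hG st hq 0 le_rfl i
    refine Eq.trans ?_ h1
    refine integral_congr_ae (Eventually.of_forall fun p => ?_)
    simp only [add_zero]
    ring
  · obtain ⟨C, hC⟩ := E_bd hG st
    have h1 : Tendsto (fun n => ∫ p, G.E (bb G (tn n)) p ∂G.μ) atTop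
        (𝓝 (∫ p, G.E (bb G 0) p ∂G.μ)) := by
      refine tendsto_integral_of_dominated_convergence (fun _ => C)
        (fun n => E_meas hG st _) (integrable_const C) (fun n => Eventually.of_forall fun p =>
          hC _ (bb_le hG st hq _ (tn_pos n).le) p) (Eventually.of_forall fun p => ?_)
      exact ((E_cont hG st p).tendsto _).comp (bb_lim hG st hq)
    have h2 : Tendsto (fun n => tn n * K) atTop (𝓝 (0 * K)) := tn_lim.mul tendsto_const_nhds
    rw [zero_mul] at h2
    exact le_of_tendsto_of_tendsto' h1 h2 hK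

end LIM

end MPfbfa44
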