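import Pool.Agent.Lib.MP_fbfa44_gt.IX.Lim1
import Pool.Agent.Lib.MP_fbfa44_gt.IX.Lim2
import Pool.Agent.Lib.MP_fbfa44_gt.IX.Lim3

set_option autoImplicit false

/-!
# Row LIM: the limit `ε → 0` of the sum of the inequalities
-/

namespace MPfbfa44

open MeasureTheory

namespace LIM

theorem est (hG : GrnStatement) (hE : QepStatement) {m : ℕ} (G : Cal m) (st : G.Str)
    (hI : ∀ f, G.Sm f → ∫ p, G.q p * f p ∂G.μ = 0 → 0 ≤ G.Q0 f)
    (t : ℝ) (ht : 0 < t) (b : Fin (m + 2) → ℝ) (hb : ∑ i, b i ^ 2 ≤ 1)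
    (hc : ∀ i, ∫ p, G.q p * (Real.sqrt (G.q p + t) * (G.x i p - b i)) ∂G.μ = 0) :
    ∫ p, G.E b p ∂G.μ ≤ t * ∫ _p, ((m : ℝ) + 1) ∂G.μ := by
  have h1 := lim_sum hG hE G st hI t ht b hb hc
  have h2 := lim_green hG G st b
  obtain ⟨hint, -, hgr, hhz⟩ := hG m G st
  obtain ⟨sh, sz, hf⟩ := hhz b
  have cq := G.cont _ st.sq
  have ch := G.cont _ sh
  have ct := G.cont _ st.stau
  have cqh := G.cont _ (hgr _ _ st.sq sh).1
  have cqq := G.cont _ (hgr _ _ st.sq st.sq).1
  have chh := G.cont _ (hgr _ _ sh sh).1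
  have cB : ∀ i j, Continuous (G.B i j) := fun i j => G.cont _ (st.sB i j)
  have cd : ∀ j, Continuous (G.d j (G.h b)) := fun j => G.cont _ (G.sd j _ sh)
  have cR : Continuous (fun p => ∑ i, (∑ j, G.B i j p * G.d j (G.h b) p) ^ 2) := by
    fun_prop
  have qt : ∀ p, 0 < G.q p + t := fun p => by have := q0 G p; linarith
  -- the pieces
  have iA : Integrable (fun p => (G.tau p - G.gp G.q G.q p / (4 * (G.q p + t))) *
      (1 - G.h b p) ^ 2) G.μ := by
    refine hint _ ((ct.sub (cqq.div (continuous_const.mul (cq.add continuous_const))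
      fun p => ?_)).mul ((continuous_const.sub ch).pow 2))
    exact (mul_pos (by norm_num) (qt p)).ne'
  have iG : Integrable (fun p => G.q p * (m * (1 - ∑ i, b i ^ 2) +
      G.gp (G.h b) (G.h b) p - m * (1 - G.h b p) ^ 2)) G.μ :=
    hint _ (cq.mul ((continuous_const.add chh).sub
      (continuous_const.mul ((continuous_const.sub ch).pow 2))))
  have iT : Integrable (fun p => t * (m * (1 - ∑ i, b i ^ 2) + G.gp (G.h b) (G.h b) p -
      G.q p * (1 - G.h b p) ^ 2)) G.μ :=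
    hint _ (continuous_const.mul ((continuous_const.add chh).sub
      (cq.mul ((continuous_const.sub ch).pow 2))))
  have iS : Integrable (fun p => 2 * (1 - G.h b p) * G.gp G.q (G.h b) p -
      (m + 1) * G.q p * G.gp (G.h b) (G.h b) p -
      m * ∑ i, (∑ j, G.B i j p * G.d j (G.h b) p) ^ 2) G.μ :=
    hint _ ((((continuous_const.mul (continuous_const.sub ch)).mul cqh).sub
      ((continuous_const.mul cq).mul chh)).sub (continuous_const.mul cR))
  rw [integral_add iG iT, h2] at h1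
  have iE := E_int hG st b hb
  -- `E` is at most the regularised integrand
  have h3 : ∫ p, G.E b p ∂G.μ ≤
      ∫ p, ((G.tau p - G.gp G.q G.q p / (4 * (G.q p + t))) * (1 - G.h b p) ^ 2 -
        (2 * (1 - G.h b p) * G.gp G.q (G.h b) p -
          (m + 1) * G.q p * G.gp (G.h b) (G.h b) p -
          m * ∑ i, (∑ j, G.B i j p * G.d j (G.h b) p) ^ 2)) ∂G.μ := by
    refine integral_mono iE (iA.sub iS) fun p => ?_
    have h4 := div_mono st t ht.le p
    have h5 := mul_le_mul_of_nonneg_right h4 (sq_nonneg (1 - G.h b p))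
    unfold Cal.E
    nlinarith [h5]
  rw [integral_sub iA iS] at h3
  have h6 : ∫ p, t * (m * (1 - ∑ i, b i ^ 2) + G.gp (G.h b) (G.h b) p -
      G.q p * (1 - G.h b p) ^ 2) ∂G.μ ≤ ∫ _p, t * ((m : ℝ) + 1) ∂G.μ := by
    refine integral_mono iT (integrable_const _) fun p => ?_
    refine mul_le_mul_of_nonneg_left ?_ ht.le
    have h7 : 0 ≤ ∑ i, b i ^ 2 := Finset.sum_nonneg fun _ _ => sq_nonneg _
    have h8 : G.gp (G.h b) (G.h b) p ≤ 1 := by
      rw [(hf p).2.2.2.2.1]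
      nlinarith [sq_nonneg (G.h b p), sq_nonneg (G.z b p)]
    have h9 := mul_nonneg (q0 G p) (sq_nonneg (1 - G.h b p))
    have h10 : 0 ≤ (m : ℝ) * ∑ i, b i ^ 2 := mul_nonneg (Nat.cast_nonneg m) h7
    linarith
  have h7 : ∫ _p, t * ((m : ℝ) + 1) ∂G.μ = t * ∫ _p, ((m : ℝ) + 1) ∂G.μ :=
    integral_const_mul _ _
  rw [h7] at h6
  linarith

end LIM

theorem lim_proof (hG : GrnStatement) (hE : QepStatement) : LimStatement := by
  intro m G st hq hI
  refine LIM.lim_final hG st hq (∫ _p, ((m : ℝ) + 1) ∂G.μ) fun n => ?_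
  exact LIM.est hG hE G st hI _ (LIM.tn_pos n) _ (LIM.bb_le hG st hq _ (LIM.tn_pos n).le)
    (LIM.cen hG st hq _ (LIM.tn_pos n).le)

end MPfbfa44
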