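import Mathlib
import Pool.Agent.Lib.MP_fbfa44_gt.IX.InjDefs

set_option autoImplicit false

/-!
# Row NEG: the upper bound of `Q0` of a cut-off of `w = (1 + h₁) (1 + h₂)`
-/

namespace MPfbfa44

open MeasureTheory

/-- Row NEG. -/
theorem neg_proof (hgrn : GrnStatement) (hsph : SphStatement) : NegStatement := by
  intro m G st hq k P hsp b d hpair F σ δ sF F0 hσ dF hFδ
  obtain ⟨hint, -, hgreen, hlin⟩ := hgrn m G st
  obtain ⟨sb, -, hpb⟩ := hlin b
  obtain ⟨sd, -, hpd⟩ := hlin d
  have hS := (hsph m G st k P hsp).2 b d hpair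
  -- smoothness of `w`
  have s1b : G.Sm (fun p => 1 + G.h b p) := G.sadd _ _ (G.sconst 1) sb
  have s1d : G.Sm (fun p => 1 + G.h d p) := G.sadd _ _ (G.sconst 1) sd
  have sw : G.Sm (G.w b d) := G.smul _ _ s1b s1d
  have d1b : ∀ i p, G.d i (fun p => 1 + G.h b p) p = G.d i (G.h b) p := by
    intro i p
    rw [G.dadd i (fun _ => (1 : ℝ)) (G.h b) (G.sconst 1) sb p, G.dconst]
    ring
  have d1d : ∀ i p, G.d i (fun p => 1 + G.h d p) p = G.d i (G.h d) p := by
    intro i p
    rw [G.dadd i (fun _ => (1 : ℝ)) (G.h d) (G.sconst 1) sd p, G.dconst]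
    ring
  have dw : ∀ i p, G.d i (G.w b d) p =
      (1 + G.h d p) * G.d i (G.h b) p + (1 + G.h b p) * G.d i (G.h d) p := by
    intro i p
    have h1 := G.dmul i (fun p => 1 + G.h b p) (fun p => 1 + G.h d p) s1b s1d p
    have h2 : G.d i (G.w b d) p = G.d i (fun p => (1 + G.h b p) * (1 + G.h d p)) p := rfl
    rw [h2, h1, d1b, d1d]
    ring
  have gw := hgreen F (G.w b d) sF sw
  have lw : ∀ p, G.lap (G.w b d) p =
      -(m * (G.h b p + G.h d p + 2 * (G.h b p * G.h d p))) := by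
    intro p
    have hdd : ∀ i p, G.d i (G.d i (G.w b d)) p =
        (1 + G.h d p) * G.d i (G.d i (G.h b)) p + (1 + G.h b p) * G.d i (G.d i (G.h d)) p +
          2 * (G.d i (G.h b) p * G.d i (G.h d) p) := by
      intro i p
      have e1 : G.d i (G.w b d) = fun p =>
          (1 + G.h d p) * G.d i (G.h b) p + (1 + G.h b p) * G.d i (G.h d) p :=
        funext fun p => dw i p
      have h1 := G.dadd i (fun p => (1 + G.h d p) * G.d i (G.h b) p)
        (fun p => (1 + G.h b p) * G.d i (G.h d) p)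
        (G.smul _ _ s1d (G.sd i _ sb)) (G.smul _ _ s1b (G.sd i _ sd)) p
      have h2 := G.dmul i (fun p => 1 + G.h d p) (G.d i (G.h b)) s1d (G.sd i _ sb) p
      have h3 := G.dmul i (fun p => 1 + G.h b p) (G.d i (G.h d)) s1b (G.sd i _ sd) p
      rw [e1, h1, h2, h3, d1b, d1d]
      ring
    have e2 : G.lap (G.w b d) p = (1 + G.h d p) * G.lap (G.h b) p +
        (1 + G.h b p) * G.lap (G.h d) p + 2 * G.gp (G.h b) (G.h d) p := by
      simp only [Cal.lap, Cal.gp, Finset.mul_sum]
      rw [← Finset.sum_add_distrib, ← Finset.sum_add_distrib]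
      exact Finset.sum_congr rfl fun i _ => hdd i p
    rw [e2, (hpb p).2.2.1, (hpd p).2.2.1, (hS p).2.2.1]
    ring
  -- the pointwise inequality of the gradients
  have hgg : ∀ p, G.gp F F p ≤ G.gp F (G.w b d) p := by
    intro p
    simp only [Cal.gp]
    refine Finset.sum_le_sum fun i _ => ?_
    rw [dF]
    have h1 := (hσ p).1
    have h2 := (hσ p).2
    nlinarith [mul_nonneg (mul_nonneg h1 (sub_nonneg.mpr h2)) (mul_self_nonneg (G.d i (G.w b d) p))]
  have cF : Continuous F := G.cont _ sF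
  have cb : Continuous (G.h b) := G.cont _ sb
  have cd : Continuous (G.h d) := G.cont _ sd
  have cgFF : Continuous (G.gp F F) := G.cont _ (hgreen F F sF sF).1
  have cgFw : Continuous (G.gp F (G.w b d)) := G.cont _ gw.1
  have clw : Continuous (G.lap (G.w b d)) := G.cont _ (hgreen _ _ sw sw).2.1
  have cq : Continuous G.q := G.cont _ st.sq
  -- `Q0 F ≤ ∫ (gp F w + F lap w) + ∫ ...`
  have step : ∀ p, G.gp F F p - G.q p * (F p * F p) ≤
      (G.gp F (G.w b d) p + F p * G.lap (G.w b d) p) -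
        m * (F p * (1 - G.h b p * G.h d p - δ)) := by
    intro p
    rw [lw, hq]
    have h1 := hFδ p
    have h2 : G.w b d p = (1 + G.h b p) * (1 + G.h d p) := rfl
    rw [h2] at h1
    have h3 : (0 : ℝ) ≤ m := Nat.cast_nonneg m
    have h4 := mul_le_mul_of_nonneg_left h1 h3
    have h5 := hgg p
    nlinarith
  have i1 : Integrable (fun p => G.gp F F p - G.q p * (F p * F p)) G.μ :=
    hint _ (cgFF.sub (cq.mul (cF.mul cF)))
  have i2 : Integrable (fun p => G.gp F (G.w b d) p + F p * G.lap (G.w b d) p) G.μ :=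
    hint _ (cgFw.add (cF.mul clw))
  have i3 : Integrable (fun p => m * (F p * (1 - G.h b p * G.h d p - δ))) G.μ :=
    hint _ (continuous_const.mul (cF.mul ((continuous_const.sub (cb.mul cd)).sub
      continuous_const)))
  have j2 : ∫ p, (G.gp F (G.w b d) p + F p * G.lap (G.w b d) p) ∂G.μ = 0 := by
    have h1 := integral_add (hint _ cgFw) (hint _ (cF.mul clw))
    have h2 : ∫ p, (G.gp F (G.w b d) p + F p * G.lap (G.w b d) p) ∂G.μ =
      ∫ p, G.gp F (G.w b d) p ∂G.μ + ∫ p, F p * G.lap (G.w b d) p ∂G.μ := h1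
    rw [h2, gw.2.2]
    ring
  calc G.Q0 F = ∫ p, (G.gp F F p - G.q p * (F p * F p)) ∂G.μ := rfl
    _ ≤ ∫ p, ((G.gp F (G.w b d) p + F p * G.lap (G.w b d) p) -
        m * (F p * (1 - G.h b p * G.h d p - δ))) ∂G.μ :=
      integral_mono i1 (i2.sub i3) step
    _ = -(m * ∫ p, F p * (1 - G.h b p * G.h d p - δ) ∂G.μ) := by
      rw [integral_sub i2 i3, j2, integral_const_mul]
      ring

end MPfbfa44
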