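import Pool.Agent.Lib.MP_fbfa44_gt.IX.InjDefs
import Pool.Agent.Lib.MP_fbfa44_gt.IX.Grn

set_option autoImplicit false

/-!
# Row SPH: the gradients of `h₁` and `h₂` from `<P x, x> = k / m` (helper74)
-/

namespace MPfbfa44

open MeasureTheory

namespace Cal

variable {m : ℕ} {G : Cal m}

/-- the polarised formula for the gradients of linear functions -/
theorem Str.gph2 (hG : G.Str) (b c : Fin (m + 2) → ℝ) (p : G.M) :
    G.gp (G.h b) (G.h c) p =
      ∑ i, b i * c i - G.h b p * G.h c p - G.z b p * G.z c p := by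
  have h1 : G.gp (G.h b) (G.h c) p = ∑ i, (b i * c i - G.h c p * (b i * G.x i p) -
      G.z c p * (b i * G.ν i p) - G.h b p * (c i * G.x i p) +
      G.h b p * G.h c p * (G.x i p * G.x i p) + G.h b p * G.z c p * (G.x i p * G.ν i p) -
      G.z b p * (c i * G.ν i p) + G.z b p * G.h c p * (G.x i p * G.ν i p) +
      G.z b p * G.z c p * (G.ν i p * G.ν i p)) := by
    unfold gp
    refine Finset.sum_congr rfl fun i _ => ?_
    rw [hG.dh, hG.dh]
    ring
  rw [h1]
  simp only [Finset.sum_add_distrib, Finset.sum_sub_distrib, ← Finset.mul_sum]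
  rw [G.xx, G.xν, G.νν]
  have h2 : ∑ i, b i * G.x i p = G.h b p := rfl
  have h3 : ∑ i, c i * G.x i p = G.h c p := rfl
  have h4 : ∑ i, b i * G.ν i p = G.z b p := rfl
  have h5 : ∑ i, c i * G.ν i p = G.z c p := rfl
  rw [h2, h3, h4, h5]
  ring

/-- `P x = (k / m) x + <P x, ν> ν` -/
theorem Str.splitY (hG : G.Str) {k : ℕ} {P : Fin (m + 2) → Fin (m + 2) → ℝ}
    (hP : Split G k P) (p : G.M) (l : Fin (m + 2)) :
    G.h (P l) p = k / m * G.x l p + (∑ i, G.ν i p * G.h (P i) p) * G.ν l p := by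
  have hs : ∀ i, G.Sm (fun q => G.x i q * G.h (P i) q) := fun i =>
    G.smul _ _ (G.sx i) (hG.sh (P i))
  have h1 := (hG.ssum _ (fun i q => G.x i q * G.h (P i) q) hs).2 l p
  have h2 : (fun q => ∑ i, G.x i q * G.h (P i) q) = fun _ => (k / m : ℝ) := by
    funext q
    rw [← hP.eq q]
    refine Finset.sum_congr rfl fun i _ => ?_
    unfold h
    rw [Finset.mul_sum]
    exact Finset.sum_congr rfl fun j _ => by ring
  have h3 : ∑ i, G.x i p * G.h (P i) p = (k / m : ℝ) := congrFun h2 p
  rw [h2, G.dconst] at h1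
  have h4 : ∀ i, G.d l (fun q => G.x i q * G.h (P i) q) p =
      (if l = i then G.h (P i) p else 0) - G.x l p * (G.x i p * G.h (P i) p) -
        G.ν l p * (G.ν i p * G.h (P i) p) + P l i * G.x i p -
        G.x l p * (G.x i p * G.h (P i) p) - G.ν l p * (G.x i p * G.z (P i) p) := by
    intro i
    rw [G.dmul l _ _ (G.sx i) (hG.sh (P i)), G.dx, hG.dh, hP.sym i l]
    split_ifs <;> ring
  rw [Finset.sum_congr rfl fun i _ => h4 i] at h1
  simp only [Finset.sum_add_distrib, Finset.sum_sub_distrib, ← Finset.mul_sum,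
    Finset.sum_ite_eq, Finset.mem_univ, if_true] at h1
  rw [h3] at h1
  have h5 : ∑ i, P l i * G.x i p = G.h (P l) p := rfl
  have h6 : ∑ i, G.x i p * G.z (P i) p = ∑ i, G.ν i p * G.h (P i) p := by
    unfold z h
    simp only [Finset.mul_sum]
    rw [Finset.sum_comm]
    refine Finset.sum_congr rfl fun i _ => Finset.sum_congr rfl fun j _ => ?_
    rw [hP.sym j i]
    ring
  rw [h5, h6] at h1
  linarith

theorem Str.splitB (hG : G.Str) {k : ℕ} {P : Fin (m + 2) → Fin (m + 2) → ℝ}
    (hP : Split G k P) (p : G.M) (b c : Fin (m + 2) → ℝ) (hb : ∀ i, ∑ j, P i j * b j = c i) :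
    G.h c p = k / m * G.h b p + (∑ i, G.ν i p * G.h (P i) p) * G.z b p := by
  have h1 : G.h c p = ∑ i, b i * G.h (P i) p := by
    unfold h
    simp only [Finset.mul_sum, ← hb, Finset.sum_mul]
    rw [Finset.sum_comm]
    refine Finset.sum_congr rfl fun i _ => Finset.sum_congr rfl fun j _ => ?_
    rw [hP.sym j i]
    ring
  rw [h1]
  have h2 : ∀ i, b i * G.h (P i) p = k / m * (b i * G.x i p) +
      (∑ i, G.ν i p * G.h (P i) p) * (b i * G.ν i p) := by
    intro i
    rw [hG.splitY hP p i]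
    ring
  rw [Finset.sum_congr rfl fun i _ => h2 i, Finset.sum_add_distrib, ← Finset.mul_sum,
    ← Finset.mul_sum]
  rfl

theorem Str.splitS (hG : G.Str) {k : ℕ} {P : Fin (m + 2) → Fin (m + 2) → ℝ}
    (hP : Split G k P) (p : G.M) :
    (∑ i, G.ν i p * G.h (P i) p) ^ 2 = (k / m : ℝ) * (1 - k / m) := by
  have h1 := hG.splitB hP p (fun i => G.h (P i) p) (fun i => G.h (P i) p) (by
    intro i
    unfold h
    simp only [Finset.mul_sum]
    rw [Finset.sum_comm]
    refine Finset.sum_congr rfl fun j _ => ?_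
    rw [← hP.idem i j, Finset.sum_mul]
    exact Finset.sum_congr rfl fun l _ => by ring)
  have h3 : G.h (fun i => G.h (P i) p) p = (k / m : ℝ) := by
    rw [← hP.eq p]
    unfold h
    simp only [Finset.sum_mul]
    exact Finset.sum_congr rfl fun i _ => Finset.sum_congr rfl fun j _ => by ring
  have h4 : G.z (fun i => G.h (P i) p) p = ∑ i, G.ν i p * G.h (P i) p :=
    Finset.sum_congr rfl fun i _ => mul_comm _ _
  rw [h3, h4] at h1
  nlinarith [h1]

end Cal

theorem sph_proof : SphStatement := by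
  intro m G hG k P hP
  have hk : (0 : ℝ) < k := by exact_mod_cast hP.k1
  have hkm : (k : ℝ) + 1 ≤ m := by exact_mod_cast hP.km
  have hm : (0 : ℝ) < m := by linarith
  have hmk : (0 : ℝ) < m - k := by linarith
  have hS : ∀ p, (∑ i, G.ν i p * G.h (P i) p) ^ 2 = (k * (m - k) / m ^ 2 : ℝ) := by
    intro p
    rw [hG.splitS hP p]
    field_simp
  have hpos : (0 : ℝ) < k * (m - k) / m ^ 2 := by positivity
  have hne : ∀ p, (∑ i, G.ν i p * G.h (P i) p) ≠ 0 := by
    intro p h0
    have := hS p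
    rw [h0] at this
    linarith
  refine ⟨fun p => ⟨∑ i, G.ν i p * G.h (P i) p, hne p, fun i => hG.splitY hP p i⟩, ?_⟩
  intro b d hbd p
  have e1 := hG.splitB hP p b b hbd.pb
  have e2 := hG.splitB hP p d (fun _ => 0) hbd.pd
  have e3 : G.h (fun _ => 0) p = 0 := by
    unfold Cal.h
    simp
  rw [e3] at e2
  have hs := hS p
  have hn := hne p
  generalize (∑ i, G.ν i p * G.h (P i) p) = s at e1 e2 hs hn
  have hbd0 : ∑ i, b i * d i = 0 := by
    have h1 : ∀ i, b i * d i = ∑ j, P i j * b j * d i := by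
      intro i
      rw [← Finset.sum_mul, hbd.pb i]
    rw [Finset.sum_congr rfl fun i _ => h1 i, Finset.sum_comm]
    refine Finset.sum_eq_zero fun j _ => ?_
    have h2 : ∑ i, P i j * b j * d i = b j * ∑ i, P j i * d i := by
      rw [Finset.mul_sum]
      exact Finset.sum_congr rfl fun i _ => by rw [hP.sym i j]; ring
    rw [h2, hbd.pd j, mul_zero]
  have nb : ∑ i, b i * b i = (m / k : ℝ) := by
    rw [← hbd.nb]
    exact Finset.sum_congr rfl fun i _ => by ring
  have nd : ∑ i, d i * d i = (m / (m - k) : ℝ) := by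
    rw [← hbd.nd]
    exact Finset.sum_congr rfl fun i _ => by ring
  have zb : s * G.z b p = (m - k) / m * G.h b p := by
    have : s * G.z b p = G.h b p - k / m * G.h b p := by linarith
    rw [this]
    field_simp
  have zd : s * G.z d p = -(k / m) * G.h d p := by linarith
  have zb2 : G.z b p * G.z b p = (m - k) / k * G.h b p ^ 2 := by
    have h1 : s ^ 2 * (G.z b p * G.z b p) = ((m - k) / m * G.h b p) ^ 2 := by
      rw [← zb]
      ring
    rw [hs] at h1
    have h2 : (k * (m - k) / m ^ 2 : ℝ) * (G.z b p * G.z b p) =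
        (k * (m - k) / m ^ 2 : ℝ) * ((m - k) / k * G.h b p ^ 2) := by
      rw [h1]
      field_simp
    exact mul_left_cancel₀ hpos.ne' h2
  have zd2 : G.z d p * G.z d p = k / (m - k) * G.h d p ^ 2 := by
    have h1 : s ^ 2 * (G.z d p * G.z d p) = (-(k / m) * G.h d p) ^ 2 := by
      rw [← zd]
      ring
    rw [hs] at h1
    have h2 : (k * (m - k) / m ^ 2 : ℝ) * (G.z d p * G.z d p) =
        (k * (m - k) / m ^ 2 : ℝ) * (k / (m - k) * G.h d p ^ 2) := by
      rw [h1]
      field_simp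
    exact mul_left_cancel₀ hpos.ne' h2
  have zbd : G.z b p * G.z d p = -(G.h b p * G.h d p) := by
    have h1 : s ^ 2 * (G.z b p * G.z d p) = ((m - k) / m * G.h b p) * (-(k / m) * G.h d p) := by
      rw [← zb, ← zd]
      ring
    rw [hs] at h1
    have h2 : (k * (m - k) / m ^ 2 : ℝ) * (G.z b p * G.z d p) =
        (k * (m - k) / m ^ 2 : ℝ) * (-(G.h b p * G.h d p)) := by
      rw [h1]
      field_simp
    exact mul_left_cancel₀ hpos.ne' h2
  have gb : G.gp (G.h b) (G.h b) p = m / k * (1 - G.h b p ^ 2) := by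
    rw [hG.gph2, nb, zb2]
    field_simp
    ring
  have gd : G.gp (G.h d) (G.h d) p = m / (m - k) * (1 - G.h d p ^ 2) := by
    rw [hG.gph2, nd, zd2]
    field_simp
    ring
  have gbd : G.gp (G.h b) (G.h d) p = 0 := by
    rw [hG.gph2, hbd0, zbd]
    ring
  have gnn : ∀ f : G.M → ℝ, 0 ≤ G.gp f f p := fun f =>
    Finset.sum_nonneg fun i _ => mul_self_nonneg _
  have bb : G.h b p ^ 2 ≤ 1 := by
    have h1 := gnn (G.h b)
    rw [gb] at h1
    have h2 : (0 : ℝ) < m / k := by positivity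
    by_contra h3
    push Not at h3
    have : (m / k : ℝ) * (1 - G.h b p ^ 2) < 0 := mul_neg_of_pos_of_neg h2 (by linarith)
    linarith
  have dd : G.h d p ^ 2 ≤ 1 := by
    have h1 := gnn (G.h d)
    rw [gd] at h1
    have h2 : (0 : ℝ) < m / (m - k) := by positivity
    by_contra h3
    push Not at h3
    have : (m / (m - k) : ℝ) * (1 - G.h d p ^ 2) < 0 := mul_neg_of_pos_of_neg h2 (by linarith)
    linarith
  exact ⟨gb, gd, gbd, abs_le.1 (abs_le_one_iff_mul_self_le_one.2 (by nlinarith)),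
    abs_le.1 (abs_le_one_iff_mul_self_le_one.2 (by nlinarith))⟩

end MPfbfa44
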