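import Pool.Agent.Lib.MP_fbfa44_gt.IX.InjDefs

set_option autoImplicit false

/-!
# TWO: two disjoint open sets carry two functions with negative `Q0`
-/

namespace MPfbfa44

namespace TWO

open MeasureTheory

variable {m : ℕ} (G : Cal m)

/-- a cut-off function of level `δ` -/
structure Cut (w : G.M → ℝ) (U : Set G.M) (δ : ℝ) (F σ : G.M → ℝ) : Prop where
  sm : G.Sm F
  bd : ∀ p, 0 ≤ F p ∧ F p ≤ w p
  sg : ∀ p, 0 ≤ σ p ∧ σ p ≤ 1
  dd : ∀ i p, G.d i F p = σ p * G.d i w p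
  out : ∀ p, p ∉ U → F p = 0 ∧ σ p = 0
  low : ∀ p ∈ U, w p - δ ≤ F p

theorem cut {w : G.M → ℝ} {U : Set G.M} (h : G.Cutoff w U) {δ : ℝ} (hδ : 0 < δ) :
    ∃ F σ, Cut G w U δ F σ := by
  obtain ⟨F, σ, h1, h2, h3, h4, h5, h6⟩ := h δ hδ
  exact ⟨F, σ, h1, h2, h3, h4, h5, h6⟩

/-- the lower bound of the integral -/
theorem lower (hG : GrnStatement) (S : G.Str) {b d : Fin (m + 2) → ℝ}
    (hb : ∀ p, -1 ≤ G.h b p ∧ G.h b p ≤ 1) (hd : ∀ p, -1 ≤ G.h d p ∧ G.h d p ≤ 1)
    {U : Set G.M} (hU : ∀ p ∈ U, 0 < G.w b d p) (hp : ∃ p ∈ U, G.h b p * G.h d p < 1)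
    (hC : G.Cutoff (G.w b d) U) :
    ∃ J : ℝ, 0 < J ∧ ∀ (δ : ℝ) (F σ : G.M → ℝ), 0 < δ → Cut G (G.w b d) U δ F σ →
      J - 6 * δ * G.μ.real Set.univ ≤ ∫ p, F p * (1 - G.h b p * G.h d p - δ) ∂G.μ := by
  obtain ⟨hint, hpos, -, hh⟩ := hG m G S
  obtain ⟨p0, hp0, hlt⟩ := hp
  have hw0 := hU p0 hp0
  obtain ⟨F0, σ0, c0⟩ := cut G hC (half_pos hw0)
  have cb : Continuous (G.h b) := G.cont _ (hh b).1
  have cd : Continuous (G.h d) := G.cont _ (hh d).1
  have cg : Continuous fun p => 1 - G.h b p * G.h d p := continuous_const.sub (cb.mul cd)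
  have cF0 : Continuous F0 := G.cont _ c0.sm
  have hg : ∀ p, 0 ≤ 1 - G.h b p * G.h d p ∧ 1 - G.h b p * G.h d p ≤ 2 := by
    intro p
    obtain ⟨b1, b2⟩ := hb p
    obtain ⟨d1, d2⟩ := hd p
    constructor
    · nlinarith [mul_nonneg (sub_nonneg.2 b2) (sub_nonneg.2 d2),
        mul_nonneg (sub_nonneg.2 b2) (show 0 ≤ G.h d p + 1 by linarith),
        mul_nonneg (sub_nonneg.2 d2) (show 0 ≤ G.h b p + 1 by linarith)]
    · nlinarith [mul_nonneg (sub_nonneg.2 b2) (sub_nonneg.2 d2),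
        mul_nonneg (show 0 ≤ G.h b p + 1 by linarith) (show 0 ≤ G.h d p + 1 by linarith)]
  have hw4 : ∀ p, G.w b d p ≤ 4 := by
    intro p
    obtain ⟨b1, b2⟩ := hb p
    obtain ⟨d1, d2⟩ := hd p
    unfold Cal.w
    nlinarith [mul_nonneg (show 0 ≤ 1 + G.h b p by linarith) (sub_nonneg.2 d2)]
  refine ⟨∫ p, F0 p * (1 - G.h b p * G.h d p) ∂G.μ, ?_, ?_⟩
  · by_contra hneg
    have h1 := hpos (fun p => F0 p * (1 - G.h b p * G.h d p)) (cF0.mul cg)
      (fun p => mul_nonneg (c0.bd p).1 (hg p).1) (not_lt.1 hneg) p0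
    have h2 : 0 < F0 p0 := by
      have := c0.low p0 hp0
      linarith
    have h3 : 0 < 1 - G.h b p0 * G.h d p0 := by linarith
    exact (mul_pos h2 h3).ne' h1
  · intro δ F σ hδ c
    have cF : Continuous F := G.cont _ c.sm
    have hlow : ∀ p, F0 p - δ ≤ F p := by
      intro p
      by_cases hp : p ∈ U
      · have h1 := c.low p hp
        have h2 := (c0.bd p).2
        linarith
      · rw [(c0.out p hp).1, (c.out p hp).1]
        linarith
    have h1 : (∫ p, (F0 p * (1 - G.h b p * G.h d p) - 6 * δ) ∂G.μ) ≤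
        ∫ p, F p * (1 - G.h b p * G.h d p - δ) ∂G.μ := by
      refine integral_mono (hint _ ((cF0.mul cg).sub continuous_const))
        (hint _ (cF.mul (cg.sub continuous_const))) fun p => ?_
      have e1 := hlow p
      have e2 := hg p
      have e3 := (c.bd p).1
      have e4 := (c.bd p).2.trans (hw4 p)
      have e5 : (F0 p - δ) * (1 - G.h b p * G.h d p) ≤ F p * (1 - G.h b p * G.h d p) :=
        mul_le_mul_of_nonneg_right e1 e2.1
      have e6 : δ * (1 - G.h b p * G.h d p) ≤ δ * 2 := mul_le_mul_of_nonneg_left e2.2 hδ.le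
      have e7 : F p * δ ≤ 4 * δ := mul_le_mul_of_nonneg_right e4 hδ.le
      change F0 p * (1 - G.h b p * G.h d p) - 6 * δ ≤ F p * (1 - G.h b p * G.h d p - δ)
      nlinarith
    have i0 : Integrable (fun p => F0 p * (1 - G.h b p * G.h d p)) G.μ := hint _ (cF0.mul cg)
    have i1 : Integrable (fun _ : G.M => 6 * δ) G.μ := hint _ continuous_const
    rw [integral_sub i0 i1, integral_const, smul_eq_mul] at h1
    linarith

/-- the combination of two functions with disjoint supports -/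
theorem comb (hG : GrnStatement) (S : G.Str) {w : G.M → ℝ} {U V : Set G.M} {δ : ℝ}
    {F F' σ σ' : G.M → ℝ} (hUV : Disjoint U V) (c : Cut G w U δ F σ) (c' : Cut G w V δ F' σ')
    (α β : ℝ) :
    G.Sm (fun p => α * F p + -β * F' p) ∧
      G.Q0 (fun p => α * F p + -β * F' p) = α ^ 2 * G.Q0 F + β ^ 2 * G.Q0 F' := by
  obtain ⟨hint, -, hgp, -⟩ := hG m G S
  have s1 : G.Sm fun p => α * F p := G.smul (fun _ => α) F (G.sconst α) c.sm
  have s2 : G.Sm fun p => -β * F' p := G.smul (fun _ => -β) F' (G.sconst (-β)) c'.sm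
  refine ⟨G.sadd _ _ s1 s2, ?_⟩
  have hd : ∀ i p, G.d i (fun p => α * F p + -β * F' p) p = α * G.d i F p + -β * G.d i F' p := by
    intro i p
    have e1 := G.dadd i _ _ s1 s2 p
    have e2 := G.dmul i (fun _ => α) F (G.sconst α) c.sm p
    have e3 := G.dmul i (fun _ => -β) F' (G.sconst (-β)) c'.sm p
    rw [G.dconst, zero_mul, zero_add] at e2 e3
    rw [e1, e2, e3]
  have hdis : ∀ p, F p * F' p = 0 ∧ σ p * σ' p = 0 := by
    intro p
    by_cases hp : p ∈ U
    · have h1 : p ∉ V := fun h => (Set.disjoint_left.1 hUV) hp h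
      rw [(c'.out p h1).1, (c'.out p h1).2]
      exact ⟨mul_zero _, mul_zero _⟩
    · rw [(c.out p hp).1, (c.out p hp).2]
      exact ⟨zero_mul _, zero_mul _⟩
  have cq : Continuous G.q := G.cont _ S.sq
  have i1 : Integrable (fun p => G.gp F F p - G.q p * (F p * F p)) G.μ :=
    hint _ ((G.cont _ (hgp F F c.sm c.sm).1).sub
      (cq.mul ((G.cont _ c.sm).mul (G.cont _ c.sm))))
  have i2 : Integrable (fun p => G.gp F' F' p - G.q p * (F' p * F' p)) G.μ :=
    hint _ ((G.cont _ (hgp F' F' c'.sm c'.sm).1).sub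
      (cq.mul ((G.cont _ c'.sm).mul (G.cont _ c'.sm))))
  unfold Cal.Q0
  rw [← integral_const_mul, ← integral_const_mul,
    ← integral_add (i1.const_mul _) (i2.const_mul _)]
  refine integral_congr_ae (Filter.Eventually.of_forall fun p => ?_)
  obtain ⟨h1, h2⟩ := hdis p
  have h3 : G.gp (fun p => α * F p + -β * F' p) (fun p => α * F p + -β * F' p) p =
      α ^ 2 * G.gp F F p + β ^ 2 * G.gp F' F' p := by
    unfold Cal.gp
    rw [Finset.mul_sum, Finset.mul_sum, ← Finset.sum_add_distrib]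
    refine Finset.sum_congr rfl fun i _ => ?_
    rw [hd, c.dd, c'.dd]
    have h4 : (σ p * G.d i w p) * (σ' p * G.d i w p) = 0 := by
      have : (σ p * G.d i w p) * (σ' p * G.d i w p) = (σ p * σ' p) * (G.d i w p) ^ 2 := by ring
      rw [this, h2, zero_mul]
    linear_combination (-2 * α * β) * h4
  change G.gp (fun p => α * F p + -β * F' p) (fun p => α * F p + -β * F' p) p -
    G.q p * ((α * F p + -β * F' p) * (α * F p + -β * F' p)) =
      α ^ 2 * (G.gp F F p - G.q p * (F p * F p)) +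
        β ^ 2 * (G.gp F' F' p - G.q p * (F' p * F' p))
  rw [h3]
  linear_combination (2 * α * β * G.q p) * h1

end TWO

open MeasureTheory TWO in
/-- Row TWO. -/
theorem two_proof (hG : GrnStatement) (hS : SphStatement) (hN : NegStatement) :
    TwoStatement := by
  intro m G S hm hq hQ k P hP b d hbd U V hU hV hUV hw hpU hpV cU cV
  obtain ⟨hint, hpos, -, hh⟩ := hG m G S
  have hs := (hS m G S k P hP).2 b d hbd
  have hb : ∀ p, -1 ≤ G.h b p ∧ G.h b p ≤ 1 := fun p => (hs p).2.2.2.1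
  have hd : ∀ p, -1 ≤ G.h d p ∧ G.h d p ≤ 1 := fun p => (hs p).2.2.2.2
  obtain ⟨J, hJ, hJl⟩ := lower G hG S hb hd (fun p hp => (hw p).2 (Or.inl hp)) hpU cU
  obtain ⟨J', hJ', hJl'⟩ := lower G hG S hb hd (fun p hp => (hw p).2 (Or.inr hp)) hpV cV
  set A : ℝ := G.μ.real Set.univ with hA
  have hA0 : 0 ≤ A := measureReal_nonneg
  set δ : ℝ := min J J' / (6 * A + 1) with hδd
  have hden : 0 < 6 * A + 1 := by linarith
  have hmin : 0 < min J J' := lt_min hJ hJ'
  have hδ : 0 < δ := div_pos hmin hden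
  have hδA : δ * (6 * A + 1) = min J J' := div_mul_cancel₀ _ hden.ne'
  obtain ⟨F, σ, c⟩ := cut G cU hδ
  obtain ⟨F', σ', c'⟩ := cut G cV hδ
  have hI : 0 < ∫ p, F p * (1 - G.h b p * G.h d p - δ) ∂G.μ := by
    have h1 := hJl δ F σ hδ c
    have h2 := min_le_left J J'
    nlinarith
  have hI' : 0 < ∫ p, F' p * (1 - G.h b p * G.h d p - δ) ∂G.μ := by
    have h1 := hJl' δ F' σ' hδ c'
    have h2 := min_le_right J J'
    nlinarith
  have hm0 : (0 : ℝ) < m := by
    have : 0 < m := by omega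
    exact_mod_cast this
  have hneg : G.Q0 F < 0 := by
    have h1 := hN m G S hq k P hP b d hbd F σ δ c.sm (fun p => (c.bd p).1) c.sg c.dd (fun p => by
      by_cases hp : p ∈ U
      · exact mul_nonpos_of_nonneg_of_nonpos (c.bd p).1 (by linarith [c.low p hp])
      · rw [(c.out p hp).1, zero_mul])
    have h2 := mul_pos hm0 hI
    linarith
  have hneg' : G.Q0 F' < 0 := by
    have h1 := hN m G S hq k P hP b d hbd F' σ' δ c'.sm (fun p => (c'.bd p).1) c'.sg c'.dd
      (fun p => by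
        by_cases hp : p ∈ V
        · exact mul_nonpos_of_nonneg_of_nonpos (c'.bd p).1 (by linarith [c'.low p hp])
        · rw [(c'.out p hp).1, zero_mul])
    have h2 := mul_pos hm0 hI'
    linarith
  -- the means
  have hmean : ∀ (F σ : G.M → ℝ) (W : Set G.M), Cut G (G.w b d) W δ F σ →
      0 < ∫ p, F p * (1 - G.h b p * G.h d p - δ) ∂G.μ → 0 < ∫ p, F p ∂G.μ := by
    intro F σ W c hI
    by_contra hle
    have h1 := hpos F (G.cont _ c.sm) (fun p => (c.bd p).1) (not_lt.1 hle)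
    have h2 : ∫ p, F p * (1 - G.h b p * G.h d p - δ) ∂G.μ = 0 := by
      have : ∀ p, F p * (1 - G.h b p * G.h d p - δ) = 0 := fun p => by rw [h1 p, zero_mul]
      rw [integral_congr_ae (Filter.Eventually.of_forall this), integral_zero]
    exact hI.ne' h2
  have hα := hmean F' σ' V c' hI'
  have hβ := hmean F σ U c hI
  obtain ⟨hsm, hQ0⟩ := comb G hG S hUV c c' (∫ p, F' p ∂G.μ) (∫ p, F p ∂G.μ)
  have iF : Integrable F G.μ := hint _ (G.cont _ c.sm)
  have iF' : Integrable F' G.μ := hint _ (G.cont _ c'.sm)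
  have hz : ∫ p, G.q p * ((∫ p, F' p ∂G.μ) * F p + -(∫ p, F p ∂G.μ) * F' p) ∂G.μ = 0 := by
    have h1 : ∀ p, G.q p * ((∫ p, F' p ∂G.μ) * F p + -(∫ p, F p ∂G.μ) * F' p) =
        m * ((∫ p, F' p ∂G.μ) * F p + -(∫ p, F p ∂G.μ) * F' p) := fun p => by rw [hq p]
    rw [integral_congr_ae (Filter.Eventually.of_forall h1), integral_const_mul,
      integral_add (iF.const_mul _) (iF'.const_mul _), integral_const_mul, integral_const_mul]
    ring
  have hfin := hQ _ hsm hz
  rw [hQ0] at hfin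
  have h1 : (∫ p, F' p ∂G.μ) ^ 2 * G.Q0 F < 0 := mul_neg_of_pos_of_neg (pow_pos hα 2) hneg
  have h2 : (∫ p, F p ∂G.μ) ^ 2 * G.Q0 F' < 0 := mul_neg_of_pos_of_neg (pow_pos hβ 2) hneg'
  linarith

end MPfbfa44
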