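import Mathlib
import Pool.Agent.Lib.MP_fbfa44_gt.IX.Asm
import Pool.Agent.Lib.MP_fbfa44_gt.IX.Dis3
import Pool.Agent.Lib.MP_fbfa44_gt.IX.Lim
import Pool.Agent.Lib.MP_fbfa44_gt.IX.Inj
import Pool.Agent.Lib.MP_fbfa44_gt.IX.Two
import Pool.Agent.Lib.MP_fbfa44_gt.IX.Neg
import Pool.Agent.Lib.MP_fbfa44_gt.IX.Sph

set_option autoImplicit false

/-!
# The final theorem
-/

namespace MPfbfa44

open MeasureTheory
open scoped Manifold ContDiff

/-- The final theorem: `M` is connected, or the hypersurface is embedded, or it is not totally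
geodesic; the conclusion contains the injectivity of the immersion. -/
def FinalStatement2 : Prop :=
  ∀ (m : ℕ), 2 ≤ m → ∀ (M : Type) [TopologicalSpace M] [T2Space M] [CompactSpace M] [Nonempty M]
    [ChartedSpace (X m) M] [IsManifold (𝓡 m) ∞ M] [MeasurableSpace M] [BorelSpace M]
    (S : Hypersurface m M),
    (ConnectedSpace M ∨ Function.Injective S.x ∨ ∃ p, S.normSqA p ≠ 0) → S.IsMinimal →
    ¬ S.IsEquatorial →
    (∃! μ : Measure M, S.IsAreaMeasure μ) ∧
    ∀ μ : Measure M, S.IsAreaMeasure μ → S.MorseIndexLE μ (m + 3) →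
      ∃ k : ℕ, 1 ≤ k ∧ k + 1 ≤ m ∧ ∃ L : X (m + 2) ≃ₗᵢ[ℝ] X (m + 2),
        Set.range S.x = L '' clifford m k ∧ Function.Injective S.x

theorem final_of2 (hLim : LimStatement) (hInj : InjStatement) : FinalStatement2 := by
  intro m hm M _ _ _ _ _ _ _ _ S hc hmin hne
  refine ⟨aex_proof m M S, fun μ hμ hI => ?_⟩
  have hconn : ConnectedSpace M := by
    rcases hc with h | h
    · exact h
    · exact connected_of nul0 (by omega) S hmin h μ hμ hI
  obtain ⟨hA, k, hk1, hkm, L, hL⟩ := conn_main S hLim hm hmin hne μ hμ hI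
  exact ⟨k, hk1, hkm, L, hL, hInj m hm M S hmin hA μ hμ hI k hk1 hkm L hL.subset⟩


theorem lim0 : LimStatement := lim_proof grn_proof qep0

theorem inj_of (hSph : SphStatement) : InjStatement :=
  inj_proof hSph (two_proof grn_proof hSph (neg_proof grn_proof hSph)) idx0

theorem final2 : FinalStatement2 := final_of2 lim0 (inj_of sph_proof)

end MPfbfa44
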