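import Mathlib
import Pool.Agent.Lib.MP_fbfa44_gt.IX.Cal

set_option autoImplicit false

/-!
# Part 1 of row LIM: Green's formula applied to `q (1 - h)` and to `z`
-/

namespace MPfbfa44

open MeasureTheory

theorem lim_green (hG : GrnStatement) {m : ℕ} (G : Cal m) (st : G.Str) (b : Fin (m + 2) → ℝ) :
    ∫ p, G.q p * (m * (1 - ∑ i, b i ^ 2) + G.gp (G.h b) (G.h b) p -
      m * (1 - G.h b p) ^ 2) ∂G.μ =
    ∫ p, (2 * (1 - G.h b p) * G.gp G.q (G.h b) p - (m + 1) * G.q p * G.gp (G.h b) (G.h b) p -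
      m * ∑ i, (∑ j, G.B i j p * G.d j (G.h b) p) ^ 2) ∂G.μ := by
  obtain ⟨hint, -, hgreen, hlin⟩ := hG m G st
  obtain ⟨sh, sz, hp⟩ := hlin b
  have s1 : G.Sm (fun p => 1 + (-1) * G.h b p) :=
    G.sadd _ _ (G.sconst 1) (G.smul _ _ (G.sconst (-1)) sh)
  have sf : G.Sm (fun p => G.q p * (1 + (-1) * G.h b p)) := G.smul _ _ st.sq s1
  have d1 : ∀ i p, G.d i (fun p => 1 + (-1) * G.h b p) p = -G.d i (G.h b) p := by
    intro i p
    have h1 := G.dadd i (fun _ => (1 : ℝ)) (fun p => (-1) * G.h b p) (G.sconst 1)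
      (G.smul _ _ (G.sconst (-1)) sh) p
    have h2 := G.dmul i (fun _ => (-1 : ℝ)) (G.h b) (G.sconst (-1)) sh p
    rw [h1, h2, G.dconst, G.dconst]
    ring
  have df : ∀ i p, G.d i (fun p => G.q p * (1 + (-1) * G.h b p)) p =
      G.d i G.q p * (1 + (-1) * G.h b p) - G.q p * G.d i (G.h b) p := by
    intro i p
    rw [G.dmul i G.q (fun p => 1 + (-1) * G.h b p) st.sq s1 p, d1]
    ring
  have gfh := hgreen (fun p => G.q p * (1 + (-1) * G.h b p)) (G.h b) sf sh
  have gzz := hgreen (G.z b) (G.z b) sz sz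
  have ghh := hgreen (G.h b) (G.h b) sh sh
  have gqh := hgreen G.q (G.h b) st.sq sh
  have clh : Continuous (G.lap (G.h b)) := G.cont _ ghh.2.1
  have clz : Continuous (G.lap (G.z b)) := G.cont _ gzz.2.1
  have ch : Continuous (G.h b) := G.cont _ sh
  have cz : Continuous (G.z b) := G.cont _ sz
  have cq : Continuous G.q := G.cont _ st.sq
  have cf : Continuous (fun p => G.q p * (1 + (-1) * G.h b p)) := G.cont _ sf
  have cghh : Continuous (G.gp (G.h b) (G.h b)) := G.cont _ ghh.1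
  -- the two integrals
  have jA : ∫ p, (G.gp (fun p => G.q p * (1 + (-1) * G.h b p)) (G.h b) p +
      (G.q p * (1 + (-1) * G.h b p)) * G.lap (G.h b) p) ∂G.μ = 0 := by
    have h1 := integral_add (hint _ (G.cont _ gfh.1)) (hint _ (cf.mul clh))
    have h2 : ∫ p, (G.gp (fun p => G.q p * (1 + (-1) * G.h b p)) (G.h b) p +
      (G.q p * (1 + (-1) * G.h b p)) * G.lap (G.h b) p) ∂G.μ =
      ∫ p, G.gp (fun p => G.q p * (1 + (-1) * G.h b p)) (G.h b) p ∂G.μ +
      ∫ p, (G.q p * (1 + (-1) * G.h b p)) * G.lap (G.h b) p ∂G.μ := h1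
    rw [h2, gfh.2.2]
    ring
  have jC : ∫ p, (G.gp (G.z b) (G.z b) p + G.z b p * G.lap (G.z b) p) ∂G.μ = 0 := by
    have h1 := integral_add (hint _ (G.cont _ gzz.1)) (hint _ (cz.mul clz))
    have h2 : ∫ p, (G.gp (G.z b) (G.z b) p + G.z b p * G.lap (G.z b) p) ∂G.μ =
      ∫ p, G.gp (G.z b) (G.z b) p ∂G.μ + ∫ p, G.z b p * G.lap (G.z b) p ∂G.μ := h1
    rw [h2, gzz.2.2]
    ring
  have key : ∀ p, (2 * (1 - G.h b p) * G.gp G.q (G.h b) p -
      (m + 1) * G.q p * G.gp (G.h b) (G.h b) p -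
      m * ∑ i, (∑ j, G.B i j p * G.d j (G.h b) p) ^ 2) =
      (G.q p * (m * (1 - ∑ i, b i ^ 2) + G.gp (G.h b) (G.h b) p - m * (1 - G.h b p) ^ 2) +
      2 * (G.gp (fun p => G.q p * (1 + (-1) * G.h b p)) (G.h b) p +
      (G.q p * (1 + (-1) * G.h b p)) * G.lap (G.h b) p)) -
      m * (G.gp (G.z b) (G.z b) p + G.z b p * G.lap (G.z b) p) := by
    intro p
    obtain ⟨e1, e2, e3, e4, e5, e6⟩ := hp p
    have e7 : G.gp (fun p => G.q p * (1 + (-1) * G.h b p)) (G.h b) p =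
        (1 - G.h b p) * G.gp G.q (G.h b) p - G.q p * G.gp (G.h b) (G.h b) p := by
      simp only [Cal.gp, Finset.mul_sum]
      rw [← Finset.sum_sub_distrib]
      refine Finset.sum_congr rfl fun i _ => ?_
      rw [df]
      ring
    have e8 : G.gp (G.z b) (G.z b) p = ∑ i, (∑ j, G.B i j p * G.d j (G.h b) p) ^ 2 := by
      simp only [Cal.gp]
      refine Finset.sum_congr rfl fun i _ => ?_
      rw [e2, e6]
      ring
    rw [e7, e8, e3, e4]
    linear_combination (-(m : ℝ) * G.q p) * e5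
  have c0 : Continuous (fun p => G.q p * (m * (1 - ∑ i, b i ^ 2) + G.gp (G.h b) (G.h b) p -
      m * (1 - G.h b p) ^ 2)) :=
    cq.mul ((continuous_const.add cghh).sub
      (continuous_const.mul ((continuous_const.sub ch).pow 2)))
  have i0 := hint _ c0
  have i1 : Integrable (fun p => 2 * (G.gp (fun p => G.q p * (1 + (-1) * G.h b p)) (G.h b) p +
      (G.q p * (1 + (-1) * G.h b p)) * G.lap (G.h b) p)) G.μ :=
    hint _ (continuous_const.mul ((G.cont _ gfh.1).add (cf.mul clh)))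
  have i2 : Integrable (fun p => m * (G.gp (G.z b) (G.z b) p + G.z b p * G.lap (G.z b) p)) G.μ :=
    hint _ (continuous_const.mul ((G.cont _ gzz.1).add (cz.mul clz)))
  rw [integral_congr_ae (Filter.Eventually.of_forall key)]
  have i01 : Integrable (fun p => G.q p * (m * (1 - ∑ i, b i ^ 2) +
      G.gp (G.h b) (G.h b) p - m * (1 - G.h b p) ^ 2) +
      2 * (G.gp (fun p => G.q p * (1 + (-1) * G.h b p)) (G.h b) p +
      (G.q p * (1 + (-1) * G.h b p)) * G.lap (G.h b) p)) G.μ := i0.add i1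
  rw [integral_sub i01 i2, integral_add i0 i1, integral_const_mul, integral_const_mul, jA, jC]
  ring

end MPfbfa44
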