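import Pool.Agent.Lib.MP_fbfa44_gt.IX.Cal
import Pool.Agent.Lib.MP_fbfa44_gt.H40.AlgP

/-! Row QFM of MP_fbfa44_gt: positivity of the quadratic form and its null vectors. -/

set_option autoImplicit false

namespace MPfbfa44

open Finset IdxLinP

/-- the quadratic form `(m - 1) q |v|² - m |B v|²` -/
def qth {d : ℕ} (m q : ℝ) (B : Fin d → Fin d → ℝ) (v : Fin d → ℝ) : ℝ :=
  (m - 1) * q * v2 v - m * v2 (ap B v)

theorem qfm_proof : QfmStatement := by
  intro m hm d B q hq hB W hW s hs t ht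
  have hm2 : (2 : ℝ) ≤ m := by exact_mod_cast hm
  have hm1 : (0 : ℝ) < (m : ℝ) - 1 := by linarith
  have hm0 : (0 : ℝ) < (m : ℝ) := by linarith
  set c : ℝ := 2 * (m : ℝ) ^ 2 + 8 * m - 4 with hc
  have hc0 : 0 < c := by nlinarith
  have hth : ∀ v ∈ W, 0 ≤ qth m q B v := by
    intro v hv
    have h1 := hW v hv
    have e3 : v2 v = ∑ k, v k * v k := by
      unfold v2
      exact sum_congr rfl fun i _ => by ring
    have e4 : v2 (ap B v) = ∑ i, (∑ j, B i j * v j) ^ 2 := rfl
    unfold qth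
    rw [e3, e4]
    linarith
  have hmem : ∀ a b : ℝ, ∀ u ∈ W, ∀ v ∈ W, (fun i => a * u i - b * v i) ∈ W := by
    intro a b u hu v hv
    have : (fun i => a * u i - b * v i) = a • u - b • v := by
      funext i; simp
    rw [this]
    exact W.sub_mem (W.smul_mem a hu) (W.smul_mem b hv)
  -- the form
  set F : ℝ := c / (3 * m ^ 2) * (∑ k, s k * s k) -
      2 * (m + 2) / (3 * m) * ((∑ i, (∑ j, B i j * s j) ^ 2) / q) - 4 * (∑ k, s k * t k) +
      (m + 1) * (∑ k, t k * t k) + m * ((∑ i, (∑ j, B i j * t j) ^ 2) / q) with hF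
  have es : ∑ k, s k * s k = v2 s := by
    unfold v2
    exact sum_congr rfl fun i _ => by ring
  have et : ∑ k, t k * t k = v2 t := by
    unfold v2
    exact sum_congr rfl fun i _ => by ring
  have est : ∑ k, s k * t k = ip s t := rfl
  have ebs : ∑ i, (∑ j, B i j * s j) ^ 2 = v2 (ap B s) := rfl
  have ebt : ∑ i, (∑ j, B i j * t j) ^ 2 = v2 (ap B t) := rfl
  have t1 := hth _ (hmem c (6 * m ^ 2) s hs t ht)
  have t2 := hth t ht
  have t3 := v2_nonneg (fun i => 1 * ap B s i - m * ap B t i)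
  have e1 : qth m q B (fun i => c * s i - 6 * m ^ 2 * t i) =
      (m - 1) * q * (c ^ 2 * v2 s - 2 * (c * (6 * m ^ 2)) * ip s t + (6 * m ^ 2) ^ 2 * v2 t) -
        m * (c ^ 2 * v2 (ap B s) - 2 * (c * (6 * m ^ 2)) * ip (ap B s) (ap B t) +
          (6 * m ^ 2) ^ 2 * v2 (ap B t)) := by
    unfold qth
    rw [ap_comb, v2_comb, v2_comb]
  have e2 : qth m q B t = (m - 1) * q * v2 t - m * v2 (ap B t) := rfl
  have e3 : v2 (fun i => 1 * ap B s i - m * ap B t i) =
      1 ^ 2 * v2 (ap B s) - 2 * (1 * m) * ip (ap B s) (ap B t) + (m : ℝ) ^ 2 * v2 (ap B t) :=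
    v2_comb _ _ _ _
  have hid : (m - 1) * c * (3 * m ^ 2 * q * F) =
      qth m q B (fun i => c * s i - 6 * m ^ 2 * t i) +
        6 * m ^ 2 * (m - 1) * (m ^ 2 + 2) * qth m q B t +
        6 * m ^ 2 * c * v2 (fun i => 1 * ap B s i - m * ap B t i) := by
    rw [e1, e2, e3, hF, es, et, est, ebs, ebt]
    have h1 : 3 * (m : ℝ) ^ 2 * q * (c / (3 * m ^ 2) * v2 s -
      2 * (m + 2) / (3 * m) * (v2 (ap B s) / q) - 4 * ip s t +
      (m + 1) * v2 t + m * (v2 (ap B t) / q)) =
        q * (c * v2 s - 12 * m ^ 2 * ip s t + 3 * m ^ 2 * (m + 1) * v2 t) -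
          2 * m * (m + 2) * v2 (ap B s) + 3 * m ^ 3 * v2 (ap B t) := by
      field_simp
      ring
    rw [h1, hc]
    ring
  have p1 : (0 : ℝ) < 6 * m ^ 2 * (m - 1) * (m ^ 2 + 2) := by positivity
  have p2 : 0 < 6 * (m : ℝ) ^ 2 * c := by positivity
  have p3 : 0 < ((m : ℝ) - 1) * c := by positivity
  have p4 : 0 < 3 * (m : ℝ) ^ 2 * q := by positivity
  have s1 := mul_nonneg p1.le t2
  have s2 := mul_nonneg p2.le t3
  refine ⟨?_, fun hle => ?_⟩
  · have h0 : 0 ≤ (m - 1) * c * (3 * m ^ 2 * q * F) := by rw [hid]; linarith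
    exact nonneg_of_mul_nonneg_right (nonneg_of_mul_nonneg_right h0 p3) p4
  · have h0 : (m - 1) * c * (3 * m ^ 2 * q * F) ≤ 0 :=
      mul_nonpos_of_nonneg_of_nonpos p3.le (mul_nonpos_of_nonneg_of_nonpos p4.le hle)
    rw [hid] at h0
    have z1 : qth m q B (fun i => c * s i - 6 * m ^ 2 * t i) = 0 := by linarith
    have z2 : qth m q B t = 0 := by
      have : 6 * (m : ℝ) ^ 2 * (m - 1) * (m ^ 2 + 2) * qth m q B t = 0 := by linarith
      exact (mul_eq_zero.1 this).resolve_left p1.ne'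
    have z3 : v2 (fun i => 1 * ap B s i - m * ap B t i) = 0 := by
      have : 6 * (m : ℝ) ^ 2 * c * v2 (fun i => 1 * ap B s i - m * ap B t i) = 0 := by linarith
      exact (mul_eq_zero.1 this).resolve_left p2.ne'
    have hpar : ∀ x y : Fin d → ℝ, ∀ k : ℝ, qth m q B (fun i => 1 * x i - (-k) * y i) +
        qth m q B (fun i => 1 * x i - k * y i) =
          2 * qth m q B x + 2 * k ^ 2 * qth m q B y := by
      intro x y k
      unfold qth
      simp only [ap_comb, v2_comb]
      ring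
    set y : Fin d → ℝ := fun i => c * s i - 6 * m ^ 2 * t i with hy
    have hyW : y ∈ W := hmem c (6 * m ^ 2) s hs t ht
    have z4 := hpar y t (6 * m ^ 2 - c * m)
    rw [z1, z2] at z4
    have z5 : qth m q B (fun i => 1 * y i - (-(6 * m ^ 2 - c * m)) * t i) = 0 := by
      have g1 := hth _ (hmem 1 (-(6 * m ^ 2 - c * m)) y hyW t ht)
      have g2 := hth _ (hmem 1 (6 * m ^ 2 - c * m) y hyW t ht)
      linarith
    have e6 : (fun i => 1 * y i - (-(6 * m ^ 2 - c * m)) * t i) =
        fun i => c * (1 * s i - m * t i) := by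
      funext i
      simp only [hy]
      ring
    rw [e6] at z5
    have e7 : ap B (fun i => c * (1 * s i - m * t i)) =
        fun i => c * (1 * ap B s i - m * ap B t i) := by
      rw [ap_smul B c (fun i => 1 * s i - m * t i), ap_comb]
    unfold qth at z5
    rw [e7, v2_smul, v2_smul, z3] at z5
    have z6 : v2 (fun i => 1 * s i - m * t i) = 0 := by
      have e8 : ((m : ℝ) - 1) * q * c ^ 2 * v2 (fun i => 1 * s i - m * t i) = 0 := by
        linarith
      exact (mul_eq_zero.1 e8).resolve_left (by positivity)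
    refine ⟨fun k => ?_, ?_⟩
    · have := congrFun (v2_eq_zero z6) k
      simp only [Pi.zero_apply] at this
      linarith
    · rw [e2] at z2
      rw [et, ebt]
      linarith

end MPfbfa44
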